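import Pool.Agent.H48.PW.Stm

set_option autoImplicit false

namespace Pool.Agent.H48.PW

open Finset Pool.Agent.Helper83K9.CF

namespace ABSCL

/-- naturals in a short interval are determined by their residues -/
theorem cast_inj {n : ℕ} [NeZero n] {a b : ℕ} (h : (a : ZMod n) = (b : ZMod n))
    (h1 : a < b + n) (h2 : b < a + n) : a = b := by
  have h3 : a ≡ b [MOD n] := (ZMod.natCast_eq_natCast_iff a b n).1 h
  refine Nat.ModEq.eq_of_abs_lt h3 ?_
  rw [abs_lt]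
  constructor <;> omega

/-- cells of the complement of a thin set -/
theorem cell_card {n : ℕ} [NeZero n] (z : ZMod n) (ℓ k : ℕ) (hℓ : ℓ ≤ k) (hk : k < n)
    (B : Finset (ZMod n)) (j : ℕ) :
    ℓ ≤ (cellU z ℓ Bᶜ j).card + (B ∩ win n k (z + ((j * ℓ : ℕ) : ZMod n))).card := by
  classical
  have h1 : (Ico (j * ℓ) ((j + 1) * ℓ)).card = ℓ := by
    rw [Nat.card_Ico, add_mul, one_mul]
    omega
  have h2 := card_filter_add_card_filter_not (s := Ico (j * ℓ) ((j + 1) * ℓ))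
    (fun p : ℕ => z + (p : ZMod n) ∈ Bᶜ)
  have h3 : ((Ico (j * ℓ) ((j + 1) * ℓ)).filter (fun p : ℕ => ¬ (z + (p : ZMod n) ∈ Bᶜ))).card ≤
      (B ∩ win n k (z + ((j * ℓ : ℕ) : ZMod n))).card := by
    refine card_le_card_of_injOn (fun p : ℕ => z + (p : ZMod n)) ?_ ?_
    · intro p hp
      rw [mem_coe, mem_filter, mem_Ico] at hp
      obtain ⟨⟨hp1, hp2⟩, hp3⟩ := hp
      rw [mem_compl, not_not] at hp3
      rw [mem_coe, mem_inter]
      refine ⟨hp3, ?_⟩
      unfold win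
      rw [mem_image]
      refine ⟨p - j * ℓ, ?_, ?_⟩
      · rw [mem_range]
        rw [add_mul, one_mul] at hp2
        omega
      · show z + ((j * ℓ : ℕ) : ZMod n) + ((p - j * ℓ : ℕ) : ZMod n) = z + (p : ZMod n)
        rw [add_assoc, ← Nat.cast_add]
        congr 2
        omega
    · intro p hp p' hp' heq
      rw [mem_coe, mem_filter, mem_Ico] at hp hp'
      have h4 : (p : ZMod n) = (p' : ZMod n) := add_left_cancel heq
      have h5 := hp.1.2
      have h6 := hp'.1.2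
      rw [add_mul, one_mul] at h5 h6
      exact cast_inj h4 (by omega) (by omega)
  unfold cellU
  rw [h1] at h2
  omega

end ABSCL

open ABSCL

theorem thd : S_THD := by
  classical
  intro t N₀ ε ht hN hε hε1
  have hN' : (0 : ℝ) < N₀ := by exact_mod_cast hN
  refine ⟨ε / (4 * N₀), by positivity, 4 * N₀, ?_⟩
  intro n k m _ M hM hk hm B hB
  have hkn : k < n := by have := hM.size; have := hM.kpos; omega
  have hℓ : k / N₀ ≤ k := Nat.div_le_self _ _
  have hkr : (4 : ℝ) * N₀ ≤ k := by exact_mod_cast hk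
  have hk0 : (0 : ℝ) < k := by linarith
  -- lower bound for `ℓ`
  have hℓ1 : (k : ℝ) / N₀ - 1 ≤ ((k / N₀ : ℕ) : ℝ) := by
    have h1 : k < N₀ * (k / N₀ + 1) := by
      have := Nat.lt_mul_div_succ k (show 0 < N₀ by omega)
      exact this
    have h2 : (k : ℝ) < N₀ * (((k / N₀ : ℕ) : ℝ) + 1) := by exact_mod_cast h1
    rw [sub_le_iff_le_add, div_le_iff₀ hN', mul_comm]
    exact h2.le
  have hkN : (4 : ℝ) ≤ k / N₀ := by rwa [le_div_iff₀ hN']
  have hβk : ε / (4 * N₀) * k = ε / 4 * (k / N₀) := by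
    field_simp
  have hσ : 1 / (2 * N₀) * (k : ℝ) = 1 / 2 * (k / N₀) := by
    field_simp
  refine ⟨((k / N₀ : ℕ) : ℝ) - ε / (4 * N₀) * k, ?_, ?_⟩
  · rw [hβk, hσ]
    nlinarith
  · intro z L
    refine ⟨?_, ?_⟩
    · intro j _
      have h1 := cell_card z (k / N₀) k hℓ hkn B j
      have h2 := hB (z + ((j * (k / N₀) : ℕ) : ZMod n))
      have h3 : ((k / N₀ : ℕ) : ℝ) ≤ ((cellU z (k / N₀) Bᶜ j).card : ℝ) +
          ((B ∩ win n k (z + ((j * (k / N₀) : ℕ) : ZMod n))).card : ℝ) := by exact_mod_cast h1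
      linarith
    · intro p _
      have h1 : ((M (z + (p : ZMod n)) ∩ Bᶜ).card : ℝ) ≤ m + 1 := by
        have : (M (z + (p : ZMod n)) ∩ Bᶜ).card ≤ m + 1 :=
          (card_le_card inter_subset_left).trans (hM.card _)
        exact_mod_cast this
      have ht0 : (0 : ℝ) ≤ t := Nat.cast_nonneg t
      have hℓ0 : (0 : ℝ) ≤ ((k / N₀ : ℕ) : ℝ) := Nat.cast_nonneg _
      have h2 : (t : ℝ) * ((M (z + (p : ZMod n)) ∩ Bᶜ).card : ℝ) * ((k / N₀ : ℕ) : ℝ) ≤
          (1 - ε) * k * ((k / N₀ : ℕ) : ℝ) :=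
        mul_le_mul_of_nonneg_right ((mul_le_mul_of_nonneg_left h1 ht0).trans hm) hℓ0
      refine h2.trans ?_
      rw [hβk]
      have h3 : (k : ℝ) / N₀ ≤ 2 * ((k / N₀ : ℕ) : ℝ) := by linarith
      have h4 : (1 - ε) * ((k / N₀ : ℕ) : ℝ) ≤
          (1 - ε / 2) * (((k / N₀ : ℕ) : ℝ) - ε / 4 * (k / N₀)) := by
        have h5 : 0 ≤ ε / 4 * ((k : ℝ) / N₀) := by positivity
        have h6 : ε / 4 * ((k : ℝ) / N₀) ≤ ε / 4 * (2 * ((k / N₀ : ℕ) : ℝ)) :=
          mul_le_mul_of_nonneg_left h3 (by linarith)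
        nlinarith
      calc (1 - ε) * k * ((k / N₀ : ℕ) : ℝ) = k * ((1 - ε) * ((k / N₀ : ℕ) : ℝ)) := by ring
        _ ≤ k * ((1 - ε / 2) * (((k / N₀ : ℕ) : ℝ) - ε / 4 * (k / N₀))) :=
          mul_le_mul_of_nonneg_left h4 hk0.le
        _ = (1 - ε / 2) * k * (((k / N₀ : ℕ) : ℝ) - ε / 4 * (k / N₀)) := by ring

namespace ABSCL

/-- a positive proportion of all functions gives a positive proportion of the restrictions -/
theorem push {I P : Type} [Fintype I] [DecidableEq I] [Fintype P] [DecidableEq P] (φ : I → P)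
    (hφ : Function.Injective φ) (S : P → Finset ℕ) (G : Finset (P → ℕ))
    (hG : G ⊆ Fintype.piFinset S) (c : ℝ) (hc : 0 ≤ c) (σ : ℝ) (hσ : 0 < σ)
    (hS : ∀ p, σ ≤ ((S p).card : ℝ)) (h : c * ∏ p, ((S p).card : ℝ) ≤ (G.card : ℝ)) :
    c * σ ^ Fintype.card I ≤ ((G.image (fun Ω => Ω ∘ φ)).card : ℝ) := by
  classical
  let Q : P → Prop := fun p => p ∈ Set.range φ
  let rest : Finset ({p // ¬ Q p} → ℕ) := Fintype.piFinset (fun p => S p.1)
  have hcard : G.card ≤ (G.image (fun Ω => Ω ∘ φ)).card * rest.card := by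
    rw [← card_product]
    refine card_le_card_of_injOn (fun Ω => (Ω ∘ φ, fun p => Ω p.1)) ?_ ?_
    · intro Ω hΩ
      rw [mem_coe] at hΩ
      rw [mem_coe, mem_product]
      refine ⟨mem_image_of_mem _ hΩ, ?_⟩
      rw [Fintype.mem_piFinset]
      intro p
      exact Fintype.mem_piFinset.1 (hG hΩ) p.1
    · intro Ω _ Ω' _ heq
      have h1 : Ω ∘ φ = Ω' ∘ φ := congrArg Prod.fst heq
      have h2 : (fun p : {p // ¬ Q p} => Ω p.1) = fun p => Ω' p.1 := congrArg Prod.snd heq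
      funext p
      by_cases hp : Q p
      · obtain ⟨i, rfl⟩ := hp
        exact congrFun h1 i
      · exact congrFun h2 ⟨p, hp⟩
  have hprod : ∏ p, ((S p).card : ℝ) =
      (∏ i : I, ((S (φ i)).card : ℝ)) * ∏ p : {p // ¬ Q p}, ((S p.1).card : ℝ) := by
    rw [← Fintype.prod_subtype_mul_prod_subtype Q (fun p => ((S p).card : ℝ))]
    refine congrArg (fun z => z * ∏ p : {p // ¬ Q p}, ((S p.1).card : ℝ)) ?_
    have he := @Fintype.prod_equiv I {p // Q p} ℝ _ (Subtype.fintype Q) _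
      (Equiv.ofInjective φ hφ) (fun i => ((S (φ i)).card : ℝ))
      (fun p => ((S p.1).card : ℝ)) (fun i => rfl)
    exact he.symm
  have hrest : (rest.card : ℝ) = ∏ p : {p // ¬ Q p}, ((S p.1).card : ℝ) := by
    rw [Fintype.card_piFinset]
    push_cast
    rfl
  have hrpos : 0 < ∏ p : {p // ¬ Q p}, ((S p.1).card : ℝ) :=
    prod_pos fun p _ => hσ.trans_le (hS p.1)
  have h1 : σ ^ Fintype.card I ≤ ∏ i : I, ((S (φ i)).card : ℝ) := by
    rw [← card_univ, ← prod_const]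
    exact prod_le_prod (fun i _ => hσ.le) fun i _ => hS (φ i)
  have h2 : (G.card : ℝ) ≤ ((G.image (fun Ω => Ω ∘ φ)).card : ℝ) * (rest.card : ℝ) := by
    exact_mod_cast hcard
  rw [hprod] at h
  rw [hrest] at h2
  have h3 : (c * ∏ i : I, ((S (φ i)).card : ℝ)) * ∏ p : {p // ¬ Q p}, ((S p.1).card : ℝ) ≤
      ((G.image (fun Ω => Ω ∘ φ)).card : ℝ) * ∏ p : {p // ¬ Q p}, ((S p.1).card : ℝ) := by
    calc _ = c * ((∏ i : I, ((S (φ i)).card : ℝ)) *
        ∏ p : {p // ¬ Q p}, ((S p.1).card : ℝ)) := by ring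
      _ ≤ _ := h.trans h2
  exact (mul_le_mul_of_nonneg_left h1 hc).trans (le_of_mul_le_mul_right h3 hrpos)

/-- entries of a row with an element inserted in the middle -/
theorem mid_get {t : ℕ} (f : Fin (2 * t) → ℕ) (v : ℕ) (i x : ℕ)
    (h : (mid t (List.ofFn f) v)[i]? = some x) :
    (∃ h : i < 2 * t, i < t ∧ x = f ⟨i, h⟩) ∨ (i = t ∧ x = v) ∨
      (∃ h : i - 1 < 2 * t, t < i ∧ x = f ⟨i - 1, h⟩) := by
  unfold mid at h
  have hl : ((List.ofFn f).take t).length = t := by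
    rw [List.length_take, List.length_ofFn]
    omega
  rcases lt_trichotomy i t with hi | hi | hi
  · left
    rw [List.getElem?_append_left (by rw [hl]; exact hi), List.getElem?_take_of_lt hi,
      List.getElem?_ofFn] at h
    have h2 : i < 2 * t := by omega
    rw [dif_pos h2] at h
    exact ⟨h2, hi, (Option.some.inj h).symm⟩
  · right; left
    subst hi
    rw [List.getElem?_append_right (by rw [hl]), hl, Nat.sub_self] at h
    exact ⟨rfl, (Option.some.inj h).symm⟩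
  · right; right
    rw [List.getElem?_append_right (by rw [hl]; exact hi.le), hl] at h
    obtain ⟨j, hj⟩ : ∃ j, i - t = j + 1 := ⟨i - t - 1, by omega⟩
    rw [hj, List.getElem?_cons_succ, List.getElem?_drop, List.getElem?_ofFn] at h
    have h3 : t + j = i - 1 := by omega
    split_ifs at h with h2
    · have h4 : i - 1 < 2 * t := by omega
      refine ⟨h4, hi, ?_⟩
      have h5 := (Option.some.inj h).symm
      rw [h5]
      congr 2

/-- a row with an element in the middle -/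
theorem pw_mid {R : ℕ → ℕ → Prop} {t : ℕ} (f : Fin (2 * t) → ℕ) (v : ℕ)
    (h1 : ∀ a b : Fin (2 * t), (a : ℕ) < b → (b : ℕ) < a + t → R (f a) (f b))
    (h2 : ∀ a : Fin (2 * t), (a : ℕ) < t → R (f a) v)
    (h3 : ∀ a : Fin (2 * t), t ≤ (a : ℕ) → R v (f a)) :
    Pw R t (mid t (List.ofFn f) v) := by
  intro i j x y hij hjt hx hy
  rcases mid_get f v i x hx with ⟨hi, hit, hxe⟩ | ⟨hi, hxe⟩ | ⟨hi, hit, hxe⟩
  · rcases mid_get f v j y hy with ⟨hj, hj2, hye⟩ | ⟨hj, hye⟩ | ⟨hj, hj2, hye⟩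
    · rw [hxe, hye]
      exact h1 ⟨i, hi⟩ ⟨j, hj⟩ hij (by show j < i + t; omega)
    · rw [hxe, hye]
      exact h2 ⟨i, hi⟩ hit
    · rw [hxe, hye]
      exact h1 ⟨i, hi⟩ ⟨j - 1, hj⟩ (by show i < j - 1; omega) (by show j - 1 < i + t; omega)
  · rcases mid_get f v j y hy with ⟨hj, hj2, hye⟩ | ⟨hj, hye⟩ | ⟨hj, hj2, hye⟩
    · omega
    · omega
    · rw [hxe, hye]
      exact h3 ⟨j - 1, hj⟩ (by show t ≤ j - 1; omega)
  · rcases mid_get f v j y hy with ⟨hj, hj2, hye⟩ | ⟨hj, hye⟩ | ⟨hj, hj2, hye⟩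
    · omega
    · omega
    · rw [hxe, hye]
      exact h1 ⟨i - 1, hi⟩ ⟨j - 1, hj⟩ (by show i - 1 < j - 1; omega)
        (by show j - 1 < i - 1 + t; omega)

theorem near {a b y y' q ℓ N k : ℕ} (hq : 1 ≤ q) (hN : 2 ≤ N) (hNk : N * ℓ ≤ k)
    (ha : a < (y / q + 1) * ℓ) (hb : y' / q * ℓ ≤ b) (hy : y ≤ y' + q * (N - 2)) : a ≤ b + k := by
  have h1 : y / q ≤ y' / q + (N - 2) := by
    calc y / q ≤ (y' + q * (N - 2)) / q := Nat.div_le_div_right hy
      _ = y' / q + (N - 2) := Nat.add_mul_div_left _ _ (by omega)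
  have h2 : (y / q + 1) * ℓ ≤ y' / q * ℓ + N * ℓ := by
    rw [← add_mul]
    exact Nat.mul_le_mul_right _ (by omega)
  omega

theorem mod_ne {a b m : ℕ} (h1 : a < b) (h2 : b < a + m) : a % m ≠ b % m := by
  intro h
  have h3 : a ≡ b [MOD m] := h
  have h4 := (Nat.modEq_iff_dvd' h1.le).1 h3
  have h5 := Nat.le_of_dvd (by omega) h4
  omega

end ABSCL

open Classical in
theorem absc (h1 : S_THD) (h2 : S_TRANS) (h3 : S_CHAIN) : S_ABSC := by
  intro t ε ht hε hε1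
  obtain ⟨N₁, C₀, hN₁, hT⟩ := h2 t (ε / 2) ht (by linarith) (by linarith)
  obtain ⟨D, hD⟩ : ∃ D, D = t + 9 + C₀ := ⟨_, rfl⟩
  obtain ⟨q, μ, ν, hq, hν, hμ, hK, h8, hT2⟩ := hT N₁ ((2 * D + 1) * N₁) 1 le_rfl
  have hμK : μ ≤ q * (N₁ - 2) := by nlinarith
  have hmg : mg t (q * (N₁ - 2)) μ ν ≤ (t + 7 + C₀) * (q * (N₁ - 2)) := by
    unfold mg
    have e1 : μ / ν ≤ C₀ := Nat.div_le_of_le_mul (by rw [mul_comm]; exact hμ)
    have e2 : (μ / ν + 1) * μ ≤ (C₀ + 1) * (q * (N₁ - 2)) := Nat.mul_le_mul (by omega) hμK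
    calc _ ≤ (t + 6) * (q * (N₁ - 2)) + (C₀ + 1) * (q * (N₁ - 2)) := by omega
      _ = _ := by ring
  have hqN : q * (N₁ - 2) + 2 * q = q * N₁ := by
    obtain ⟨N', rfl⟩ : ∃ N', N₁ = N' + 2 := ⟨N₁ - 2, by omega⟩
    rw [Nat.add_sub_cancel]
    ring
  have hmg2 : mg t (q * (N₁ - 2)) μ ν + 2 ≤ D * (q * N₁) := by
    have e3 : (t + 7 + C₀) * (q * (N₁ - 2)) ≤ (t + 7 + C₀) * (q * N₁) :=
      Nat.mul_le_mul_left _ (by omega)
    have e4 : D * (q * N₁) = (t + 7 + C₀) * (q * N₁) + 2 * (q * N₁) := by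
      rw [hD]; ring
    have e5 : 1 ≤ q * N₁ := Nat.mul_pos (by omega) (by omega)
    omega
  have h2mg : 2 * mg t (q * (N₁ - 2)) μ ν + 2 ≤ (2 * D + 1) * N₁ * q := by
    have e4 : (2 * D + 1) * N₁ * q = 2 * (D * (q * N₁)) + q * N₁ := by ring
    omega
  obtain ⟨r, hr, hC⟩ := h3 t (q * (N₁ - 2)) μ ν ((2 * D + 1) * N₁ * q) ht hν hK h2mg
  have hN0 : (0 : ℝ) < N₁ := by
    have : 0 < N₁ := by omega
    exact_mod_cast this
  obtain ⟨c, k₁, hc, hT3⟩ := hT2 (2 * (r + 1) + r) (1 / (2 * N₁)) (by omega) (by positivity)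
  obtain ⟨β, hβ, k₂, hTH⟩ := h1 t N₁ ε ht (by omega) hε hε1
  refine ⟨r, D, β / 2, c * (1 / (2 * N₁)) ^ Fintype.card (IA t r),
    max (max k₁ k₂) (max ⌈2 / β⌉₊ ((D + 1) * N₁ * N₁)), hr, by positivity, by positivity, ?_⟩
  intro n k m _ M hM hk hm z B hB x hx1 hx2
  have hk1 : k₁ ≤ k := (le_max_left _ _).trans ((le_max_left _ _).trans hk)
  have hk2 : k₂ ≤ k := (le_max_right _ _).trans ((le_max_left _ _).trans hk)
  have hk3 : ⌈2 / β⌉₊ ≤ k := (le_max_left _ _).trans ((le_max_right _ _).trans hk)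
  have hk4 : (D + 1) * N₁ * N₁ ≤ k := (le_max_right _ _).trans ((le_max_right _ _).trans hk)
  have hB' : Thin n k (β * k) (insert (z + (x : ZMod n)) B) := by
    intro y
    have e1 : ((insert (z + (x : ZMod n)) B) ∩ win n k y).card ≤ (B ∩ win n k y).card + 1 := by
      calc ((insert (z + (x : ZMod n)) B) ∩ win n k y).card
          ≤ (insert (z + (x : ZMod n)) (B ∩ win n k y)).card := by
            refine card_le_card ?_
            intro v hv
            rw [mem_inter, mem_insert] at hv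
            rw [mem_insert, mem_inter]
            rcases hv with ⟨hv | hv, hw⟩
            · exact Or.inl hv
            · exact Or.inr ⟨hv, hw⟩
        _ ≤ _ := card_insert_le _ _
    have e2 : (((insert (z + (x : ZMod n)) B) ∩ win n k y).card : ℝ) ≤
        ((B ∩ win n k y).card : ℝ) + 1 := by exact_mod_cast e1
    have e3 := hB y
    have e4 : 2 / β ≤ (k : ℝ) := (Nat.le_ceil _).trans (by exact_mod_cast hk3)
    rw [div_le_iff₀ hβ] at e4
    nlinarith
  obtain ⟨σ, hσ, hDen⟩ := hTH n k m M hM hk2 hm _ hB'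
  obtain ⟨ℓ, hℓ⟩ : ∃ ℓ, ℓ = k / N₁ := ⟨_, rfl⟩
  have hℓ1 : N₁ * ℓ ≤ k := by rw [hℓ]; exact Nat.mul_div_le _ _
  have hℓ2 : k < N₁ * (ℓ + 1) := by
    rw [hℓ]; exact Nat.lt_mul_div_succ k (show 0 < N₁ by omega)
  have hℓ3 : (D + 1) * N₁ ≤ ℓ := by
    rw [hℓ, Nat.le_div_iff_mul_le (by omega)]
    exact hk4
  have hℓ0 : 0 < ℓ := lt_of_lt_of_le (Nat.mul_pos (by omega) (by omega)) hℓ3
  -- the cell of `x`
  have hxc1 : D * N₁ ≤ x / ℓ := by
    rw [Nat.le_div_iff_mul_le hℓ0]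
    calc D * N₁ * ℓ = D * (N₁ * ℓ) := by ring
      _ ≤ D * k := Nat.mul_le_mul_left _ hℓ1
      _ ≤ x := hx1
  have hxc2 : x / ℓ ≤ (D + 1) * N₁ := by
    have e1 : x < ((D + 1) * N₁ + 1) * ℓ := by
      calc x < (D + 1) * k := hx2
        _ ≤ (D + 1) * (N₁ * (ℓ + 1)) := Nat.mul_le_mul_left _ hℓ2.le
        _ = (D + 1) * N₁ * ℓ + (D + 1) * N₁ := by ring
        _ ≤ (D + 1) * N₁ * ℓ + ℓ := by omega
        _ = _ := by ring
    have e2 := (Nat.div_lt_iff_lt_mul hℓ0).2 e1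
    omega
  have hp1 : mg t (q * (N₁ - 2)) μ ν ≤ q * (x / ℓ) := by
    calc mg t (q * (N₁ - 2)) μ ν ≤ D * (q * N₁) := by omega
      _ = q * (D * N₁) := by ring
      _ ≤ _ := Nat.mul_le_mul_left _ hxc1
  have hp2 : q * (x / ℓ) + mg t (q * (N₁ - 2)) μ ν < (2 * D + 1) * N₁ * q := by
    have e1 : q * (x / ℓ) ≤ q * ((D + 1) * N₁) := Nat.mul_le_mul_left _ hxc2
    have e2 : (2 * D + 1) * N₁ * q = q * ((D + 1) * N₁) + D * (q * N₁) := by ring
    omega
  have hxL : x < (2 * D + 1) * N₁ * (k / N₁) := by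
    rw [← hℓ]
    have e1 : x / ℓ < (2 * D + 1) * N₁ := by
      have : (D + 1) * N₁ < (2 * D + 1) * N₁ := Nat.mul_lt_mul_of_pos_right (by omega) (by omega)
      omega
    exact (Nat.div_lt_iff_lt_mul hℓ0).1 e1
  obtain ⟨Γ, X, hLG, hX, hcount⟩ := hT3 n k m M hM hk1 σ z _ hσ (hDen z _)
    (fun _ => z + (x : ZMod n)) (fun _ => q * (x / ℓ)) (fun _ => ⟨x, hxL, rfl⟩)
  obtain ⟨u, A, Bq, hu, hA, hBq, hA0, huA, huA', huB⟩ := hC Γ hLG (q * (x / ℓ)) (X 0) hp1 hp2 (hX 0)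
  have hLAs : ∀ a b, LA ((2 * D + 1) * N₁ * q) (q * (N₁ - 2)) Γ a b →
      LA ((2 * D + 1) * N₁ * q) (q * (N₁ - 2)) Γ b a :=
    fun a b h => ⟨h.2.1, h.1, h.2.2.2.1, h.2.2.1, hLG.symm _ _ h.2.2.2.2⟩
  have hne : ∀ a b, LA ((2 * D + 1) * N₁ * q) (q * (N₁ - 2)) Γ a b → a ≠ b := by
    rintro a b h rfl
    exact hLG.irrefl _ h.2.2.2.2
  -- the points of the rows
  let pt : ℕ → ℕ → ℕ := fun i a =>
    if i < r then A i ⟨a % t, Nat.mod_lt _ ht⟩ else Bq ⟨a % (t + 1), Nat.mod_lt _ (by omega)⟩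
  have hpt : ∀ i a, pt i a < (2 * D + 1) * N₁ * q := by
    intro i a
    show (if i < r then A i ⟨a % t, Nat.mod_lt _ ht⟩
      else Bq ⟨a % (t + 1), Nat.mod_lt _ (by omega)⟩) < _
    split_ifs
    · exact (hA i).1 _
    · exact hBq.1 _
  have hpt1 : ∀ i a, i < r → pt i a = A i ⟨a % t, Nat.mod_lt _ ht⟩ := fun i a hi => if_pos hi
  have hpt2 : ∀ a, pt r a = Bq ⟨a % (t + 1), Nat.mod_lt _ (by omega)⟩ :=
    fun a => if_neg (lt_irrefl r)
  have hrow : ∀ i a b, i ≤ r → a < b → b < a + t →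
      LA ((2 * D + 1) * N₁ * q) (q * (N₁ - 2)) Γ (pt i a) (pt i b) := by
    intro i a b hi hab hbt
    rcases Nat.lt_or_ge i r with hir | hir
    · rw [hpt1 i a hir, hpt1 i b hir]
      refine (hA i).2 _ _ ?_
      intro h
      exact mod_ne hab hbt (congrArg Fin.val h)
    · have : i = r := le_antisymm hi hir
      subst this
      rw [hpt2, hpt2]
      refine hBq.2 _ _ ?_
      intro h
      exact mod_ne hab (by omega) (congrArg Fin.val h)
  have hlast : ∀ a b, a < b → b ≤ a + t →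
      LA ((2 * D + 1) * N₁ * q) (q * (N₁ - 2)) Γ (pt r a) (pt r b) := by
    intro a b hab hbt
    rw [hpt2, hpt2]
    refine hBq.2 _ _ ?_
    intro h
    exact mod_ne hab (by omega) (congrArg Fin.val h)
  -- the index map
  let φ : IA t r → Fin ((2 * D + 1) * N₁ * q) × Fin (2 * (r + 1) + r) := fun w =>
    match w with
    | Sum.inl (i, a) => (⟨pt i a, hpt i a⟩, ⟨2 * (i : ℕ) + (a : ℕ) / t, by
        have := i.2
        have e1 : (a : ℕ) / t < 2 := by
          rw [Nat.div_lt_iff_lt_mul ht]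
          exact a.2
        omega⟩)
    | Sum.inr i => (⟨u ((i : ℕ) + 1), hu _⟩, ⟨2 * (r + 1) + (i : ℕ), by have := i.2; omega⟩)
  have hφ : Function.Injective φ := by
    have hdiv : ∀ a : Fin (2 * t), (a : ℕ) / t < 2 := by
      intro a
      rw [Nat.div_lt_iff_lt_mul ht]
      exact a.2
    rintro (⟨i, a⟩ | i) (⟨j, b⟩ | j) h
    · have e1 : pt i a = pt j b := congrArg (fun w => (w.1 : ℕ)) h
      have e2 : 2 * (i : ℕ) + (a : ℕ) / t = 2 * (j : ℕ) + (b : ℕ) / t :=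
        congrArg (fun w => (w.2 : ℕ)) h
      have ha := hdiv a
      have hb := hdiv b
      have e34 : ∀ da db : ℕ, 2 * (i : ℕ) + da = 2 * (j : ℕ) + db → da < 2 → db < 2 →
          (i : ℕ) = j ∧ da = db := by
        intro da db h1 h2 h3
        omega
      obtain ⟨e3, e4⟩ := e34 _ _ e2 ha hb
      have e5 : i = j := Fin.ext e3
      subst e5
      have hi : (i : ℕ) ≤ r := by have := i.2; omega
      have hab : (a : ℕ) = b := by
        rcases lt_trichotomy (a : ℕ) b with hab | hab | hab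
        · exfalso
          have e6 : (b : ℕ) < a + t := by
            have f1 := Nat.div_add_mod (a : ℕ) t
            have f2 := Nat.div_add_mod (b : ℕ) t
            have f3 := Nat.mod_lt (b : ℕ) (show t > 0 by omega)
            rw [e4] at f1
            omega
          exact hne _ _ (hrow i a b hi hab e6) e1
        · exact hab
        · exfalso
          have e6 : (a : ℕ) < b + t := by
            have f1 := Nat.div_add_mod (a : ℕ) t
            have f2 := Nat.div_add_mod (b : ℕ) t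
            have f3 := Nat.mod_lt (a : ℕ) (show t > 0 by omega)
            rw [← e4] at f2
            omega
          exact hne _ _ (hrow i b a hi hab e6) e1.symm
      have : a = b := Fin.ext hab
      rw [this]
    · exfalso
      have e2 : 2 * (i : ℕ) + (a : ℕ) / t = 2 * (r + 1) + (j : ℕ) :=
        congrArg (fun w => (w.2 : ℕ)) h
      have ha := hdiv a
      have hi := i.2
      have e34 : ∀ da : ℕ, 2 * (i : ℕ) + da = 2 * (r + 1) + (j : ℕ) → da < 2 → False := by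
        intro da h1 h2
        omega
      exact e34 _ e2 ha
    · exfalso
      have e2 : 2 * (r + 1) + (i : ℕ) = 2 * (j : ℕ) + (b : ℕ) / t :=
        congrArg (fun w => (w.2 : ℕ)) h
      have hb := hdiv b
      have hj := j.2
      have e34 : ∀ da : ℕ, 2 * (r + 1) + (i : ℕ) = 2 * (j : ℕ) + da → da < 2 → False := by
        intro da h1 h2
        omega
      exact e34 _ e2 hb
    · have e2 : 2 * (r + 1) + (i : ℕ) = 2 * (r + 1) + (j : ℕ) :=
        congrArg (fun w => (w.2 : ℕ)) h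
      have : i = j := Fin.ext (by omega)
      rw [this]
  have hσ0 : (0 : ℝ) < 1 / (2 * N₁) * (k : ℝ) := by
    have : 0 < k := hM.kpos
    have : (0 : ℝ) < k := by exact_mod_cast this
    positivity
  have hpush := push φ hφ _ _ (filter_subset _ _) c hc.le (1 / (2 * N₁) * (k : ℝ)) hσ0
    (fun p => hσ.trans ((hDen z _).cell _ (by
      rw [Nat.div_lt_iff_lt_mul (by omega)]
      exact p.1.2))) hcount
  rw [mul_pow, ← mul_assoc] at hpush
  refine hpush.trans ?_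
  rw [Nat.cast_le]
  refine card_le_card ?_
  intro g hg
  rw [mem_image] at hg
  obtain ⟨Ω, hΩ, rfl⟩ := hg
  rw [mem_filter, Fintype.mem_piFinset] at hΩ
  obtain ⟨hΩ1, hinj, hadj, hext⟩ := hΩ
  rw [← hℓ] at hΩ1
  have hcell : ∀ p, (p.1 : ℕ) / q * ℓ ≤ Ω p ∧ Ω p < ((p.1 : ℕ) / q + 1) * ℓ ∧
      z + (Ω p : ZMod n) ∉ B ∧ z + (Ω p : ZMod n) ≠ z + (x : ZMod n) := by
    intro p
    have := hΩ1 p
    unfold cellU at this
    rw [mem_filter, mem_Ico, mem_compl, mem_insert] at this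
    push Not at this
    exact ⟨this.1.1, this.1.2, this.2.2, this.2.1⟩
  -- adjacency
  have hLa : ∀ i j : IA t r, LA ((2 * D + 1) * N₁ * q) (q * (N₁ - 2)) Γ (φ i).1 (φ j).1 →
      La n k M z (Ω (φ i)) (Ω (φ j)) := by
    intro i j h
    refine ⟨?_, ?_, ?_⟩
    · exact near hq (by omega) hℓ1 (hcell (φ i)).2.1 (hcell (φ j)).1 h.2.2.1
    · exact near hq (by omega) hℓ1 (hcell (φ j)).2.1 (hcell (φ i)).1 h.2.2.2.1
    · exact hadj (φ i).1 (φ j).1 (φ i).2 (φ j).2 h.2.2.1 h.2.2.2.1 h.2.2.2.2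
  have hqx : q * (x / ℓ) / q = x / ℓ := Nat.mul_div_cancel_left _ (by omega)
  have hxa : x / ℓ * ℓ ≤ x := Nat.div_mul_le_self _ _
  have hxb : x < (x / ℓ + 1) * ℓ := by
    rw [mul_comm]
    exact Nat.lt_mul_div_succ x hℓ0
  have hLx : ∀ a : Fin (2 * t), La n k M z (Ω (φ (Sum.inl (0, a)))) x ∧
      La n k M z x (Ω (φ (Sum.inl (0, a)))) := by
    intro a
    have e0 : (((φ (Sum.inl (0, a))).1 : Fin ((2 * D + 1) * N₁ * q)) : ℕ) =
        A 0 ⟨(a : ℕ) % t, Nat.mod_lt _ ht⟩ := hpt1 0 a hr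
    obtain ⟨e1, e2, e3⟩ := hA0 ⟨(a : ℕ) % t, Nat.mod_lt _ ht⟩
    rw [← e0] at e1 e2 e3
    have e4 := hext 0 (φ (Sum.inl (0, a))).1 (φ (Sum.inl (0, a))).2 e1 e2 e3
    have e5 : Ω (φ (Sum.inl (0, a))) ≤ x + k :=
      near (y' := q * (x / ℓ)) hq (by omega) hℓ1 (hcell _).2.1 (by rw [hqx]; exact hxa) e1
    have e6 : x ≤ Ω (φ (Sum.inl (0, a))) + k :=
      near (y := q * (x / ℓ)) hq (by omega) hℓ1 (by rw [hqx]; exact hxb) (hcell _).1 e2
    exact ⟨⟨e5, e6, fun h => e4 (hM.symm _ _ h)⟩, ⟨e6, e5, e4⟩⟩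
  have hval : ∀ (i : Fin (r + 1)) (a : Fin (2 * t)),
      (((φ (Sum.inl (i, a))).1 : Fin ((2 * D + 1) * N₁ * q)) : ℕ) = pt i a := fun i a => rfl
  have hvalr : ∀ (i : Fin r),
      (((φ (Sum.inr i)).1 : Fin ((2 * D + 1) * N₁ * q)) : ℕ) = u ((i : ℕ) + 1) := fun i => rfl
  have hrowLa : ∀ (i : Fin (r + 1)) (a b : Fin (2 * t)), (a : ℕ) < b → (b : ℕ) < a + t →
      La n k M z (Ω (φ (Sum.inl (i, a)))) (Ω (φ (Sum.inl (i, b)))) := by
    intro i a b hab hbt
    refine hLa (Sum.inl (i, a)) (Sum.inl (i, b)) ?_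
    rw [hval, hval]
    exact hrow i a b (by have := i.2; omega) hab hbt
  rw [mem_filter, Fintype.mem_piFinset]
  refine ⟨?_, ⟨?_, ?_, ?_, ?_⟩, ?_, ?_⟩
  · intro i
    rw [mem_range]
    have e1 := (hcell (φ i)).2.1
    have e2 : ((φ i).1 : ℕ) / q < (2 * D + 1) * N₁ := by
      rw [Nat.div_lt_iff_lt_mul (by omega)]
      exact (φ i).1.2
    calc Ω (φ i) < (((φ i).1 : ℕ) / q + 1) * ℓ := e1
      _ ≤ ((2 * D + 1) * N₁) * ℓ := Nat.mul_le_mul_right _ e2
      _ = (2 * D + 1) * (N₁ * ℓ) := by ring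
      _ ≤ (2 * D + 1) * k := Nat.mul_le_mul_left _ hℓ1
  · exact hinj.comp hφ
  · intro i
    refine pw_mid _ _ ?_ ?_ ?_
    · intro a b hab hbt
      exact hrowLa i.castSucc a b hab hbt
    · intro a _
      refine hLa (Sum.inl (i.castSucc, a)) (Sum.inr i) (hLAs _ _ ?_)
      rw [hval, hvalr, hpt1 _ _ (by exact i.2)]
      exact huA i i.2 _
    · intro a _
      refine hLa (Sum.inr i) (Sum.inl (i.castSucc, a)) ?_
      rw [hval, hvalr, hpt1 _ _ (by exact i.2)]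
      exact huA i i.2 _
  · intro i
    have key : ∀ a : Fin (2 * t), LA ((2 * D + 1) * N₁ * q) (q * (N₁ - 2)) Γ
        (φ (Sum.inr i)).1 (φ (Sum.inl (i.succ, a))).1 := by
      intro a
      rw [hval, hvalr, Fin.val_succ]
      rcases Nat.lt_or_ge ((i : ℕ) + 1) r with hir | hir
      · rw [hpt1 _ _ hir]
        exact huA' _ (by omega) hir _
      · have e1 : (i : ℕ) + 1 = r := by have := i.2; omega
        rw [e1, hpt2]
        exact huB _
    refine pw_mid _ _ ?_ ?_ ?_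
    · intro a b hab hbt
      exact hrowLa i.succ a b hab hbt
    · intro a _
      exact hLa (Sum.inl (i.succ, a)) (Sum.inr i) (hLAs _ _ (key a))
    · intro a _
      exact hLa (Sum.inr i) (Sum.inl (i.succ, a)) (key a)
  · intro i j a b hij hjt ha hb
    unfold row at ha hb
    rw [List.getElem?_ofFn] at ha hb
    split_ifs at ha hb with hi hj
    · rw [← Option.some.inj ha, ← Option.some.inj hb]
      refine hLa (Sum.inl (Fin.last r, ⟨i, hi⟩)) (Sum.inl (Fin.last r, ⟨j, hj⟩)) ?_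
      rw [hval, hval, Fin.val_last]
      exact hlast i j hij hjt
  · refine pw_mid _ _ ?_ ?_ ?_
    · intro a b hab hbt
      exact hrowLa 0 a b hab hbt
    · intro a _
      exact (hLx a).1
    · intro a _
      exact (hLx a).2
  · intro i
    exact ⟨(hcell (φ i)).2.2.1, (hcell (φ i)).2.2.2⟩

end Pool.Agent.H48.PW
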