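import Pool.Agent.H48.PW.Stm
import Pool.Graph.R_pool_sql_team_seeded_1e53cb71.Helper83K9.CF.Base
import Pool.Graph.R_pool_sql_team_seeded_1e53cb71.Helper83K9.CF.Bal
import Pool.Graph.R_pool_sql_team_seeded_1e53cb71.Helper83K9.CF.Alm
import Pool.Graph.R_pool_sql_team_seeded_1e53cb71.Helper83K9.CF.Part
import Pool.Graph.R_pool_sql_team_seeded_1e53cb71.Helper83K9.CF.Rate

/-!
[ALM2] almost perfect tilings by tiles; the remaining set is thin, but dense and regular.
-/

set_option autoImplicit false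

namespace Pool.Agent.H48.PW

open Finset Pool.Agent.Helper83K9.CF

namespace ALM2L

open Pool.Agent.Helper83K9.CF.AlmL

/-- tests -/
def Test2 (n k ℓ : ℕ) (M : ZMod n → Finset (ZMod n)) (S : Finset (ZMod n)) : Prop :=
  Test n k M S ∨ ∃ y, S = win n ℓ y

theorem exists_base2 {n k m ℓ : ℕ} {M : ZMod n → Finset (ZMod n)} (hM : Host n k m M)
    (hℓ : ℓ ≤ k) {S : Finset (ZMod n)} (hS : Test2 n k ℓ M S) :
    ∃ y : ZMod n, ∀ v ∈ S, ∃ a : ℕ, a ≤ 2 * k ∧ v = y - (a : ZMod n) := by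
  rcases hS with hS | ⟨y, rfl⟩
  · exact exists_base hM hS
  · obtain ⟨z, hz⟩ := exists_base hM (Or.inr ⟨y, rfl⟩ : Test n k M (win n k y))
    exact ⟨z, fun v hv => hz v (win_mono hℓ y hv)⟩

theorem win_inter_le_cellU {n : ℕ} [NeZero n] (z : ZMod n) (ℓ : ℕ) (U : Finset (ZMod n)) (j : ℕ) :
    (win n ℓ (z + ((j * ℓ : ℕ) : ZMod n)) ∩ U).card ≤ (cellU z ℓ U j).card := by
  have h : win n ℓ (z + ((j * ℓ : ℕ) : ZMod n)) ∩ U ⊆
      (cellU z ℓ U j).image (fun p : ℕ => z + (p : ZMod n)) := by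
    intro v hv
    rw [mem_inter] at hv
    obtain ⟨i, hi, rfl⟩ := mem_win.1 hv.1
    have e : z + ((j * ℓ : ℕ) : ZMod n) + (i : ZMod n) = z + ((j * ℓ + i : ℕ) : ZMod n) := by
      push_cast; ring
    rw [mem_image]
    refine ⟨j * ℓ + i, ?_, e.symm⟩
    rw [cellU, mem_filter, mem_Ico]
    refine ⟨⟨by omega, by rw [Nat.succ_mul]; omega⟩, ?_⟩
    rw [← e]
    exact hv.2
  exact (card_le_card h).trans card_image_le

/-- the final density -/
theorem dense_final {n k m t N₀ L ℓ : ℕ} [NeZero n] {M : ZMod n → Finset (ZMod n)}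
    (hM : Host n k m M) (ht : 2 ≤ t) (hN₀ : 1 ≤ N₀) {ε γ τ θ' : ℝ} (hε : 0 < ε) (hε1 : ε ≤ 1)
    (hγ : 0 < γ) (hγt : 32 * (t : ℝ) * γ ≤ ε) (hγN : 80 * (N₀ : ℝ) * γ ≤ ε)
    (hs : (t : ℝ) * (m + 1) ≤ (1 - ε) * k) (hℓ : ℓ = k / N₀) (hk : 2 * N₀ ≤ k)
    (hθ' : 0 ≤ θ') (hθ'k : ((L + 3 : ℕ) : ℝ) * k * θ' ≤ ε / 32)
    (U : Finset (ZMod n)) (D : ZMod n → ℝ) (hD0 : ∀ v, Real.exp (-(τ + 1)) ≤ D v)
    (hslow : Slow n θ' D)
    (h1 : ∀ x, Y (M x) U D ≤ (m + 1) + 4 * γ * k)
    (h2 : ∀ y, (ℓ : ℝ) - 5 * γ * k ≤ Y (win n ℓ y) U D) (z : ZMod n) :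
    ∃ σ : ℝ, Real.exp (-(τ + 1)) / (8 * N₀) * k ≤ σ ∧ Dense n k t M (ε / 2) ℓ σ z L U := by
  have hk0 : (0 : ℝ) < k := by exact_mod_cast hM.kpos
  have htR : (2 : ℝ) ≤ t := by exact_mod_cast ht
  have hNR : (1 : ℝ) ≤ N₀ := by exact_mod_cast hN₀
  have hm1 : (0 : ℝ) ≤ (m : ℝ) + 1 := by positivity
  have hD : ∀ v, 0 < D v := fun v => lt_of_lt_of_le (Real.exp_pos _) (hD0 v)
  -- `k ≤ 2 N₀ ℓ`
  have hkℓ : k ≤ 2 * (N₀ * ℓ) := by
    have h3 := Nat.div_add_mod k N₀
    have h4 := Nat.mod_lt k (by omega : 0 < N₀)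
    rw [← hℓ] at h3
    omega
  have hkℓR : (k : ℝ) ≤ 2 * (N₀ * ℓ) := by exact_mod_cast hkℓ
  have hℓ0 : (0 : ℝ) < ℓ := by
    by_contra h
    have : (ℓ : ℝ) = 0 := le_antisymm (not_lt.1 h) (by positivity)
    rw [this] at hkℓR
    linarith
  have hℓk : ℓ * N₀ ≤ k := by rw [hℓ]; exact Nat.div_mul_le_self k N₀
  have hℓk1 : ℓ ≤ k := by rw [hℓ]; exact Nat.div_le_self k N₀
  have hg : 5 * γ * k ≤ ε / 8 * ℓ := by
    have h3 : 5 * γ * k ≤ 5 * γ * (2 * (N₀ * ℓ)) :=
      mul_le_mul_of_nonneg_left hkℓR (by positivity)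
    have h4 : 5 * γ * (2 * (N₀ * ℓ)) = (80 * (N₀ : ℝ) * γ) * (ℓ / 8) := by ring
    have h5 : (80 * (N₀ : ℝ) * γ) * (ℓ / 8) ≤ ε * (ℓ / 8) :=
      mul_le_mul_of_nonneg_right hγN (by positivity)
    calc 5 * γ * k ≤ ε * (ℓ / 8) := by linarith
      _ = _ := by ring
  -- comparison of `D`
  obtain ⟨c, hc⟩ : ∃ c, c = (L + 3) * k := ⟨_, rfl⟩
  obtain ⟨E, hE⟩ : ∃ E : ℝ, E = Real.exp (c * θ') := ⟨_, rfl⟩
  have hE0 : 0 < E := by rw [hE]; exact Real.exp_pos _
  have hE1 : 1 ≤ E := by rw [hE]; exact Real.one_le_exp (by positivity)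
  have hcθ : (c : ℝ) * θ' ≤ ε / 32 := by
    rw [hc]; push_cast; push_cast at hθ'k; exact hθ'k
  have hEE : E * E ≤ 1 + ε / 8 := by
    rw [hE, ← Real.exp_add]
    have h3 : (c : ℝ) * θ' + c * θ' ≤ ε / 16 := by linarith
    have h4 : Real.exp ((c : ℝ) * θ' + c * θ') ≤ Real.exp (ε / 16) := Real.exp_le_exp.2 h3
    have h5 := Real.exp_bound_div_one_sub_of_interval' (x := ε / 16) (by positivity) (by linarith)
    refine h4.trans (h5.le.trans ?_)
    rw [div_le_iff₀ (by linarith)]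
    nlinarith
  have hE2 : E ≤ 2 := by nlinarith
  obtain ⟨z', hz'⟩ : ∃ z', z' = z - (k : ZMod n) := ⟨_, rfl⟩
  have hDz := hD z'
  have hup : ∀ p : ℕ, p < L * ℓ → ∀ v ∈ M (z + (p : ZMod n)), D v ≤ E * D z' := by
    intro p hp v hv
    obtain ⟨j, hj, rfl⟩ := mem_win.1 (hM.subset _ hv)
    have hpk : p < L * k := lt_of_lt_of_le hp (Nat.mul_le_mul_left L hℓk1)
    have h3 := BalL.slow_le hslow hD hθ' z' (p + j) 0 c (by
      have : c = L * k + 3 * k := by rw [hc]; ring
      omega) (by omega)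
    have e1 : z' + ((p + j : ℕ) : ZMod n) = z + (p : ZMod n) - (k : ZMod n) + (j : ZMod n) := by
      rw [hz']; push_cast; ring
    rw [e1, Nat.cast_zero, add_zero, ← hE] at h3
    exact h3
  have hlo : ∀ j : ℕ, j < L → ∀ v ∈ win n ℓ (z + ((j * ℓ : ℕ) : ZMod n)), E⁻¹ * D z' ≤ D v := by
    intro j hj v hv
    obtain ⟨i, hi, rfl⟩ := mem_win.1 hv
    have hjk : j * ℓ + i < L * k := by
      have h3 : (j + 1) * ℓ ≤ L * ℓ := Nat.mul_le_mul_right ℓ hj
      have h4 : L * ℓ ≤ L * k := Nat.mul_le_mul_left L hℓk1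
      rw [Nat.succ_mul] at h3
      omega
    have h3 := BalL.slow_le hslow hD hθ' z' 0 (k + (j * ℓ + i)) c (by omega) (by
      have : c = L * k + 3 * k := by rw [hc]; ring
      omega)
    have e1 : z' + ((k + (j * ℓ + i) : ℕ) : ZMod n) =
        z + ((j * ℓ : ℕ) : ZMod n) + (i : ZMod n) := by
      rw [hz']; push_cast; ring
    rw [e1, Nat.cast_zero, add_zero, ← hE] at h3
    rw [inv_mul_le_iff₀ hE0]
    exact h3
  refine ⟨E⁻¹ * D z' * (ℓ - 5 * γ * k), ?_, ⟨?_, ?_⟩⟩
  · have h3 : Real.exp (-(τ + 1)) / 2 ≤ E⁻¹ * D z' := by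
      rw [le_inv_mul_iff₀ hE0]
      have h4 := hD0 z'
      have h5 := Real.exp_pos (-(τ + 1))
      nlinarith
    have h4 : (k : ℝ) / (4 * N₀) ≤ ℓ - 5 * γ * k := by
      rw [div_le_iff₀ (by positivity)]
      have h5 : ε / 8 * (ℓ : ℝ) ≤ 1 / 8 * ℓ := mul_le_mul_of_nonneg_right (by linarith) hℓ0.le
      have h6 : (1 : ℝ) / 2 * ℓ ≤ ℓ - 5 * γ * k := by linarith
      have h7 : (1 : ℝ) / 2 * ℓ * (4 * N₀) ≤ (ℓ - 5 * γ * k) * (4 * N₀) :=
        mul_le_mul_of_nonneg_right h6 (by positivity)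
      linarith
    calc Real.exp (-(τ + 1)) / (8 * N₀) * k = Real.exp (-(τ + 1)) / 2 * (k / (4 * N₀)) := by
          field_simp; norm_num
      _ ≤ E⁻¹ * D z' * (ℓ - 5 * γ * k) := by
          apply mul_le_mul h3 h4 (by positivity) (by positivity)
  · intro j hj
    have h3 := BalL.Y_le_card (win n ℓ (z + ((j * ℓ : ℕ) : ZMod n))) U D hD _ (hlo j hj)
    have h4 : ((win n ℓ (z + ((j * ℓ : ℕ) : ZMod n)) ∩ U).card : ℝ) ≤ (cellU z ℓ U j).card := by
      exact_mod_cast win_inter_le_cellU z ℓ U j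
    refine le_trans ?_ (h3.trans h4)
    exact mul_le_mul_of_nonneg_left (h2 _) (by positivity)
  · intro p hp
    have h3 := BalL.card_le_Y (M (z + (p : ZMod n))) U D hD _ (hup p hp)
    have h4 := h1 (z + (p : ZMod n))
    have h5 : (t : ℝ) * ((m + 1) + 4 * γ * k) ≤ (1 - 7 / 8 * ε) * k := by
      have h6 : (t : ℝ) * (4 * γ * k) ≤ ε / 8 * k := by
        have : (t : ℝ) * (4 * γ * k) = (32 * (t : ℝ) * γ) * (k / 8) := by ring
        rw [this]
        calc (32 * (t : ℝ) * γ) * (k / 8) ≤ ε * (k / 8) :=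
              mul_le_mul_of_nonneg_right hγt (by positivity)
          _ = _ := by ring
      rw [mul_add]
      linarith
    have h6 : (t : ℝ) * ((M (z + (p : ZMod n)) ∩ U).card : ℝ) ≤
        E * D z' * ((1 - 7 / 8 * ε) * k) := by
      calc (t : ℝ) * ((M (z + (p : ZMod n)) ∩ U).card : ℝ)
          ≤ t * (E * D z' * ((m + 1) + 4 * γ * k)) := by
            apply mul_le_mul_of_nonneg_left _ (by positivity)
            refine h3.trans ?_
            exact mul_le_mul_of_nonneg_left h4 (by positivity)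
        _ = E * D z' * (t * ((m + 1) + 4 * γ * k)) := by ring
        _ ≤ _ := mul_le_mul_of_nonneg_left h5 (by positivity)
    have h7 : (E * E) * ((1 - 7 / 8 * ε) * ℓ) ≤ (1 - ε / 2) * (ℓ - 5 * γ * k) := by
      have h8 : (E * E) * ((1 - 7 / 8 * ε) * ℓ) ≤ (1 + ε / 8) * ((1 - 7 / 8 * ε) * ℓ) := by
        apply mul_le_mul_of_nonneg_right hEE
        apply mul_nonneg (by linarith) hℓ0.le
      have h9 : (1 - ε / 2) * ((1 - ε / 8) * ℓ) ≤ (1 - ε / 2) * (ℓ - 5 * γ * k) := by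
        apply mul_le_mul_of_nonneg_left _ (by linarith)
        linarith
      have h10 : (1 + ε / 8) * (1 - 7 / 8 * ε) ≤ (1 - ε / 2) * (1 - ε / 8) := by nlinarith
      have h11 : (1 + ε / 8) * (1 - 7 / 8 * ε) * ℓ ≤ (1 - ε / 2) * (1 - ε / 8) * ℓ :=
        mul_le_mul_of_nonneg_right h10 hℓ0.le
      calc _ ≤ _ := h8
        _ = (1 + ε / 8) * (1 - 7 / 8 * ε) * ℓ := by ring
        _ ≤ _ := h11
        _ = (1 - ε / 2) * ((1 - ε / 8) * ℓ) := by ring
        _ ≤ _ := h9
    calc (t : ℝ) * ((M (z + (p : ZMod n)) ∩ U).card : ℝ) * ℓ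
        ≤ E * D z' * ((1 - 7 / 8 * ε) * k) * ℓ := mul_le_mul_of_nonneg_right h6 hℓ0.le
      _ = (E⁻¹ * D z' * k) * ((E * E) * ((1 - 7 / 8 * ε) * ℓ)) := by field_simp
      _ ≤ (E⁻¹ * D z' * k) * ((1 - ε / 2) * (ℓ - 5 * γ * k)) :=
          mul_le_mul_of_nonneg_left h7 (by positivity)
      _ = _ := by ring

end ALM2L

open ALM2L Pool.Agent.Helper83K9.CF.AlmL in
theorem alm2 (h1 : S_ARC2) : S_ALM2 := by
  classical
  intro t N₀ L ε ht hN₀ hε hε1
  obtain ⟨β, hβ, hβ4, hA⟩ := h1 t ε ht hε hε1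
  have htR : (2 : ℝ) ≤ t := by exact_mod_cast ht
  have hN₀R : (1 : ℝ) ≤ N₀ := by exact_mod_cast hN₀
  obtain ⟨γ, hγ⟩ : ∃ γ : ℝ, γ = min (β / 10) (min (ε / (32 * t)) (ε / (80 * N₀))) := ⟨_, rfl⟩
  have hγ0 : 0 < γ := by
    rw [hγ]
    refine lt_min (by positivity) (lt_min (by positivity) (by positivity))
  have hγβ : 10 * γ ≤ β := by
    have : γ ≤ β / 10 := by rw [hγ]; exact min_le_left _ _
    linarith
  have hγt : 32 * (t : ℝ) * γ ≤ ε := by
    have h5 : γ ≤ ε / (32 * t) := by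
      rw [hγ]; exact (min_le_right _ _).trans (min_le_left _ _)
    rw [le_div_iff₀ (by positivity)] at h5
    linarith
  have hγN : 80 * (N₀ : ℝ) * γ ≤ ε := by
    have h5 : γ ≤ ε / (80 * N₀) := by
      rw [hγ]; exact (min_le_right _ _).trans (min_le_right _ _)
    rw [le_div_iff₀ (by positivity)] at h5
    linarith
  refine ⟨γ, hγ0, ?_⟩
  intro δ hδ
  obtain ⟨τ, hτ, hτδ⟩ := exists_tau hδ
  refine ⟨Real.exp (-(τ + 1)) / (8 * N₀), by positivity, ?_⟩
  intro s hs
  obtain ⟨M₁, hM₁⟩ : ∃ M₁ : ℕ, M₁ = ⌈64 * (τ + 1) * (L + 3) / ε⌉₊ := ⟨_, rfl⟩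
  obtain ⟨M₀, k₁, hM0, hM01, hA⟩ := hA τ γ s M₁ hτ hγ0 (by linarith) hs
  have hM0R : 64 * (τ + 1) * (L + 3) ≤ M₀ * ε := by
    have h5 : 64 * (τ + 1) * (L + 3) / ε ≤ M₀ :=
      (Nat.le_ceil _).trans (by rw [hM₁] at hM01; exact_mod_cast hM01)
    rwa [div_le_iff₀ hε] at h5
  refine ⟨max k₁ (2 * N₀), ?_⟩
  intro n k m _ M hM hk hsl B hB
  have hk1 : k₁ ≤ k := (le_max_left _ _).trans hk
  have hk2 : 2 * N₀ ≤ k := (le_max_right _ _).trans hk
  have hkpos := hM.kpos
  have hkR : (0 : ℝ) < k := by exact_mod_cast hkpos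
  obtain ⟨ℓ, hℓ⟩ : ∃ ℓ, ℓ = k / N₀ := ⟨_, rfl⟩
  have hℓk : ℓ ≤ k := by rw [hℓ]; exact Nat.div_le_self k N₀
  obtain ⟨N, hN⟩ : ∃ N, N = M₀ * k := ⟨_, rfl⟩
  have hN3 : 3 * k ≤ N := by rw [hN]; exact Nat.mul_le_mul_right k hM0
  have hNR : (0 : ℝ) < N := by
    have : 0 < N := by omega
    exact_mod_cast this
  have hN3R : 3 * (k : ℝ) ≤ N := by exact_mod_cast hN3
  obtain ⟨J, Ar, hAr, hcov, hdis, h4⟩ := part n k N hkpos hM.size hN3
  obtain ⟨hsum, hvar⟩ := rate_ n k N hkpos (by omega) J Ar hcov hdis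
  have hkn : k ≤ n := by have := hM.size; omega
  -- the number of arcs touching a test
  have htch : ∀ S, Test2 n k ℓ M S → ∀ j ≤ J,
      ∑ i ∈ range j, (if Tch n N (Ar i) S then (1 : ℝ) else 0) ≤ 4 := by
    intro S hS j hj
    obtain ⟨y, hy⟩ := exists_base2 hM hℓk hS
    have e : ∑ i ∈ range j, (if Tch n N (Ar i) S then (1 : ℝ) else 0) ≤
        ((range J).filter (fun j => ∃ i : ℕ, i ≤ N + 3 * k ∧ y - (i : ZMod n) ∈ Ar j)).card := by
      rw [Finset.sum_boole]
      have hsub : (range j).filter (fun i => Tch n N (Ar i) S) ⊆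
          (range J).filter (fun j => ∃ i : ℕ, i ≤ N + 3 * k ∧ y - (i : ZMod n) ∈ Ar j) := by
        intro i hi
        rw [mem_filter, mem_range] at hi ⊢
        obtain ⟨hi1, v, hv, s, hs, hvs⟩ := hi
        obtain ⟨a, ha, rfl⟩ := hy v hv
        refine ⟨by omega, a + s, by omega, ?_⟩
        have : y - ((a + s : ℕ) : ZMod n) = y - (a : ZMod n) - (s : ZMod n) := by push_cast; ring
        rw [this]
        exact hvs
      exact_mod_cast card_le_card hsub
    have h5 := h4 y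
    have h6 : (((range J).filter (fun j => ∃ i : ℕ, i ≤ N + 3 * k ∧
        y - (i : ZMod n) ∈ Ar j)).card : ℝ) ≤ 4 := by exact_mod_cast h5
    linarith
  -- start
  have hY0 : ∀ S : Finset (ZMod n), Y S Bᶜ (fun _ => (1 : ℝ)) = ((S ∩ Bᶜ).card : ℝ) := by
    intro S
    unfold Y
    simp
  have hst1 : ∀ x, Y (M x) Bᶜ (fun _ => (1 : ℝ)) ≤ (M x).card := by
    intro x
    rw [hY0]
    exact_mod_cast card_le_card inter_subset_left
  have hst3 : ∀ (a : ℕ), a ≤ k → ∀ y, |Y (win n a y) Bᶜ (fun _ => (1 : ℝ)) - a| ≤ γ * k := by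
    intro a hak y
    rw [hY0]
    have e1 : (win n a y ∩ Bᶜ).card + (B ∩ win n a y).card = a := by
      have := card_win (hak.trans hkn) y
      have h7 := Finset.card_inter_add_card_sdiff (win n a y) B
      rw [inter_comm B, ← sdiff_eq_inter_compl]
      omega
    have e2 : ((win n a y ∩ Bᶜ).card : ℝ) - a = -((B ∩ win n a y).card : ℝ) := by
      have : ((win n a y ∩ Bᶜ).card : ℝ) + (B ∩ win n a y).card = a := by exact_mod_cast e1
      linarith
    rw [e2, abs_neg, abs_of_nonneg (by positivity)]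
    refine le_trans ?_ (hB y)
    exact_mod_cast card_le_card (inter_subset_inter_left (win_mono hak y))
  -- the state is good
  have hgood : ∀ j ≤ J, ∀ (U : Finset (ZMod n)) (D : ZMod n → ℝ),
      (∀ S, Test2 n k ℓ M S → |Y S U D - Y S Bᶜ (fun _ => (1 : ℝ))| ≤
        γ * k * ∑ i ∈ range j, (if Tch n N (Ar i) S then (1 : ℝ) else 0)) →
      St2 n k ℓ M ((β - γ) * k) U D ∧ (∀ y, Y (win n k y) U D ≤ 2 * k) ∧
      (∀ x, Y (M x) U D ≤ (m + 1) + 4 * γ * k) ∧
      ∀ y, (ℓ : ℝ) - 5 * γ * k ≤ Y (win n ℓ y) U D := by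
    intro j hj U D hUD
    have hb : ∀ S, Test2 n k ℓ M S → |Y S U D - Y S Bᶜ (fun _ => (1 : ℝ))| ≤ γ * k * 4 := by
      intro S hS
      refine (hUD S hS).trans ?_
      exact mul_le_mul_of_nonneg_left (htch S hS j hj) (by positivity)
    have hβk : 0 < β * k := by positivity
    have hγk : 0 < γ * k := by positivity
    have hγβk : 10 * (γ * k) ≤ β * k := by nlinarith
    refine ⟨⟨⟨?_, ?_⟩, ?_⟩, ?_, ?_, ?_⟩
    · intro x
      have h5 := abs_le.1 (hb (M x) (Or.inl (Or.inl ⟨x, rfl⟩)))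
      have h6 := hst1 x
      linarith
    · intro y
      have h5 := abs_le.1 (hb (win n k y) (Or.inl (Or.inr ⟨y, rfl⟩)))
      have h6 := abs_le.1 (hst3 k le_rfl y)
      rw [abs_le]
      constructor <;> linarith
    · intro y
      have h5 := abs_le.1 (hb (win n ℓ y) (Or.inr ⟨y, rfl⟩))
      have h6 := abs_le.1 (hst3 ℓ hℓk y)
      rw [abs_le]
      constructor <;> linarith
    · intro y
      have h5 := abs_le.1 (hb (win n k y) (Or.inl (Or.inr ⟨y, rfl⟩)))
      have h6 := abs_le.1 (hst3 k le_rfl y)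
      have h7 : β * k ≤ 1 / 4 * k := mul_le_mul_of_nonneg_right hβ4 hkR.le
      linarith
    · intro x
      have h5 := abs_le.1 (hb (M x) (Or.inl (Or.inl ⟨x, rfl⟩)))
      have h6 := hst1 x
      have h7 : ((M x).card : ℝ) ≤ m + 1 := by exact_mod_cast hM.card x
      linarith
    · intro y
      have h5 := abs_le.1 (hb (win n ℓ y) (Or.inr ⟨y, rfl⟩))
      have h6 := abs_le.1 (hst3 ℓ hℓk y)
      linarith
  -- partial sums of rates
  have hpart : ∀ j ≤ J, ∀ v, ∑ i ∈ range j, rate n k N (Ar i) v ≤ 1 := by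
    intro j hj v
    have h5 : ∑ i ∈ range j, rate n k N (Ar i) v ≤ ∑ i ∈ range J, rate n k N (Ar i) v :=
      sum_le_sum_of_subset_of_nonneg (range_mono hj) (fun i _ _ => AlmL.rate_nonneg _ _ _ _ _)
    rw [hsum v] at h5
    refine h5.trans ?_
    rw [div_le_one hNR]
    linarith
  have hpartv : ∀ j ≤ J, ∀ v, ∑ i ∈ range j,
      |rate n k N (Ar i) (v + 1) - rate n k N (Ar i) v| ≤ 2 / N := by
    intro j hj v
    exact (sum_le_sum_of_subset_of_nonneg (range_mono hj) (fun i _ _ => abs_nonneg _)).trans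
      (hvar v)
  -- general bounds
  have hG0 : ∀ j ≤ J, ∀ σ : ℕ → ℝ, (∀ i, i < j → 0 ≤ σ i ∧ σ i ≤ τ + 1) → ∀ v,
      0 ≤ ∑ i ∈ range j, σ i * rate n k N (Ar i) v ∧
      ∑ i ∈ range j, σ i * rate n k N (Ar i) v ≤ τ + 1 := by
    intro j hj σ hσ v
    constructor
    · apply sum_nonneg
      intro i hi
      exact mul_nonneg (hσ i (mem_range.1 hi)).1 (AlmL.rate_nonneg _ _ _ _ _)
    · have h5 : ∑ i ∈ range j, σ i * rate n k N (Ar i) v ≤
          ∑ i ∈ range j, (τ + 1) * rate n k N (Ar i) v := by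
        apply sum_le_sum
        intro i hi
        exact mul_le_mul_of_nonneg_right (hσ i (mem_range.1 hi)).2
          (AlmL.rate_nonneg _ _ _ _ _)
      rw [← mul_sum] at h5
      have h6 := hpart j hj v
      nlinarith
  have hG1 : ∀ j ≤ J, ∀ σ : ℕ → ℝ, (∀ i, i < j → 0 ≤ σ i ∧ σ i ≤ τ + 1) → ∀ v,
      |∑ i ∈ range j, σ i * rate n k N (Ar i) (v + 1) -
        ∑ i ∈ range j, σ i * rate n k N (Ar i) v| ≤ 2 * (τ + 1) / N := by
    intro j hj σ hσ v
    rw [← sum_sub_distrib]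
    refine (abs_sum_le_sum_abs _ _).trans ?_
    have h5 : ∑ i ∈ range j, |σ i * rate n k N (Ar i) (v + 1) -
        σ i * rate n k N (Ar i) v| ≤
        ∑ i ∈ range j, (τ + 1) * |rate n k N (Ar i) (v + 1) - rate n k N (Ar i) v| := by
      apply sum_le_sum
      intro i hi
      have h6 := hσ i (mem_range.1 hi)
      rw [← mul_sub, abs_mul, abs_of_nonneg h6.1]
      exact mul_le_mul_of_nonneg_right h6.2 (abs_nonneg _)
    rw [← mul_sum] at h5
    refine h5.trans ?_
    have h7 := mul_le_mul_of_nonneg_left (hpartv j hj v) (by linarith : 0 ≤ τ + 1)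
    refine h7.trans (le_of_eq ?_)
    ring
  -- induction
  have claim : ∀ j ≤ J, ∃ (σ : ℕ → ℝ) (F : Finset (Finset (ZMod n))),
      (∀ i, i < j → τ ≤ σ i ∧ σ i ≤ τ + 1) ∧
      (∀ K ∈ F, CTile n k t s M K ∧ Disjoint K B) ∧
      (∀ K ∈ F, ∀ L ∈ F, K ≠ L → Disjoint K L) ∧
      ∀ S, Test2 n k ℓ M S → |Y S ((B ∪ F.biUnion id)ᶜ) (Dj n k N Ar σ j) -
        Y S Bᶜ (fun _ => (1 : ℝ))| ≤
        γ * k * ∑ i ∈ range j, (if Tch n N (Ar i) S then (1 : ℝ) else 0) := by
    intro j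
    induction j with
    | zero =>
      intro _
      refine ⟨fun _ => 0, ∅, fun i hi => absurd hi (by omega), by simp, by simp, ?_⟩
      intro S hS
      have e1 : Dj n k N Ar (fun _ => 0) 0 = fun _ => (1 : ℝ) := by
        funext v
        simp [Dj]
      rw [e1]
      simp
    | succ j ih =>
      intro hj
      obtain ⟨σ, F, hσ, hF1, hF2, hF3⟩ := ih (by omega)
      set U := (B ∪ F.biUnion id)ᶜ with hU
      set D := Dj n k N Ar σ j with hD
      have hDv : ∀ v (s : ℝ), D v * Real.exp (-(s * rate n k N (Ar j) v)) =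
          Real.exp (-(∑ i ∈ range (j + 1), Function.update σ j s i * rate n k N (Ar i) v)) := by
        intro v s
        rw [hD]
        unfold Dj
        rw [← Real.exp_add, sum_range_succ, Function.update_self]
        congr 1
        have : ∑ i ∈ range j, Function.update σ j s i * rate n k N (Ar i) v =
            ∑ i ∈ range j, σ i * rate n k N (Ar i) v := by
          apply sum_congr rfl
          intro i hi
          rw [Function.update_of_ne (by have := mem_range.1 hi; omega)]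
        rw [this]
        ring
      have hσ' : ∀ s : ℝ, 0 ≤ s → s ≤ τ + 1 → ∀ i, i < j + 1 →
          0 ≤ Function.update σ j s i ∧ Function.update σ j s i ≤ τ + 1 := by
        intro s hs0 hs1 i hi
        by_cases hij : i = j
        · subst hij
          rw [Function.update_self]
          exact ⟨hs0, hs1⟩
        · rw [Function.update_of_ne hij]
          have := hσ i (by omega)
          exact ⟨by linarith, this.2⟩
      have hc1 : ∀ v, ∀ s : ℝ, 0 ≤ s → s ≤ τ + 1 →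
          Real.exp (-(τ + 1)) ≤ D v * Real.exp (-(s * rate n k (M₀ * k) (Ar j) v)) ∧
          D v * Real.exp (-(s * rate n k (M₀ * k) (Ar j) v)) ≤ 1 := by
        intro v s hs0 hs1
        rw [← hN, hDv v s]
        have := hG0 (j + 1) hj _ (hσ' s hs0 hs1) v
        constructor
        · apply Real.exp_le_exp.2
          linarith
        · rw [Real.exp_le_one_iff]
          linarith
      have hc2 : ∀ s : ℝ, 0 ≤ s → s ≤ τ + 1 → Slow n (2 * (τ + 1) / (M₀ * k : ℕ))
          (fun v => D v * Real.exp (-(s * rate n k (M₀ * k) (Ar j) v))) := by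
        intro s hs0 hs1 v
        simp only
        rw [← hN, hDv v s, hDv (v + 1) s, ← Real.exp_add, ← Real.exp_add]
        have := abs_le.1 (hG1 (j + 1) hj _ (hσ' s hs0 hs1) v)
        constructor
        · apply Real.exp_le_exp.2
          linarith
        · apply Real.exp_le_exp.2
          linarith
      have hArj : Arc n (M₀ * k) (Ar j) := by rw [← hN]; exact hAr j (by omega)
      obtain ⟨s, G, hs0, hs1, hG1, hG2, hG3, hG4, hG5, hG6⟩ := hA n k m ℓ M hM hk1 hℓk hsl (Ar j)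
        hArj U D hc1 hc2 (hgood j (by omega) U D hF3).1
      rw [← hN] at hG3 hG4 hG5 hG6
      have hGU : G.biUnion id ⊆ U := by
        rw [biUnion_subset]
        intro K hK
        exact (hG1 K hK).2
      have hU' : (B ∪ (F ∪ G).biUnion id)ᶜ = U \ G.biUnion id := by
        rw [hU, union_biUnion, ← union_assoc, compl_union, sdiff_eq_inter_compl]
      have hD' : Dj n k N Ar (Function.update σ j s) (j + 1) =
          fun v => D v * Real.exp (-(s * rate n k N (Ar j) v)) := by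
        funext v
        rw [hDv v s]
        rfl
      refine ⟨Function.update σ j s, F ∪ G, ?_, ?_, ?_, ?_⟩
      · intro i hi
        by_cases hij : i = j
        · subst hij
          rw [Function.update_self]
          exact ⟨hs0, hs1⟩
        · rw [Function.update_of_ne hij]
          exact hσ i (by omega)
      · intro K hK
        rcases mem_union.1 hK with hK | hK
        · exact hF1 K hK
        · refine ⟨(hG1 K hK).1, ?_⟩
          rw [disjoint_left]
          intro v hv hvB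
          have := (hG1 K hK).2 hv
          rw [hU, mem_compl, mem_union] at this
          exact this (Or.inl hvB)
      · have hcross : ∀ K ∈ F, ∀ L ∈ G, Disjoint K L := by
          intro K hK L hL
          rw [disjoint_left]
          intro v hv hvL
          have := (hG1 L hL).2 hvL
          rw [hU, mem_compl, mem_union] at this
          exact this (Or.inr (mem_biUnion.2 ⟨K, hK, hv⟩))
        intro K hK L hL hKL
        rcases mem_union.1 hK with hK | hK <;> rcases mem_union.1 hL with hL | hL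
        · exact hF2 K hK L hL hKL
        · exact hcross K hK L hL
        · exact (hcross L hL K hK).symm
        · exact hG2 K hK L hL hKL
      · intro S hS
        rw [hU', hD', sum_range_succ]
        have h5 := hF3 S hS
        have h6 : |Y S (U \ G.biUnion id) (fun v => D v * Real.exp (-(s * rate n k N (Ar j) v))) -
            Y S U D| ≤ γ * k * (if Tch n N (Ar j) S then (1 : ℝ) else 0) := by
          split_ifs with hT
          · rw [mul_one]
            rcases hS with (⟨x, rfl⟩ | ⟨y, rfl⟩) | ⟨y, rfl⟩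
            · exact hG4 x
            · exact hG5 y
            · exact hG6 y
          · rw [mul_zero]
            have e1 : S ∩ (U \ G.biUnion id) = S ∩ U := by
              ext v
              simp only [mem_inter, mem_sdiff]
              constructor
              · rintro ⟨h7, h8, -⟩
                exact ⟨h7, h8⟩
              · rintro ⟨h7, h8⟩
                refine ⟨h7, h8, ?_⟩
                intro h9
                obtain ⟨K, hK, hv⟩ := mem_biUnion.1 h9
                obtain ⟨i, hi, hi2⟩ := hG3 K hK v hv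
                exact hT ⟨v, h7, i, hi, hi2⟩
            have e2 : Y S (U \ G.biUnion id)
                (fun v => D v * Real.exp (-(s * rate n k N (Ar j) v))) = Y S U D := by
              unfold Y
              rw [e1]
              apply sum_congr rfl
              intro v hv
              have hz := rate_zero (k := k) hT (mem_inter.1 hv).1
              simp only [hz, mul_zero, neg_zero, Real.exp_zero, mul_one]
            rw [e2]
            simp
        have h7 := abs_add_le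
          (Y S (U \ G.biUnion id) (fun v => D v * Real.exp (-(s * rate n k N (Ar j) v))) - Y S U D)
          (Y S U D - Y S Bᶜ (fun _ => (1 : ℝ)))
        rw [sub_add_sub_cancel] at h7
        rw [mul_add]
        linarith
  obtain ⟨σ, F, hσ, hF1, hF2, hF3⟩ := claim J le_rfl
  obtain ⟨-, hfin1, hfin2, hfin3⟩ := hgood J le_rfl _ _ hF3
  refine ⟨F, hF1, hF2, ?_, ?_⟩
  · intro y
    have h5 := hfin1 y
    -- `D ≤ exp (-τ/2)`
    have h6 : ∀ v, Dj n k N Ar σ J v ≤ Real.exp (-(τ / 2)) := by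
      intro v
      unfold Dj
      apply Real.exp_le_exp.2
      have h7 : τ * ∑ i ∈ range J, rate n k N (Ar i) v ≤
          ∑ i ∈ range J, σ i * rate n k N (Ar i) v := by
        rw [mul_sum]
        apply sum_le_sum
        intro i hi
        exact mul_le_mul_of_nonneg_right (hσ i (mem_range.1 hi)).1 (AlmL.rate_nonneg _ _ _ _ _)
      rw [hsum v] at h7
      have h8 : (1 : ℝ) / 2 ≤ ((N : ℝ) - k) / N := by
        rw [div_le_div_iff₀ (by norm_num) hNR]
        linarith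
      have h9 : τ * (1 / 2) ≤ τ * (((N : ℝ) - k) / N) := mul_le_mul_of_nonneg_left h8 hτ.le
      linarith
    have h7 : (((B ∪ F.biUnion id)ᶜ ∩ win n k y).card : ℝ) ≤
        Real.exp (-(τ / 2)) * Y (win n k y) ((B ∪ F.biUnion id)ᶜ) (Dj n k N Ar σ J) := by
      unfold Y
      rw [mul_sum, inter_comm, card_eq_sum_ones]
      push_cast
      apply sum_le_sum
      intro v _
      have h8 : 0 < Dj n k N Ar σ J v := Real.exp_pos _
      have h9 := h6 v
      rw [← div_eq_mul_inv, le_div_iff₀ h8]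
      linarith
    refine h7.trans ?_
    have h8 : Real.exp (-(τ / 2)) * Y (win n k y) ((B ∪ F.biUnion id)ᶜ) (Dj n k N Ar σ J) ≤
        Real.exp (-(τ / 2)) * (2 * k) := mul_le_mul_of_nonneg_left h5 (Real.exp_pos _).le
    refine h8.trans ?_
    have h9 : Real.exp (-(τ / 2)) * (2 * k) = (2 * Real.exp (-(τ / 2))) * k := by ring
    rw [h9]
    exact mul_le_mul_of_nonneg_right hτδ hkR.le
  · intro z
    have hσ0 : ∀ i, i < J → 0 ≤ σ i ∧ σ i ≤ τ + 1 := fun i hi =>
      ⟨hτ.le.trans (hσ i hi).1, (hσ i hi).2⟩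
    rw [← hℓ]
    apply dense_final (θ' := 2 * (τ + 1) / N) hM ht hN₀ hε hε1 hγ0 hγt hγN hsl hℓ hk2
      (by positivity) ?_ _ (Dj n k N Ar σ J) ?_ ?_ hfin2 hfin3 z
    · have h5 : (N : ℝ) = M₀ * k := by rw [hN]; push_cast; rfl
      have h6 : ((L + 3 : ℕ) : ℝ) * k * (2 * (τ + 1) / N) =
          ((L : ℝ) + 3) * (2 * (τ + 1)) * k / (M₀ * k) := by
        rw [h5]; push_cast; ring
      rw [h6, div_le_iff₀ (by rw [← h5]; exact hNR)]
      nlinarith
    · intro v
      unfold Dj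
      apply Real.exp_le_exp.2
      have := hG0 J le_rfl σ hσ0 v
      linarith
    · intro v
      unfold Dj
      rw [← Real.exp_add, ← Real.exp_add]
      have := abs_le.1 (hG1 J le_rfl σ hσ0 v)
      constructor
      · apply Real.exp_le_exp.2
        linarith
      · apply Real.exp_le_exp.2
        linarith

end Pool.Agent.H48.PW
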