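import Pool.Agent.H48.PW.Stm
import Pool.Graph.R_pool_sql_team_seeded_1e53cb71.Helper83K9.CF.Base
import Pool.Graph.R_pool_sql_team_seeded_1e53cb71.Helper83K9.CF.Sel
import Pool.Graph.R_pool_sql_team_seeded_1e53cb71.Helper83K9.CF.Fam1

/-!
[APATH] absorbing pieces
-/

set_option autoImplicit false

namespace Pool.Agent.H48.PW

open Finset Pool.Agent.Helper83K9.CF

namespace APATHL

/-! ### Lists -/

section lists

variable {α : Type} {R : α → α → Prop} {t : ℕ}

theorem pw_left {A B : List α} (h : Pw R t (A ++ B)) : Pw R t A := by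
  intro i j x y hij hj hx hy
  have hi1 : i < A.length := (List.getElem?_eq_some_iff.1 hx).1
  have hj1 : j < A.length := (List.getElem?_eq_some_iff.1 hy).1
  exact h i j x y hij hj (by rw [List.getElem?_append_left hi1]; exact hx)
    (by rw [List.getElem?_append_left hj1]; exact hy)

theorem pw_right {A B : List α} (h : Pw R t (A ++ B)) : Pw R t B := by
  intro i j x y hij hj hx hy
  refine h (A.length + i) (A.length + j) x y (by omega) (by omega) ?_ ?_
  · rw [List.getElem?_append_right (by omega)]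
    simpa using hx
  · rw [List.getElem?_append_right (by omega)]
    simpa using hy

theorem pw_glue {A C B : List α} (hC : t ≤ C.length) (h1 : Pw R t (A ++ C))
    (h2 : Pw R t (C ++ B)) : Pw R t (A ++ C ++ B) := by
  intro i j x y hij hj hx hy
  by_cases h : j < (A ++ C).length
  · refine h1 i j x y hij hj ?_ ?_
    · rw [List.getElem?_append_left (by omega)] at hx
      exact hx
    · rw [List.getElem?_append_left h] at hy
      exact hy
  · rw [List.length_append] at h
    refine h2 (i - A.length) (j - A.length) x y (by omega) (by omega) ?_ ?_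
    · rw [List.append_assoc, List.getElem?_append_right (by omega)] at hx
      exact hx
    · rw [List.append_assoc, List.getElem?_append_right (by omega)] at hy
      exact hy

theorem pw_map {β : Type} {f : β → α} {l : List β} :
    Pw R t (l.map f) ↔ Pw (fun x y => R (f x) (f y)) t l := by
  constructor
  · intro h i j x y hij hj hx hy
    exact h i j (f x) (f y) hij hj (by rw [List.getElem?_map, hx]; rfl)
      (by rw [List.getElem?_map, hy]; rfl)
  · intro h i j x y hij hj hx hy
    rw [List.getElem?_map] at hx hy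
    obtain ⟨x', hx', rfl⟩ := Option.map_eq_some_iff.1 hx
    obtain ⟨y', hy', rfl⟩ := Option.map_eq_some_iff.1 hy
    exact h i j x' y' hij hj hx' hy'

theorem pw_congr {S : α → α → Prop} {l : List α} (h : ∀ x ∈ l, ∀ y ∈ l, R x y → S x y)
    (hl : Pw R t l) : Pw S t l := by
  intro i j x y hij hj hx hy
  exact h x (List.mem_of_getElem? hx) y (List.mem_of_getElem? hy) (hl i j x y hij hj hx hy)

theorem lastn_length {l : List α} (h : t ≤ l.length) : (lastn t l).length = t := by
  unfold lastn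
  rw [List.length_drop]
  omega

theorem take_append_lastn (l : List α) : l.take (l.length - t) ++ lastn t l = l :=
  List.take_append_drop _ _

theorem lastn_append {A B : List α} (h : t ≤ B.length) : lastn t (A ++ B) = lastn t B := by
  unfold lastn
  rw [List.length_append, show A.length + B.length - t = A.length + (B.length - t) by omega,
    List.drop_append]
  simp

theorem take_append' {A B : List α} (h : t ≤ A.length) : (A ++ B).take t = A.take t :=
  List.take_append_of_le_length h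

theorem mem_lastn {l : List α} {x : α} (h : x ∈ lastn t l) : x ∈ l := List.mem_of_mem_drop h

/-- joining of two pieces by a connection -/
theorem pw_join {P c A : List α} (hP : t ≤ P.length) (hA : t ≤ A.length) (h1 : Pw R t P)
    (h2 : Pw R t A) (h3 : Pw R t (lastn t P ++ c ++ A.take t)) : Pw R t (P ++ c ++ A) := by
  have h4 : Pw R t (P.take (P.length - t) ++ lastn t P ++ (c ++ A.take t)) := by
    refine pw_glue (lastn_length hP).ge ?_ ?_
    · rw [take_append_lastn]
      exact h1
    · rw [← List.append_assoc]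
      exact h3
  rw [take_append_lastn, ← List.append_assoc] at h4
  have h5 : Pw R t ((P ++ c) ++ A.take t ++ A.drop t) := by
    refine pw_glue (by rw [List.length_take]; omega) h4 ?_
    rw [List.take_append_drop]
    exact h2
  rw [List.append_assoc, List.take_append_drop] at h5
  exact h5

/-- the same first and last `t` entries -/
structure Sim (t : ℕ) (A B : List α) : Prop where
  l1 : t ≤ A.length
  l2 : t ≤ B.length
  fst : B.take t = A.take t
  lst : lastn t B = lastn t A

theorem sim_refl {A : List α} (h : t ≤ A.length) : Sim t A A := ⟨h, h, rfl, rfl⟩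

theorem sim_join {P P' c A A' : List α} (hP : Sim t P P') (hA : Sim t A A') :
    Sim t (P ++ c ++ A) (P' ++ c ++ A') := by
  have h1 := hP.l1
  have h2 := hP.l2
  refine ⟨by simp only [List.length_append]; omega, by simp only [List.length_append]; omega,
    ?_, ?_⟩
  · rw [List.append_assoc, List.append_assoc, take_append' h2, take_append' h1, hP.fst]
  · rw [lastn_append hA.l2, lastn_append hA.l1, hA.lst]

theorem mid_length {Q : List ℕ} {v : ℕ} (h : t ≤ Q.length) : (mid t Q v).length = Q.length + 1 := by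
  unfold mid
  rw [List.length_append, List.length_cons, List.length_take, List.length_drop]
  omega

theorem mid_take {Q : List ℕ} {v : ℕ} (h : t ≤ Q.length) : (mid t Q v).take t = Q.take t := by
  unfold mid
  rw [List.take_append_of_le_length (by rw [List.length_take]; omega), List.take_take, min_self]

theorem mid_lastn {Q : List ℕ} {v : ℕ} (h : Q.length = 2 * t) :
    lastn t (mid t Q v) = lastn t Q := by
  unfold mid
  have h1 : Q.take t ++ v :: Q.drop t = (Q.take t ++ [v]) ++ Q.drop t := by simp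
  rw [h1, lastn_append (by rw [List.length_drop]; omega)]
  unfold lastn
  rw [List.length_drop, h, List.drop_drop]
  congr 1
  omega

theorem mid_perm {Q : List ℕ} {v : ℕ} : (mid t Q v).Perm (v :: Q) := by
  unfold mid
  refine List.perm_middle.trans ?_
  rw [List.take_append_drop]

theorem vs_append {n : ℕ} (z : ZMod n) (A B : List ℕ) : vs z (A ++ B) = vs z A ++ vs z B := by
  unfold vs
  rw [List.map_append]

theorem mem_vs {n : ℕ} {z v : ZMod n} {A : List ℕ} : v ∈ vs z A ↔ ∃ p ∈ A, z + (p : ZMod n) = v := by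
  unfold vs
  rw [List.mem_map]

end lists


/-! ### Shifts -/

section shift

variable {n k t r m : ℕ} {M : ZMod n → Finset (ZMod n)} {z : ZMod n}

theorem la_shift {s x y : ℕ} (h : La n k M (z + (s : ZMod n)) x y) : La n k M z (s + x) (s + y) := by
  obtain ⟨h1, h2, h3⟩ := h
  refine ⟨by omega, by omega, ?_⟩
  push_cast
  rw [← add_assoc, ← add_assoc]
  exact h3

theorem pw_shift {s : ℕ} {l : List ℕ} (h : Pw (La n k M (z + (s : ZMod n))) t l) :
    Pw (La n k M z) t (l.map (fun p => s + p)) := by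
  rw [pw_map]
  exact pw_congr (fun x _ y _ => la_shift) h

theorem mid_map {f : ℕ → ℕ} {Q : List ℕ} {v : ℕ} : mid t (Q.map f) (f v) = (mid t Q v).map f := by
  unfold mid
  rw [List.map_append, List.map_cons, List.map_take, List.map_drop]

theorem row_map {f : ℕ → ℕ} {g : IA t r → ℕ} (i : Fin (r + 1)) :
    row (fun j => f (g j)) i = (row g i).map f := by
  unfold row
  rw [List.map_ofFn]
  rfl

theorem absb_shift {s : ℕ} {g : IA t r → ℕ} (h : Absb n k t r M (z + (s : ZMod n)) g) :
    Absb n k t r M z (fun i => s + g i) := by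
  refine ⟨?_, ?_, ?_, ?_⟩
  · intro i j hij
    refine h.inj ?_
    simp only [Nat.cast_add, ← add_assoc] at hij
    exact hij
  · intro i
    rw [row_map (f := fun p => s + p), mid_map (f := fun p => s + p)]
    exact pw_shift (h.self i)
  · intro i
    rw [row_map (f := fun p => s + p), mid_map (f := fun p => s + p)]
    exact pw_shift (h.next i)
  · rw [row_map (f := fun p => s + p)]
    exact pw_shift h.last

theorem hit_shift {s : ℕ} {g : IA t r → ℕ} {x : ℕ} (h : Hit n k t r M (z + (s : ZMod n)) g x) :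
    Hit n k t r M z (fun i => s + g i) (s + x) := by
  unfold Hit
  rw [row_map (f := fun p => s + p), mid_map (f := fun p => s + p)]
  exact pw_shift h

end shift

/-! ### Pieces and their connection -/

section seg

variable {n k t r m : ℕ} {M : ZMod n → Finset (ZMod n)} {z : ZMod n} {E Dc W : ℕ}

/-- connections outside of all thin sets -/
def CN (n k t : ℕ) (M : ZMod n → Finset (ZMod n)) (z : ZMod n) (E Dc W : ℕ) (b : ℝ) : Prop :=
  ∀ F : Finset (ZMod n), Thin n k b F → ∀ a a' : List ℕ, a.length = t → a'.length = t →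
    (∀ p ∈ a, E * k ≤ p ∧ p < (E + Dc) * k) → (∀ p ∈ a', E * k ≤ p ∧ p < (E + Dc) * k) →
    Pw (La n k M z) t a → Pw (La n k M z) t a' →
    ∃ c : List ℕ, c.length ≤ W ∧ (∀ p ∈ c, p < (Dc + 2 * E) * k ∧ z + (p : ZMod n) ∉ F) ∧
      (vs z c).Nodup ∧ Pw (La n k M z) t (a ++ c ++ a')

/-- a piece with central ends which avoids `F` -/
structure Seg (n k t : ℕ) (M : ZMod n → Finset (ZMod n)) (z : ZMod n) (E Dc : ℕ)
    (F : Finset (ZMod n)) (A : List ℕ) : Prop where
  len : t ≤ A.length
  bd : ∀ p ∈ A, p < (Dc + 2 * E) * k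
  pw : Pw (La n k M z) t A
  nd : (vs z A).Nodup
  av : ∀ p ∈ A, z + (p : ZMod n) ∉ F
  fst : ∀ p ∈ A.take t, E * k ≤ p ∧ p < (E + Dc) * k
  lst : ∀ p ∈ lastn t A, E * k ≤ p ∧ p < (E + Dc) * k

theorem seg_mono {F F' : Finset (ZMod n)} {A : List ℕ} (h : Seg n k t M z E Dc F A)
    (hF : F' ⊆ F) : Seg n k t M z E Dc F' A :=
  ⟨h.len, h.bd, h.pw, h.nd, fun p hp hh => h.av p hp (hF hh), h.fst, h.lst⟩

theorem card_vs_le (A : List ℕ) : ((vs z A).toFinset.card) ≤ A.length := by
  refine (List.toFinset_card_le _).trans ?_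
  unfold vs
  rw [List.length_map]

theorem seg_join {b b' : ℝ} {F : Finset (ZMod n)} {A₁ A₂ : List ℕ} {G : Finset (ZMod n)}
    (hc : CN n k t M z E Dc W b) (hF : Thin n k b' F)
    (h1 : Seg n k t M z E Dc F A₁) (h2 : Seg n k t M z E Dc F A₂)
    (hd : ∀ v ∈ vs z A₁, v ∉ vs z A₂)
    (hb : b' + (A₁.length + A₂.length + G.card : ℕ) ≤ b) :
    ∃ c : List ℕ, c.length ≤ W ∧ (∀ p ∈ c, z + (p : ZMod n) ∉ G) ∧
      Pw (La n k M z) t (lastn t A₁ ++ c ++ A₂.take t) ∧
      Seg n k t M z E Dc F (A₁ ++ c ++ A₂) := by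
  classical
  have hthin : Thin n k b (F ∪ ((vs z A₁).toFinset ∪ (vs z A₂).toFinset ∪ G)) := by
    refine thin_mono (thin_union hF (thin_of_card (n := n) (k := k)
      (B := (vs z A₁).toFinset ∪ (vs z A₂).toFinset ∪ G) (b := (A₁.length + A₂.length + G.card : ℕ))
      ?_)) hb (Subset.refl _)
    have h3 := card_union_le ((vs z A₁).toFinset ∪ (vs z A₂).toFinset) G
    have h4 := card_union_le (vs z A₁).toFinset (vs z A₂).toFinset
    have h5 := card_vs_le (z := z) A₁
    have h6 := card_vs_le (z := z) A₂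
    exact_mod_cast (by omega : ((vs z A₁).toFinset ∪ (vs z A₂).toFinset ∪ G).card ≤
      A₁.length + A₂.length + G.card)
  obtain ⟨c, hc1, hc2, hc3, hc4⟩ := hc _ hthin (lastn t A₁) (A₂.take t) (lastn_length h1.len)
    (by rw [List.length_take]; have := h2.len; omega) h1.lst h2.fst
    (by
      have := h1.pw
      rw [← take_append_lastn (t := t) A₁] at this
      exact pw_right this)
    (by
      have := h2.pw
      rw [← List.take_append_drop t A₂] at this
      exact pw_left this)
  have hcF : ∀ p ∈ c, z + (p : ZMod n) ∉ F ∧ z + (p : ZMod n) ∉ vs z A₁ ∧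
      z + (p : ZMod n) ∉ vs z A₂ ∧ z + (p : ZMod n) ∉ G := by
    intro p hp
    have := (hc2 p hp).2
    simp only [mem_union, List.mem_toFinset, not_or] at this
    exact ⟨this.1, this.2.1.1, this.2.1.2, this.2.2⟩
  refine ⟨c, hc1, fun p hp => (hcF p hp).2.2.2, hc4, ?_, ?_, ?_, ?_, ?_, ?_, ?_⟩
  · simp only [List.length_append]
    have := h1.len
    omega
  · intro p hp
    simp only [List.mem_append] at hp
    rcases hp with (hp | hp) | hp
    · exact h1.bd p hp
    · exact (hc2 p hp).1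
    · exact h2.bd p hp
  · exact pw_join h1.len h2.len h1.pw h2.pw hc4
  · rw [vs_append, vs_append, List.nodup_append, List.nodup_append]
    refine ⟨⟨h1.nd, hc3, ?_⟩, h2.nd, ?_⟩
    · intro v hv w hw hvw
      subst hvw
      obtain ⟨p, hp, rfl⟩ := mem_vs.1 hw
      exact (hcF p hp).2.1 hv
    · intro v hv w hw hvw
      subst hvw
      rcases List.mem_append.1 hv with hv | hv
      · exact hd _ hv hw
      · obtain ⟨p, hp, rfl⟩ := mem_vs.1 hv
        exact (hcF p hp).2.2.1 hw
  · intro p hp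
    simp only [List.mem_append] at hp
    rcases hp with (hp | hp) | hp
    · exact h1.av p hp
    · exact (hcF p hp).1
    · exact h2.av p hp
  · rw [List.append_assoc, take_append' h1.len]
    exact h1.fst
  · rw [lastn_append h2.len]
    exact h2.lst

/-! ### Completion of an absorber -/

/-- the row of an index -/
def idx : IA t r → ℕ
  | Sum.inl (i, _) => i
  | Sum.inr i => i

theorem mem_row {g : IA t r → ℕ} {i : Fin (r + 1)} {p : ℕ} :
    p ∈ row g i ↔ ∃ a, g (Sum.inl (i, a)) = p := by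
  unfold row
  rw [List.mem_ofFn]

theorem row_length {g : IA t r → ℕ} {i : Fin (r + 1)} : (row g i).length = 2 * t := by
  unfold row
  rw [List.length_ofFn]

theorem vs_row_nodup {g : IA t r → ℕ} (hg : Function.Injective (fun i => z + (g i : ZMod n)))
    (i : Fin (r + 1)) : (vs z (row g i)).Nodup := by
  unfold vs row
  rw [List.map_ofFn, List.nodup_ofFn]
  intro a a' h
  have := hg h
  simpa using this

theorem vs_mid_nodup {g : IA t r → ℕ} (hg : Function.Injective (fun i => z + (g i : ZMod n)))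
    (i : Fin (r + 1)) (j : Fin r) : (vs z (mid t (row g i) (g (Sum.inr j)))).Nodup := by
  have h1 : (vs z (mid t (row g i) (g (Sum.inr j)))).Perm (vs z (g (Sum.inr j) :: row g i)) :=
    mid_perm.map _
  rw [h1.nodup_iff]
  unfold vs
  rw [List.map_cons, List.nodup_cons]
  refine ⟨?_, vs_row_nodup hg i⟩
  intro h
  obtain ⟨p, hp, hpe⟩ := List.mem_map.1 h
  obtain ⟨a, rfl⟩ := mem_row.1 hp
  have := hg hpe
  simp at this

theorem seg_mid {F : Finset (ZMod n)} {g : IA t r → ℕ}
    (hg : Function.Injective (fun i => z + (g i : ZMod n)))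
    (hcen : ∀ i, E * k ≤ g i ∧ g i < (E + Dc) * k) (hF : ∀ i, z + (g i : ZMod n) ∉ F)
    (i : Fin (r + 1)) (j : Fin r)
    (hpw : Pw (La n k M z) t (mid t (row g i) (g (Sum.inr j)))) :
    Seg n k t M z E Dc F (mid t (row g i) (g (Sum.inr j))) := by
  have hl : (row g i).length = 2 * t := row_length
  have hmem : ∀ p ∈ mid t (row g i) (g (Sum.inr j)), ∃ q, g q = p := by
    intro p hp
    have := mid_perm.mem_iff.1 hp
    rcases List.mem_cons.1 this with h | h
    · exact ⟨_, h.symm⟩
    · obtain ⟨a, ha⟩ := mem_row.1 h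
      exact ⟨_, ha⟩
  refine ⟨?_, ?_, hpw, vs_mid_nodup hg i j, ?_, ?_, ?_⟩
  · rw [mid_length (by omega)]
    omega
  · intro p hp
    obtain ⟨q, rfl⟩ := hmem p hp
    have := (hcen q).2
    have h3 : (E + Dc) * k ≤ (Dc + 2 * E) * k := Nat.mul_le_mul_right k (by omega)
    omega
  · intro p hp
    obtain ⟨q, rfl⟩ := hmem p hp
    exact hF q
  · intro p hp
    obtain ⟨q, rfl⟩ := hmem p (List.mem_of_mem_take hp)
    exact hcen q
  · intro p hp
    obtain ⟨q, rfl⟩ := hmem p (mem_lastn hp)
    exact hcen q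

theorem seg_row {F : Finset (ZMod n)} {g : IA t r → ℕ}
    (hg : Function.Injective (fun i => z + (g i : ZMod n)))
    (hcen : ∀ i, E * k ≤ g i ∧ g i < (E + Dc) * k) (hF : ∀ i, z + (g i : ZMod n) ∉ F)
    (i : Fin (r + 1)) (hpw : Pw (La n k M z) t (row g i)) :
    Seg n k t M z E Dc F (row g i) := by
  have hl : (row g i).length = 2 * t := row_length
  have hmem : ∀ p ∈ row g i, ∃ q, g q = p := by
    intro p hp
    obtain ⟨a, ha⟩ := mem_row.1 hp
    exact ⟨_, ha⟩
  refine ⟨by omega, ?_, hpw, vs_row_nodup hg i, ?_, ?_, ?_⟩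
  · intro p hp
    obtain ⟨q, rfl⟩ := hmem p hp
    have := (hcen q).2
    have h3 : (E + Dc) * k ≤ (Dc + 2 * E) * k := Nat.mul_le_mul_right k (by omega)
    omega
  · intro p hp
    obtain ⟨q, rfl⟩ := hmem p hp
    exact hF q
  · intro p hp
    obtain ⟨q, rfl⟩ := hmem p (List.mem_of_mem_take hp)
    exact hcen q
  · intro p hp
    obtain ⟨q, rfl⟩ := hmem p (mem_lastn hp)
    exact hcen q

theorem mem_mid_idx {g : IA t r → ℕ} {i : Fin (r + 1)} {j : Fin r} {p : ℕ} (hij : (j : ℕ) ≤ i)
    (hp : p ∈ mid t (row g i) (g (Sum.inr j))) : ∃ q, idx q ≤ (i : ℕ) ∧ g q = p := by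
  have := mid_perm.mem_iff.1 hp
  rcases List.mem_cons.1 this with h | h
  · exact ⟨Sum.inr j, hij, h.symm⟩
  · obtain ⟨a, ha⟩ := mem_row.1 h
    exact ⟨Sum.inl (i, a), le_rfl, ha⟩

theorem mem_mid_row {g : IA t r → ℕ} {i : Fin (r + 1)} {j : Fin r} {p : ℕ}
    (hp : p ∈ mid t (row g i) (g (Sum.inr j))) :
    p = g (Sum.inr j) ∨ ∃ a, g (Sum.inl (i, a)) = p := by
  have := mid_perm.mem_iff.1 hp
  rcases List.mem_cons.1 this with h | h
  · exact Or.inl h
  · exact Or.inr (mem_row.1 h)

/-- the stages of the completion of an absorber -/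
theorem chain {b b' : ℝ} {F : Finset (ZMod n)} {g : IA t r → ℕ}
    (hc : CN n k t M z E Dc W b) (hF : Thin n k b' F) (hA : Absb n k t r M z g)
    (hcen : ∀ i, E * k ≤ g i ∧ g i < (E + Dc) * k) (hav : ∀ i, z + (g i : ZMod n) ∉ F)
    (hb : b' + ((r + 1) * (2 * t + 1 + W) + (2 * t + 1) + Fintype.card (IA t r) : ℕ) ≤ b) :
    ∀ (j : ℕ) (hj : j < r), ∃ A : List ℕ, Seg n k t M z E Dc F A ∧
      A.length ≤ (j + 1) * (2 * t + 1 + W) ∧
      (∀ p ∈ A, (∃ i : IA t r, idx i ≤ j ∧ g i = p) ∨
        (∀ i, z + (p : ZMod n) ≠ z + (g i : ZMod n))) ∧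
      ∀ x, Hit n k t r M z g x → ∃ A' : List ℕ, Sim t A A' ∧ Pw (La n k M z) t A' ∧
        (g (Sum.inr ⟨j, hj⟩) :: A').Perm (x :: A) := by
  classical
  intro j
  induction j with
  | zero =>
    intro hj
    have hs := hA.self ⟨0, hj⟩
    refine ⟨mid t (row g (Fin.castSucc ⟨0, hj⟩)) (g (Sum.inr ⟨0, hj⟩)),
      seg_mid hA.inj hcen hav _ _ hs, ?_, ?_, ?_⟩
    · rw [mid_length (by rw [row_length]; omega), row_length]
      omega
    · intro p hp
      exact Or.inl (mem_mid_idx (by simp) hp)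
    · intro x hx
      refine ⟨mid t (row g 0) x, ?_, hx, ?_⟩
      · have h0 : (Fin.castSucc (⟨0, hj⟩ : Fin r)) = 0 := rfl
        rw [h0]
        refine ⟨?_, ?_, ?_, ?_⟩
        · rw [mid_length (by rw [row_length]; omega), row_length]
          omega
        · rw [mid_length (by rw [row_length]; omega), row_length]
          omega
        · rw [mid_take (by rw [row_length]; omega), mid_take (by rw [row_length]; omega)]
        · rw [mid_lastn row_length, mid_lastn row_length]
      · have h0 : (Fin.castSucc (⟨0, hj⟩ : Fin r)) = 0 := rfl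
        rw [h0]
        refine (List.Perm.cons _ mid_perm).trans ?_
        refine (List.Perm.swap _ _ _).trans ?_
        exact List.Perm.cons _ mid_perm.symm
  | succ j ih =>
    intro hj
    obtain ⟨A, hA1, hA2, hA3, hA4⟩ := ih (by omega)
    have hs := hA.self ⟨j + 1, hj⟩
    have hnx := hA.next ⟨j, by omega⟩
    have hrow : (Fin.castSucc (⟨j + 1, hj⟩ : Fin r)) = Fin.succ ⟨j, by omega⟩ := rfl
    rw [hrow] at hs
    have hS2 := seg_mid (F := F) (Dc := Dc) (E := E) hA.inj hcen hav (Fin.succ ⟨j, by omega⟩)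
      ⟨j + 1, hj⟩ hs
    have hdis : ∀ v ∈ vs z A, v ∉ vs z (mid t (row g (Fin.succ ⟨j, by omega⟩))
        (g (Sum.inr ⟨j + 1, hj⟩))) := by
      intro v hv hv'
      obtain ⟨p, hp, rfl⟩ := mem_vs.1 hv
      obtain ⟨q, hq, hpq⟩ := mem_vs.1 hv'
      obtain ⟨i', hi', rfl⟩ : ∃ i' : IA t r, idx i' = j + 1 ∧ g i' = q := by
        rcases mem_mid_row hq with h | ⟨a, h⟩
        · exact ⟨_, rfl, h.symm⟩
        · exact ⟨Sum.inl (Fin.succ ⟨j, by omega⟩, a), rfl, h⟩
      rcases hA3 p hp with ⟨i, hi, rfl⟩ | h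
      · have := hA.inj hpq
        subst this
        omega
      · exact h _ hpq.symm
    obtain ⟨c, hc1, hc2, hc3, hc4⟩ := seg_join (G := univ.image (fun i => z + (g i : ZMod n))) hc hF
      hA1 hS2 hdis (by
        refine le_trans (add_le_add_right (Nat.cast_le.2 ?_) _) hb
        have h1 : (univ.image (fun i => z + (g i : ZMod n))).card ≤ Fintype.card (IA t r) :=
          card_image_le.trans card_univ.le
        have h2 : (mid t (row g (Fin.succ ⟨j, by omega⟩)) (g (Sum.inr ⟨j + 1, hj⟩))).length =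
          2 * t + 1 := by
          rw [mid_length (by rw [row_length]; omega), row_length]
        have h3 : (j + 1) * (2 * t + 1 + W) ≤ (r + 1) * (2 * t + 1 + W) :=
          Nat.mul_le_mul_right _ (by omega)
        omega)
    refine ⟨_, hc4, ?_, ?_, ?_⟩
    · simp only [List.length_append]
      rw [mid_length (by rw [row_length]; omega), row_length]
      have : (j + 1 + 1) * (2 * t + 1 + W) = (j + 1) * (2 * t + 1 + W) + (2 * t + 1 + W) := by ring
      omega
    · intro p hp
      simp only [List.mem_append] at hp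
      rcases hp with (hp | hp) | hp
      · rcases hA3 p hp with ⟨i, hi, hip⟩ | h
        · exact Or.inl ⟨i, by omega, hip⟩
        · exact Or.inr h
      · refine Or.inr fun i h => hc2 p hp ?_
        rw [h]
        exact mem_image_of_mem _ (mem_univ i)
      · exact Or.inl (mem_mid_idx (by simp) hp)
    · intro x hx
      obtain ⟨A', hs', hp', hperm⟩ := hA4 x hx
      have hsim2 : Sim t (mid t (row g (Fin.succ ⟨j, by omega⟩)) (g (Sum.inr ⟨j + 1, hj⟩)))
          (mid t (row g (Fin.succ ⟨j, by omega⟩)) (g (Sum.inr ⟨j, by omega⟩))) := by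
        refine ⟨?_, ?_, ?_, ?_⟩
        · rw [mid_length (by rw [row_length]; omega), row_length]
          omega
        · rw [mid_length (by rw [row_length]; omega), row_length]
          omega
        · rw [mid_take (by rw [row_length]; omega), mid_take (by rw [row_length]; omega)]
        · rw [mid_lastn row_length, mid_lastn row_length]
      refine ⟨A' ++ c ++ mid t (row g (Fin.succ ⟨j, by omega⟩)) (g (Sum.inr ⟨j, by omega⟩)),
        sim_join hs' hsim2, ?_, ?_⟩
      · refine pw_join hs'.l2 hsim2.l2 hp' hnx ?_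
        rw [hs'.lst, hsim2.fst]
        exact hc3
      · rw [List.perm_iff_count] at hperm ⊢
        intro y
        have h1 := hperm y
        have h2 := (mid_perm (t := t) (Q := row g (Fin.succ ⟨j, by omega⟩))
          (v := g (Sum.inr ⟨j + 1, hj⟩))).count_eq y
        have h3 := (mid_perm (t := t) (Q := row g (Fin.succ ⟨j, by omega⟩))
          (v := g (Sum.inr ⟨j, by omega⟩))).count_eq y
        simp only [List.count_cons, List.count_append] at h1 h2 h3 ⊢
        omega

/-- the completion of an absorber -/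
theorem complete {b b' : ℝ} {F : Finset (ZMod n)} {g : IA t r → ℕ} (hr : 1 ≤ r)
    (hc : CN n k t M z E Dc W b) (hF : Thin n k b' F) (hA : Absb n k t r M z g)
    (hcen : ∀ i, E * k ≤ g i ∧ g i < (E + Dc) * k) (hav : ∀ i, z + (g i : ZMod n) ∉ F)
    (hb : b' + ((r + 1) * (2 * t + 1 + W) + (2 * t + 1) + Fintype.card (IA t r) : ℕ) ≤ b) :
    ∃ A : List ℕ, Seg n k t M z E Dc F A ∧ A.length ≤ (r + 1) * (2 * t + 1 + W) ∧
      ∀ x, Hit n k t r M z g x → ∃ A' : List ℕ, Sim t A A' ∧ Pw (La n k M z) t A' ∧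
        A'.Perm (x :: A) := by
  classical
  obtain ⟨A, hA1, hA2, hA3, hA4⟩ := chain hc hF hA hcen hav hb (r - 1) (by omega)
  have hnx := hA.next ⟨r - 1, by omega⟩
  have hrow : Fin.succ (⟨r - 1, by omega⟩ : Fin r) = Fin.last r := by
    ext
    simp
    omega
  rw [hrow] at hnx
  have hS2 := seg_row (F := F) (Dc := Dc) (E := E) hA.inj hcen hav (Fin.last r) hA.last
  have hdis : ∀ v ∈ vs z A, v ∉ vs z (row g (Fin.last r)) := by
    intro v hv hv'
    obtain ⟨p, hp, rfl⟩ := mem_vs.1 hv
    obtain ⟨q, hq, hpq⟩ := mem_vs.1 hv'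
    obtain ⟨a, rfl⟩ := mem_row.1 hq
    rcases hA3 p hp with ⟨i, hi, rfl⟩ | h
    · have := hA.inj hpq
      subst this
      simp only [idx, Fin.val_last] at hi
      omega
    · exact h _ hpq.symm
  obtain ⟨c, hc1, hc2, hc3, hc4⟩ := seg_join (G := ∅) hc hF
    hA1 hS2 hdis (by
      refine le_trans (add_le_add_right (Nat.cast_le.2 ?_) _) hb
      have h2 : (row g (Fin.last r)).length = 2 * t := row_length
      have h3 : (r - 1 + 1) * (2 * t + 1 + W) ≤ (r + 1) * (2 * t + 1 + W) :=
        Nat.mul_le_mul_right _ (by omega)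
      rw [card_empty]
      omega)
  refine ⟨_, hc4, ?_, ?_⟩
  · simp only [List.length_append]
    rw [row_length]
    have h4 : (r + 1) * (2 * t + 1 + W) = (r - 1 + 1) * (2 * t + 1 + W) + (2 * t + 1 + W) := by
      rw [Nat.sub_add_cancel hr]
      ring
    omega
  · intro x hx
    obtain ⟨A', hs', hp', hperm⟩ := hA4 x hx
    have hsim2 : Sim t (row g (Fin.last r)) (mid t (row g (Fin.last r))
        (g (Sum.inr ⟨r - 1, by omega⟩))) := by
      refine ⟨?_, ?_, ?_, ?_⟩
      · rw [row_length]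
        omega
      · rw [mid_length (by rw [row_length]; omega), row_length]
        omega
      · rw [mid_take (by rw [row_length]; omega)]
      · rw [mid_lastn row_length]
    refine ⟨A' ++ c ++ mid t (row g (Fin.last r)) (g (Sum.inr ⟨r - 1, by omega⟩)),
      sim_join hs' hsim2, ?_, ?_⟩
    · refine pw_join hs'.l2 hsim2.l2 hp' hnx ?_
      rw [hs'.lst, hsim2.fst]
      exact hc3
    · rw [List.perm_iff_count] at hperm ⊢
      intro y
      have h1 := hperm y
      have h3 := (mid_perm (t := t) (Q := row g (Fin.last r))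
        (v := g (Sum.inr ⟨r - 1, by omega⟩))).count_eq y
      simp only [List.count_cons, List.count_append] at h1 h3 ⊢
      omega

end seg

/-! ### Selection -/

section select

variable {n k t r m : ℕ} {M : ZMod n → Finset (ZMod n)} {z : ZMod n} {E Dc W : ℕ}

/-- the piece `P` can be continued by `c ++ A`, where `A` can be changed for every hit -/
def Cmp (n k t r : ℕ) (M : ZMod n → Finset (ZMod n)) (z : ZMod n) (E Dc W : ℕ)
    (B : Finset (ZMod n)) (P : List ℕ) (g : IA t r → ℕ) (c A : List ℕ) : Prop :=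
  c.length ≤ W ∧ A.length ≤ (r + 1) * (2 * t + 1 + W) ∧ Seg n k t M z E Dc B (P ++ c ++ A) ∧
    t ≤ A.length ∧ Pw (La n k M z) t (lastn t P ++ c ++ A.take t) ∧
    ∀ x, Hit n k t r M z g x → ∃ A' : List ℕ, Sim t A A' ∧ Pw (La n k M z) t A' ∧
      A'.Perm (x :: A)

theorem cmp_exists {b b' : ℝ} {B : Finset (ZMod n)} {P : List ℕ} {g : IA t r → ℕ} (hr : 1 ≤ r)
    (hc : CN n k t M z E Dc W b) (hB : Thin n k b' B) (hP : Seg n k t M z E Dc B P)
    (hA : Absb n k t r M z g)
    (hcen : ∀ i, E * k ≤ g i ∧ g i < (E + Dc) * k) (hav : ∀ i, z + (g i : ZMod n) ∉ B)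
    (hav' : ∀ i, z + (g i : ZMod n) ∉ vs z P)
    (hb : b' + (P.length + ((r + 1) * (2 * t + 1 + W) + (2 * t + 1) +
      Fintype.card (IA t r)) : ℕ) ≤ b) :
    ∃ c A : List ℕ, Cmp n k t r M z E Dc W B P g c A := by
  classical
  have hth : Thin n k (b' + P.length) (B ∪ (vs z P).toFinset) :=
    thin_union hB (thin_of_card (by exact_mod_cast card_vs_le P))
  obtain ⟨A, hA1, hA2, hA3⟩ := complete (F := B ∪ (vs z P).toFinset) hr hc hth hA hcen
    (by
      intro i hi
      rcases mem_union.1 hi with h | h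
      · exact hav i h
      · exact hav' i (List.mem_toFinset.1 h))
    (by
      push_cast at hb ⊢
      linarith)
  have hdis : ∀ v ∈ vs z P, v ∉ vs z A := by
    intro v hv hv'
    obtain ⟨p, hp, rfl⟩ := mem_vs.1 hv'
    exact hA1.av p hp (mem_union_right _ (List.mem_toFinset.2 hv))
  obtain ⟨c, hc1, hc2, hc3, hc4⟩ := seg_join (G := ∅) hc hB hP
    (seg_mono hA1 subset_union_left) hdis (by
      refine le_trans (add_le_add_right (Nat.cast_le.2 ?_) _) hb
      rw [card_empty]
      omega)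
  exact ⟨c, A, hc1, hA2, hc4, hA1.len, hc3, hA3⟩

/-- simultaneous replacement -/
theorem replace {B : Finset (ZMod n)} {R : ℕ} {st : ℕ → List ℕ} {g : ℕ → IA t r → ℕ}
    {c A : ℕ → List ℕ} (h0 : Seg n k t M z E Dc B (st 0))
    (hst : ∀ i < R, st (i + 1) = st i ++ c i ++ A i)
    (hcmp : ∀ i < R, Cmp n k t r M z E Dc W B (st i) (g i) (c i) (A i))
    (f : ℕ → Option ℕ) :
    ∀ i ≤ R, (∀ j < i, ∀ x, f j = some x → Hit n k t r M z (g j) x) →
      ∃ P' : List ℕ, Pw (La n k M z) t P' ∧ Sim t (st i) P' ∧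
        P'.Perm ((List.range i).filterMap f ++ st i) := by
  intro i
  induction i with
  | zero =>
    intro _ _
    exact ⟨st 0, h0.pw, sim_refl h0.len, by simp⟩
  | succ i ih =>
    intro hi hf
    obtain ⟨P', hP1, hP2, hP3⟩ := ih (by omega) (fun j hj => hf j (by omega))
    obtain ⟨hc1, hc2, hc3, hc4, hc5, hc6⟩ := hcmp i (by omega)
    have hPi : Pw (La n k M z) t (st i ++ c i ++ A i) := hc3.pw
    have hAi : Pw (La n k M z) t (A i) := pw_right hPi
    obtain ⟨A', hA1, hA2, hA3⟩ : ∃ A' : List ℕ, Sim t (A i) A' ∧ Pw (La n k M z) t A' ∧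
        A'.Perm ((f i).toList ++ A i) := by
      cases hfi : f i with
      | none => exact ⟨A i, sim_refl hc4, hAi, by simp⟩
      | some x =>
        obtain ⟨A', h1, h2, h3⟩ := hc6 x (hf i (by omega) x hfi)
        exact ⟨A', h1, h2, by simpa using h3⟩
    refine ⟨P' ++ c i ++ A', ?_, ?_, ?_⟩
    · refine pw_join hP2.l2 hA1.l2 hP1 hA2 ?_
      rw [hP2.lst, hA1.fst]
      exact hc5
    · rw [hst i (by omega)]
      exact sim_join hP2 hA1
    · rw [hst i (by omega), List.range_succ, List.filterMap_append]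
      have h4 : List.filterMap f [i] = (f i).toList := by
        cases hfi : f i <;> simp [hfi]
      rw [h4, List.perm_iff_count] at *
      intro y
      have h5 := hP3 y
      have h6 := hA3 y
      simp only [List.count_append] at h5 h6 ⊢
      omega

end select

end APATHL

open APATHL

open Classical in
theorem apath (h1 : S_THD) (h2 : S_CONN2) (h3 : S_ABSC) : S_APATH := by
  intro t ε ht hε hε1
  obtain ⟨E, N₁, hconn⟩ := h2 t (ε / 2) ht (by positivity) (by linarith)
  obtain ⟨r, D₀, β₂, c₀, k₂, hr, hβ₂, hc₀, habs⟩ := h3 t ε ht hε hε1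
  obtain ⟨W, hconn2⟩ := hconn (max N₁ 1) (le_max_left _ _) (2 * D₀ + 1)
  have hN₀ : (0 : ℝ) < ((max N₁ 1 : ℕ) : ℝ) := by
    exact_mod_cast lt_of_lt_of_le Nat.one_pos (le_max_right N₁ 1)
  obtain ⟨k₁, hconn3⟩ := hconn2 (1 / (2 * ((max N₁ 1 : ℕ) : ℝ))) (by positivity)
  obtain ⟨β₃, hβ₃, k₃, hthd⟩ := h1 t (max N₁ 1) ε ht (le_max_right _ _) hε hε1
  set b : ℝ := min β₂ β₃ with hb
  have hb0 : 0 < b := lt_min hβ₂ hβ₃
  refine ⟨D₀ + E, b / 4, by positivity, ?_⟩
  intro γ hγ
  set γ' : ℝ := min γ (b / 4) with hγ'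
  have hγ'0 : 0 < γ' := lt_min hγ (by positivity)
  set a : ℕ := (r + 1) * (2 * t + 1 + W) + W + 1 with ha
  set a₁ : ℕ := (r + 1) * (2 * t + 1 + W) + (2 * t + 1) + Fintype.card (IA t r) with ha₁
  have har : (0 : ℝ) < a := by
    have : 0 < a := by omega
    exact_mod_cast this
  set e : ℕ := Fintype.card (IA t r) with he
  set c : ℝ := c₀ / ((2 * D₀ + 1 : ℕ) : ℝ) ^ e with hc
  have hc1 : 0 < c := by positivity
  obtain ⟨k₄, hk₄⟩ := Fam1L.log_small (c * γ' / (8 * a)) 1 (c / 2) (by positivity) (by positivity)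
  obtain ⟨k₅, hk₅⟩ := exists_nat_ge ((2 * t : ℕ) / (γ' / 2))
  obtain ⟨k₆, hk₆⟩ := exists_nat_ge ((a₁ : ℝ) / (b / 4))
  refine ⟨c * γ' / (8 * a), k₁ + k₂ + k₃ + k₄ + k₅ + k₆, by positivity, ?_⟩
  intro n k m _ M hM hk hsl z B hB
  have hkpos : 1 ≤ k := hM.kpos
  have hkn : 2 * k + 1 ≤ n := hM.size
  have hkr : (1 : ℝ) ≤ k := by exact_mod_cast hkpos
  have hk5 : ((2 * t : ℕ) : ℝ) ≤ γ' / 2 * k := by
    have h4 : ((2 * t : ℕ) : ℝ) / (γ' / 2) ≤ k := hk₅.trans (by exact_mod_cast (by omega : k₅ ≤ k))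
    rw [div_le_iff₀ (by positivity)] at h4
    linarith
  have hk6 : (a₁ : ℝ) ≤ b / 4 * k := by
    have h4 : (a₁ : ℝ) / (b / 4) ≤ k := hk₆.trans (by exact_mod_cast (by omega : k₆ ≤ k))
    rw [div_le_iff₀ (by positivity)] at h4
    linarith
  have hγ'b : γ' * k ≤ b / 4 * k := mul_le_mul_of_nonneg_right (min_le_right _ _) (by positivity)
  -- connections
  have hCN : CN n k t M z E (2 * D₀ + 1) W (b * k) := by
    intro F hF a a' ha ha' hca hca' hpa hpa'
    obtain ⟨σ, hσ, hD⟩ := hthd n k m M hM (by omega) hsl F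
      (thin_mono hF (mul_le_mul_of_nonneg_right (min_le_right _ _) (by positivity)) (Subset.refl _))
    obtain ⟨c', h5, h6, h7, h8⟩ := hconn3 n k m M hM (by omega) σ z Fᶜ hσ (hD z _) a a' ha ha'
      hca hca' hpa hpa'
    exact ⟨c', h5, fun p hp => ⟨(h6 p hp).1, by simpa using (h6 p hp).2⟩, h7, h8⟩
  set z' : ZMod n := z + ((E * k : ℕ) : ZMod n) with hz'
  let sh : (IA t r → ℕ) → (IA t r → ℕ) := fun g i => E * k + g i
  -- central candidates
  let C : Finset (IA t r → ℕ) := Fintype.piFinset (fun _ : IA t r => range ((2 * D₀ + 1) * k))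
  have hCcard : (C.card : ℝ) = (((2 * D₀ + 1 : ℕ) : ℝ) * k) ^ e := by
    change (((Fintype.piFinset (fun _ : IA t r => range ((2 * D₀ + 1) * k))).card : ℕ) : ℝ) = _
    rw [Fintype.card_piFinset, prod_const, card_univ, card_range]
    push_cast
    rfl
  have hcen : ∀ g ∈ C, ∀ i, E * k ≤ sh g i ∧ sh g i < (E + (2 * D₀ + 1)) * k := by
    intro g hg i
    have h4 := mem_range.1 (Fintype.mem_piFinset.1 hg i)
    refine ⟨Nat.le_add_right _ _, ?_⟩
    change E * k + g i < _
    rw [Nat.add_mul]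
    omega
  have hshz : ∀ (g : IA t r → ℕ) (i : IA t r), z + (sh g i : ZMod n) = z' + (g i : ZMod n) := by
    intro g i
    change z + ((E * k + g i : ℕ) : ZMod n) = _
    rw [Nat.cast_add, ← add_assoc]
  -- thinness
  have hthin : ∀ P : List ℕ, (P.length : ℝ) ≤ γ' * k →
      Thin n k (β₂ * k) (B ∪ (vs z P).toFinset) := by
    intro P hP
    refine thin_mono (thin_union hB (thin_of_card (b := P.length)
      (by exact_mod_cast card_vs_le P))) ?_ (Subset.refl _)
    have h4 : b * k ≤ β₂ * k := mul_le_mul_of_nonneg_right (min_le_left _ _) (by positivity)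
    have h5 : 0 ≤ b * k := by positivity
    linarith
  have hmany : ∀ P : List ℕ, (P.length : ℝ) ≤ γ' * k → ∀ x ∈ Ico (D₀ * k) ((D₀ + 1) * k),
      ∃ H : Finset (IA t r → ℕ), H ⊆ C.filter (fun g => Absb n k t r M z' g ∧
        ∀ i, z' + (g i : ZMod n) ∉ B ∧ z' + (g i : ZMod n) ∉ vs z P) ∧
        (∀ g ∈ H, Hit n k t r M z' g x) ∧ 0 < H.card ∧ c * C.card ≤ H.card := by
    intro P hP x hx
    rw [mem_Ico] at hx
    have h4 := habs n k m M hM (by omega) hsl z' (B ∪ (vs z P).toFinset) (hthin P hP) x hx.1 hx.2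
    refine ⟨_, ?_, ?_, ?_, le_trans ?_ h4⟩
    · intro g hg
      obtain ⟨h5, h6, h7, h8⟩ := mem_filter.1 hg
      refine mem_filter.2 ⟨h5, h6, fun i => ?_⟩
      have h9 := (h8 i).1
      rw [mem_union, List.mem_toFinset, not_or] at h9
      exact h9
    · intro g hg
      exact (mem_filter.1 hg).2.2.1
    · have h5 : (0 : ℝ) < c₀ * (k : ℝ) ^ Fintype.card (IA t r) := by positivity
      exact_mod_cast h5.trans_le h4
    · rw [hCcard, mul_pow, hc]
      rw [← mul_assoc, div_mul_cancel₀ _ (by positivity)]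
  -- the beginning
  have hXne : (Ico (D₀ * k) ((D₀ + 1) * k)).Nonempty := by
    rw [nonempty_Ico, Nat.add_mul]
    omega
  obtain ⟨g₀, hg₀C, hg₀A, hg₀B⟩ : ∃ g₀ ∈ C, Absb n k t r M z' g₀ ∧
      ∀ i, z' + (g₀ i : ZMod n) ∉ B := by
    obtain ⟨x, hx⟩ := hXne
    obtain ⟨H, h4, -, h5, -⟩ := hmany [] (by simp; positivity) x hx
    obtain ⟨g, hg⟩ := card_pos.1 h5
    have h6 := mem_filter.1 (h4 hg)
    exact ⟨g, h6.1, h6.2.1, fun i => (h6.2.2 i).1⟩
  have hP₀ : Seg n k t M z E (2 * D₀ + 1) B (row (sh g₀) (Fin.last r)) := by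
    have h4 := absb_shift (s := E * k) hg₀A
    exact seg_row h4.inj (hcen g₀ hg₀C) (fun i => by rw [hshz]; exact hg₀B i) _ h4.last
  -- selection
  set R : ℕ := ⌊γ' / 2 * (k : ℝ) / a⌋₊ with hR
  have hRa : (a : ℝ) * R ≤ γ' / 2 * k := by
    have h4 : (R : ℝ) ≤ γ' / 2 * k / a := Nat.floor_le (by positivity)
    rwa [le_div_iff₀ har, mul_comm] at h4
  let allowed : List ℕ → Finset (IA t r → ℕ) := fun P =>
    C.filter (fun g => Absb n k t r M z' g ∧
        ∀ i, z' + (g i : ZMod n) ∉ B ∧ z' + (g i : ZMod n) ∉ vs z P)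
  let cm : List ℕ → (IA t r → ℕ) → List ℕ × List ℕ := fun P g =>
    if h : ∃ q : List ℕ × List ℕ, Cmp n k t r M z E (2 * D₀ + 1) W B P (sh g) q.1 q.2 then
      h.choose else ([], [])
  let next : List ℕ → (IA t r → ℕ) → List ℕ := fun P g => P ++ (cm P g).1 ++ (cm P g).2
  let good : ℕ → List ℕ → Prop := fun i P => Seg n k t M z E (2 * D₀ + 1) B P ∧
    P.length ≤ 2 * t + a * i
  have hlen : ∀ (i : ℕ) (P : List ℕ), i ≤ R → P.length ≤ 2 * t + a * i → (P.length : ℝ) ≤ γ' * k := by
    intro i P hi hP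
    have h4 : (P.length : ℝ) ≤ (2 * t : ℕ) + (a : ℝ) * i := by exact_mod_cast hP
    have h5 : (a : ℝ) * i ≤ a * R := mul_le_mul_of_nonneg_left (by exact_mod_cast hi) har.le
    linarith
  have hcm : ∀ i P g, i < R → good i P → g ∈ allowed P →
      Cmp n k t r M z E (2 * D₀ + 1) W B P (sh g) (cm P g).1 (cm P g).2 := by
    intro i P g hi hP hg
    obtain ⟨hgC, hg1, hg2⟩ := mem_filter.1 hg
    have hex : ∃ q : List ℕ × List ℕ,
        Cmp n k t r M z E (2 * D₀ + 1) W B P (sh g) q.1 q.2 := by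
      obtain ⟨c', A, h4⟩ := cmp_exists (b := b * k) (b' := b / 4 * k) hr hCN hB hP.1
        (absb_shift (s := E * k) hg1) (hcen g hgC)
        (fun i => by rw [hshz]; exact (hg2 i).1) (fun i => by rw [hshz]; exact (hg2 i).2)
        (by
          have h5 := hlen i P hi.le hP.2
          have h6 : 0 ≤ b * k := by positivity
          rw [← ha₁]
          push_cast
          linarith)
      exact ⟨(c', A), h4⟩
    change Cmp n k t r M z E (2 * D₀ + 1) W B P (sh g)
      (if h : ∃ q : List ℕ × List ℕ, Cmp n k t r M z E (2 * D₀ + 1) W B P (sh g) q.1 q.2 then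
      h.choose else ([], [])).1
      (if h : ∃ q : List ℕ × List ℕ, Cmp n k t r M z E (2 * D₀ + 1) W B P (sh g) q.1 q.2 then
      h.choose else ([], [])).2
    rw [dif_pos hex]
    exact hex.choose_spec
  obtain ⟨l, st, hst0, hl, hst, hgood, hW⟩ := sel_main (IA t r → ℕ) ℕ (List ℕ) C
    (Ico (D₀ * k) ((D₀ + 1) * k)) (row (sh g₀) (Fin.last r)) c R allowed next good
    (fun x g => Hit n k t r M z' g x) hc1 hXne (fun s => filter_subset _ _)
    ⟨hP₀, by rw [row_length]; omega⟩
    (by
      intro i P g hi hP hg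
      obtain ⟨h4, h5, h6, -⟩ := hcm i P g hi hP hg
      refine ⟨h6, ?_⟩
      have h7 := hP.2
      change (P ++ (cm P g).1 ++ (cm P g).2).length ≤ 2 * t + a * (i + 1)
      rw [List.length_append, List.length_append, Nat.mul_succ]
      omega)
    (by
      intro i P hi hP x hx
      exact hmany P (hlen i P hi.le hP.2) x hx)
  -- the result
  have hfin := hgood R le_rfl
  have hlenR := hlen R (st R) le_rfl hfin.2
  have hDE : 2 * D₀ + 1 + 2 * E = 2 * (D₀ + E) + 1 := by ring
  refine ⟨st R, ⟨hfin.1.len, ?_, hfin.1.pw, hfin.1.nd⟩, ?_, ?_, ?_⟩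
  · intro p hp
    have := hfin.1.bd p hp
    rwa [hDE] at this
  · refine hlenR.trans (mul_le_mul_of_nonneg_right (min_le_left _ _) (by positivity))
  · intro v hv
    obtain ⟨p, hp, rfl⟩ := mem_vs.1 hv
    exact hfin.1.av p hp
  · intro X hX hXc hXP
    -- the assignment
    have hWX : ∀ x : X, ∃ W' : Finset ℕ, W' ⊆ range R ∧
        (∀ i ∈ W', Hit n k t r M z (sh (l i)) x) ∧ X.card ≤ W'.card := by
      intro x
      have hx := mem_Ico.1 (hX x.2)
      have hx1 : (D₀ + E) * k = D₀ * k + E * k := Nat.add_mul _ _ _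
      have hx2 : (D₀ + E + 1) * k = (D₀ + 1) * k + E * k := by ring
      obtain ⟨W', h4, h5, h6⟩ := hW (x - E * k) (mem_Ico.2 ⟨by omega, by omega⟩)
      refine ⟨W', h4, ?_, ?_⟩
      · intro i hi
        have h7 := hit_shift (s := E * k) (h5 i hi)
        rwa [Nat.add_sub_cancel' (by omega)] at h7
      · have h7 : (Ico (D₀ * k) ((D₀ + 1) * k)).card = k := by
          rw [Nat.card_Ico, Nat.add_mul]
          omega
        rw [h7] at h6
        have h8 : γ' / 2 * (k : ℝ) / a - 1 ≤ R := by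
          have := Nat.lt_floor_add_one (γ' / 2 * (k : ℝ) / a)
          linarith
        have h9 := hk₄ k (by omega)
        have h10 : c / 2 * (γ' / 2 * (k : ℝ) / a - 1) ≤ c / 2 * R :=
          mul_le_mul_of_nonneg_left h8 (by positivity)
        have h11 : c / 2 * (γ' / 2 * (k : ℝ) / a - 1) =
            2 * (c * γ' / (8 * a) * k) - c / 2 := by
          field_simp
          ring
        have h12 : (X.card : ℝ) ≤ W'.card := by linarith
        exact_mod_cast h12
    choose W' hW1 hW2 hW3 using hWX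
    obtain ⟨φ, hφ1, hφ2⟩ := (Finset.all_card_le_biUnion_card_iff_exists_injective W').1 (by
      intro s
      rcases s.eq_empty_or_nonempty with rfl | ⟨x, hx⟩
      · simp
      · refine le_trans ?_ (card_le_card (subset_biUnion_of_mem W' hx))
        refine le_trans ?_ (hW3 x)
        rw [← Fintype.card_coe X]
        exact card_le_univ s)
    let f : ℕ → Option ℕ := fun j => if h : ∃ x : X, φ x = j then some (h.choose : ℕ) else none
    have hf1 : ∀ x : X, f (φ x) = some (x : ℕ) := by
      intro x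
      have hex : ∃ x' : X, φ x' = φ x := ⟨x, rfl⟩
      change (if h : ∃ x' : X, φ x' = φ x then some (h.choose : ℕ) else none) = _
      rw [dif_pos hex, hφ1 hex.choose_spec]
    have hf2 : ∀ j x, f j = some x → ∃ h : x ∈ X, φ ⟨x, h⟩ = j := by
      intro j x hjx
      change (if h : ∃ x' : X, φ x' = j then some (h.choose : ℕ) else none) = _ at hjx
      split_ifs at hjx with hex
      rw [Option.some.injEq] at hjx
      subst hjx
      exact ⟨hex.choose.2, hex.choose_spec⟩
    obtain ⟨P', hP1, hP2, hP3⟩ := replace (g := fun i => sh (l i))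
      (c := fun i => (cm (st i) (l i)).1) (A := fun i => (cm (st i) (l i)).2) (hgood 0 (by omega)).1
      hst (fun i hi => hcm i (st i) (l i) hi (hgood i hi.le) (hl i hi)) f R le_rfl (by
        intro j hj x hjx
        obtain ⟨hx, hxj⟩ := hf2 j x hjx
        have := hW2 ⟨x, hx⟩ j (by rw [← hxj]; exact hφ2 _)
        exact this)
    have hperm : ((List.range R).filterMap f).Perm X.toList := by
      rw [List.perm_ext_iff_of_nodup]
      · intro x
        rw [List.mem_filterMap, mem_toList]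
        constructor
        · rintro ⟨j, hj, hjx⟩
          exact (hf2 j x hjx).1
        · intro hx
          refine ⟨φ ⟨x, hx⟩, ?_, hf1 ⟨x, hx⟩⟩
          exact List.mem_range.2 (mem_range.1 (hW1 _ (hφ2 ⟨x, hx⟩)))
      · refine List.Nodup.filterMap ?_ List.nodup_range
        intro j j' x hj hj'
        obtain ⟨hx, h4⟩ := hf2 j x hj
        obtain ⟨hx', h5⟩ := hf2 j' x hj'
        rw [← h4, ← h5]
      · exact nodup_toList X
    have hP4 : P'.Perm (X.toList ++ st R) := hP3.trans (hperm.append_right _)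
    have hbd : ∀ p ∈ P', p < (2 * (D₀ + E) + 1) * k := by
      intro p hp
      rcases List.mem_append.1 (hP4.mem_iff.1 hp) with h | h
      · have h4 := (mem_Ico.1 (hX (mem_toList.1 h))).2
        have h5 : (D₀ + E + 1) * k ≤ (2 * (D₀ + E) + 1) * k := Nat.mul_le_mul_right k (by omega)
        omega
      · have := hfin.1.bd p h
        rwa [hDE] at this
    have hvs : ∀ v, v ∈ vs z P' ↔ v ∈ vs z (st R) ∨ ∃ x ∈ X, v = z + (x : ZMod n) := by
      intro v
      rw [mem_vs, mem_vs]
      constructor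
      · rintro ⟨p, hp, rfl⟩
        rcases List.mem_append.1 (hP4.mem_iff.1 hp) with h | h
        · exact Or.inr ⟨p, mem_toList.1 h, rfl⟩
        · exact Or.inl ⟨p, h, rfl⟩
      · rintro (⟨p, hp, rfl⟩ | ⟨x, hx, rfl⟩)
        · exact ⟨p, hP4.mem_iff.2 (List.mem_append_right _ hp), rfl⟩
        · exact ⟨x, hP4.mem_iff.2 (List.mem_append_left _ (mem_toList.2 hx)), rfl⟩
    refine ⟨P', ⟨hP2.l2, hbd, hP1, ?_⟩, hP2.fst, hP2.lst, hvs⟩
    have h4 : (vs z P').Perm (vs z (X.toList ++ st R)) := hP4.map _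
    rw [h4.nodup_iff, vs_append, List.nodup_append]
    refine ⟨?_, hfin.1.nd, ?_⟩
    · unfold vs
      refine List.Nodup.map_on ?_ (nodup_toList X)
      intro x hx y hy hxy
      have hx' := mem_Ico.1 (hX (mem_toList.1 hx))
      have hy' := mem_Ico.1 (hX (mem_toList.1 hy))
      have h5 : (D₀ + E + 1) * k = (D₀ + E) * k + k := by ring
      exact nat_inj z hxy (by omega) (by omega)
    · intro v hv w hw hvw
      subst hvw
      obtain ⟨x, hx, rfl⟩ := mem_vs.1 hv
      exact hXP x (mem_toList.1 hx) hw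

end Pool.Agent.H48.PW
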