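import Pool.Agent.H48.PW.Stm
import Pool.Graph.R_pool_sql_team_seeded_1e53cb71.Helper83K9.CF.Arc1

/-! # Leaf ARC2: one arc, for tiles, from POT2, DIST2 and BAL2. -/

set_option autoImplicit false

namespace Pool.Agent.H48.PW

open Finset Pool.Agent.Helper83K9.CF

namespace ARC2L

lemma slack {t m k : ℕ} {ε : ℝ} (ht : 2 ≤ t) (hε : 0 < ε)
    (hs : (t : ℝ) * (m + 1) ≤ (1 - ε) * k) : m + 1 ≤ k := by
  have htr : (2 : ℝ) ≤ t := by exact_mod_cast ht
  have hm : (0 : ℝ) ≤ m := Nat.cast_nonneg m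
  have hkr : (0 : ℝ) ≤ k := Nat.cast_nonneg k
  have : ((m + 1 : ℕ) : ℝ) ≤ (k : ℝ) := by
    push_cast
    nlinarith
  exact_mod_cast this

lemma M_sub {n k m : ℕ} {M : ZMod n → Finset (ZMod n)} (hM : Host n k m M) (x : ZMod n) :
    M x ⊆ win n (2 * k + 1) (x - (k : ZMod n)) := hM.subset x

lemma tile_card {n k t s : ℕ} {M : ZMod n → Finset (ZMod n)} {K : Finset (ZMod n)}
    (h : CTile n k t s M K) : K.card = (t + 1) * s := by
  obtain ⟨z, p, _, hinj, hK, _⟩ := h
  rw [hK, card_image_of_injective _ hinj, card_univ, Fintype.card_prod, Fintype.card_fin,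
    Fintype.card_fin]

end ARC2L

open ArcL ARC2L

open Classical in
theorem arc2 (h1 : S_POT2) (h2 : S_DIST2) (h3 : S_BAL2) : S_ARC2 := by
  intro t ε ht hε hε1
  obtain ⟨β, hβ0, hβ4, hbal⟩ := h3 t ε (by omega) hε hε1
  refine ⟨β, hβ0, hβ4, fun τ γ s M₁ hτ hγ hγβ hs1 => ?_⟩
  have htr : (2 : ℝ) ≤ t := by exact_mod_cast ht
  obtain ⟨t', ht'⟩ : ∃ t' : ℕ, t' = (t + 1) * s := ⟨_, rfl⟩
  have ht'1 : 1 ≤ t' := by rw [ht']; exact Nat.one_le_iff_ne_zero.2 (by positivity)
  have ht'r : (1 : ℝ) ≤ t' := by exact_mod_cast ht'1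
  obtain ⟨d, hd⟩ : ∃ d : ℝ, d = Real.exp (-(τ + 1)) := ⟨_, rfl⟩
  have hd0 : 0 < d := by rw [hd]; exact Real.exp_pos _
  have hd1 : d ≤ 1 := by rw [hd]; exact Real.exp_le_one_iff.2 (by linarith)
  obtain ⟨κ, hκ⟩ : ∃ κ : ℝ, κ = 3 * d / (16 * t') := ⟨_, rfl⟩
  have hκ0 : 0 < κ := by rw [hκ]; positivity
  obtain ⟨η, hη0, hη1, hpot⟩ := h1 t' d τ γ κ ht'1 hd0 hd1 hτ hγ hκ0
  obtain ⟨η', hη'⟩ : ∃ η' : ℝ, η' = min η (3 * d / 16) := ⟨_, rfl⟩
  have hη'0 : 0 < η' := by rw [hη']; exact lt_min hη0 (by positivity)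
  have hη'1 : η' ≤ η := by rw [hη']; exact min_le_left _ _
  have hη'2 : η' ≤ 3 * d / 16 := by rw [hη']; exact min_le_right _ _
  obtain ⟨M₀, hM₀⟩ : ∃ M₀ : ℕ, M₀ = max M₁ (max 3 (max ⌈1 / η⌉₊ ⌈2 * (τ + 1) / β⌉₊)) := ⟨_, rfl⟩
  have hM1 : M₁ ≤ M₀ := by rw [hM₀]; exact le_max_left _ _
  have hM3 : 3 ≤ M₀ := by rw [hM₀]; exact le_trans (le_max_left _ _) (le_max_right _ _)
  have hM3r : (3 : ℝ) ≤ M₀ := by exact_mod_cast hM3
  have hMη : 1 ≤ M₀ * η := by
    have h5 : ⌈1 / η⌉₊ ≤ M₀ := by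
      rw [hM₀]
      exact le_trans (le_max_left _ _) (le_trans (le_max_right _ _) (le_max_right _ _))
    have h6 : 1 / η ≤ M₀ := (Nat.le_ceil _).trans (by exact_mod_cast h5)
    rwa [div_le_iff₀ hη0] at h6
  have hMβ : 2 * (τ + 1) ≤ M₀ * β := by
    have h5 : ⌈2 * (τ + 1) / β⌉₊ ≤ M₀ := by
      rw [hM₀]
      exact le_trans (le_max_right _ _) (le_trans (le_max_right _ _) (le_max_right _ _))
    have h6 : 2 * (τ + 1) / β ≤ M₀ := (Nat.le_ceil _).trans (by exact_mod_cast h5)
    rwa [div_le_iff₀ hβ0] at h6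
  obtain ⟨k₁, hk₁⟩ := hpot (16 * M₀)
  obtain ⟨k₂, hk₂⟩ := h2 t M₀ s (ε / 2) (d / 2) η' ht (by omega) hs1 (by positivity) (by linarith)
    (by positivity) hη'0
  refine ⟨M₀, max k₁ k₂, hM3, hM1, ?_⟩
  intro n k m ℓ _ M hM hk hℓ hs Ar hAr U D hD hslow hSt
  have hkk1 : k₁ ≤ k := le_trans (le_max_left _ _) hk
  have hkk2 : k₂ ≤ k := le_trans (le_max_right _ _) hk
  have hk1 := hM.kpos
  have hkr : (0 : ℝ) < k := by exact_mod_cast hk1
  -- DIST2 is needed for `M₀ * k`, before this is abbreviated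
  have hdist := hk₂ n k m M hM hkk2
  obtain ⟨N, hN⟩ : ∃ N : ℕ, N = M₀ * k := ⟨_, rfl⟩
  rw [← hN] at hAr hD hslow ⊢
  rw [← hN] at hdist
  have hN3 : 3 * k ≤ N := by rw [hN]; exact Nat.mul_le_mul_right k hM3
  have hkN : k ≤ N := by omega
  have hNr : (N : ℝ) = M₀ * k := by rw [hN]; push_cast; rfl
  have hNpos : (0 : ℝ) < N := by exact_mod_cast (by omega : 0 < N)
  have hmk := slack ht hε hs
  -- the tests
  obtain ⟨X, hX⟩ : ∃ X : Finset (ZMod n), X = univ.filter (fun x => ∃ v ∈ M x, Tou n N Ar v) := ⟨_, rfl⟩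
  obtain ⟨Z, hZ⟩ : ∃ Z : Finset (ZMod n), Z = univ.filter (fun y => ∃ v ∈ win n k y, Tou n N Ar v) := ⟨_, rfl⟩
  obtain ⟨T, hT⟩ : ∃ T : Finset (Finset (ZMod n)),
    T = (X.image M ∪ Z.image (win n k)) ∪ Z.image (win n ℓ) := ⟨_, rfl⟩
  have hTM : ∀ x, M x ∉ T → ∀ v ∈ M x, ¬ Tou n N Ar v := by
    intro x hx v hv hvt
    apply hx
    rw [hT, mem_union, mem_union]
    exact Or.inl (Or.inl (mem_image_of_mem _ (by rw [hX, mem_filter]; exact ⟨mem_univ _, v, hv, hvt⟩)))
  have hTW : ∀ y, win n k y ∉ T → ∀ v ∈ win n k y, ¬ Tou n N Ar v := by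
    intro x hx v hv hvt
    apply hx
    rw [hT, mem_union, mem_union]
    exact Or.inl (Or.inr (mem_image_of_mem _ (by rw [hZ, mem_filter]; exact ⟨mem_univ _, v, hv, hvt⟩)))
  have hTL : ∀ y, win n ℓ y ∉ T → ∀ v ∈ win n ℓ y, ¬ Tou n N Ar v := by
    intro x hx v hv hvt
    apply hx
    rw [hT, mem_union]
    exact Or.inr (mem_image_of_mem _ (by
      rw [hZ, mem_filter]; exact ⟨mem_univ _, v, win_mono hℓ x hv, hvt⟩))
  have hTcard : (T.card : ℝ) ≤ 16 * M₀ * k := by
    have h5 := few hM hN3 Ar hAr X Z (fun x hx => by rw [hX, mem_filter] at hx; exact hx.2)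
      (fun y hy => by rw [hZ, mem_filter] at hy; exact hy.2)
    have h6 : T.card ≤ X.card + Z.card + Z.card := by
      rw [hT]
      exact (card_union_le _ _).trans (add_le_add ((card_union_le _ _).trans
        (add_le_add card_image_le card_image_le)) card_image_le)
    have h7 : (T.card : ℝ) ≤ 16 * N := by exact_mod_cast h6.trans (by omega)
    rw [hNr] at h7
    linarith
  -- all tests are contained in a window of length `2 k + 1`
  have hTw : ∀ S ∈ T, ∃ y, S ⊆ win n (2 * k + 1) y := by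
    intro S hS
    rw [hT, mem_union, mem_union, mem_image, mem_image, mem_image] at hS
    rcases hS with (⟨x, _, rfl⟩ | ⟨y, _, rfl⟩) | ⟨y, _, rfl⟩
    · exact ⟨_, M_sub hM x⟩
    · exact ⟨y, win_mono (by omega) y⟩
    · exact ⟨y, win_mono (by omega) y⟩
  have hTS : ∀ S ∈ T, (S.card : ℝ) ≤ 3 * k := by
    intro S hS
    obtain ⟨y, hy⟩ := hTw S hS
    have h5 := (card_le_card hy).trans (card_win_le (k := 2 * k + 1) y)
    exact_mod_cast (by omega : S.card ≤ 3 * k)
  have herr : ∀ v, err n k N Ar v ≤ η := by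
    intro v
    refine (err_le Ar v).trans ?_
    rw [div_le_iff₀ hNpos, hNr]
    nlinarith
  -- all tests are controlled
  have hctl : ∀ (U' : Finset (ZMod n)) (σ : ℝ),
      (∀ S ∈ T, |Y S U' (fun v => D v * Real.exp (-(σ * rate n k N Ar v))) - Y S U D| ≤ γ * k) →
      (∀ v, ¬ Tou n N Ar v → (v ∈ U' ↔ v ∈ U)) →
      (∀ x, |Y (M x) U' (fun v => D v * Real.exp (-(σ * rate n k N Ar v))) - Y (M x) U D| ≤ γ * k) ∧
      (∀ y, |Y (win n k y) U' (fun v => D v * Real.exp (-(σ * rate n k N Ar v))) - Y (win n k y) U D| ≤ γ * k) ∧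
      ∀ y, |Y (win n ℓ y) U' (fun v => D v * Real.exp (-(σ * rate n k N Ar v))) - Y (win n ℓ y) U D| ≤ γ * k := by
    intro U' σ hte hun
    refine ⟨?_, ?_, ?_⟩
    · intro x
      by_cases hx : M x ∈ T
      · exact hte _ hx
      · rw [untouched Ar (M x) U U' D σ (hTM x hx) hun, sub_self, abs_zero]; positivity
    · intro y
      by_cases hy : win n k y ∈ T
      · exact hte _ hy
      · rw [untouched Ar (win n k y) U U' D σ (hTW y hy) hun, sub_self, abs_zero]; positivity
    · intro y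
      by_cases hy : win n ℓ y ∈ T
      · exact hte _ hy
      · rw [untouched Ar (win n ℓ y) U U' D σ (hTL y hy) hun, sub_self, abs_zero]; positivity
  obtain ⟨σ, F, hσ1, hσ2, hF1, hF2, hF3, hF4⟩ := hk₁ k hkk1 (ZMod n) T (rate n k N Ar) (err n k N Ar) D U
    (CTile n k t s M) hTcard hTS (fun v => ⟨rate_nonneg Ar v, rate_le_one hkN Ar v⟩)
    (fun v => ⟨err_nonneg Ar v, herr v⟩) (fun v σ h5 h6 => by rw [hd]; exact hD v σ h5 h6)
    (fun K hK => by rw [ht']; exact tile_card hK)
    (by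
      intro U' σ hU' hσ0 hστ hte hun
      have hun' : ∀ v, ¬ Tou n N Ar v → (v ∈ U' ↔ v ∈ U) := by
        intro v hv
        apply hun v
        rw [rate_eq_zero fun i hi hA => hv ⟨i, hi, hA⟩, err_eq_zero hkN fun i hi hA => hv ⟨i, hi, hA⟩, add_zero]
      obtain ⟨hc1, hc2, _⟩ := hctl U' σ hte hun'
      have hgd : ∀ v, d ≤ D v * Real.exp (-(σ * rate n k N Ar v)) := by
        intro v
        rw [hd]
        exact (hD v σ hσ0 (by linarith)).1
      have hgpos : ∀ v, 0 < D v * Real.exp (-(σ * rate n k N Ar v)) := by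
        intro v
        exact lt_of_lt_of_le hd0 (hgd v)
      have hst : St n k M (β * k) U' (fun v => D v * Real.exp (-(σ * rate n k N Ar v))) := by
        constructor
        · intro x
          have h5 := (abs_le.1 (hc1 x)).2
          have h6 := hSt.1.1 x
          have h7 : (β - γ) * k + γ * k = β * k := by ring
          linarith
        · intro y
          have h5 := hc2 y
          have h6 := hSt.1.2 y
          have h7 : (β - γ) * k + γ * k = β * k := by ring
          have h8 := abs_add_le (Y (win n k y) U' (fun v => D v * Real.exp (-(σ * rate n k N Ar v))) - Y (win n k y) U D)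
            (Y (win n k y) U D - k)
          rw [sub_add_sub_cancel] at h8
          linarith
      have hθk : 2 * (τ + 1) / (N : ℝ) * k ≤ β := by
        rw [div_mul_eq_mul_div, div_le_iff₀ hNpos, hNr]
        nlinarith
      have hb := hbal n k m M hM hs U' _ (2 * (τ + 1) / (N : ℝ)) hgpos (by positivity) hθk
        (hslow σ hσ0 (by linarith)) hst
      obtain ⟨w, hw1, hw2, hw3, hw4⟩ := hdist U' Ar (fun z _ j _ =>
        ⟨le_trans (mul_le_mul_of_nonneg_right (div_le_div_of_nonneg_right (hgd _) (by norm_num)) hkr.le)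
          (hb (z + (j : ZMod n))).1, (hb (z + (j : ZMod n))).2⟩)
      refine ⟨w, hw1, hw2, hw3, ?_, ?_⟩
      · intro S hS
        obtain ⟨y, hy⟩ := hTw S hS
        calc ∑ v ∈ S ∩ U', max 0 (rate n k N Ar v - ∑ K, (if v ∈ K then w K else 0))
            ≤ ∑ v ∈ win n (2 * k + 1) y ∩ U',
                max 0 (rate n k N Ar v - ∑ K, (if v ∈ K then w K else 0)) := by
              apply sum_le_sum_of_subset_of_nonneg (inter_subset_inter_right hy)
              intro v _ _
              exact le_max_left _ _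
          _ ≤ η' * k := hw4 y
          _ ≤ η * k := mul_le_mul_of_nonneg_right hη'1 hkr.le
      -- the total weight
      obtain ⟨y, hy⟩ := big_rate hk1 hN3 Ar hAr
      have e1 : ∑ v, ∑ K, (if v ∈ K then w K else 0) = t' * ∑ K, w K := by
        rw [sum_comm, mul_sum]
        refine sum_congr rfl fun K _ => ?_
        rw [← sum_filter, sum_const, nsmul_eq_mul, filter_mem_eq_inter, univ_inter]
        by_cases hK : w K = 0
        · rw [hK]; ring
        · rw [tile_card (hw2 K hK).1, ht']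
      have e2 : ∑ v ∈ win n k y ∩ U', (1 : ℝ) / 2 ≤
          (∑ v, ∑ K, (if v ∈ K then w K else 0)) + η' * k := by
        calc ∑ v ∈ win n k y ∩ U', (1 : ℝ) / 2
            ≤ ∑ v ∈ win n k y ∩ U', (∑ K, (if v ∈ K then w K else 0) +
                max 0 (rate n k N Ar v - ∑ K, (if v ∈ K then w K else 0))) := by
              refine sum_le_sum fun v hv => ?_
              rw [mem_inter] at hv
              have h5 := hy v hv.1
              have h6 := le_max_right 0 (rate n k N Ar v - ∑ K, (if v ∈ K then w K else 0))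
              linarith
          _ = ∑ v ∈ win n k y ∩ U', ∑ K, (if v ∈ K then w K else 0) +
                ∑ v ∈ win n k y ∩ U', max 0 (rate n k N Ar v - ∑ K, (if v ∈ K then w K else 0)) :=
              sum_add_distrib
          _ ≤ (∑ v, ∑ K, (if v ∈ K then w K else 0)) + η' * k := by
              apply add_le_add
              · apply sum_le_sum_of_subset_of_nonneg (subset_univ _)
                intro v _ _
                refine sum_nonneg fun K _ => ?_
                split_ifs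
                · exact hw1 K
                · exact le_rfl
              · refine le_trans ?_ (hw4 y)
                apply sum_le_sum_of_subset_of_nonneg
                  (inter_subset_inter_right (win_mono (by omega) y))
                intro v _ _
                exact le_max_left _ _
      rw [sum_const, nsmul_eq_mul] at e2
      have e3 : d * Y (win n k y) U' (fun v => D v * Real.exp (-(σ * rate n k N Ar v))) ≤ (win n k y ∩ U').card := by
        unfold Y
        rw [mul_sum, card_eq_sum_ones, Nat.cast_sum]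
        refine sum_le_sum fun v _ => ?_
        rw [Nat.cast_one, ← div_eq_mul_inv, div_le_one (hgpos v)]
        exact hgd v
      have e4 : (3 / 4) * k ≤ Y (win n k y) U' (fun v => D v * Real.exp (-(σ * rate n k N Ar v))) := by
        have h5 := (abs_le.1 (hst.2 y)).1
        have h6 : β * k ≤ 1 / 4 * k := mul_le_mul_of_nonneg_right hβ4 hkr.le
        linarith
      have e5 : d * ((3 / 4) * k) ≤ d * Y (win n k y) U' (fun v => D v * Real.exp (-(σ * rate n k N Ar v))) :=
        mul_le_mul_of_nonneg_left e4 hd0.le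
      rw [e1] at e2
      have e8 : η' * k ≤ 3 * d / 16 * k := mul_le_mul_of_nonneg_right hη'2 hkr.le
      have e6 : (3 * d / 16) * k ≤ t' * ∑ K, w K := by linarith
      have e7 : t' * (κ * k) ≤ t' * ∑ K, w K := by
        have : t' * (κ * k) = (3 * d / 16) * k := by rw [hκ]; field_simp
        rw [this]; exact e6
      exact le_of_mul_le_mul_left e7 (by linarith))
  have hun : ∀ v, ¬ Tou n N Ar v → (v ∈ U \ F.biUnion id ↔ v ∈ U) := by
    intro v hv
    rw [mem_sdiff]
    constructor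
    · exact fun h => h.1
    · intro h
      refine ⟨h, fun hvF => ?_⟩
      obtain ⟨K, hK, hvK⟩ := mem_biUnion.1 hvF
      exact hv (touched_of_pos hkN (hF3 K hK v hvK))
  obtain ⟨hc1, hc2, hc3⟩ := hctl _ σ hF4 hun
  exact ⟨σ, F, hσ1, hσ2, hF1, hF2, fun K hK v hv => touched_of_pos hkN (hF3 K hK v hv), hc1, hc2, hc3⟩

end Pool.Agent.H48.PW
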