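import Pool.Agent.H48.PW.Stm
import Pool.Graph.R_pool_sql_team_seeded_1e53cb71.Helper83K9.CF.Base

/-! [BLK] absorbing pieces for all blocks -/

set_option autoImplicit false

namespace Pool.Agent.H48.PW

open Finset Pool.Agent.Helper83K9.CF

namespace BLKL

open Classical in
/-- the indices of the pieces which can meet a window -/
noncomputable def idx (n k E : ℕ) (z : ZMod n) : Finset ℕ :=
  (range n).filter (fun j => j * k < n ∧ ∃ s : ℕ, s ≤ E * k ∧
    ((j * k : ℕ) : ZMod n) = z + (s : ZMod n))

theorem card_idx {n k E : ℕ} [NeZero n] (hk : 1 ≤ k) (hkn : k < n) (z : ZMod n) :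
    (idx n k E z).card ≤ 2 * (E + 1) := by
  classical
  have hn0 : 0 < n := by omega
  have h1 : ((idx n k E z) ×ˢ (range k)).card ≤
      2 * (((idx n k E z) ×ˢ (range k)).image
        (fun p : ℕ × ℕ => ((p.1 * k + p.2 : ℕ) : ZMod n))).card := by
    apply card_le_mul_card_image
    intro r hr
    have h2 : Set.InjOn (fun p : ℕ × ℕ => (p.1 * k + p.2) / n)
        ((((idx n k E z) ×ˢ (range k)).filter
          (fun p : ℕ × ℕ => ((p.1 * k + p.2 : ℕ) : ZMod n) = r) : Finset (ℕ × ℕ)) :
            Set (ℕ × ℕ)) := by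
      intro p hp p' hp' hpp
      rw [mem_coe, mem_filter, mem_product, mem_range] at hp hp'
      have h3 : (((p.1 * k + p.2 : ℕ)) : ZMod n) = ((p'.1 * k + p'.2 : ℕ) : ZMod n) :=
        hp.2.trans hp'.2.symm
      rw [ZMod.natCast_eq_natCast_iff'] at h3
      have h4 : p.1 * k + p.2 = p'.1 * k + p'.2 := by
        rw [← Nat.div_add_mod (p.1 * k + p.2) n, ← Nat.div_add_mod (p'.1 * k + p'.2) n]
        simp only at hpp
        rw [hpp, h3]
      have h5 : p.1 = p'.1 := by
        have e1 : (p.1 * k + p.2) / k = p.1 := by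
          rw [mul_comm, Nat.mul_add_div (by omega), Nat.div_eq_of_lt hp.1.2, add_zero]
        have e2 : (p'.1 * k + p'.2) / k = p'.1 := by
          rw [mul_comm, Nat.mul_add_div (by omega), Nat.div_eq_of_lt hp'.1.2, add_zero]
        rw [← e1, ← e2, h4]
      have h6 : p.2 = p'.2 := by
        rw [h5] at h4
        omega
      exact Prod.ext h5 h6
    have h3 := card_le_card_of_injOn (t := range 2) _ (fun p hp => ?_) h2
    · simpa using h3
    · rw [mem_coe, mem_filter, mem_product, mem_range] at hp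
      have h4 := hp.1.1
      unfold idx at h4
      rw [mem_filter] at h4
      rw [mem_coe, mem_range, Nat.div_lt_iff_lt_mul hn0]
      have := hp.1.2
      omega
  have h2 : ((idx n k E z) ×ˢ (range k)).image
        (fun p : ℕ × ℕ => ((p.1 * k + p.2 : ℕ) : ZMod n)) ⊆
      (range (E * k + k)).image (fun s : ℕ => z + (s : ZMod n)) := by
    intro r hr
    rw [mem_image] at hr ⊢
    obtain ⟨p, hp, rfl⟩ := hr
    rw [mem_product, mem_range] at hp
    have h4 := hp.1
    unfold idx at h4
    rw [mem_filter] at h4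
    obtain ⟨-, -, s, hs, hs2⟩ := h4
    refine ⟨s + p.2, ?_, ?_⟩
    · rw [mem_range]; omega
    · push_cast at hs2 ⊢
      rw [hs2]; ring
  have h3 := card_le_card h2
  have h4 : ((range (E * k + k)).image (fun s : ℕ => z + (s : ZMod n))).card ≤ E * k + k := by
    simpa using card_image_le (s := range (E * k + k)) (f := fun s : ℕ => z + (s : ZMod n))
  rw [card_product, card_range] at h1
  have h5 : (idx n k E z).card * k ≤ (2 * (E + 1)) * k := by
    calc (idx n k E z).card * k ≤ 2 * (E * k + k) := by omega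
      _ = (2 * (E + 1)) * k := by ring
  exact Nat.le_of_mul_le_mul_right h5 (by omega)

theorem lt_of_mul_lt {n k j : ℕ} (hk : 1 ≤ k) (h : j * k < n) : j < n := by
  have : j * 1 ≤ j * k := Nat.mul_le_mul_left j hk
  omega

/-- union of small pieces is thin -/
theorem thin {n k D : ℕ} [NeZero n] (hk : 1 ≤ k) (hkn : k < n) {g : ℝ}
    (hg : 0 ≤ g) {P : ℕ → List ℕ} {B : Finset (ZMod n)}
    (h1 : ∀ v ∈ B, ∃ j, j * k < n ∧ v ∈ vs (zb n k D j) (P j) ∧
      (∀ p ∈ P j, p < (2 * D + 1) * k) ∧ ((P j).length : ℝ) ≤ g) :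
    Thin n k ((2 * ((2 * D + 2) + 1) : ℕ) * g) B := by
  classical
  intro z
  obtain ⟨S, hS⟩ : ∃ S : Finset ℕ, S = (idx n k (2 * D + 2) (z - ((D + 1) * k : ℕ))).filter
      (fun j => ((P j).length : ℝ) ≤ g) := ⟨_, rfl⟩
  have hsub : B ∩ win n k z ⊆ S.biUnion (fun j => (vs (zb n k D j) (P j)).toFinset) := by
    intro v hv
    rw [mem_inter] at hv
    obtain ⟨hvB, hvz⟩ := hv
    obtain ⟨j, hj, hvj, hP, hl⟩ := h1 v hvB
    rw [mem_biUnion]
    refine ⟨j, ?_, List.mem_toFinset.2 hvj⟩
    rw [hS, mem_filter]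
    refine ⟨?_, hl⟩
    unfold idx
    rw [mem_filter, mem_range]
    refine ⟨lt_of_mul_lt hk hj, hj, ?_⟩
    unfold vs at hvj
    rw [List.mem_map] at hvj
    obtain ⟨p, hp, hpv⟩ := hvj
    obtain ⟨a, ha, hav⟩ := mem_win.1 hvz
    have hpb := hP p hp
    refine ⟨(2 * D + 1) * k + a - p, ?_, ?_⟩
    · have : (2 * D + 2) * k = (2 * D + 1) * k + k := by ring
      omega
    · rw [Nat.cast_sub (by omega)]
      have e : ((j * k : ℕ) : ZMod n) = z + (a : ZMod n) - (p : ZMod n) + ((D * k : ℕ) : ZMod n) := by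
        rw [hav, ← hpv]
        unfold zb
        ring
      rw [e]
      push_cast
      ring
  have h4 : ((B ∩ win n k z).card : ℝ) ≤
      ∑ j ∈ S, (((vs (zb n k D j) (P j)).toFinset).card : ℝ) := by
    have := (card_le_card hsub).trans card_biUnion_le
    exact_mod_cast this
  have h5 : ∑ j ∈ S, (((vs (zb n k D j) (P j)).toFinset).card : ℝ) ≤ ∑ j ∈ S, g := by
    refine sum_le_sum (fun j hj => ?_)
    rw [hS, mem_filter] at hj
    refine le_trans ?_ hj.2
    have h6 := List.toFinset_card_le (vs (zb n k D j) (P j))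
    have h7 : (vs (zb n k D j) (P j)).length = (P j).length := by
      unfold vs
      rw [List.length_map]
    rw [h7] at h6
    exact_mod_cast h6
  rw [sum_const, nsmul_eq_mul] at h5
  have h6 : (S.card : ℝ) ≤ (2 * ((2 * D + 2) + 1) : ℕ) := by
    have h7 : S.card ≤ 2 * ((2 * D + 2) + 1) := by
      rw [hS]
      exact (card_filter_le _ _).trans (card_idx hk hkn _)
    exact_mod_cast h7
  have h7 := mul_le_mul_of_nonneg_right h6 hg
  linarith

end BLKL

open BLKL in
theorem blk (h : S_APATH) : S_BLK := by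
  classical
  intro t ε ht hε hε1
  obtain ⟨D, β, hβ, hF⟩ := h t ε ht hε hε1
  refine ⟨D, ?_⟩
  intro γ hγ
  obtain ⟨C, hC⟩ : ∃ C : ℝ, C = ((2 * ((2 * D + 2) + 1) : ℕ) : ℝ) := ⟨_, rfl⟩
  have hC0 : 0 < C := by rw [hC]; positivity
  obtain ⟨g, hg⟩ : ∃ g : ℝ, g = min β γ / C := ⟨_, rfl⟩
  have hmin : 0 < min β γ := lt_min hβ hγ
  have hg0 : 0 < g := by rw [hg]; positivity
  have hCg : C * g = min β γ := by
    rw [hg]; field_simp
  obtain ⟨h, k₀, hh, hF⟩ := hF g hg0
  refine ⟨h, k₀, hh, ?_⟩
  intro n k m _ M hM hk hsl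
  have hk1 := hM.kpos
  have hkR : (0 : ℝ) < k := by exact_mod_cast hM.kpos
  have hkn : k < n := by have := hM.size; omega
  have hthin : ∀ (P : ℕ → List ℕ) (B : Finset (ZMod n)),
      (∀ v ∈ B, ∃ j, j * k < n ∧ v ∈ vs (zb n k D j) (P j) ∧
        (∀ p ∈ P j, p < (2 * D + 1) * k) ∧ ((P j).length : ℝ) ≤ g * k) →
      Thin n k (min β γ * k) B := by
    intro P B hB
    have := thin hk1 hkn (by positivity : 0 ≤ g * k) hB
    rwa [← mul_assoc, ← hC, hCg] at this
  -- induction
  have claim : ∀ J : ℕ, ∃ P : ℕ → List ℕ,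
      (∀ j, j < J → j * k < n → Pc n k t (2 * D + 1) M (zb n k D j) (P j) ∧
        ((P j).length : ℝ) ≤ g * k ∧ Absorbs n k t D M (zb n k D j) h (P j)) ∧
      ∀ i j, i < j → j < J → j * k < n →
        ∀ v, v ∈ vs (zb n k D i) (P i) → v ∉ vs (zb n k D j) (P j) := by
    intro J
    induction J with
    | zero =>
      exact ⟨fun _ => [], fun j hj => absurd hj (by omega), fun i j _ hj => absurd hj (by omega)⟩
    | succ J ih =>
      obtain ⟨P, p1, p2⟩ := ih
      by_cases hJ : J * k < n
      · have hjk : ∀ j, j < J → j * k < n := by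
          intro j hj
          have : j * k ≤ J * k := Nat.mul_le_mul_right k hj.le
          omega
        obtain ⟨B, hB⟩ : ∃ B : Finset (ZMod n), B =
            (range J).biUnion (fun j => (vs (zb n k D j) (P j)).toFinset) := ⟨_, rfl⟩
        have hBt : Thin n k (β * k) B := by
          have h1 : Thin n k (min β γ * k) B := by
            apply hthin P
            intro v hv
            rw [hB, mem_biUnion] at hv
            obtain ⟨j, hj, hv⟩ := hv
            rw [mem_range] at hj
            obtain ⟨q1, q2, q3⟩ := p1 j hj (hjk j hj)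
            exact ⟨j, hjk j hj, List.mem_toFinset.1 hv, q1.bd, q2⟩
          exact thin_mono h1 (mul_le_mul_of_nonneg_right (min_le_left _ _) hkR.le)
            (Subset.refl _)
        obtain ⟨Q, f1, f2, f3, f4⟩ := hF n k m M hM hk hsl (zb n k D J) B hBt
        refine ⟨Function.update P J Q, ?_, ?_⟩
        · intro j hj hjn
          by_cases hjJ : j = J
          · subst hjJ
            rw [Function.update_self]
            exact ⟨f1, f2, f4⟩
          · rw [Function.update_of_ne hjJ]
            exact p1 j (by omega) hjn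
        · intro i j hij hj hjn v hv
          rw [Function.update_of_ne (by omega)] at hv
          by_cases hjJ : j = J
          · subst hjJ
            rw [Function.update_self]
            intro hv2
            refine f3 v hv2 ?_
            rw [hB, mem_biUnion]
            exact ⟨i, mem_range.2 hij, List.mem_toFinset.2 hv⟩
          · rw [Function.update_of_ne hjJ]
            exact p2 i j hij (by omega) hjn v hv
      · refine ⟨P, ?_, ?_⟩
        · intro j hj hjn
          have : j ≠ J := by
            rintro rfl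
            exact hJ hjn
          exact p1 j (by omega) hjn
        · intro i j hij hj hjn
          have : j ≠ J := by
            rintro rfl
            exact hJ hjn
          exact p2 i j hij (by omega) hjn
  obtain ⟨P, p1, p2⟩ := claim n
  have hjn : ∀ j, j * k < n → j < n := fun j hj => lt_of_mul_lt hk1 hj
  refine ⟨P, fun j hj => ⟨(p1 j (hjn j hj) hj).1, (p1 j (hjn j hj) hj).2.2⟩,
    fun i j hij hj => p2 i j hij (hjn j hj) hj, ?_⟩
  intro B hB
  refine thin_mono (hthin P B ?_) (mul_le_mul_of_nonneg_right (min_le_right _ _) hkR.le)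
    (Subset.refl _)
  intro v hv
  obtain ⟨j, hj, hvj⟩ := hB v hv
  obtain ⟨q1, q2, -⟩ := p1 j (hjn j hj) hj
  exact ⟨j, hj, hvj, q1.bd, q2⟩

end Pool.Agent.H48.PW
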