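import Pool.Agent.H48.PW.Stm

/-!
Lemmas on lists whose entries at index distance at most `t` are related, and on pieces.
-/

set_option autoImplicit false

namespace Pool.Agent.H48.PW

open Finset Pool.Agent.Helper83K9.CF

section lists

variable {α β : Type} {R : α → α → Prop} {t : ℕ} {l u v b : List α}

theorem Pw.mono {S : α → α → Prop} (h : ∀ x y, R x y → S x y) (hl : Pw R t l) : Pw S t l :=
  fun i j x y hij hjt hx hy => h x y (hl i j x y hij hjt hx hy)

theorem Pw.mono' {S : α → α → Prop} (h : ∀ x ∈ l, ∀ y ∈ l, R x y → S x y) (hl : Pw R t l) :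
    Pw S t l :=
  fun i j x y hij hjt hx hy => h x (List.mem_of_getElem? hx) y (List.mem_of_getElem? hy)
    (hl i j x y hij hjt hx hy)

theorem Pw.nil : Pw R t ([] : List α) := by
  intro i j x y _ _ hx
  simp at hx

theorem Pw.singleton (a : α) : Pw R t [a] := by
  intro i j x y hij _ hx hy
  have h1 := (List.getElem?_eq_some_iff.1 hy).1
  simp only [List.length_cons, List.length_nil] at h1
  omega

theorem Pw.of_pairwise (h : l.Pairwise R) : Pw R t l := by
  intro i j x y hij _ hx hy
  obtain ⟨hi, rfl⟩ := List.getElem?_eq_some_iff.1 hx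
  obtain ⟨hj, rfl⟩ := List.getElem?_eq_some_iff.1 hy
  exact List.pairwise_iff_getElem.1 h i j hi hj hij

theorem Pw.pairwise (h : Pw R t l) (hl : l.length ≤ t + 1) : l.Pairwise R := by
  rw [List.pairwise_iff_getElem]
  intro i j hi hj hij
  exact h i j _ _ hij (by omega) (List.getElem?_eq_getElem hi) (List.getElem?_eq_getElem hj)

/-- the part `v` of `u ++ v ++ w` -/
theorem Pw.inner {w : List α} (h : Pw R t (u ++ v ++ w)) : Pw R t v := by
  intro i j x y hij hjt hx hy
  obtain ⟨hi, hx'⟩ := List.getElem?_eq_some_iff.1 hx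
  obtain ⟨hj, hy'⟩ := List.getElem?_eq_some_iff.1 hy
  refine h (u.length + i) (u.length + j) x y (by omega) (by omega) ?_ ?_
  · rw [List.getElem?_append_left (by simp; omega), List.getElem?_append_right (by omega)]
    simpa using hx
  · rw [List.getElem?_append_left (by simp; omega), List.getElem?_append_right (by omega)]
    simpa using hy

theorem Pw.left (h : Pw R t (u ++ v)) : Pw R t u := by
  have : Pw R t ([] ++ u ++ v) := by simpa using h
  exact this.inner

theorem Pw.right (h : Pw R t (u ++ v)) : Pw R t v := by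
  have : Pw R t (u ++ v ++ []) := by simpa using h
  exact this.inner

theorem Pw.of_inner {l' : List α} (h : Pw R t l) (hl : l' <:+: l) : Pw R t l' := by
  obtain ⟨s, e, rfl⟩ := hl
  exact h.inner

theorem Pw.take (h : Pw R t l) (n : ℕ) : Pw R t (l.take n) := by
  have h1 : Pw R t (l.take n ++ l.drop n) := by rwa [List.take_append_drop]
  exact h1.left

theorem Pw.drop (h : Pw R t l) (n : ℕ) : Pw R t (l.drop n) := by
  have h1 : Pw R t (l.take n ++ l.drop n) := by rwa [List.take_append_drop]
  exact h1.right

theorem Pw.lastn (h : Pw R t l) (n : ℕ) : Pw R t (lastn n l) := h.drop _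

/-- gluing along at least `t` common entries -/
theorem Pw.glue (h1 : Pw R t (u ++ b)) (h2 : Pw R t (b ++ v)) (hb : t ≤ b.length) :
    Pw R t (u ++ b ++ v) := by
  intro i j x y hij hjt hx hy
  obtain ⟨hj, hy'⟩ := List.getElem?_eq_some_iff.1 hy
  obtain ⟨hi, hx'⟩ := List.getElem?_eq_some_iff.1 hx
  simp only [List.length_append] at hi hj
  rcases lt_or_ge j (u.length + b.length) with h | h
  · refine h1 i j x y hij hjt ?_ ?_
    · rwa [List.getElem?_append_left (by simp; omega)] at hx
    · rwa [List.getElem?_append_left (by simp; omega)] at hy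
  · have hiu : u.length ≤ i := by omega
    refine h2 (i - u.length) (j - u.length) x y (by omega) (by omega) ?_ ?_
    · rw [List.append_assoc, List.getElem?_append_right hiu] at hx
      exact hx
    · rw [List.append_assoc, List.getElem?_append_right (by omega)] at hy
      exact hy

@[simp] theorem length_lastn (n : ℕ) (l : List α) : (PW.lastn n l).length = min n l.length := by
  unfold PW.lastn
  simp only [List.length_drop]
  omega

theorem lastn_append (n : ℕ) (u b : List α) (hb : n ≤ b.length) :
    PW.lastn n (u ++ b) = PW.lastn n b := by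
  unfold PW.lastn
  rw [List.length_append, List.drop_append]
  have : u.length + b.length - n ≥ u.length := by omega
  rw [List.drop_eq_nil_of_le this, List.nil_append]
  congr 1
  omega

theorem take_append_of_le (n : ℕ) (b v : List α) (hb : n ≤ b.length) :
    (b ++ v).take n = b.take n := by
  rw [List.take_append]
  have : n - b.length = 0 := by omega
  rw [this]
  simp

theorem append_lastn (n : ℕ) (l : List α) : l.take (l.length - n) ++ PW.lastn n l = l :=
  List.take_append_drop _ _

/-- only the last `t` entries of `l` matter for `l ++ v` -/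
theorem Pw.append_of_lastn (h1 : Pw R t l) (h2 : Pw R t (PW.lastn t l ++ v)) (hl : t ≤ l.length) :
    Pw R t (l ++ v) := by
  have e : l = l.take (l.length - t) ++ PW.lastn t l := (append_lastn t l).symm
  rw [e]
  refine Pw.glue ?_ h2 (by rw [length_lastn]; omega)
  rw [← e]
  exact h1

/-- only the first `t` entries of `l` matter for `u ++ l` -/
theorem Pw.append_of_take (h1 : Pw R t (u ++ l.take t)) (h2 : Pw R t l) (hl : t ≤ l.length) :
    Pw R t (u ++ l) := by
  have e : l = l.take t ++ l.drop t := (List.take_append_drop t l).symm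
  have h3 : Pw R t (u ++ l.take t ++ l.drop t) :=
    Pw.glue h1 (by rw [← e]; exact h2) (by rw [List.length_take]; omega)
  rwa [List.append_assoc, ← e] at h3

/-- two lists and a connection -/
theorem Pw.connect {c A B : List α} (hA : Pw R t A) (hB : Pw R t B) (hAl : t ≤ A.length)
    (hBl : t ≤ B.length) (h : Pw R t (PW.lastn t A ++ c ++ B.take t)) : Pw R t (A ++ c ++ B) := by
  have h1 : Pw R t (PW.lastn t A ++ (c ++ B)) := by
    have h2 : Pw R t ((PW.lastn t A ++ c) ++ B) := Pw.append_of_take h hB hBl
    rwa [List.append_assoc] at h2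
  have h3 := Pw.append_of_lastn hA h1 hAl
  rwa [← List.append_assoc] at h3

/-- replacing a part by a list with the same first `t` and the same last `t` entries -/
theorem Pw.replace {w A A' : List α} (h : Pw R t (u ++ A ++ w)) (hA' : Pw R t A')
    (_hl : t ≤ A.length) (hl' : t ≤ A'.length) (h1 : A'.take t = A.take t)
    (h2 : PW.lastn t A' = PW.lastn t A) : Pw R t (u ++ A' ++ w) := by
  have h3 : Pw R t (u ++ A') := by
    refine Pw.append_of_take ?_ hA' hl'
    rw [h1]
    have h4 : Pw R t (u ++ A) := h.left
    have h5 : Pw R t ((u ++ A.take t) ++ A.drop t) := by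
      rw [List.append_assoc, List.take_append_drop]; exact h4
    exact h5.left
  have h4 : Pw R t (A' ++ w) := by
    refine Pw.append_of_lastn hA' ?_ hl'
    rw [h2]
    have h5 : Pw R t (A ++ w) := by
      rw [List.append_assoc] at h
      exact h.right
    have h6 : Pw R t (A.take (A.length - t) ++ (PW.lastn t A ++ w)) := by
      rw [← List.append_assoc, append_lastn]
      exact h5
    exact h6.right
  exact Pw.glue h3 h4 hl'

theorem Pw.map {S : β → β → Prop} (f : α → β) (h : Pw (fun x y => S (f x) (f y)) t l) :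
    Pw S t (l.map f) := by
  intro i j x y hij hjt hx hy
  rw [List.getElem?_map] at hx hy
  obtain ⟨x', hx', rfl⟩ := Option.map_eq_some_iff.1 hx
  obtain ⟨y', hy', rfl⟩ := Option.map_eq_some_iff.1 hy
  exact h i j x' y' hij hjt hx' hy'

theorem Pw.of_map {S : β → β → Prop} (f : α → β) (h : Pw S t (l.map f)) :
    Pw (fun x y => S (f x) (f y)) t l := by
  intro i j x y hij hjt hx hy
  refine h i j _ _ hij hjt ?_ ?_
  · rw [List.getElem?_map, hx]; rfl
  · rw [List.getElem?_map, hy]; rfl

/-- the list of the values of a function -/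
theorem pw_ofFn {r : ℕ} (c : Fin r → α) :
    Pw R t (List.ofFn c) ↔ ∀ i j : Fin r, i < j → (j : ℕ) ≤ i + t → R (c i) (c j) := by
  constructor
  · intro h i j hij hjt
    refine h i j _ _ hij hjt ?_ ?_
    · rw [List.getElem?_ofFn, dif_pos i.2]
    · rw [List.getElem?_ofFn, dif_pos j.2]
  · intro h i j x y hij hjt hx hy
    rw [List.getElem?_ofFn] at hx hy
    split_ifs at hx hy with h1 h2
    · simp only [Option.some.injEq] at hx hy
      rw [← hx, ← hy]
      exact h ⟨i, h1⟩ ⟨j, h2⟩ hij hjt

/-- reversal -/
theorem Pw.reverse (h : Pw (fun x y => R y x) t l) : Pw R t l.reverse := by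
  intro i j x y hij hjt hx hy
  obtain ⟨hi, hx'⟩ := List.getElem?_eq_some_iff.1 hx
  obtain ⟨hj, hy'⟩ := List.getElem?_eq_some_iff.1 hy
  rw [List.length_reverse] at hi hj
  rw [List.getElem?_reverse hi] at hx
  rw [List.getElem?_reverse hj] at hy
  exact h _ _ y x (by omega) (by omega) hy hx

end lists

section host

variable {n k m t D : ℕ} {M : ZMod n → Finset (ZMod n)} {z : ZMod n}

theorem vs_append (P Q : List ℕ) : vs z (P ++ Q) = vs z P ++ vs z Q := by
  unfold vs; rw [List.map_append]

theorem length_vs (P : List ℕ) : (vs z P).length = P.length := by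
  unfold vs; rw [List.length_map]

theorem mem_vs {P : List ℕ} {v : ZMod n} : v ∈ vs z P ↔ ∃ p ∈ P, z + (p : ZMod n) = v := by
  unfold vs; rw [List.mem_map]

theorem vs_take (P : List ℕ) (j : ℕ) : (vs z P).take j = vs z (P.take j) := by
  unfold vs; rw [List.map_take]

theorem vs_lastn (P : List ℕ) (j : ℕ) : lastn j (vs z P) = vs z (lastn j P) := by
  unfold vs lastn; rw [List.map_drop, List.length_map]

/-- change of the base point -/
theorem La.shift {s x y : ℕ} (h : La n k M (z + (s : ZMod n)) x y) :
    La n k M z (x + s) (y + s) := by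
  obtain ⟨h1, h2, h3⟩ := h
  refine ⟨by omega, by omega, ?_⟩
  have e1 : z + ((y + s : ℕ) : ZMod n) = z + (s : ZMod n) + (y : ZMod n) := by push_cast; ring
  have e2 : z + ((x + s : ℕ) : ZMod n) = z + (s : ZMod n) + (x : ZMod n) := by push_cast; ring
  rw [e1, e2]
  exact h3

theorem La.unshift {s x y : ℕ} (h : La n k M z (x + s) (y + s)) :
    La n k M (z + (s : ZMod n)) x y := by
  obtain ⟨h1, h2, h3⟩ := h
  refine ⟨by omega, by omega, ?_⟩
  have e1 : z + ((y + s : ℕ) : ZMod n) = z + (s : ZMod n) + (y : ZMod n) := by push_cast; ring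
  have e2 : z + ((x + s : ℕ) : ZMod n) = z + (s : ZMod n) + (x : ZMod n) := by push_cast; ring
  rw [e1, e2] at h3
  exact h3

theorem vs_shift (P : List ℕ) (s : ℕ) :
    vs z (P.map (fun p => p + s)) = vs (z + (s : ZMod n)) P := by
  unfold vs
  rw [List.map_map]
  refine List.map_congr_left fun p _ => ?_
  simp only [Function.comp]
  push_cast
  ring

theorem Pw.shift {P : List ℕ} (s : ℕ) (h : Pw (La n k M (z + (s : ZMod n))) t P) :
    Pw (La n k M z) t (P.map (fun p => p + s)) :=
  Pw.map (S := La n k M z) (fun p => p + s) (h.mono fun _ _ h => h.shift)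

theorem Pw.unshift {P : List ℕ} (s : ℕ) (h : Pw (La n k M z) t (P.map (fun p => p + s))) :
    Pw (La n k M (z + (s : ZMod n))) t P :=
  (Pw.of_map (S := La n k M z) (fun p => p + s) h).mono fun _ _ h => h.unshift

theorem La.ad {x y : ℕ} (h : La n k M z x y) : Ad n k M (z + (x : ZMod n)) (z + (y : ZMod n)) := by
  obtain ⟨h1, h2, h3⟩ := h
  refine ⟨⟨(y : ℤ) - x, ?_, ?_⟩, h3⟩
  · rw [abs_le]; constructor <;> omega
  · push_cast; ring

/-- the list of vertices of a list of positions -/
theorem Pw.ad {P : List ℕ} (h : Pw (La n k M z) t P) : Pw (Ad n k M) t (vs z P) :=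
  Pw.map (S := Ad n k M) (fun p : ℕ => z + (p : ZMod n)) (h.mono fun _ _ h => h.ad)

theorem La.symm' (hM : Host n k m M) {x y : ℕ} (h : La n k M z x y) : La n k M z y x :=
  ⟨h.2.1, h.1, fun h' => h.2.2 (hM.symm _ _ h')⟩

theorem La.ne (hM : Host n k m M) {x y : ℕ} (h : La n k M z x y) :
    z + (x : ZMod n) ≠ z + (y : ZMod n) := by
  intro he
  apply h.2.2
  rw [← he]
  exact hM.refl _

/-- natural numbers at distance less than `n` give different elements of `ZMod n` -/
theorem cast_inj {x y : ℕ} (h1 : x < y + n) (h2 : y < x + n)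
    (h : z + (x : ZMod n) = z + (y : ZMod n)) : x = y := by
  have h3 : ((x : ℤ) : ZMod n) = ((y : ℤ) : ZMod n) := by
    have := add_left_cancel h
    simpa using this
  rw [ZMod.intCast_eq_intCast_iff_dvd_sub] at h3
  obtain ⟨c, hc⟩ := h3
  have h4 : |(y : ℤ) - x| < n := by rw [abs_lt]; constructor <;> omega
  rcases lt_trichotomy c 0 with hc0 | hc0 | hc0
  · have : (n : ℤ) * c ≤ -n := by nlinarith
    rw [abs_lt] at h4
    omega
  · rw [hc0, mul_zero] at hc
    omega
  · have : (n : ℤ) ≤ n * c := by nlinarith
    rw [abs_lt] at h4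
    omega

end host

end Pool.Agent.H48.PW
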