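import Pool.Agent.H48.PW.Stm
import Pool.Agent.H48.PW.Basic

/-!
[CONN2] connections inside of dense sets.
-/

set_option autoImplicit false

namespace Pool.Agent.H48.PW

open Finset Pool.Agent.Helper83K9.CF

namespace CONNL

/-- greedy choice of `t + 1` points of an interval -/
theorem greedy (N K μ t : ℕ) (Γ : ℕ → ℕ → Prop) (hL : LG N K μ Γ) (lo hi : ℕ)
    (h1 : hi < N) (h2 : hi ≤ lo + K) (h3 : t * μ < hi + 1 - lo) (X : ℕ → Finset ℕ)
    (hX : ∀ i, i < t → (X i).card ≤ μ) :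
    ∀ r, r ≤ t + 1 → ∃ c : ℕ → ℕ, ∀ j, j < r → (lo ≤ c j ∧ c j ≤ hi) ∧
      (∀ i, i < r → i ≠ j → Γ (c i) (c j)) ∧ ∀ i, i < t → j ≤ i → c j ∉ X i := by
  classical
  intro r
  induction r with
  | zero => intro _; exact ⟨fun _ => 0, fun j hj => absurd hj (Nat.not_lt_zero _)⟩
  | succ r ih =>
    intro hr
    obtain ⟨c, hc⟩ := ih (by omega)
    -- the missing sets
    have hS : ∀ i : ℕ, ∃ S : Finset ℕ, i < r → S.card ≤ μ ∧
        ∀ y, y < N → c i ≤ y + K → y ≤ c i + K → ¬ Γ (c i) y → y ∈ S := by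
      intro i
      by_cases hi' : i < r
      · obtain ⟨S, hS1, hS2⟩ := hL.miss (c i) (by have := (hc i hi').1.2; omega)
        exact ⟨S, fun _ => ⟨hS1, hS2⟩⟩
      · exact ⟨∅, fun h => absurd h hi'⟩
    choose S hS using hS
    set Bad : Finset ℕ := ((Finset.range r).biUnion S) ∪ ((Finset.Ico r t).biUnion X) with hBad
    have hcard : Bad.card ≤ t * μ := by
      have e1 : ((Finset.range r).biUnion S).card ≤ r * μ := by
        have := Finset.card_biUnion_le_card_mul (Finset.range r) S μ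
          (fun i hi' => (hS i (Finset.mem_range.1 hi')).1)
        simpa using this
      have e2 : ((Finset.Ico r t).biUnion X).card ≤ (t - r) * μ := by
        have := Finset.card_biUnion_le_card_mul (Finset.Ico r t) X μ
          (fun i hi' => hX i (Finset.mem_Ico.1 hi').2)
        simpa using this
      have e3 := Finset.card_union_le ((Finset.range r).biUnion S) ((Finset.Ico r t).biUnion X)
      have e4 : r * μ + (t - r) * μ = t * μ ∨ r = t + 1 := by
        rcases Nat.lt_or_ge t r with h | h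
        · right; omega
        · left; rw [← Nat.add_mul]; congr 1; omega
      rcases e4 with e4 | e4
      · rw [← e4]; exact e3.trans (Nat.add_le_add e1 e2)
      · omega
    have hJ : (Finset.Icc lo hi).card = hi + 1 - lo := Nat.card_Icc lo hi
    obtain ⟨y, hyJ, hyB⟩ : ∃ y ∈ Finset.Icc lo hi, y ∉ Bad := by
      by_contra hcon
      push Not at hcon
      have : (Finset.Icc lo hi) ⊆ Bad := fun y hy => hcon y hy
      have := Finset.card_le_card this
      omega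
    rw [Finset.mem_Icc] at hyJ
    have hy1 : ∀ i, i < r → Γ (c i) y := by
      intro i hi'
      by_contra hG
      apply hyB
      rw [hBad, Finset.mem_union, Finset.mem_biUnion]
      left
      refine ⟨i, Finset.mem_range.2 hi', (hS i hi').2 y (by omega) ?_ ?_ hG⟩
      · have := (hc i hi').1; omega
      · have := (hc i hi').1; omega
    have hy2 : ∀ i, i < t → r ≤ i → y ∉ X i := by
      intro i hi' hri hyX
      apply hyB
      rw [hBad, Finset.mem_union, Finset.mem_biUnion, Finset.mem_biUnion]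
      right
      exact ⟨i, Finset.mem_Ico.2 ⟨hri, hi'⟩, hyX⟩
    refine ⟨Function.update c r y, ?_⟩
    intro j hj
    rcases Nat.lt_succ_iff_lt_or_eq.1 hj with hj' | hj'
    · have e : Function.update c r y j = c j := Function.update_of_ne (by omega) _ _
      rw [e]
      refine ⟨(hc j hj').1, ?_, (hc j hj').2.2⟩
      intro i hi' hij
      rcases Nat.lt_succ_iff_lt_or_eq.1 hi' with hi'' | hi''
      · rw [Function.update_of_ne (by omega)]
        exact (hc j hj').2.1 i hi'' hij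
      · subst hi''
        rw [Function.update_self]
        exact hL.symm _ _ (hy1 j hj')
    · subst hj'
      rw [Function.update_self]
      refine ⟨hyJ, ?_, hy2⟩
      intro i hi' hij
      rw [Function.update_of_ne hij]
      exact hy1 i (by omega)

/-- version with functions on `Fin (t + 1)` -/
theorem greedyF (N K μ t : ℕ) (Γ : ℕ → ℕ → Prop) (hL : LG N K μ Γ) (lo hi : ℕ)
    (h1 : hi < N) (h2 : hi ≤ lo + K) (h3 : t * μ < hi + 1 - lo) (X : ℕ → Finset ℕ)
    (hX : ∀ i, i < t → (X i).card ≤ μ) :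
    ∃ c : Fin (t + 1) → ℕ, Clf N K Γ c ∧ (∀ j, lo ≤ c j ∧ c j ≤ hi) ∧
      ∀ (j : Fin (t + 1)) (i : ℕ), i < t → (j : ℕ) ≤ i → c j ∉ X i := by
  obtain ⟨c, hc⟩ := greedy N K μ t Γ hL lo hi h1 h2 h3 X hX (t + 1) le_rfl
  refine ⟨fun j => c j, ⟨?_, ?_⟩, ?_, ?_⟩
  · intro j
    have := (hc j j.2).1
    dsimp only
    omega
  · intro i j hij
    have e1 := (hc i i.2).1
    have e2 := (hc j j.2).1
    refine ⟨?_, ?_, ?_, ?_, (hc j j.2).2.1 i i.2 (fun h => hij (Fin.ext h))⟩ <;> dsimp only <;> omega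
  · intro j
    exact (hc j j.2).1
  · intro j i hi' hji
    exact (hc j j.2).2.2 i hi' hji

/-- points in close cells are close -/
theorem cell_dist {A B N₀ ℓ k u v : ℕ} (hN₀ : 2 ≤ N₀) (hk : N₀ * ℓ ≤ k) (hAB : A ≤ B + (N₀ - 2))
    (hu : u < (A + 1) * ℓ) (hv : B * ℓ ≤ v) : u ≤ v + k := by
  have h1 : (A + 1) * ℓ ≤ (B + (N₀ - 2) + 1) * ℓ := Nat.mul_le_mul_right _ (by omega)
  have h2 : (B + (N₀ - 2) + 1) * ℓ = B * ℓ + (N₀ - 1) * ℓ := by
    rw [← Nat.add_mul]; congr 1; omega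
  have h3 : (N₀ - 1) * ℓ ≤ N₀ * ℓ := Nat.mul_le_mul_right _ (by omega)
  omega

/-- points of the line at distance at most `q c` are in cells with difference at most `c` -/
theorem div_dist {x y q c : ℕ} (hq : 1 ≤ q) (h : x ≤ y + q * c) : x / q ≤ y / q + c := by
  have h1 : x / q ≤ (y + q * c) / q := Nat.div_le_div_right h
  rwa [Nat.add_mul_div_left _ _ (by omega)] at h1

/-- choice of the points of the line next to `t` given vertices -/
theorem window (N₀ D E t q μ ν k ℓ : ℕ) (Γ : ℕ → ℕ → Prop) (ht : 1 ≤ t) (hN₀ : 3 ≤ N₀)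
    (hq : 1 ≤ q) (hK : t * (μ + ν) + 1 ≤ q * (N₀ - 2)) (h8q : 8 * q ≤ t * ν) (hE : t + 8 ≤ E)
    (hk1 : N₀ * ℓ ≤ k) (hk2 : k < N₀ * (ℓ + 1)) (hℓ : (D + 2 * E) * N₀ + 2 ≤ ℓ)
    (hL : LG ((D + 2 * E) * N₀ * q) (q * (N₀ - 2)) μ Γ) (a : List ℕ) (ha : a.length = t)
    (ha1 : ∀ p ∈ a, E * k ≤ p ∧ p < (E + D) * k)
    (ha2 : ∀ p ∈ a, ∀ p' ∈ a, p ≤ p' + k)
    (X : ℕ → Finset ℕ) (hX : ∀ i, i < t → (X i).card ≤ μ) :
    ∃ c : Fin (t + 1) → ℕ, Clf ((D + 2 * E) * N₀ * q) (q * (N₀ - 2)) Γ c ∧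
      (∀ j, (t + 2) * (q * (N₀ - 2)) ≤ c j ∧
        c j + (t + 2) * (q * (N₀ - 2)) < (D + 2 * E) * N₀ * q) ∧
      (∀ j, ∀ p ∈ a, c j ≤ q * (p / ℓ) + q * (N₀ - 2) ∧ q * (p / ℓ) ≤ c j + q * (N₀ - 2)) ∧
      ∀ (j : Fin (t + 1)) (i : ℕ), i < t → (j : ℕ) ≤ i → c j ∉ X i := by
  have hℓ0 : 0 < ℓ := by omega
  set K := q * (N₀ - 2) with hKdef
  have hne : a.toFinset.Nonempty := by
    rw [List.toFinset_nonempty_iff]
    intro h
    rw [h] at ha
    simp at ha
    omega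
  obtain ⟨p₀, hp₀, hmin⟩ := Finset.exists_min_image a.toFinset id hne
  rw [List.mem_toFinset] at hp₀
  have hmin' : ∀ p ∈ a, p₀ ≤ p := fun p hp => hmin p (List.mem_toFinset.2 hp)
  -- cells
  have hK3 : q * (N₀ + 1) = K + 3 * q := by
    have e : q * (N₀ + 1) = q * ((N₀ - 2) + 3) := by congr 1; omega
    rw [e, hKdef]; ring
  have hKN : K + 2 * q = q * N₀ := by
    have e : q * N₀ = q * ((N₀ - 2) + 2) := by congr 1; omega
    rw [e, hKdef]; ring
  have hkl : k < (N₀ + 1) * ℓ := by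
    have e1 : N₀ * (ℓ + 1) = N₀ * ℓ + N₀ := by ring
    have e2 : (N₀ + 1) * ℓ = N₀ * ℓ + ℓ := by ring
    have e3 : N₀ ≤ ℓ := by
      have : N₀ ≤ (D + 2 * E) * N₀ := Nat.le_mul_of_pos_left _ (by omega)
      omega
    omega
  have hcell : ∀ p ∈ a, p / ℓ ≤ p₀ / ℓ + (N₀ + 1) := by
    intro p hp
    refine div_dist hℓ0 ?_
    have := ha2 p hp p₀ hp₀
    rw [Nat.mul_comm ℓ]
    omega
  have hlow : E * N₀ ≤ p₀ / ℓ := by
    rw [Nat.le_div_iff_mul_le hℓ0]
    calc E * N₀ * ℓ = E * (N₀ * ℓ) := by ring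
      _ ≤ E * k := Nat.mul_le_mul_left _ hk1
      _ ≤ p₀ := (ha1 p₀ hp₀).1
  have hup : p₀ / ℓ ≤ (E + D) * N₀ := by
    have h1 : p₀ < ((E + D) * N₀ + 1) * ℓ := by
      calc p₀ < (E + D) * k := (ha1 p₀ hp₀).2
        _ ≤ (E + D) * (N₀ * (ℓ + 1)) := Nat.mul_le_mul_left _ hk2.le
        _ = (E + D) * N₀ * ℓ + (E + D) * N₀ := by ring
        _ ≤ (E + D) * N₀ * ℓ + ℓ := by
          have : (E + D) * N₀ ≤ (D + 2 * E) * N₀ := Nat.mul_le_mul_right _ (by omega)
          omega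
        _ = ((E + D) * N₀ + 1) * ℓ := by ring
    have := (Nat.div_lt_iff_lt_mul hℓ0).2 h1
    omega
  have hqlow : q * (E * N₀) ≤ q * (p₀ / ℓ) := Nat.mul_le_mul_left _ hlow
  have hqup : q * (p₀ / ℓ) ≤ q * ((E + D) * N₀) := Nat.mul_le_mul_left _ hup
  have hEN : (t + 8) * (K + 2 * q) ≤ q * (E * N₀) := by
    rw [hKN]
    calc (t + 8) * (q * N₀) ≤ E * (q * N₀) := Nat.mul_le_mul_right _ hE
      _ = q * (E * N₀) := by ring
  have hEN' : (t + 8) * (K + 2 * q) = (t + 2) * K + 6 * K + (t + 8) * (2 * q) := by ring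
  have hN : (D + 2 * E) * N₀ * q = q * ((E + D) * N₀) + q * (E * N₀) := by ring
  have hbd : t * μ + 2 + 5 * q ≤ K - 3 * q + 1 := by
    have e1 : t * (μ + ν) = t * μ + t * ν := by ring
    omega
  obtain ⟨c, hc1, hc2, hc3⟩ := greedyF ((D + 2 * E) * N₀ * q) K μ t Γ hL
    (q * (p₀ / ℓ) + 3 * q) (q * (p₀ / ℓ) + K) (by rw [hN]; omega) (by omega) (by omega) X hX
  refine ⟨c, hc1, ?_, ?_, hc3⟩
  · intro j
    have := hc2 j
    rw [hN]
    omega
  · intro j p hp
    have h1 := hc2 j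
    have h2 : q * (p / ℓ) ≤ q * (p₀ / ℓ + (N₀ + 1)) := Nat.mul_le_mul_left _ (hcell p hp)
    rw [Nat.mul_add, hK3] at h2
    have h3 : q * (p₀ / ℓ) ≤ q * (p / ℓ) :=
      Nat.mul_le_mul_left _ (Nat.div_le_div_right (hmin' p hp))
    omega

end CONNL

open CONNL in
/-- [CONN2] connections inside of dense sets -/
theorem conn2 (h1 : S_TRANS) (h2 : S_WALK) : S_CONN2 := by
  classical
  intro t ε ht hε hε1
  obtain ⟨N₁, C₀, hN₁, h1⟩ := h1 t ε ht hε hε1
  refine ⟨t + 8 + C₀, N₁, ?_⟩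
  intro N₀ hN₀ D
  obtain ⟨E, hE⟩ : ∃ E, E = t + 8 + C₀ := ⟨_, rfl⟩
  rw [← hE]
  obtain ⟨q, μ, ν, hq, hν, hμν, hK, h8q, h1⟩ := h1 N₀ ((D + 2 * E) * N₀) (t + t) hN₀
  have hN₀3 : 3 ≤ N₀ := hN₁.trans hN₀
  have hKN : q * (N₀ - 2) + 2 * q = q * N₀ := by
    have e : q * N₀ = q * ((N₀ - 2) + 2) := by congr 1; omega
    rw [e]; ring
  have hmg : 2 * mg t (q * (N₀ - 2)) μ ν + 2 ≤ (D + 2 * E) * N₀ * q := by
    unfold mg
    have e1 : μ / ν + 1 ≤ C₀ + 1 := by
      have : μ / ν ≤ C₀ := by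
        rw [Nat.div_le_iff_le_mul_add_pred (by omega)]
        rw [Nat.mul_comm ν]
        omega
      omega
    have e2 : μ ≤ q * (N₀ - 2) := by
      have : μ ≤ t * (μ + ν) := by nlinarith
      omega
    have e3 : (μ / ν + 1) * μ ≤ (C₀ + 1) * (q * (N₀ - 2)) := Nat.mul_le_mul e1 e2
    have e4 : (D + 2 * E) * N₀ * q = D * (q * N₀) + 2 * (E * (q * N₀)) := by ring
    have e5 : E * (q * N₀) = (t + 6) * (q * (N₀ - 2)) + (C₀ + 1) * (q * (N₀ - 2)) +
        q * (N₀ - 2) + E * (2 * q) := by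
      rw [← hKN, hE]; ring
    have e6 : 1 ≤ E * (2 * q) := Nat.mul_pos (by omega) (by omega)
    omega
  obtain ⟨W', hW⟩ := h2 t (q * (N₀ - 2)) μ ν ((D + 2 * E) * N₀ * q) ht hν hK hmg
  refine ⟨W' + 2 * (t + 1), ?_⟩
  intro θ hθ
  obtain ⟨c₀, k₁, hc₀, h1⟩ := h1 (W' + 2 * (t + 1)) θ (by omega) hθ
  refine ⟨k₁ + N₀ * ((D + 2 * E) * N₀ + 2), ?_⟩
  intro n k m _ M hM hk σ z U hσ hDe a b ha hb ha1 hb1 ha2 hb2
  -- the exterior vertices
  obtain ⟨ab, hab⟩ : ∃ ab : ℕ → ℕ, ∀ i, ab i = (a ++ b).getD i 0 := ⟨_, fun _ => rfl⟩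
  have haba : ∀ i, i < t → a[i]? = some (ab i) := by
    intro i hi
    rw [hab, List.getD_eq_getElem?_getD, List.getElem?_append_left (by omega),
      List.getElem?_eq_getElem (by omega)]
    rfl
  have habb : ∀ i, i < t → b[i]? = some (ab (t + i)) := by
    intro i hi
    rw [hab, List.getD_eq_getElem?_getD, List.getElem?_append_right (by omega), ha,
      Nat.add_sub_cancel_left, List.getElem?_eq_getElem (by omega)]
    rfl
  have hab1 : ∀ i, i < t + t → E * k ≤ ab i ∧ ab i < (E + D) * k := by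
    intro i hi
    rcases Nat.lt_or_ge i t with h | h
    · exact ha1 _ (List.mem_of_getElem? (haba i h))
    · have := habb (i - t) (by omega)
      rw [Nat.add_sub_cancel' h] at this
      exact hb1 _ (List.mem_of_getElem? this)
  obtain ⟨ℓ, hℓdef⟩ : ∃ ℓ, ℓ = k / N₀ := ⟨_, rfl⟩
  have hk1 : N₀ * ℓ ≤ k := by rw [hℓdef]; exact Nat.mul_div_le k N₀
  have hk2 : k < N₀ * (ℓ + 1) := by rw [hℓdef]; exact Nat.lt_mul_div_succ k (by omega)
  have hℓ : (D + 2 * E) * N₀ + 2 ≤ ℓ := by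
    rw [hℓdef, Nat.le_div_iff_mul_le (by omega), Nat.mul_comm]
    omega
  have hℓ0 : 0 < ℓ := by omega
  have habL : ∀ i, i < t + t → ab i < (D + 2 * E) * N₀ * ℓ := by
    intro i hi
    calc ab i < (E + D) * k := (hab1 i hi).2
      _ ≤ (E + D) * (N₀ * (ℓ + 1)) := Nat.mul_le_mul_left _ hk2.le
      _ = (E + D) * N₀ * ℓ + (E + D) * N₀ := by ring
      _ ≤ (E + D) * N₀ * ℓ + ℓ := by
        have : (E + D) * N₀ ≤ (D + 2 * E) * N₀ := Nat.mul_le_mul_right _ (by omega)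
        omega
      _ = ((E + D) * N₀ + 1) * ℓ := by ring
      _ ≤ (D + 2 * E) * N₀ * ℓ := by
        refine Nat.mul_le_mul_right _ ?_
        have e1 : (D + 2 * E) * N₀ = (E + D) * N₀ + E * N₀ := by ring
        have e2 : 1 ≤ E * N₀ := Nat.mul_pos (by omega) (by omega)
        omega
  have h3 := h1 n k m M hM (by omega) σ z U hσ hDe (fun i => z + (ab i : ZMod n))
    (fun i => q * (ab i / ℓ)) (fun i => ⟨ab i, by rw [← hℓdef]; exact habL i i.2, rfl⟩)
  rw [← hℓdef] at h3 hDe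
  obtain ⟨Γ, X, hLG, hXc, hcount⟩ := h3
  -- a realisation
  obtain ⟨Ω, hΩ1, hΩ2⟩ : ∃ Ω : Fin ((D + 2 * E) * N₀ * q) × Fin (W' + 2 * (t + 1)) → ℕ,
      (∀ p, Ω p ∈ cellU z ℓ U ((p.1 : ℕ) / q)) ∧
      Faith n M z ((D + 2 * E) * N₀ * q) (q * (N₀ - 2)) (W' + 2 * (t + 1))
        (fun i => z + (ab i : ZMod n)) (fun i => q * (ab i / ℓ)) Γ X Ω := by
    have hpos : (0 : ℝ) < c₀ * ∏ p : Fin ((D + 2 * E) * N₀ * q) × Fin (W' + 2 * (t + 1)),
        ((cellU z ℓ U ((p.1 : ℕ) / q)).card : ℝ) := by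
      refine mul_pos hc₀ (Finset.prod_pos fun p _ => ?_)
      have hlt : (p.1 : ℕ) / q < (D + 2 * E) * N₀ :=
        (Nat.div_lt_iff_lt_mul hq).2 p.1.2
      have hkpos : (0 : ℝ) < k := by exact_mod_cast hM.kpos
      exact lt_of_lt_of_le (mul_pos hθ hkpos) (hσ.trans (hDe.cell _ hlt))
    have h4 := lt_of_lt_of_le hpos hcount
    have h5 : 0 < ((Fintype.piFinset (fun p : Fin ((D + 2 * E) * N₀ * q) × Fin (W' + 2 * (t + 1)) =>
        cellU z ℓ U ((p.1 : ℕ) / q))).filter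
          (fun Ω => Faith n M z ((D + 2 * E) * N₀ * q) (q * (N₀ - 2)) (W' + 2 * (t + 1))
            (fun i => z + (ab i : ZMod n)) (fun i => q * (ab i / ℓ)) Γ X Ω)).card := by
      exact_mod_cast h4
    obtain ⟨Ω, hΩ⟩ := Finset.card_pos.1 h5
    rw [Finset.mem_filter, Fintype.mem_piFinset] at hΩ
    exact ⟨Ω, hΩ.1, hΩ.2⟩
  obtain ⟨N, hN⟩ : ∃ N, N = (D + 2 * E) * N₀ * q := ⟨_, rfl⟩
  obtain ⟨K, hKd⟩ : ∃ K, K = q * (N₀ - 2) := ⟨_, rfl⟩
  obtain ⟨s, hs⟩ : ∃ s, s = W' + 2 * (t + 1) := ⟨_, rfl⟩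
  -- the realisation as a function of natural numbers
  obtain ⟨Φ, hΦ1, hΦ2, hΦ3, hΦ4⟩ : ∃ Φ : ℕ → ℕ → ℕ,
      (∀ x i, x < N → i < s → Φ x i ∈ cellU z ℓ U (x / q)) ∧
      (∀ x i x' i', x < N → i < s → x' < N → i' < s →
        z + (Φ x i : ZMod n) = z + (Φ x' i' : ZMod n) → x = x' ∧ i = i') ∧
      (∀ x i x' i', x < N → i < s → x' < N → i' < s → x ≤ x' + K → x' ≤ x + K → Γ x x' →
        z + (Φ x' i' : ZMod n) ∉ M (z + (Φ x i : ZMod n))) ∧
      (∀ (j : Fin (t + t)) (x i : ℕ), x < N → i < s → x ≤ q * (ab j / ℓ) + K →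
        q * (ab j / ℓ) ≤ x + K → x ∉ X j →
        z + (Φ x i : ZMod n) ∉ M (z + (ab j : ZMod n))) := by
    obtain ⟨Φ, hΦ⟩ : ∃ Φ : ℕ → ℕ → ℕ, ∀ x i (hx : x < (D + 2 * E) * N₀ * q)
        (hi : i < W' + 2 * (t + 1)), Φ x i = Ω (⟨x, hx⟩, ⟨i, hi⟩) :=
      ⟨fun x i => if h : x < (D + 2 * E) * N₀ * q ∧ i < W' + 2 * (t + 1) then
        Ω (⟨x, h.1⟩, ⟨i, h.2⟩) else 0, fun x i hx hi => dif_pos ⟨hx, hi⟩⟩
    subst hN hs
    refine ⟨Φ, ?_, ?_, ?_, ?_⟩
    · intro x i hx hi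
      rw [hΦ x i hx hi]
      exact hΩ1 (⟨x, hx⟩, ⟨i, hi⟩)
    · intro x i x' i' hx hi hx' hi' he
      rw [hΦ x i hx hi, hΦ x' i' hx' hi'] at he
      have := hΩ2.1 he
      rw [Prod.mk.injEq, Fin.mk.injEq, Fin.mk.injEq] at this
      exact this
    · intro x i x' i' hx hi hx' hi' h5 h6 h7
      rw [hΦ x i hx hi, hΦ x' i' hx' hi']
      rw [hKd] at h5 h6
      exact hΩ2.2.1 ⟨x, hx⟩ ⟨x', hx'⟩ ⟨i, hi⟩ ⟨i', hi'⟩ h5 h6 h7
    · intro j x i hx hi h5 h6 h7
      rw [hΦ x i hx hi]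
      rw [hKd] at h5 h6
      exact hΩ2.2.2 j ⟨x, hx⟩ ⟨i, hi⟩ h5 h6 h7
  have hcellU : ∀ x i, x < N → i < s → x / q * ℓ ≤ Φ x i ∧ Φ x i < (x / q + 1) * ℓ ∧
      z + (Φ x i : ZMod n) ∈ U := by
    intro x i hx hi
    have := hΦ1 x i hx hi
    rw [cellU, Finset.mem_filter, Finset.mem_Ico] at this
    exact ⟨this.1.1, this.1.2, this.2⟩
  -- the walk
  have hwin := window N₀ D E t q μ ν k ℓ Γ ht hN₀3 hq hK h8q (by omega) hk1 hk2 hℓ hLG
  have hpair : ∀ l : List ℕ, l.length = t → Pw (La n k M z) t l →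
      ∀ p ∈ l, ∀ p' ∈ l, p ≤ p' + k := by
    intro l hl hP p hp p' hp'
    obtain ⟨i, hi, rfl⟩ := List.mem_iff_getElem.1 hp
    obtain ⟨j, hj, rfl⟩ := List.mem_iff_getElem.1 hp'
    rcases lt_trichotomy i j with hij | hij | hij
    · exact (hP i j _ _ hij (by omega) (List.getElem?_eq_getElem hi)
        (List.getElem?_eq_getElem hj)).1
    · subst hij; omega
    · exact (hP j i _ _ hij (by omega) (List.getElem?_eq_getElem hj)
        (List.getElem?_eq_getElem hi)).2.1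
  obtain ⟨c, hc1, hc2, hc3, hc4⟩ := hwin a ha ha1 (hpair a ha ha2)
    (fun i => if h : i < t + t then X ⟨i, h⟩ else ∅) (by
      intro i hi
      rw [dif_pos (show i < t + t by omega)]
      exact hXc _)
  obtain ⟨d, hd1, hd2, hd3, hd4⟩ := hwin b hb hb1 (hpair b hb hb2)
    (fun i => if h : i < t then X ⟨t + (t - 1 - i), by omega⟩ else ∅) (by
      intro i hi
      rw [dif_pos hi]
      exact hXc _)
  obtain ⟨w, hw1, hw2, hw3⟩ := hW Γ hLG c (fun j => d j.rev) hc1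
    ⟨fun j => hd1.1 _, fun i j hij => hd1.2 _ _ (fun h => hij (Fin.rev_injective h))⟩
    ⟨0, hc2 0⟩ ⟨0, hd2 _⟩
  rw [← hN, ← hKd] at hw3
  rw [← hN] at hw2
  obtain ⟨y, hy⟩ : ∃ y, y = List.ofFn c ++ w ++ List.ofFn (fun j => d j.rev) := ⟨_, rfl⟩
  rw [← hy] at hw3
  have hylen : y.length = (t + 1) + w.length + (t + 1) := by
    rw [hy]; simp only [List.length_append, List.length_ofFn]
  have hyc : ∀ j (hj : j < t + 1), y[j]? = some (c ⟨j, hj⟩) := by
    intro j hj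
    rw [hy, List.append_assoc, List.getElem?_append_left (by rw [List.length_ofFn]; exact hj),
      List.getElem?_ofFn, dif_pos hj]
  have hyd : ∀ j (hj : j < t + 1), y[t + 1 + w.length + j]? = some (d (Fin.rev ⟨j, hj⟩)) := by
    intro j hj
    rw [hy, List.getElem?_append_right (by rw [List.length_append, List.length_ofFn]; omega),
      List.length_append, List.length_ofFn, Nat.add_sub_cancel_left, List.getElem?_ofFn,
      dif_pos hj]
  have hyN : ∀ x ∈ y, x < N := by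
    intro x hx
    rw [hy, List.mem_append, List.mem_append, List.mem_ofFn, List.mem_ofFn] at hx
    rcases hx with (⟨j, rfl⟩ | hx) | ⟨j, rfl⟩
    · rw [hN]; exact hc1.1 j
    · exact hw2 x hx
    · rw [hN]; exact hd1.1 _
  have hys : y.length ≤ s := by rw [hylen, hs]; omega
  -- the realised walk
  obtain ⟨C, hC⟩ : ∃ C, C = y.mapIdx (fun i x => Φ x i) := ⟨_, rfl⟩
  have hClen : C.length = y.length := by rw [hC, List.length_mapIdx]
  have hCget : ∀ i v, C[i]? = some v → ∃ x, y[i]? = some x ∧ x < N ∧ i < s ∧ v = Φ x i := by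
    intro i v hv
    rw [hC, List.getElem?_mapIdx, Option.map_eq_some_iff] at hv
    obtain ⟨x, hx1, hx2⟩ := hv
    have h5 := (List.getElem?_eq_some_iff.1 hx1).1
    exact ⟨x, hx1, hyN x (List.mem_of_getElem? hx1), by omega, hx2.symm⟩
  refine ⟨C, by rw [hClen, ← hs]; exact hys, ?_, ?_, ?_⟩
  · intro p hp
    obtain ⟨i, hi⟩ := List.mem_iff_getElem?.1 hp
    obtain ⟨x, hx1, hx2, hx3, rfl⟩ := hCget i p hi
    obtain ⟨h5, h6, h7⟩ := hcellU x i hx2 hx3
    refine ⟨?_, h7⟩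
    have h8 : x / q < (D + 2 * E) * N₀ := (Nat.div_lt_iff_lt_mul hq).2 (by rw [← hN]; exact hx2)
    calc Φ x i < (x / q + 1) * ℓ := h6
      _ ≤ ((D + 2 * E) * N₀) * ℓ := Nat.mul_le_mul_right _ h8
      _ = (D + 2 * E) * (N₀ * ℓ) := by ring
      _ ≤ (D + 2 * E) * k := Nat.mul_le_mul_left _ hk1
  · rw [List.nodup_iff_getElem?_ne_getElem?]
    intro i j hij hj he
    rw [length_vs] at hj
    have hi' : C[i]? = some C[i] := List.getElem?_eq_getElem (by omega)
    have hj' : C[j]? = some C[j] := List.getElem?_eq_getElem hj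
    obtain ⟨x, hx1, hx2, hx3, hx4⟩ := hCget i _ hi'
    obtain ⟨x', hx1', hx2', hx3', hx4'⟩ := hCget j _ hj'
    unfold vs at he
    rw [List.getElem?_map, List.getElem?_map, hi', hj', Option.map_some, Option.map_some,
      Option.some.injEq, hx4, hx4'] at he
    have := (hΦ2 x i x' j hx2 hx3 hx2' hx3' he).2
    omega
  · -- distances
    have hdist : ∀ x i x' i', x < N → i < s → x' < N → i' < s → x ≤ x' + K →
        Φ x i ≤ Φ x' i' + k := by
      intro x i x' i' hx hi hx' hi' h5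
      rw [hKd] at h5
      exact cell_dist (by omega) hk1 (div_dist hq h5) (hcellU x i hx hi).2.1
        (hcellU x' i' hx' hi').1
    have hCC : Pw (La n k M z) t C := by
      intro i j u v hij hjt hu hv
      obtain ⟨x, hx1, hx2, hx3, rfl⟩ := hCget i u hu
      obtain ⟨x', hx1', hx2', hx3', rfl⟩ := hCget j v hv
      obtain ⟨_, _, h5, h6, h7⟩ := hw3 i j x x' hij hjt hx1 hx1'
      exact ⟨hdist x i x' j hx2 hx3 hx2' hx3' h5, hdist x' j x i hx2' hx3' hx2 hx3 h6,
        hΦ3 x i x' j hx2 hx3 hx2' hx3' h5 h6 h7⟩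
    -- exterior vertices
    have hext : ∀ (j : Fin (t + t)) (x i : ℕ), x < N → i < s → x ≤ q * (ab j / ℓ) + K →
        q * (ab j / ℓ) ≤ x + K → x ∉ X j → La n k M z (ab j) (Φ x i) := by
      intro j x i hx hi h5 h6 h7
      have h8 := hΦ4 j x i hx hi h5 h6 h7
      rw [hKd] at h5 h6
      have h9 := div_dist hq h5
      have h10 := div_dist hq h6
      rw [Nat.mul_div_cancel_left _ (by omega)] at h9 h10
      refine ⟨?_, ?_, h8⟩
      · exact cell_dist (by omega) hk1 h10 (by have := Nat.lt_mul_div_succ (ab j) hℓ0; rwa [Nat.mul_comm] at this)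
          (hcellU x i hx hi).1
      · exact cell_dist (by omega) hk1 h9 (hcellU x i hx hi).2.1 (Nat.div_mul_le_self _ _)
    have haC : Pw (La n k M z) t (a ++ C) := by
      intro i j u v hij hjt hu hv
      rcases Nat.lt_or_ge j t with hj | hj
      · rw [List.getElem?_append_left (by omega)] at hu hv
        exact ha2 i j u v hij hjt hu hv
      · rw [List.getElem?_append_right (by omega), ha] at hv
        rcases Nat.lt_or_ge i t with hi | hi
        · rw [List.getElem?_append_left (by omega), haba i hi, Option.some.injEq] at hu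
          subst hu
          obtain ⟨x, hx1, hx2, hx3, rfl⟩ := hCget _ v hv
          rw [hyc (j - t) (by omega), Option.some.injEq] at hx1
          have h5 := hc3 ⟨j - t, by omega⟩ (ab i) (List.mem_of_getElem? (haba i hi))
          have h6 := hc4 ⟨j - t, by omega⟩ i hi (by dsimp only; omega)
          rw [dif_pos (show i < t + t by omega)] at h6
          rw [hx1, ← hKd] at h5
          rw [hx1] at h6
          exact hext ⟨i, by omega⟩ x (j - t) hx2 hx3 h5.1 h5.2 h6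
        · rw [List.getElem?_append_right (by omega), ha] at hu
          exact hCC (i - t) (j - t) u v (by omega) (by omega) hu hv
    have hCb : Pw (La n k M z) t (C ++ b) := by
      intro i j u v hij hjt hu hv
      rcases Nat.lt_or_ge j C.length with hj | hj
      · rw [List.getElem?_append_left (by omega)] at hu hv
        exact hCC i j u v hij hjt hu hv
      · rw [List.getElem?_append_right (by omega)] at hv
        have hjb : j - C.length < t := by
          have := (List.getElem?_eq_some_iff.1 hv).1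
          omega
        rcases Nat.lt_or_ge i C.length with hi | hi
        · rw [List.getElem?_append_left (by omega)] at hu
          rw [habb (j - C.length) hjb, Option.some.injEq] at hv
          subst hv
          obtain ⟨x, hx1, hx2, hx3, rfl⟩ := hCget _ u hu
          obtain ⟨i', hi'⟩ : ∃ i', i = t + 1 + w.length + i' := ⟨i - (t + 1 + w.length), by omega⟩
          rw [hi', hyd i' (by omega), Option.some.injEq] at hx1
          have hj1 : j - C.length + 1 ≤ i' := by omega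
          have h5 := hd3 (Fin.rev ⟨i', by omega⟩) (ab (t + (j - C.length)))
            (List.mem_of_getElem? (habb _ hjb))
          have h6 := hd4 (Fin.rev ⟨i', by omega⟩) (t - 1 - (j - C.length)) (by omega)
            (by rw [Fin.val_rev]; dsimp only; omega)
          rw [dif_pos (show t - 1 - (j - C.length) < t by omega)] at h6
          rw [hx1, ← hKd] at h5
          rw [hx1] at h6
          refine (hext ⟨t + (j - C.length), by omega⟩ x i hx2 hx3 h5.1 h5.2 ?_).symm' hM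
          have h7 : t + (t - 1 - (t - 1 - (j - C.length))) = t + (j - C.length) := by omega
          simp only [h7] at h6
          exact h6
        · rw [List.getElem?_append_right (by omega)] at hu
          exact hb2 (i - C.length) (j - C.length) u v (by omega) (by omega) hu hv
    exact Pw.glue haC hCb (by omega)

end Pool.Agent.H48.PW
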