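import Pool.Agent.H48.PW.Stm
import Pool.Graph.R_pool_sql_team_seeded_1e53cb71.Helper83K9.CF.Dist

/-!
`S_DIST2`: fractional tilings of segments by tiles, averaged.
-/

set_option autoImplicit false

namespace Pool.Agent.H48.PW

open Finset Pool.Agent.Helper83K9.CF

namespace DIST2L

/-- the positions in `[0, N)` of the vertices of `U` -/
noncomputable def pos {n : ℕ} (z : ZMod n) (U : Finset (ZMod n)) (N : ℕ) : Finset ℕ :=
  (range N).filter (fun i : ℕ => z + (i : ZMod n) ∈ U)

theorem mem_pos {n : ℕ} (z : ZMod n) (U : Finset (ZMod n)) (N i : ℕ) :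
    i ∈ pos z U N ↔ i < N ∧ z + (i : ZMod n) ∈ U := by
  rw [pos, mem_filter, mem_range]

theorem card_win {n k : ℕ} [NeZero n] (hn : 2 * k + 1 ≤ n) (z : ZMod n) (U : Finset (ZMod n))
    (N j : ℕ) (hj : j + k < N) :
    (Ico j (j + k) ∩ pos z U N).card = (win n k (z + (j : ZMod n)) ∩ U).card := by
  have h1 : (Ico j (j + k) ∩ pos z U N).image (fun i : ℕ => z + (i : ZMod n)) =
      win n k (z + (j : ZMod n)) ∩ U := by
    ext v
    rw [mem_image, mem_inter, win, mem_image]
    constructor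
    · rintro ⟨i, hi, rfl⟩
      rw [mem_inter, mem_Ico, mem_pos] at hi
      refine ⟨⟨i - j, mem_range.2 (by omega), ?_⟩, hi.2.2⟩
      rw [add_assoc, ← Nat.cast_add]
      congr 2
      omega
    · rintro ⟨⟨i, hi, rfl⟩, hv⟩
      have hi' := mem_range.1 hi
      have e2 : z + ((j + i : ℕ) : ZMod n) = z + (j : ZMod n) + (i : ZMod n) := by
        rw [Nat.cast_add, add_assoc]
      refine ⟨j + i, ?_, e2⟩
      rw [mem_inter, mem_Ico, mem_pos, e2]
      exact ⟨by omega, by omega, hv⟩
  rw [← h1, card_image_of_injOn]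
  intro a ha b hb hab
  rw [mem_coe, mem_inter, mem_Ico] at ha hb
  exact DistL.inj hn z (by omega) (by omega) hab

theorem card_LQ {n k m : ℕ} [NeZero n] {M : ZMod n → Finset (ZMod n)} (hM : Host n k m M)
    (z : ZMod n) (U : Finset (ZMod n)) (N x : ℕ) :
    (LQ (fun i j => i = j ∨ z + (j : ZMod n) ∈ M (z + (i : ZMod n))) k N x ∩ pos z U N).card ≤
      (M (z + (x : ZMod n)) ∩ U).card := by
  have hn := hM.size
  refine card_le_card_of_injOn (fun u : ℕ => z + (u : ZMod n)) ?_ ?_
  · intro u hu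
    rw [mem_coe, mem_inter, mem_pos] at hu
    have hu1 := hu.1
    simp only [LQ, mem_filter] at hu1
    rw [mem_coe, mem_inter]
    refine ⟨?_, hu.2.2⟩
    rcases hu1.2.2.2 with h | h
    · rw [← h]
      exact hM.refl _
    · exact h
  · intro u hu v hv huv
    rw [mem_coe, mem_inter] at hu hv
    have hu1 := hu.1
    have hv1 := hv.1
    simp only [LQ, mem_filter] at hu1 hv1
    exact DistL.inj hn z (by omega) (by omega) huv

/-- a tile on the line gives a tile in the host -/
theorem tile {n k m : ℕ} [NeZero n] {M : ZMod n → Finset (ZMod n)} (hM : Host n k m M)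
    (z : ZMod n) (t s : ℕ) (ht : 2 ≤ t) (hs : 1 ≤ s) (u K : Finset ℕ)
    (hK : LTile (fun i j => i = j ∨ z + (j : ZMod n) ∈ M (z + (i : ZMod n))) k t s u K) :
    (∀ x ∈ K, ∀ y ∈ K, x ≤ y + 2 * k) ∧ K ⊆ u ∧
      CTile n k t s M (K.image fun i : ℕ => z + (i : ZMod n)) := by
  obtain ⟨p, hp1, hp2, hp3, hp4⟩ := hK
  have hn := hM.size
  have hord : ∀ x y, p x ≤ p y + 2 * k := by
    intro x y
    by_cases hxy : x.1 = y.1
    · obtain ⟨c, hc⟩ : ∃ c : Fin (t + 1), c ≠ x.1 := by
        have : Nontrivial (Fin (t + 1)) := Fin.nontrivial_iff_two_le.2 (by omega)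
        exact exists_ne _
      have h1 := (hp4 x (c, x.2) (fun h => hc h.symm)).1
      have h2 := (hp4 (c, x.2) y (fun h => hc (by rw [hxy]; exact h))).1
      omega
    · have h1 := (hp4 x y hxy).1
      omega
  refine ⟨?_, hp3, ?_⟩
  · intro x hx y hy
    rw [hp2, mem_image] at hx hy
    obtain ⟨a, _, rfl⟩ := hx
    obtain ⟨b, _, rfl⟩ := hy
    exact hord a b
  · -- the minimum
    obtain ⟨x₀, _, hx₀⟩ := exists_min_image (univ : Finset (Fin (t + 1) × Fin s)) p
      ⟨(⟨0, by omega⟩, ⟨0, by omega⟩), mem_univ _⟩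
    have hmin : ∀ x, p x₀ ≤ p x := fun x => hx₀ x (mem_univ _)
    have hcast : ∀ x, z + ((p x₀ : ℕ) : ZMod n) + ((p x - p x₀ : ℕ) : ZMod n) =
        z + (p x : ZMod n) := by
      intro x
      rw [add_assoc, ← Nat.cast_add, Nat.add_sub_cancel' (hmin x)]
    refine ⟨z + (p x₀ : ZMod n), fun x => p x - p x₀, fun x => ?_, ?_, ?_, fun x y hxy => ?_⟩
    · have := hord x x₀
      change p x - p x₀ ≤ 2 * k
      omega
    · intro x y hxy
      beta_reduce at hxy
      rw [hcast, hcast] at hxy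
      exact hp1 (DistL.inj hn z (hord x y) (hord y x) hxy)
    · rw [hp2, image_image]
      refine image_congr fun x _ => ?_
      simp only [Function.comp_apply]
      rw [hcast]
    · have h1 := hp4 x y hxy
      have h2 := hmin x
      have h3 := hmin y
      refine ⟨?_, ?_⟩
      · change p x - p x₀ ≤ p y - p x₀ + k
        omega
      rw [hcast, hcast]
      exact fun h => h1.2 (Or.inr h)

/-- the load of the position `i` -/
noncomputable def load (N : ℕ) (w : Finset ℕ → ℝ) (i : ℕ) : ℝ :=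
  ∑ K ∈ (range N).powerset, (if i ∈ K then w K else 0)

theorem load_nonneg (N : ℕ) (w : Finset ℕ → ℝ) (hw : ∀ K, 0 ≤ w K) (i : ℕ) : 0 ≤ load N w i := by
  refine sum_nonneg fun K _ => ?_
  split_ifs
  · exact hw K
  · exact le_rfl

/-- sum over the blocks -/
theorem sum_blocks (k : ℕ) (f : ℕ → ℝ) (M₀ : ℕ) (h : 1 ≤ M₀) :
    ∑ i ∈ Ico k (M₀ * k), f i = ∑ c ∈ Ico 1 M₀, ∑ i ∈ Ico (c * k) ((c + 1) * k), f i := by
  induction M₀, h using Nat.le_induction with
  | base => simp
  | succ c hc ih =>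
    rw [sum_Ico_succ_top hc, ← ih, sum_Ico_consecutive]
    · exact Nat.le_mul_of_pos_left _ hc
    · exact Nat.mul_le_mul_right k (by omega)

theorem card_win_le {n : ℕ} (k : ℕ) (y : ZMod n) : (win n k y).card ≤ k := by
  rw [win]
  exact card_image_le.trans (card_range k).le

end DIST2L

open DIST2L in
theorem dist2 (h : S_FT) : S_DIST2 := by
  classical
  intro t M₀ s ε θ η ht hM₀ hs hε hε1 hθ hη
  obtain ⟨k₀, hk₀⟩ := h t M₀ s ε θ (η / 3) ht hM₀ hs hε hε1 hθ (by positivity)
  refine ⟨k₀, ?_⟩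
  intro n k m _ M hM hk U A hA
  have hk1 := hM.kpos
  have hn := hM.size
  obtain ⟨N, hN⟩ : ∃ N : ℕ, N = M₀ * k := ⟨_, rfl⟩
  have hkN : k ≤ N := by
    rw [hN]
    exact Nat.le_mul_of_pos_left _ (by omega)
  have key : ∀ z : ZMod n, ∃ w : Finset ℕ → ℝ, (∀ K, 0 ≤ w K) ∧
      (∀ K, w K ≠ 0 → (∀ x ∈ K, ∀ y ∈ K, x ≤ y + 2 * k) ∧
        (K.image fun i : ℕ => z + (i : ZMod n)) ⊆ U ∧
        CTile n k t s M (K.image fun i : ℕ => z + (i : ZMod n))) ∧
      (∀ v < N, z + (v : ZMod n) ∈ U → load N w v ≤ 1) ∧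
      (z ∈ A → ∀ c, 1 ≤ c → c < M₀ →
        ∑ i ∈ Ico (c * k) ((c + 1) * k), (if z + (i : ZMod n) ∈ U then 1 - load N w i else 0) ≤
          η / 3 * k) := by
    intro z
    by_cases hz : z ∈ A
    · obtain ⟨w, h1, h2, h3, h4⟩ := hk₀ k
        (fun i j => i = j ∨ z + (j : ZMod n) ∈ M (z + (i : ZMod n))) (pos z U (M₀ * k)) hk
        (fun x => Or.inl rfl)
        (fun x y h => h.elim (fun h => Or.inl h.symm) (fun h => Or.inr (hM.symm _ _ h)))
        (fun x hx => mem_range.2 ((mem_pos _ _ _ _).1 hx).1)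
        (by
          intro j hj
          obtain ⟨h5, h6⟩ := hA z hz j hj
          rw [card_win hn z U (M₀ * k) j hj]
          refine ⟨h5, fun x hx1 hx2 _ => ?_⟩
          have h7 := h6 (x - j) (by omega)
          rw [add_assoc, ← Nat.cast_add, Nat.add_sub_cancel' hx1] at h7
          refine le_trans ?_ h7
          have h8 : ((LQ (fun i j => i = j ∨ z + (j : ZMod n) ∈ M (z + (i : ZMod n))) k (M₀ * k) x ∩
              pos z U (M₀ * k)).card : ℝ) ≤ ((M (z + (x : ZMod n)) ∩ U).card : ℝ) := by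
            exact_mod_cast card_LQ hM z U (M₀ * k) x
          exact mul_le_mul_of_nonneg_left h8 (Nat.cast_nonneg t))
      refine ⟨w, h1, fun K hK => ?_, fun v hv hvU => ?_, fun _ c hc1 hc2 => ?_⟩
      · obtain ⟨h5, h6, h7⟩ := tile hM z t s ht hs _ K (h2 K hK)
        refine ⟨h5, fun v hv => ?_, h7⟩
        obtain ⟨i, hi, rfl⟩ := mem_image.1 hv
        exact ((mem_pos _ _ _ _).1 (h6 hi)).2
      · rw [load, hN]
        exact h3 v ((mem_pos _ _ _ _).2 ⟨by rw [← hN]; exact hv, hvU⟩)
      · have h5 := h4 c hc1 hc2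
        refine le_trans (le_of_eq ?_) h5
        rw [← sum_filter]
        refine sum_congr ?_ fun i _ => by rw [load, hN]
        ext i
        rw [mem_filter, mem_inter, mem_pos, mem_Ico]
        constructor
        · rintro ⟨h6, h7⟩
          have h8 : (c + 1) * k ≤ M₀ * k := Nat.mul_le_mul_right k hc2
          exact ⟨h6, by omega, h7⟩
        · rintro ⟨h6, _, h7⟩
          exact ⟨h6, h7⟩
    · exact ⟨fun _ => 0, fun _ => le_rfl, fun K hK => absurd rfl hK, fun v _ _ => by
        simp [load], fun h => absurd h hz⟩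
  choose w hw0 hw1 hw2 hw3 using key
  rw [← hN]
  have hN0 : (0 : ℝ) < N := by
    have : 0 < N := by omega
    exact_mod_cast this
  obtain ⟨W, hW⟩ : ∃ W : Finset (ZMod n) → ℝ, ∀ K, W K = (1 / (N : ℝ)) * ∑ z ∈ A,
      ∑ L ∈ (range N).powerset, if L.image (fun i : ℕ => z + (i : ZMod n)) = K then w z L else 0 :=
    ⟨_, fun K => rfl⟩
  have hterm : ∀ (z : ZMod n) (K : Finset (ZMod n)) (L : Finset ℕ),
      0 ≤ if L.image (fun i : ℕ => z + (i : ZMod n)) = K then w z L else 0 := by
    intro z K L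
    split_ifs
    · exact hw0 z L
    · exact le_rfl
  -- the weight of the vertex v in the segment starting at z
  have hseg : ∀ (z v : ZMod n), ∑ L ∈ (range N).powerset,
      (if v ∈ L.image (fun i : ℕ => z + (i : ZMod n)) then w z L else 0) =
      ∑ i ∈ range N, if z + (i : ZMod n) = v then load N (w z) i else 0 := by
    intro z v
    have h1 : ∀ i : ℕ, (if z + (i : ZMod n) = v then load N (w z) i else 0) =
        ∑ L ∈ (range N).powerset, if (z + (i : ZMod n) = v ∧ i ∈ L) then w z L else 0 := by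
      intro i
      by_cases h : z + (i : ZMod n) = v
      · simp [h, load]
      · simp [h]
    rw [Finset.sum_congr rfl fun i _ => h1 i, Finset.sum_comm]
    refine Finset.sum_congr rfl fun L hL => ?_
    by_cases hwL : w z L = 0
    · simp [hwL]
    obtain ⟨hord, -, -⟩ := hw1 z L hwL
    by_cases hv : v ∈ L.image (fun i : ℕ => z + (i : ZMod n))
    · rw [if_pos hv]
      obtain ⟨i, hi, hiv⟩ := Finset.mem_image.1 hv
      rw [Finset.sum_eq_single i]
      · rw [if_pos ⟨hiv, hi⟩]
      · intro j _ hji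
        rw [if_neg]
        rintro ⟨h2, h3⟩
        exact hji (DistL.inj hn z (hord j h3 i hi) (hord i hi j h3) (h2.trans hiv.symm))
      · intro h
        exact absurd (Finset.mem_powerset.1 hL hi) h
    · rw [if_neg hv]
      refine (Finset.sum_eq_zero fun i _ => ?_).symm
      rw [if_neg]
      rintro ⟨h2, h3⟩
      exact hv (Finset.mem_image.2 ⟨i, h3, h2⟩)
  have htot : ∀ v, ∑ K, (if v ∈ K then W K else 0) = (1 / (N : ℝ)) * ∑ z ∈ A,
      ∑ i ∈ range N, if z + (i : ZMod n) = v then load N (w z) i else 0 := by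
    intro v
    have h1 : ∀ K : Finset (ZMod n), (if v ∈ K then W K else 0) = (1 / (N : ℝ)) * ∑ z ∈ A,
        ∑ L ∈ (range N).powerset, if L.image (fun i : ℕ => z + (i : ZMod n)) = K then
          (if v ∈ L.image (fun i : ℕ => z + (i : ZMod n)) then w z L else 0) else 0 := by
      intro K
      by_cases h : v ∈ K
      · rw [if_pos h, hW K]
        congr 1
        refine Finset.sum_congr rfl fun z _ => Finset.sum_congr rfl fun L _ => ?_
        by_cases hL : L.image (fun i : ℕ => z + (i : ZMod n)) = K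
        · rw [if_pos hL, if_pos hL, if_pos (by rw [hL]; exact h)]
        · rw [if_neg hL, if_neg hL]
      · rw [if_neg h]
        symm
        rw [mul_eq_zero]
        right
        refine Finset.sum_eq_zero fun z _ => Finset.sum_eq_zero fun L _ => ?_
        by_cases hL : L.image (fun i : ℕ => z + (i : ZMod n)) = K
        · rw [if_pos hL, if_neg (by rw [hL]; exact h)]
        · rw [if_neg hL]
    rw [Finset.sum_congr rfl fun K _ => h1 K, ← Finset.mul_sum, Finset.sum_comm]
    congr 1
    refine Finset.sum_congr rfl fun z _ => ?_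
    rw [Finset.sum_comm, ← hseg z v]
    refine Finset.sum_congr rfl fun L _ => ?_
    rw [Finset.sum_ite_eq, if_pos (Finset.mem_univ _)]
  have hswap : ∀ (v : ZMod n) (g : ZMod n → ℕ → ℝ) (I : Finset ℕ),
      ∑ z ∈ A, ∑ i ∈ I, (if z + (i : ZMod n) = v then g z i else 0) =
      ∑ i ∈ I.filter (fun i : ℕ => v - (i : ZMod n) ∈ A), g (v - (i : ZMod n)) i := by
    intro v g I
    rw [Finset.sum_comm, Finset.sum_filter]
    refine Finset.sum_congr rfl fun i _ => ?_
    have h1 : ∀ z : ZMod n, (if z + (i : ZMod n) = v then g z i else 0) =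
        if z = v - (i : ZMod n) then g z i else 0 := by
      intro z
      by_cases h : z = v - (i : ZMod n)
      · rw [if_pos h, if_pos (by rw [h]; ring)]
      · rw [if_neg h, if_neg (fun h2 => h (by rw [← h2]; ring))]
    rw [Finset.sum_congr rfl fun z _ => h1 z, Finset.sum_ite_eq']
  have hload : ∀ v, ∑ K, (if v ∈ K then W K else 0) = (1 / (N : ℝ)) *
      ∑ i ∈ (range N).filter (fun i : ℕ => v - (i : ZMod n) ∈ A), load N (w (v - (i : ZMod n))) i := by
    intro v
    rw [htot v, hswap v (fun z i => load N (w z) i) (range N)]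
  -- the deficiencies
  obtain ⟨dfc, hdfc⟩ : ∃ dfc : ZMod n → ℕ → ℝ, ∀ z i, dfc z i =
      if z ∈ A then (if z + (i : ZMod n) ∈ U then 1 - load N (w z) i else 0) else 0 :=
    ⟨_, fun z i => rfl⟩
  have hd0 : ∀ z i, i < N → 0 ≤ dfc z i := by
    intro z i hi
    rw [hdfc]
    split_ifs with h1 h2
    · exact sub_nonneg.2 (hw2 z i hi h2)
    · exact le_rfl
    · exact le_rfl
  have hdblock : ∀ z c, 1 ≤ c → c < M₀ → ∑ i ∈ Ico (c * k) ((c + 1) * k), dfc z i ≤ η / 3 * k := by
    intro z c h1 h2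
    by_cases hz : z ∈ A
    · refine le_trans (le_of_eq ?_) (hw3 z hz c h1 h2)
      exact sum_congr rfl fun i _ => by rw [hdfc, if_pos hz]
    · rw [sum_eq_zero fun i _ => by rw [hdfc, if_neg hz]]
      positivity
  refine ⟨W, fun K => ?_, fun K hK => ?_, fun v hv => ?_, fun y => ?_⟩
  · rw [hW]
    exact mul_nonneg (by positivity) (Finset.sum_nonneg fun z _ => Finset.sum_nonneg fun L _ =>
      hterm z K L)
  · have h1 : ∃ z ∈ A, ∃ L ∈ (range N).powerset,
        (if L.image (fun i : ℕ => z + (i : ZMod n)) = K then w z L else 0) ≠ 0 := by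
      by_contra hcon
      push Not at hcon
      apply hK
      rw [hW, Finset.sum_eq_zero fun z hz => Finset.sum_eq_zero fun L hL => hcon z hz L hL, mul_zero]
    obtain ⟨z, hz, L, hL, h2⟩ := h1
    have h3 : L.image (fun i : ℕ => z + (i : ZMod n)) = K := by
      by_contra h
      exact h2 (if_neg h)
    rw [if_pos h3] at h2
    obtain ⟨-, h4, h5⟩ := hw1 z L h2
    rw [h3] at h4 h5
    exact ⟨h5, h4⟩
  · rw [hload v]
    have h1 : ∑ i ∈ (range N).filter (fun i : ℕ => v - (i : ZMod n) ∈ A),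
        load N (w (v - (i : ZMod n))) i ≤
        (((range N).filter (fun i : ℕ => v - (i : ZMod n) ∈ A)).card : ℝ) := by
      rw [card_eq_sum_ones, Nat.cast_sum]
      refine sum_le_sum fun i hi => ?_
      rw [mem_filter, mem_range] at hi
      rw [Nat.cast_one]
      exact hw2 _ i hi.1 (by rw [sub_add_cancel]; exact hv)
    have h2 : (((range N).filter (fun i : ℕ => v - (i : ZMod n) ∈ A)).card : ℝ) =
        (((range k).filter (fun i : ℕ => v - (i : ZMod n) ∈ A)).card : ℝ) +
        (((Ico k N).filter (fun i : ℕ => v - (i : ZMod n) ∈ A)).card : ℝ) := by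
      rw [← Nat.cast_add, ← card_union_of_disjoint, ← filter_union]
      · congr 3
        ext i
        rw [mem_union, mem_range, mem_range, mem_Ico]
        omega
      · rw [disjoint_left]
        intro i hi hi'
        rw [mem_filter, mem_range] at hi
        rw [mem_filter, mem_Ico] at hi'
        omega
    unfold rate err
    calc 1 / (N : ℝ) * _ ≤ 1 / (N : ℝ) *
          (((range N).filter (fun i : ℕ => v - (i : ZMod n) ∈ A)).card : ℝ) :=
          mul_le_mul_of_nonneg_left h1 (by positivity)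
      _ = _ := by
          rw [h2]
          ring
  · -- one vertex
    have hone : ∀ v ∈ U, max 0 (rate n k N A v - ∑ K, (if v ∈ K then W K else 0)) ≤
        1 / (N : ℝ) * ∑ i ∈ Ico k N, dfc (v - (i : ZMod n)) i := by
      intro v hv
      have hnn : 0 ≤ ∑ i ∈ Ico k N, dfc (v - (i : ZMod n)) i :=
        sum_nonneg fun i hi => hd0 _ i (mem_Ico.1 hi).2
      refine max_le (by positivity) ?_
      rw [hload v]
      have h1 : ∑ i ∈ (Ico k N).filter (fun i : ℕ => v - (i : ZMod n) ∈ A),
          load N (w (v - (i : ZMod n))) i ≤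
          ∑ i ∈ (range N).filter (fun i : ℕ => v - (i : ZMod n) ∈ A),
          load N (w (v - (i : ZMod n))) i := by
        refine sum_le_sum_of_subset_of_nonneg ?_ fun i _ _ => load_nonneg _ _ (hw0 _) _
        intro i hi
        rw [mem_filter, mem_Ico] at hi
        rw [mem_filter, mem_range]
        exact ⟨hi.1.2, hi.2⟩
      have h2 : ∑ i ∈ Ico k N, dfc (v - (i : ZMod n)) i =
          (((Ico k N).filter (fun i : ℕ => v - (i : ZMod n) ∈ A)).card : ℝ) -
          ∑ i ∈ (Ico k N).filter (fun i : ℕ => v - (i : ZMod n) ∈ A),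
          load N (w (v - (i : ZMod n))) i := by
        rw [card_eq_sum_ones, Nat.cast_sum, ← sum_sub_distrib, sum_filter]
        refine sum_congr rfl fun i _ => ?_
        rw [hdfc, sub_add_cancel, if_pos hv, Nat.cast_one]
      rw [h2]
      unfold rate
      calc (((Ico k N).filter (fun i : ℕ => v - (i : ZMod n) ∈ A)).card : ℝ) / N - 1 / (N : ℝ) * _
          ≤ (((Ico k N).filter (fun i : ℕ => v - (i : ZMod n) ∈ A)).card : ℝ) / N -
            1 / (N : ℝ) * ∑ i ∈ (Ico k N).filter (fun i : ℕ => v - (i : ZMod n) ∈ A),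
            load N (w (v - (i : ZMod n))) i :=
            sub_le_sub_left (mul_le_mul_of_nonneg_left h1 (by positivity)) _
        _ = _ := by ring
    have hblock : ∀ c ∈ Ico 1 M₀, ∑ i ∈ Ico (c * k) ((c + 1) * k),
        ∑ v ∈ win n (2 * k + 1) y ∩ U, dfc (v - (i : ZMod n)) i ≤ (3 * k : ℝ) * (η / 3 * k) := by
      intro c hc
      rw [mem_Ico] at hc
      have hcN : (c + 1) * k ≤ N := by
        rw [hN]
        exact Nat.mul_le_mul_right k hc.2
      obtain ⟨Z, hZ⟩ : ∃ Z : Finset (ZMod n), Z = win n (3 * k)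
        (y - ((c * k : ℕ) : ZMod n) - (k : ZMod n) + 1) := ⟨_, rfl⟩
      have h1 : ∀ i ∈ Ico (c * k) ((c + 1) * k),
          ∑ v ∈ win n (2 * k + 1) y ∩ U, dfc (v - (i : ZMod n)) i ≤ ∑ z ∈ Z, dfc z i := by
        intro i hi
        rw [mem_Ico] at hi
        have h2 : ∑ v ∈ win n (2 * k + 1) y ∩ U, dfc (v - (i : ZMod n)) i =
            ∑ z ∈ (win n (2 * k + 1) y ∩ U).image (fun v => v - (i : ZMod n)), dfc z i := by
          rw [sum_image]
          intro a _ b _ hab
          exact sub_left_injective hab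
        rw [h2]
        refine sum_le_sum_of_subset_of_nonneg ?_ fun z _ _ => hd0 z i (by omega)
        intro z hz
        obtain ⟨v, hv, rfl⟩ := mem_image.1 hz
        rw [mem_inter, win, mem_image] at hv
        obtain ⟨⟨a, ha, rfl⟩, -⟩ := hv
        rw [mem_range] at ha
        rw [hZ, win, mem_image]
        have h3 : i < c * k + k := by
          have : (c + 1) * k = c * k + k := by ring
          omega
        refine ⟨a + (c * k + k - 1 - i), mem_range.2 (by omega), ?_⟩
        have h4 : ((a + (c * k + k - 1 - i) : ℕ) : ZMod n) + (i : ZMod n) + 1 =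
            (a : ZMod n) + ((c * k : ℕ) : ZMod n) + (k : ZMod n) := by
          have h5 : (a + (c * k + k - 1 - i)) + i + 1 = a + c * k + k := by omega
          have h6 := congrArg (fun x : ℕ => (x : ZMod n)) h5
          simpa only [Nat.cast_add, Nat.cast_one] using h6
        linear_combination h4
      calc ∑ i ∈ Ico (c * k) ((c + 1) * k), ∑ v ∈ win n (2 * k + 1) y ∩ U, dfc (v - (i : ZMod n)) i
          ≤ ∑ i ∈ Ico (c * k) ((c + 1) * k), ∑ z ∈ Z, dfc z i := sum_le_sum h1
        _ = ∑ z ∈ Z, ∑ i ∈ Ico (c * k) ((c + 1) * k), dfc z i := sum_comm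
        _ ≤ ∑ z ∈ Z, η / 3 * k := sum_le_sum fun z _ => hdblock z c hc.1 hc.2
        _ = (Z.card : ℝ) * (η / 3 * k) := by rw [sum_const, nsmul_eq_mul]
        _ ≤ (3 * k : ℝ) * (η / 3 * k) := by
            refine mul_le_mul_of_nonneg_right ?_ (by positivity)
            have h5 := card_win_le (3 * k) (y - ((c * k : ℕ) : ZMod n) - (k : ZMod n) + 1)
            rw [← hZ] at h5
            exact_mod_cast h5
    have hNr : (N : ℝ) = M₀ * k := by
      rw [hN]
      push_cast
      rfl
    have hkr : (0 : ℝ) < k := by exact_mod_cast hk1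
    have hMr : (0 : ℝ) < M₀ := by exact_mod_cast (by omega : 0 < M₀)
    calc ∑ v ∈ win n (2 * k + 1) y ∩ U,
          max 0 (rate n k N A v - ∑ K, (if v ∈ K then W K else 0))
        ≤ ∑ v ∈ win n (2 * k + 1) y ∩ U, 1 / (N : ℝ) * ∑ i ∈ Ico k N, dfc (v - (i : ZMod n)) i :=
          sum_le_sum fun v hv => hone v (mem_inter.1 hv).2
      _ = 1 / (N : ℝ) * ∑ i ∈ Ico k N, ∑ v ∈ win n (2 * k + 1) y ∩ U, dfc (v - (i : ZMod n)) i := by
          rw [← mul_sum, sum_comm]
      _ = 1 / (N : ℝ) * ∑ c ∈ Ico 1 M₀, ∑ i ∈ Ico (c * k) ((c + 1) * k),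
            ∑ v ∈ win n (2 * k + 1) y ∩ U, dfc (v - (i : ZMod n)) i := by
          have h5 := sum_blocks k
            (fun i => ∑ v ∈ win n (2 * k + 1) y ∩ U, dfc (v - (i : ZMod n)) i) M₀ (by omega)
          rw [← hN] at h5
          rw [h5]
      _ ≤ 1 / (N : ℝ) * ∑ c ∈ Ico 1 M₀, (3 * k : ℝ) * (η / 3 * k) :=
          mul_le_mul_of_nonneg_left (sum_le_sum hblock) (by positivity)
      _ ≤ 1 / (N : ℝ) * ((M₀ : ℝ) * ((3 * k : ℝ) * (η / 3 * k))) := by
          refine mul_le_mul_of_nonneg_left ?_ (by positivity)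
          rw [sum_const, nsmul_eq_mul, Nat.card_Ico]
          refine mul_le_mul_of_nonneg_right ?_ (by positivity)
          exact_mod_cast Nat.sub_le _ _
      _ = η * k := by
          rw [hNr]
          field_simp

end Pool.Agent.H48.PW
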