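import Pool.Agent.H48.PW.Basic

/-!
Final assembly: all hosts contain the `t`-th power of a Hamilton cycle.
-/

set_option autoImplicit false

namespace Pool.Agent.H48.PW

open Finset Pool.Agent.Helper83K9.CF

namespace FINL

/-! ### Lists -/

theorem glue_seq {α : Type} {R : α → α → Prop} {t : ℕ} (V C : ℕ → List α)
    (hV : ∀ i, t ≤ (V i).length) (hP : ∀ i, Pw R t (V i))
    (hC : ∀ i, Pw R t (lastn t (V i) ++ C i ++ (V (i + 1)).take t)) (m : ℕ) :
    Pw R t ((List.range m).flatMap (fun i => V i ++ C i) ++ V m) := by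
  induction m with
  | zero => simpa using hP 0
  | succ m ih =>
    have e : (List.range (m + 1)).flatMap (fun i => V i ++ C i) ++ V (m + 1) =
        ((List.range m).flatMap (fun i => V i ++ C i) ++ V m) ++ C m ++ V (m + 1) := by
      rw [List.range_succ, List.flatMap_append]
      simp [List.append_assoc]
    rw [e]
    refine Pw.connect ih (hP (m + 1)) ?_ (hV (m + 1)) ?_
    · rw [List.length_append]
      have := hV m
      omega
    · rw [lastn_append _ _ _ (hV m)]
      exact hC m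

theorem glue_cyc {α : Type} {R : α → α → Prop} {t N : ℕ} (V C : ℕ → List α)
    (hV : ∀ i, t ≤ (V i).length) (hP : ∀ i, Pw R t (V i))
    (hC : ∀ i, Pw R t (lastn t (V i) ++ C i ++ (V (i + 1)).take t))
    (pV : ∀ i, V (N + i) = V i) (pC : ∀ i, C (N + i) = C i) :
    Pw R t ((List.range N).flatMap (fun i => V i ++ C i) ++
      (List.range N).flatMap (fun i => V i ++ C i)) := by
  have h := glue_seq V C hV hP hC (N + N)
  have e : (List.range (N + N)).flatMap (fun i => V i ++ C i) =
      (List.range N).flatMap (fun i => V i ++ C i) ++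
      (List.range N).flatMap (fun i => V i ++ C i) := by
    rw [List.range_add, List.flatMap_append]
    congr 1
    rw [List.flatMap_map]
    congr 1
    funext i
    simp only [pV, pC]
  rw [e] at h
  exact h.left

theorem greedy {α : Type} (N : ℕ) (Good : ℕ → List α → Prop)
    (step : ∀ i < N, ∀ C : ℕ → List α, (∀ i' < i, Good i' (C i')) →
      ∃ c, Good i c ∧ ∀ i' < i, ∀ v ∈ c, v ∉ C i') :
    ∃ C : ℕ → List α, (∀ i < N, Good i (C i)) ∧ ∀ i < N, ∀ i' < i, ∀ v ∈ C i, v ∉ C i' := by
  have key : ∀ m, m ≤ N → ∃ C : ℕ → List α, (∀ i < m, Good i (C i)) ∧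
      ∀ i < m, ∀ i' < i, ∀ v ∈ C i, v ∉ C i' := by
    intro m
    induction m with
    | zero => intro _; exact ⟨fun _ => [], by intro i hi; omega, by intro i hi; omega⟩
    | succ m ih =>
      intro hm
      obtain ⟨C, h1, h2⟩ := ih (by omega)
      obtain ⟨c, hc1, hc2⟩ := step m (by omega) C h1
      refine ⟨Function.update C m c, ?_, ?_⟩
      · intro i hi
        rcases Nat.lt_succ_iff_lt_or_eq.1 hi with h | h
        · rw [Function.update_of_ne (by omega)]
          exact h1 i h
        · subst h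
          rw [Function.update_self]
          exact hc1
      · intro i hi i' hi' v hv
        rw [Function.update_of_ne (show i' ≠ m by omega)]
        rcases Nat.lt_succ_iff_lt_or_eq.1 hi with h | h
        · rw [Function.update_of_ne (by omega)] at hv
          exact h2 i h i' hi' v hv
        · subst h
          rw [Function.update_self] at hv
          exact hc2 i' hi' v hv
  exact key N le_rfl

/-! ### Windows -/

theorem win_inj {n k : ℕ} (hk : k ≤ n) (z : ZMod n) :
    Set.InjOn (fun i : ℕ => z + (i : ZMod n)) (range k : Set ℕ) := by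
  intro x hx y hy h
  rw [mem_coe, mem_range] at hx hy
  exact cast_inj (by omega) (by omega) h

theorem card_win_le {n k : ℕ} (z : ZMod n) : (win n k z).card ≤ k :=
  card_image_le.trans (by rw [card_range])

theorem card_win {n k : ℕ} (hk : k ≤ n) (z : ZMod n) : (win n k z).card = k := by
  unfold win
  rw [card_image_of_injOn (win_inj hk z), card_range]

theorem mem_win {n k : ℕ} {z v : ZMod n} : v ∈ win n k z ↔ ∃ i < k, z + (i : ZMod n) = v := by
  unfold win
  simp [mem_image]

/-- removing few vertices from a dense set -/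
theorem dense_sdiff {n k t ℓ L : ℕ} {M : ZMod n → Finset (ZMod n)} {ε σ : ℝ} {z : ZMod n}
    {U T : Finset (ZMod n)} (hn : k ≤ n) (hℓ : ℓ ≤ k) (hε : 0 < ε) (hσ : 0 ≤ σ)
    (hD : Dense n k t M (ε / 2) ℓ σ z L U)
    (hT : ∀ y, ((T ∩ win n k y).card : ℝ) ≤ ε / 4 * σ) :
    Dense n k t M (ε / 4) ℓ ((1 - ε / 4) * σ) z L (U \ T) := by
  refine ⟨?_, ?_⟩
  · intro j hj
    have h1 := hD.cell j hj
    have h2 : (cellU z ℓ U j).card ≤ (cellU z ℓ (U \ T) j).card +
        (T ∩ win n k (z + ((j * ℓ : ℕ) : ZMod n))).card := by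
      have h3 : cellU z ℓ U j ⊆ cellU z ℓ (U \ T) j ∪ cellU z ℓ T j := by
        intro p hp
        unfold cellU at hp ⊢
        rw [mem_filter] at hp
        rw [mem_union, mem_filter, mem_filter, mem_sdiff]
        by_cases hpT : z + (p : ZMod n) ∈ T
        · right; exact ⟨hp.1, hpT⟩
        · left; exact ⟨hp.1, hp.2, hpT⟩
      have h4 : (cellU z ℓ T j).card ≤ (T ∩ win n k (z + ((j * ℓ : ℕ) : ZMod n))).card := by
        refine card_le_card_of_injOn (fun p : ℕ => z + (p : ZMod n)) ?_ ?_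
        · intro p hp
          rw [mem_coe] at hp
          unfold cellU at hp
          rw [mem_filter, mem_Ico] at hp
          rw [mem_coe, mem_inter]
          refine ⟨hp.2, mem_win.2 ⟨p - j * ℓ, ?_, ?_⟩⟩
          · have := hp.1.2
            rw [Nat.add_mul, Nat.one_mul] at this
            omega
          · have e : p = j * ℓ + (p - j * ℓ) := by omega
            conv_rhs => rw [e]
            push_cast
            ring
        · intro x hx y hy h
          rw [mem_coe] at hx hy
          unfold cellU at hx hy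
          rw [mem_filter, mem_Ico] at hx hy
          have h5 := hx.1
          have h6 := hy.1
          rw [Nat.add_mul, Nat.one_mul] at h5 h6
          exact cast_inj (by omega) (by omega) h
      calc (cellU z ℓ U j).card ≤ (cellU z ℓ (U \ T) j ∪ cellU z ℓ T j).card := card_le_card h3
        _ ≤ _ := (card_union_le _ _).trans (by omega)
    have h3 := hT (z + ((j * ℓ : ℕ) : ZMod n))
    have h4 : ((cellU z ℓ U j).card : ℝ) ≤ ((cellU z ℓ (U \ T) j).card : ℝ) +
        ((T ∩ win n k (z + ((j * ℓ : ℕ) : ZMod n))).card : ℝ) := by exact_mod_cast h2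
    linarith
  · intro p hp
    have h1 := hD.miss p hp
    have h2 : ((M (z + (p : ZMod n)) ∩ (U \ T)).card : ℝ) ≤
        ((M (z + (p : ZMod n)) ∩ U).card : ℝ) := by
      exact_mod_cast card_le_card (inter_subset_inter_left sdiff_subset)
    have h3 : (t : ℝ) * ((M (z + (p : ZMod n)) ∩ (U \ T)).card : ℝ) * ℓ ≤
        (t : ℝ) * ((M (z + (p : ZMod n)) ∩ U).card : ℝ) * ℓ := by gcongr
    refine h3.trans (h1.trans ?_)
    have h4 : 0 ≤ (k : ℝ) * σ := by positivity
    have h5 : (1 - ε / 2) ≤ (1 - ε / 4) * (1 - ε / 4) := by nlinarith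
    calc (1 - ε / 2) * k * σ = (1 - ε / 2) * (k * σ) := by ring
      _ ≤ ((1 - ε / 4) * (1 - ε / 4)) * (k * σ) := by gcongr
      _ = (1 - ε / 4) * k * ((1 - ε / 4) * σ) := by ring

/-! ### The list of the indices of the pieces -/

theorem index_list {ι : Type} (J : ℕ) (hJ : 1 ≤ J) (R : ι → ι → Prop) (p : ℕ → ι)
    (T : ℕ → List ι)
    (h1 : ∀ j < J, ∀ x ∈ p j :: T j, ∀ y ∈ p j :: T j, R x y)
    (h2 : ∀ j, j + 1 < J → ∀ x ∈ p j :: T j, R x (p (j + 1)))
    (h3 : ∀ x ∈ p (J - 1) :: T (J - 1), R x (p 0)) :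
    List.IsChain R ((List.range J).flatMap (fun j => p j :: T j) ++ [p 0]) := by
  have blk : ∀ j < J, ∀ b : ι, (∀ x ∈ p j :: T j, R x b) →
      List.IsChain R (p j :: (T j ++ [b])) := by
    intro j hj b hb
    apply List.Pairwise.isChain
    have e : p j :: (T j ++ [b]) = (p j :: T j) ++ [b] := rfl
    rw [e, List.pairwise_append]
    refine ⟨?_, List.pairwise_singleton _ _, ?_⟩
    · rw [List.pairwise_iff_getElem]
      intro a c ha hc hac
      exact h1 j hj _ (List.getElem_mem ha) _ (List.getElem_mem hc)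
    · intro x hx y hy
      rw [List.mem_singleton] at hy
      subst hy
      exact hb x hx
  have key : ∀ m, m < J →
      List.IsChain R ((List.range m).flatMap (fun j => p j :: T j) ++ [p m]) := by
    intro m
    induction m with
    | zero => intro _; simp
    | succ m ih =>
      intro hm
      have h4 := ih (by omega)
      have h5 := blk m (by omega) (p (m + 1)) (h2 m hm)
      have e : (List.range (m + 1)).flatMap (fun j => p j :: T j) ++ [p (m + 1)] =
          (List.range m).flatMap (fun j => p j :: T j) ++ p m :: (T m ++ [p (m + 1)]) := by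
        rw [List.range_succ, List.flatMap_append]
        simp [List.append_assoc]
      rw [e, List.isChain_split]
      exact ⟨h4, h5⟩
  obtain ⟨J', rfl⟩ : ∃ J', J = J' + 1 := ⟨J - 1, by omega⟩
  have h4 := key J' (by omega)
  have h5 := blk J' (by omega) (p 0) h3
  have e : (List.range (J' + 1)).flatMap (fun j => p j :: T j) ++ [p 0] =
      (List.range J').flatMap (fun j => p j :: T j) ++ p J' :: (T J' ++ [p 0]) := by
    rw [List.range_succ, List.flatMap_append]
    simp [List.append_assoc]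
  rw [e, List.isChain_split]
  exact ⟨h4, h5⟩

/-- the periodic sequence of the entries of a list -/
theorem periodic_seq {ι : Type} (Q : List ι) (a : ι) (R : ι → ι → Prop) (hQ : Q.head? = some a)
    (hnd : Q.Nodup) (hch : List.IsChain R (Q ++ [a])) :
    ∃ q : ℕ → ι, (∀ i, q (Q.length + i) = q i) ∧ (∀ i, q i ∈ Q) ∧ (∀ x ∈ Q, ∃ i < Q.length, q i = x) ∧
      (∀ i, R (q i) (q (i + 1))) ∧
      (∀ i < Q.length, ∀ j < Q.length, q i = q j → i = j) := by
  have hpos : 0 < Q.length := by
    cases Q with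
    | nil => simp at hQ
    | cons x l => simp
  have h0 : Q[0] = a := by
    have := List.head?_eq_getElem? (l := Q)
    rw [hQ, List.getElem?_eq_getElem hpos] at this
    exact (Option.some.inj this).symm
  refine ⟨fun i => Q[i % Q.length]'(Nat.mod_lt _ hpos), ?_, ?_, ?_, ?_, ?_⟩
  · intro i
    simp
  · intro i
    exact List.getElem_mem _
  · intro x hx
    obtain ⟨i, hi, rfl⟩ := List.getElem_of_mem hx
    refine ⟨i, hi, ?_⟩
    simp only [Nat.mod_eq_of_lt hi]
  · intro i
    rw [List.isChain_iff_getElem] at hch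
    have hi := Nat.mod_lt i hpos
    have h1 := hch (i % Q.length) (by simp; omega)
    rw [List.getElem_append_left hi] at h1
    rcases Nat.lt_or_ge (i % Q.length + 1) Q.length with h2 | h2
    · rw [List.getElem_append_left h2] at h1
      have e : (i + 1) % Q.length = i % Q.length + 1 := by
        rw [Nat.add_mod, Nat.mod_eq_of_lt (show 1 < Q.length by omega), Nat.mod_eq_of_lt h2]
      simp only [e]
      exact h1
    · have e : (i + 1) % Q.length = 0 := by
        have h3 : i % Q.length + 1 = Q.length := by omega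
        have h4 : i + 1 = Q.length * (i / Q.length) + (i % Q.length + 1) := by
          have := Nat.div_add_mod i Q.length
          omega
        rw [h4, h3]
        simp
      simp only [e]
      rw [List.getElem_append_right (by omega)] at h1
      simp only [List.getElem_singleton] at h1
      rw [h0]
      exact h1
  · intro i hi j hj h
    simp only [Nat.mod_eq_of_lt hi, Nat.mod_eq_of_lt hj] at h
    exact (List.Nodup.getElem_inj_iff hnd).1 h

/-! ### Tiles -/

theorem tile_list {n k t s : ℕ} {M : ZMod n → Finset (ZMod n)} {K : Finset (ZMod n)}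
    (hs : 1 ≤ s) (h : CTile n k t s M K) :
    ∃ (z : ZMod n) (Q : List ℕ), t ≤ Q.length ∧ (∀ p ∈ Q, p ≤ 2 * k) ∧ Pw (La n k M z) t Q ∧
      (vs z Q).Nodup ∧ (∀ v, v ∈ vs z Q ↔ v ∈ K) ∧ K.card = (t + 1) * s := by
  obtain ⟨z, p, h1, h2, h3, h4⟩ := h
  let e : Fin (s * (t + 1)) ≃ Fin s × Fin (t + 1) := finProdFinEquiv.symm
  let f : Fin (s * (t + 1)) → ℕ := fun i => p ((e i).2, (e i).1)
  refine ⟨z, List.ofFn f, ?_, ?_, ?_, ?_, ?_, ?_⟩
  · rw [List.length_ofFn]
    nlinarith
  · intro x hx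
    rw [List.mem_ofFn] at hx
    obtain ⟨i, rfl⟩ := hx
    exact h1 _
  · rw [pw_ofFn]
    intro i j hij hjt
    have hne : (e i).2 ≠ (e j).2 := by
      intro he
      have h5 : (i : ℕ) % (t + 1) = (j : ℕ) % (t + 1) := congrArg Fin.val he
      have h6 : (i : ℕ) < j := hij
      have h7 : (t + 1) ∣ (j : ℕ) - i := (Nat.modEq_iff_dvd' h6.le).1 h5
      have h8 := Nat.le_of_dvd (by omega) h7
      omega
    exact ⟨(h4 ((e i).2, (e i).1) ((e j).2, (e j).1) hne).1,
      (h4 ((e j).2, (e j).1) ((e i).2, (e i).1) (Ne.symm hne)).1,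
      (h4 ((e i).2, (e i).1) ((e j).2, (e j).1) hne).2⟩
  · unfold vs
    rw [List.map_ofFn, List.nodup_ofFn]
    intro i j hij
    have h5 := h2 hij
    rw [Prod.mk.injEq] at h5
    exact e.injective (Prod.ext h5.2 h5.1)
  · intro v
    unfold vs
    rw [List.map_ofFn, List.mem_ofFn, h3, mem_image]
    constructor
    · rintro ⟨i, rfl⟩
      exact ⟨((e i).2, (e i).1), mem_univ _, rfl⟩
    · rintro ⟨x, _, rfl⟩
      refine ⟨e.symm (x.2, x.1), ?_⟩
      simp [f]
  · rw [h3, card_image_of_injective _ h2, card_univ, Fintype.card_prod, Fintype.card_fin,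
      Fintype.card_fin]

/-! ### Counting -/

theorem card_blocks {n k Λ : ℕ} (hk : 1 ≤ k) (y : ZMod n) (T : Finset ℕ)
    (hT : ∀ j ∈ T, j * k < n ∧ ∃ i ≤ Λ * k, ((j * k : ℕ) : ZMod n) = y + (i : ZMod n)) :
    T.card ≤ Λ + 2 := by
  classical
  rcases T.eq_empty_or_nonempty with h0 | h0
  · rw [h0]; simp
  set j₀ := T.max' h0 with hj₀
  have h1 : ∀ j ∈ T.erase j₀, (j + 1) * k < n := by
    intro j hj
    rw [mem_erase] at hj
    have h2 : j ≤ j₀ := le_max' T j hj.2
    have h3 : j + 1 ≤ j₀ := by omega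
    exact (Nat.mul_le_mul_right k h3).trans_lt (hT j₀ (max'_mem T h0)).1
  have h2 : ((T.erase j₀).biUnion (fun j => win n k ((j * k : ℕ) : ZMod n))).card =
      ∑ j ∈ T.erase j₀, (win n k ((j * k : ℕ) : ZMod n)).card := by
    apply card_biUnion
    intro i hi j hj hij
    change Disjoint (win n k ((i * k : ℕ) : ZMod n)) (win n k ((j * k : ℕ) : ZMod n))
    rw [disjoint_left]
    intro v hv hv'
    rw [mem_win] at hv hv'
    obtain ⟨a, ha, hav⟩ := hv
    obtain ⟨b, hb, hbv⟩ := hv'
    have h3 := h1 i hi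
    have h4 := h1 j hj
    rw [Nat.add_mul, Nat.one_mul] at h3 h4
    have h5 : (0 : ZMod n) + ((i * k + a : ℕ) : ZMod n) = 0 + ((j * k + b : ℕ) : ZMod n) := by
      push_cast
      push_cast at hav hbv
      rw [zero_add, zero_add, hav, hbv]
    have h6 := cast_inj (z := (0 : ZMod n)) (by omega) (by omega) h5
    apply hij
    have h7 : (i * k + a) / k = (j * k + b) / k := by rw [h6]
    rwa [Nat.add_div_of_dvd_right (Dvd.intro_left i rfl),
      Nat.add_div_of_dvd_right (Dvd.intro_left j rfl), Nat.mul_div_cancel _ (by omega),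
      Nat.mul_div_cancel _ (by omega), Nat.div_eq_of_lt ha, Nat.div_eq_of_lt hb, add_zero,
      add_zero] at h7
  have h3 : ∑ j ∈ T.erase j₀, (win n k ((j * k : ℕ) : ZMod n)).card = (T.card - 1) * k := by
    rw [← card_erase_of_mem (max'_mem T h0), ← smul_eq_mul, ← sum_const]
    refine sum_congr rfl fun j hj => card_win ?_ _
    have := h1 j hj
    rw [Nat.add_mul, Nat.one_mul] at this
    omega
  have h4 : (T.erase j₀).biUnion (fun j => win n k ((j * k : ℕ) : ZMod n)) ⊆
      win n ((Λ + 1) * k) y := by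
    intro v hv
    rw [mem_biUnion] at hv
    obtain ⟨j, hj, hv⟩ := hv
    rw [mem_win] at hv
    obtain ⟨a, ha, rfl⟩ := hv
    obtain ⟨_, i, hi, he⟩ := hT j (mem_of_mem_erase hj)
    rw [mem_win]
    refine ⟨i + a, ?_, ?_⟩
    · rw [Nat.add_mul, Nat.one_mul]; omega
    · rw [he]; push_cast; ring
  have h5 := card_le_card h4
  rw [h2, h3] at h5
  have h6 := h5.trans (card_win_le y)
  have h7 : T.card - 1 ≤ Λ + 1 := Nat.le_of_mul_le_mul_right h6 (by omega)
  omega

theorem card_tiles {n N S : ℕ} (y : ZMod n) (T : Finset (Finset (ZMod n)))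
    (hT : ∀ K ∈ T, S ≤ K.card ∧ K ⊆ win n N y)
    (hd : ∀ K ∈ T, ∀ L ∈ T, K ≠ L → Disjoint K L) : T.card * S ≤ N := by
  classical
  have h1 : (T.biUnion id).card = ∑ K ∈ T, K.card := by
    apply card_biUnion
    intro K hK L hL hKL
    exact hd K hK L hL hKL
  have h2 : T.card * S ≤ ∑ K ∈ T, K.card := by
    rw [← smul_eq_mul, ← sum_const]
    exact sum_le_sum fun K hK => (hT K hK).1
  have h3 : T.biUnion id ⊆ win n N y := by
    intro v hv
    rw [mem_biUnion] at hv
    obtain ⟨K, hK, hv⟩ := hv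
    exact (hT K hK).2 hv
  calc T.card * S ≤ (T.biUnion id).card := by rw [h1]; exact h2
    _ ≤ _ := (card_le_card h3).trans (card_win_le y)

/-! ### The construction -/

/-- base point of the connections of the block `j` -/
def Zp (n k Db E j : ℕ) : ZMod n := ((j * k : ℕ) : ZMod n) - (((Db + E) * k : ℕ) : ZMod n)

theorem zp_add (n k Db E j : ℕ) : Zp n k Db E j + ((E * k : ℕ) : ZMod n) = zb n k Db j := by
  unfold Zp zb
  push_cast
  ring

theorem zp_succ (n k Db E j : ℕ) : Zp n k Db E (j + 1) = Zp n k Db E j + (k : ZMod n) := by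
  unfold Zp
  push_cast
  ring

theorem core {n k m t s Db E D W N₀ J : ℕ} [NeZero n] {M : ZMod n → Finset (ZMod n)}
    {ε θ h : ℝ} (hM : Host n k m M) (hε : 0 < ε) (hε1 : ε ≤ 1) (hθ : 0 < θ)
    (hs : 1 ≤ s) (hD : D = 2 * Db + 6) (hJ : ∀ j, j < J ↔ j * k < n)
    (P : ℕ → List ℕ)
    (hP1 : ∀ j, j * k < n → Pc n k t (2 * Db + 1) M (zb n k Db j) (P j) ∧
      Absorbs n k t Db M (zb n k Db j) h (P j))
    (hP2 : ∀ i j, i < j → j * k < n → ∀ v, v ∈ vs (zb n k Db i) (P i) →
      v ∉ vs (zb n k Db j) (P j))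
    (B : Finset (ZMod n)) (hB : ∀ v, v ∈ B ↔ ∃ j, j * k < n ∧ v ∈ vs (zb n k Db j) (P j))
    (F : Finset (Finset (ZMod n))) (hF1 : ∀ K ∈ F, CTile n k t s M K ∧ Disjoint K B)
    (hF2 : ∀ K ∈ F, ∀ L ∈ F, K ≠ L → Disjoint K L)
    (U : Finset (ZMod n)) (hU : ∀ v, v ∈ U ↔ v ∉ B ∧ ∀ K ∈ F, v ∉ K)
    (hthin : Thin n k (h * k) U)
    (hdense : ∀ z, ∃ σ : ℝ, θ * k ≤ σ ∧
      Dense n k t M (ε / 2) (k / N₀) σ z ((D + 2 * E) * N₀) U)
    (hconn : ∀ (σ : ℝ) (z : ZMod n) (U : Finset (ZMod n)), θ / 2 * k ≤ σ →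
      Dense n k t M (ε / 4) (k / N₀) σ z ((D + 2 * E) * N₀) U →
      ∀ a b : List ℕ, a.length = t → b.length = t →
      (∀ p ∈ a, E * k ≤ p ∧ p < (E + D) * k) → (∀ p ∈ b, E * k ≤ p ∧ p < (E + D) * k) →
      Pw (La n k M z) t a → Pw (La n k M z) t b →
      ∃ c : List ℕ, c.length ≤ W ∧ (∀ p ∈ c, p < (D + 2 * E) * k ∧ z + (p : ZMod n) ∈ U) ∧
        (vs z c).Nodup ∧ Pw (La n k M z) t (a ++ c ++ b))
    (hW : (W : ℝ) * (((D + 2 * E + 3 : ℕ) : ℝ) + ((D + 2 * E + 4 : ℕ) : ℝ) * k / s) ≤
      ε / 4 * (θ * k)) :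
    ∃ l : List (ZMod n), l.Nodup ∧ (∀ v, v ∈ l) ∧ Pw (Ad n k M) t (l ++ l) := by
  classical
  have hk := hM.kpos
  have hn : 2 * k + 1 ≤ n := hM.size
  have hJ1 : 1 ≤ J := (hJ 0).2 (by omega)
  -- the tiles
  have htile : ∀ K : Finset (ZMod n), ∃ (z : ZMod n) (Q : List ℕ), K ∈ F → (t ≤ Q.length ∧
      (∀ p ∈ Q, p ≤ 2 * k) ∧ Pw (La n k M z) t Q ∧ (vs z Q).Nodup ∧
      (∀ v, v ∈ vs z Q ↔ v ∈ K) ∧ K.card = (t + 1) * s) := by
    intro K
    by_cases hK : K ∈ F
    · obtain ⟨z, Q, h⟩ := tile_list hs (hF1 K hK).1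
      exact ⟨z, Q, fun _ => h⟩
    · exact ⟨0, [], fun h => absurd h hK⟩
  choose zt Qt hQt using htile
  obtain ⟨blk, hblkdef⟩ : ∃ blk : Finset (ZMod n) → ℕ, ∀ K, blk K = (zt K).val / k :=
    ⟨_, fun _ => rfl⟩
  have hblk : ∀ K, blk K < J := fun K => (hJ _).2 (by
    rw [hblkdef]
    exact (Nat.div_mul_le_self _ _).trans_lt (ZMod.val_lt _))
  -- the pieces
  let zz : ℕ ⊕ Finset (ZMod n) → ZMod n := Sum.elim (Zp n k Db E) (fun K => Zp n k Db E (blk K))
  let AA : ℕ ⊕ Finset (ZMod n) → List ℕ := Sum.elim (fun j => (P j).map (fun p => p + E * k))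
    (fun K => (Qt K).map (fun p => p + ((Db + E) * k + (zt K).val % k)))
  let Gd : ℕ ⊕ Finset (ZMod n) → Prop := Sum.elim (fun j => j < J) (fun K => K ∈ F)
  have ez2 : ∀ K, Zp n k Db E (blk K) + (((Db + E) * k + (zt K).val % k : ℕ) : ZMod n) = zt K := by
    intro K
    have h1 : (((blk K) * k + (zt K).val % k : ℕ) : ZMod n) = zt K := by
      rw [hblkdef, Nat.div_add_mod', ZMod.natCast_zmod_val]
    conv_rhs => rw [← h1]
    unfold Zp
    push_cast
    ring
  have evs1 : ∀ j, vs (zz (Sum.inl j)) (AA (Sum.inl j)) = vs (zb n k Db j) (P j) := by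
    intro j
    change vs (Zp n k Db E j) ((P j).map (fun p => p + E * k)) = _
    rw [vs_shift, zp_add]
  have evs2 : ∀ K, vs (zz (Sum.inr K)) (AA (Sum.inr K)) = vs (zt K) (Qt K) := by
    intro K
    change vs (Zp n k Db E (blk K)) ((Qt K).map
      (fun p => p + ((Db + E) * k + (zt K).val % k))) = _
    rw [vs_shift, ez2]
  have hAlen : ∀ a, Gd a → t ≤ (AA a).length := by
    rintro (j | K) ha
    · change t ≤ ((P j).map _).length
      rw [List.length_map]
      exact (hP1 j ((hJ j).1 ha)).1.len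
    · change t ≤ ((Qt K).map _).length
      rw [List.length_map]
      exact (hQt K ha).1
  have hAbd : ∀ a, Gd a → ∀ p ∈ AA a, E * k ≤ p ∧ p + k < (E + D) * k := by
    have e : (E + D) * k = E * k + 2 * (Db * k) + 6 * k := by rw [hD]; ring
    have e2 : (Db + E) * k = Db * k + E * k := by ring
    rintro (j | K) ha p hp
    · change p ∈ (P j).map _ at hp
      rw [List.mem_map] at hp
      obtain ⟨x, hx, rfl⟩ := hp
      have h1 := (hP1 j ((hJ j).1 ha)).1.bd x hx
      have h2 : (2 * Db + 1) * k = 2 * (Db * k) + k := by ring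
      rw [h2] at h1
      constructor
      · omega
      · rw [e]; omega
    · change p ∈ (Qt K).map _ at hp
      rw [List.mem_map] at hp
      obtain ⟨x, hx, rfl⟩ := hp
      have h1 := (hQt K ha).2.1 x hx
      have h2 : (zt K).val % k < k := Nat.mod_lt _ (by omega)
      constructor
      · rw [e2]; omega
      · rw [e, e2]; omega
  have hApw : ∀ a, Gd a → Pw (La n k M (zz a)) t (AA a) := by
    rintro (j | K) ha
    · change Pw (La n k M (Zp n k Db E j)) t ((P j).map (fun p => p + E * k))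
      apply Pw.shift
      rw [zp_add]
      exact (hP1 j ((hJ j).1 ha)).1.pw
    · change Pw (La n k M (Zp n k Db E (blk K))) t ((Qt K).map _)
      apply Pw.shift
      rw [ez2]
      exact (hQt K ha).2.2.1
  -- the list of the indices
  let Tl : ℕ → List (ℕ ⊕ Finset (ZMod n)) :=
    fun j => (F.filter (fun K => blk K = j)).toList.map Sum.inr
  let R : ℕ ⊕ Finset (ZMod n) → ℕ ⊕ Finset (ZMod n) → Prop :=
    fun a b => ∃ g : ℕ, g ≤ k ∧ zz b = zz a + (g : ZMod n)
  have hTl : ∀ j x, x ∈ (Sum.inl j :: Tl j) → zz x = Zp n k Db E j := by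
    intro j x hx
    rw [List.mem_cons] at hx
    rcases hx with rfl | hx
    · rfl
    · change x ∈ (F.filter (fun K => blk K = j)).toList.map Sum.inr at hx
      rw [List.mem_map] at hx
      obtain ⟨K, hK, rfl⟩ := hx
      rw [mem_toList, mem_filter] at hK
      change Zp n k Db E (blk K) = _
      rw [hK.2]
  obtain ⟨Q, hQdef⟩ : ∃ Q : List (ℕ ⊕ Finset (ZMod n)),
      Q = (List.range J).flatMap (fun j => Sum.inl j :: Tl j) := ⟨_, rfl⟩
  have hch : List.IsChain R (Q ++ [Sum.inl 0]) := by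
    rw [hQdef]
    apply index_list J hJ1 R (fun j => Sum.inl j) Tl
    · intro j _ x hx y hy
      refine ⟨0, by omega, ?_⟩
      rw [hTl j x hx, hTl j y hy]
      simp
    · intro j _ x hx
      refine ⟨k, le_rfl, ?_⟩
      rw [hTl j x hx]
      exact zp_succ n k Db E j
    · intro x hx
      have h1 : (J - 1) * k < n := (hJ _).1 (by omega)
      have h2 : ¬ (J * k < n) := fun h => by have := (hJ J).2 h; omega
      have h3 : J * k = (J - 1) * k + k := by
        conv_lhs => rw [show J = (J - 1) + 1 by omega]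
        ring
      refine ⟨n - (J - 1) * k, by omega, ?_⟩
      rw [hTl _ x hx]
      change Zp n k Db E 0 = _
      have h4 : (((J - 1) * k : ℕ) : ZMod n) + ((n - (J - 1) * k : ℕ) : ZMod n) = 0 := by
        rw [← Nat.cast_add, Nat.add_sub_cancel' h1.le]
        exact ZMod.natCast_self n
      unfold Zp
      rw [show (((J - 1) * k : ℕ) : ZMod n) - (((Db + E) * k : ℕ) : ZMod n) +
        ((n - (J - 1) * k : ℕ) : ZMod n) = ((((J - 1) * k : ℕ) : ZMod n) +
        ((n - (J - 1) * k : ℕ) : ZMod n)) - (((Db + E) * k : ℕ) : ZMod n) by ring, h4]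
      simp
  have hQmem : ∀ x, x ∈ Q ↔ Gd x := by
    intro x
    rw [hQdef, List.mem_flatMap]
    constructor
    · rintro ⟨j, hj, hx⟩
      rw [List.mem_range] at hj
      rw [List.mem_cons] at hx
      rcases hx with rfl | hx
      · exact hj
      · change x ∈ (F.filter (fun K => blk K = j)).toList.map Sum.inr at hx
        rw [List.mem_map] at hx
        obtain ⟨K, hK, rfl⟩ := hx
        rw [mem_toList, mem_filter] at hK
        exact hK.1
    · rcases x with j | K
      · intro hj
        exact ⟨j, List.mem_range.2 hj, List.mem_cons_self⟩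
      · intro hK
        refine ⟨blk K, List.mem_range.2 (hblk K), List.mem_cons_of_mem _ ?_⟩
        change Sum.inr K ∈ (F.filter (fun L => blk L = blk K)).toList.map Sum.inr
        rw [List.mem_map]
        exact ⟨K, by rw [mem_toList, mem_filter]; exact ⟨hK, rfl⟩, rfl⟩
  have hQnd : Q.Nodup := by
    rw [hQdef, List.nodup_flatMap]
    constructor
    · intro j _
      rw [List.nodup_cons]
      constructor
      · intro hx
        change Sum.inl j ∈ (F.filter (fun K => blk K = j)).toList.map Sum.inr at hx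
        rw [List.mem_map] at hx
        obtain ⟨K, _, hK⟩ := hx
        exact absurd hK (by simp)
      · exact (nodup_toList _).map Sum.inr_injective
    · refine List.Pairwise.imp_of_mem ?_ List.pairwise_lt_range
      intro i j hi hj hij x hx hx'
      change x ∈ Sum.inl i :: Tl i at hx
      change x ∈ Sum.inl j :: Tl j at hx'
      rw [List.mem_cons] at hx hx'
      change _ ∨ x ∈ (F.filter (fun K => blk K = i)).toList.map Sum.inr at hx
      change _ ∨ x ∈ (F.filter (fun K => blk K = j)).toList.map Sum.inr at hx'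
      rw [List.mem_map] at hx hx'
      rcases hx with rfl | ⟨K, hK, rfl⟩
      · rcases hx' with h | ⟨K, _, hK⟩
        · have := Sum.inl_injective h
          omega
        · exact absurd hK (by simp)
      · rcases hx' with h | ⟨L, hL, hKL⟩
        · exact absurd h (by simp)
        · have := Sum.inr_injective hKL
          subst this
          rw [mem_toList, mem_filter] at hK hL
          omega
  have hQhead : Q.head? = some (Sum.inl 0) := by
    rw [hQdef]
    obtain ⟨J', rfl⟩ : ∃ J', J = J' + 1 := ⟨J - 1, by omega⟩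
    rw [List.range_succ_eq_map]
    simp
  obtain ⟨q, hq1, hq2, hq3, hq4, hq5⟩ := periodic_seq Q (Sum.inl 0) R hQhead hQnd hch
  obtain ⟨N, hN⟩ : ∃ N, N = Q.length := ⟨_, rfl⟩
  rw [← hN] at hq1 hq3 hq5
  have hqG : ∀ i, Gd (q i) := fun i => (hQmem _).1 (hq2 i)
  -- counting of the connections near a window
  obtain ⟨Λ, hΛ⟩ : ∃ Λ, Λ = D + 2 * E := ⟨_, rfl⟩
  rw [← hΛ] at hW
  have hcount : ∀ y : ZMod n, ∀ T : Finset ℕ, (∀ i ∈ T, i < N ∧ ∃ p < Λ * k,
      zz (q i) + (p : ZMod n) ∈ win n k y) →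
      (T.card : ℝ) ≤ ((Λ + 3 : ℕ) : ℝ) + ((Λ + 4 : ℕ) : ℝ) * k / s := by
    intro y T hT
    set T1 : Finset ℕ := (range J).filter (fun j => Sum.inl j ∈ T.image q) with hT1
    set T2 : Finset (Finset (ZMod n)) := F.filter (fun K => Sum.inr K ∈ T.image q) with hT2
    obtain ⟨y', hy'⟩ : ∃ y' : ZMod n, y' = y + (((Db + E) * k : ℕ) : ZMod n) -
      ((Λ * k : ℕ) : ZMod n) := ⟨_, rfl⟩
    have hnear : ∀ j : ℕ, (∃ p < Λ * k, Zp n k Db E j + (p : ZMod n) ∈ win n k y) →
        ∃ i ≤ (Λ + 1) * k, ((j * k : ℕ) : ZMod n) = y' + (i : ZMod n) := by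
      rintro j ⟨p, hp, hpw⟩
      rw [mem_win] at hpw
      obtain ⟨i, hi, hiw⟩ := hpw
      refine ⟨i + (Λ * k - p), ?_, ?_⟩
      · rw [Nat.add_mul, Nat.one_mul]; omega
      · have h1 : ((j * k : ℕ) : ZMod n) = y + (i : ZMod n) - (p : ZMod n) +
            (((Db + E) * k : ℕ) : ZMod n) := by
          rw [hiw]
          unfold Zp
          ring
        rw [h1, hy', Nat.cast_add, Nat.cast_sub hp.le]
        ring
    have hc1 : T1.card ≤ Λ + 3 := by
      have h1 := card_blocks (Λ := Λ + 1) hk y' T1 ?_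
      · omega
      · intro j hj
        rw [hT1, mem_filter, mem_range, mem_image] at hj
        obtain ⟨hj1, i, hi, hij⟩ := hj
        refine ⟨(hJ j).1 hj1, hnear j ?_⟩
        obtain ⟨_, p, hp, hpw⟩ := hT i hi
        rw [hij] at hpw
        exact ⟨p, hp, hpw⟩
    have hc2 : T2.card * s ≤ (Λ + 4) * k := by
      have h1 := card_tiles (N := (Λ + 4) * k) (S := (t + 1) * s) y' T2 ?_ ?_
      · have : T2.card * s ≤ T2.card * ((t + 1) * s) := by
          apply Nat.mul_le_mul_left
          nlinarith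
        exact this.trans h1
      · intro K hK
        rw [hT2, mem_filter, mem_image] at hK
        obtain ⟨hK1, i, hi, hij⟩ := hK
        refine ⟨(hQt K hK1).2.2.2.2.2.ge, ?_⟩
        obtain ⟨_, p, hp, hpw⟩ := hT i hi
        rw [hij] at hpw
        obtain ⟨i', hi', he⟩ := hnear (blk K) ⟨p, hp, hpw⟩
        intro v hv
        rw [← (hQt K hK1).2.2.2.2.1, mem_vs] at hv
        obtain ⟨x, hx, rfl⟩ := hv
        have hx2 := (hQt K hK1).2.1 x hx
        have hr : (zt K).val % k < k := Nat.mod_lt _ (by omega)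
        rw [mem_win]
        refine ⟨i' + (zt K).val % k + x, ?_, ?_⟩
        · have e1 : (Λ + 4) * k = Λ * k + 4 * k := by ring
          have e2 : (Λ + 1) * k = Λ * k + k := by ring
          omega
        · have h1 : (((blk K) * k + (zt K).val % k : ℕ) : ZMod n) = zt K := by
            rw [hblkdef, Nat.div_add_mod', ZMod.natCast_zmod_val]
          have h2 : zt K = y' + (i' : ZMod n) + (((zt K).val % k : ℕ) : ZMod n) := by
            rw [← he, ← Nat.cast_add, h1]
          conv_rhs => rw [h2]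
          push_cast
          ring
      · intro K hK L hL hKL
        rw [hT2, mem_filter] at hK hL
        exact hF2 K hK.1 L hL.1 hKL
    have hc3 : T.card ≤ T1.card + T2.card := by
      have h1 : T.image q ⊆ T1.image Sum.inl ∪ T2.image Sum.inr := by
        intro x hx
        have hx' := hx
        rw [mem_image] at hx'
        obtain ⟨i, _, rfl⟩ := hx'
        have hG := hqG i
        rw [mem_union, mem_image, mem_image]
        rcases hqi : q i with j | K
        · left
          rw [hqi] at hG hx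
          exact ⟨j, by rw [hT1, mem_filter, mem_range]; exact ⟨hG, hx⟩, rfl⟩
        · right
          rw [hqi] at hG hx
          exact ⟨K, by rw [hT2, mem_filter]; exact ⟨hG, hx⟩, rfl⟩
      have h2 : (T.image q).card = T.card := by
        apply card_image_of_injOn
        intro i hi j hj hij
        exact hq5 i (hT i hi).1 j (hT j hj).1 hij
      rw [← h2]
      refine (card_le_card h1).trans ((card_union_le _ _).trans ?_)
      exact add_le_add card_image_le card_image_le
    have hs0 : (0 : ℝ) < s := by exact_mod_cast hs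
    have h4 : (T2.card : ℝ) ≤ ((Λ + 4 : ℕ) : ℝ) * k / s := by
      rw [le_div_iff₀ hs0]
      exact_mod_cast hc2
    have h5 : (T.card : ℝ) ≤ (T1.card : ℝ) + (T2.card : ℝ) := by exact_mod_cast hc3
    have h6 : (T1.card : ℝ) ≤ ((Λ + 3 : ℕ) : ℝ) := by exact_mod_cast hc1
    linarith
  -- the connections
  obtain ⟨C, hC1, hC2⟩ := greedy N (fun i (c : List (ZMod n)) => c.length ≤ W ∧
      (∀ v ∈ c, v ∈ U ∧ ∃ p < Λ * k, zz (q i) + (p : ZMod n) = v) ∧ c.Nodup ∧
      Pw (Ad n k M) t (lastn t (vs (zz (q i)) (AA (q i))) ++ c ++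
        (vs (zz (q (i + 1))) (AA (q (i + 1)))).take t)) (by
    intro i hi C hC
    obtain ⟨T, hTdef⟩ : ∃ T : Finset (ZMod n), T = (range i).biUnion (fun i' => (C i').toFinset) :=
      ⟨_, rfl⟩
    have hTc : ∀ y, ((T ∩ win n k y).card : ℝ) ≤ ε / 4 * (θ * k) := by
      intro y
      have h1 : T ∩ win n k y ⊆ ((range i).filter (fun i' => ∃ p < Λ * k,
          zz (q i') + (p : ZMod n) ∈ win n k y)).biUnion (fun i' => (C i').toFinset) := by
        intro v hv
        rw [mem_inter, hTdef, mem_biUnion] at hv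
        obtain ⟨⟨i', hi', hv1⟩, hv2⟩ := hv
        rw [mem_biUnion]
        refine ⟨i', ?_, hv1⟩
        rw [mem_filter]
        refine ⟨hi', ?_⟩
        rw [mem_range] at hi'
        rw [List.mem_toFinset] at hv1
        obtain ⟨_, p, hp, hpv⟩ := (hC i' hi').2.1 v hv1
        exact ⟨p, hp, by rw [hpv]; exact hv2⟩
      have h2 : (T ∩ win n k y).card ≤ ((range i).filter (fun i' => ∃ p < Λ * k,
          zz (q i') + (p : ZMod n) ∈ win n k y)).card * W := by
        refine (card_le_card h1).trans (card_biUnion_le_card_mul _ _ _ ?_)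
        intro i' hi'
        rw [mem_filter, mem_range] at hi'
        exact (List.toFinset_card_le _).trans (hC i' hi'.1).1
      have h3 := hcount y ((range i).filter (fun i' => ∃ p < Λ * k,
          zz (q i') + (p : ZMod n) ∈ win n k y)) (by
        intro i' hi'
        rw [mem_filter, mem_range] at hi'
        exact ⟨by omega, hi'.2⟩)
      have h4 : ((T ∩ win n k y).card : ℝ) ≤ (((range i).filter (fun i' => ∃ p < Λ * k,
          zz (q i') + (p : ZMod n) ∈ win n k y)).card : ℝ) * W := by exact_mod_cast h2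
      refine h4.trans (le_trans ?_ hW)
      rw [mul_comm]
      exact mul_le_mul_of_nonneg_left h3 (Nat.cast_nonneg _)
    obtain ⟨σ, hσ1, hσ2⟩ := hdense (zz (q i))
    have hσ0 : 0 ≤ σ := le_trans (by positivity) hσ1
    have hDen : Dense n k t M (ε / 4) (k / N₀) ((1 - ε / 4) * σ) (zz (q i))
        ((D + 2 * E) * N₀) (U \ T) := by
      refine dense_sdiff (by omega) (Nat.div_le_self _ _) hε hσ0 hσ2 ?_
      intro y
      exact (hTc y).trans (by gcongr)
    have hσ3 : θ / 2 * k ≤ (1 - ε / 4) * σ := by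
      have h1 : 1 / 2 * σ ≤ (1 - ε / 4) * σ := by gcongr; linarith
      linarith
    obtain ⟨g, hg, hgz⟩ := hq4 i
    have hGi := hqG i
    have hGi' := hqG (i + 1)
    obtain ⟨c, hc1, hc2, hc3, hc4⟩ := hconn _ _ _ hσ3 hDen (lastn t (AA (q i)))
      (((AA (q (i + 1))).take t).map (fun p => p + g)) (by
        rw [length_lastn]; have := hAlen _ hGi; omega) (by
        rw [List.length_map, List.length_take]; have := hAlen _ hGi'; omega) (by
        intro p hp
        have := hAbd _ hGi p (List.mem_of_mem_drop hp)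
        omega) (by
        intro p hp
        rw [List.mem_map] at hp
        obtain ⟨x, hx, rfl⟩ := hp
        have := hAbd _ hGi' x (List.mem_of_mem_take hx)
        omega) ((hApw _ hGi).lastn t) (by
        apply Pw.shift
        rw [← hgz]
        exact (hApw _ hGi').take t)
    refine ⟨vs (zz (q i)) c, ⟨?_, ?_, hc3, ?_⟩, ?_⟩
    · rw [length_vs]; exact hc1
    · intro v hv
      rw [mem_vs] at hv
      obtain ⟨p, hp, rfl⟩ := hv
      have h1 := hc2 p hp
      rw [mem_sdiff, ← hΛ] at h1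
      exact ⟨h1.2.1, p, h1.1, rfl⟩
    · have h1 := hc4.ad
      rw [vs_append, vs_append, vs_shift, ← hgz, ← vs_lastn, ← vs_take] at h1
      exact h1
    · intro i' hi' v hv hv'
      rw [mem_vs] at hv
      obtain ⟨p, hp, rfl⟩ := hv
      have h1 := (hc2 p hp).2
      rw [mem_sdiff] at h1
      apply h1.2
      rw [hTdef, mem_biUnion]
      exact ⟨i', mem_range.2 hi', List.mem_toFinset.2 hv'⟩)
  -- the remaining vertices
  obtain ⟨X, hX⟩ : ∃ X : Finset (ZMod n), ∀ v, v ∈ X ↔ v ∈ U ∧ ∀ i < N, v ∉ C i := by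
    refine ⟨U \ (range N).biUnion (fun i => (C i).toFinset), fun v => ?_⟩
    rw [mem_sdiff, mem_biUnion]
    simp only [mem_range, List.mem_toFinset, not_exists, not_and]
  obtain ⟨Xj, hXj⟩ : ∃ Xj : ℕ → Finset ℕ, ∀ j x, x ∈ Xj j ↔
      (Db * k ≤ x ∧ x < (Db + 1) * k) ∧ j * k + x < n + Db * k ∧
        zb n k Db j + (x : ZMod n) ∈ X :=
    ⟨fun j => (Ico (Db * k) ((Db + 1) * k)).filter (fun x => j * k + x < n + Db * k ∧
        zb n k Db j + (x : ZMod n) ∈ X), fun j x => by rw [mem_filter, mem_Ico]⟩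
  have hzbx : ∀ j x, Db * k ≤ x →
      zb n k Db j + (x : ZMod n) = ((j * k + (x - Db * k) : ℕ) : ZMod n) := by
    intro j x hx
    unfold zb
    rw [Nat.cast_add, Nat.cast_sub hx]
    ring
  have hXval : ∀ j, ∀ x ∈ Xj j, (zb n k Db j + (x : ZMod n)).val / k = j := by
    intro j x hx
    rw [hXj] at hx
    obtain ⟨⟨h1, h2⟩, h3, _⟩ := hx
    rw [Nat.add_mul, Nat.one_mul] at h2
    rw [hzbx j x h1, ZMod.val_cast_of_lt (by omega),
      Nat.add_div_of_dvd_right (Dvd.intro_left j rfl), Nat.mul_div_cancel _ (by omega),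
      Nat.div_eq_of_lt (by omega), add_zero]
  have hPj : ∀ j, ∃ P' : List ℕ, j < J → (Pc n k t (2 * Db + 1) M (zb n k Db j) P' ∧
      P'.take t = (P j).take t ∧ lastn t P' = lastn t (P j) ∧
      ∀ v, v ∈ vs (zb n k Db j) P' ↔ v ∈ vs (zb n k Db j) (P j) ∨
        ∃ x ∈ Xj j, v = zb n k Db j + (x : ZMod n)) := by
    intro j
    by_cases hj : j < J
    · have hjn := (hJ j).1 hj
      obtain ⟨P', h1, h2, h3, h4⟩ := (hP1 j hjn).2 (Xj j) (by
        intro x hx
        rw [hXj] at hx
        exact mem_Ico.2 hx.1) (by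
        have h1 : (Xj j).card ≤ (U ∩ win n k (zb n k Db j + ((Db * k : ℕ) : ZMod n))).card := by
          refine card_le_card_of_injOn (fun x : ℕ => zb n k Db j + (x : ZMod n)) ?_ ?_
          · intro x hx
            rw [mem_coe, hXj] at hx
            rw [mem_coe, mem_inter]
            refine ⟨((hX _).1 hx.2.2).1, mem_win.2 ⟨x - Db * k, ?_, ?_⟩⟩
            · have := hx.1.2
              rw [Nat.add_mul, Nat.one_mul] at this
              omega
            · rw [Nat.cast_sub hx.1.1]
              ring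
          · intro x hx x' hx' he
            rw [mem_coe, hXj] at hx hx'
            have h2 := hx.1
            have h3 := hx'.1
            rw [Nat.add_mul, Nat.one_mul] at h2 h3
            exact cast_inj (by omega) (by omega) he
        have h2 := hthin (zb n k Db j + ((Db * k : ℕ) : ZMod n))
        exact le_trans (by exact_mod_cast h1) h2) (by
        intro x hx hv
        rw [hXj] at hx
        have h1 := ((hU _).1 ((hX _).1 hx.2.2).1).1
        exact h1 ((hB _).2 ⟨j, hjn, hv⟩))
      exact ⟨P', fun _ => ⟨h1, h2, h3, h4⟩⟩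
    · exact ⟨[], fun h => absurd h hj⟩
  choose P' hP' using hPj
  -- the new pieces
  let V : ℕ ⊕ Finset (ZMod n) → List (ZMod n) := Sum.elim (fun j => vs (zb n k Db j) (P' j))
    (fun K => vs (zt K) (Qt K))
  have hVlen : ∀ a, Gd a → t ≤ (V a).length := by
    rintro (j | K) ha
    · change t ≤ (vs (zb n k Db j) (P' j)).length
      rw [length_vs]
      exact (hP' j ha).1.len
    · change t ≤ (vs (zt K) (Qt K)).length
      rw [length_vs]
      exact (hQt K ha).1
  have hVpw : ∀ a, Gd a → Pw (Ad n k M) t (V a) := by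
    rintro (j | K) ha
    · exact (hP' j ha).1.pw.ad
    · exact (hQt K ha).2.2.1.ad
  have hVnd : ∀ a, Gd a → (V a).Nodup := by
    rintro (j | K) ha
    · exact (hP' j ha).1.nd
    · exact (hQt K ha).2.2.2.1
  have hVtake : ∀ a, Gd a → (V a).take t = (vs (zz a) (AA a)).take t := by
    rintro (j | K) ha
    · rw [evs1]
      change (vs (zb n k Db j) (P' j)).take t = _
      rw [vs_take, vs_take, (hP' j ha).2.1]
    · rw [evs2]
      rfl
  have hVlast : ∀ a, Gd a → lastn t (V a) = lastn t (vs (zz a) (AA a)) := by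
    rintro (j | K) ha
    · rw [evs1]
      change lastn t (vs (zb n k Db j) (P' j)) = _
      rw [vs_lastn, vs_lastn, (hP' j ha).2.2.1]
    · rw [evs2]
      rfl
  -- membership
  have hVl : ∀ j, j < J → ∀ v, v ∈ V (Sum.inl j) ↔ v ∈ vs (zb n k Db j) (P j) ∨
      ∃ x ∈ Xj j, v = zb n k Db j + (x : ZMod n) := fun j hj v => (hP' j hj).2.2.2 v
  have hVr : ∀ K, K ∈ F → ∀ v, v ∈ V (Sum.inr K) ↔ v ∈ K := fun K hK v =>
    (hQt K hK).2.2.2.2.1 v
  have hVB : ∀ j, j < J → ∀ v, v ∈ V (Sum.inl j) → v ∈ B ∨ v ∈ X := by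
    intro j hj v hv
    rw [hVl j hj] at hv
    rcases hv with hv | ⟨x, hx, rfl⟩
    · left; exact (hB v).2 ⟨j, (hJ j).1 hj, hv⟩
    · right; exact ((hXj j x).1 hx).2.2
  have hVC : ∀ a, Gd a → ∀ i < N, ∀ v ∈ V a, v ∉ C i := by
    rintro (j | K) ha i hi v hv hv'
    · rcases hVB j ha v hv with h1 | h1
      · exact ((hU v).1 ((hC1 i hi).2.1 v hv').1).1 h1
      · exact ((hX v).1 h1).2 i hi hv'
    · rw [hVr K ha] at hv
      exact ((hU v).1 ((hC1 i hi).2.1 v hv').1).2 K ha hv
  have hVXU : ∀ v ∈ X, v ∉ B ∧ ∀ K ∈ F, v ∉ K := fun v hv => (hU v).1 ((hX v).1 hv).1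
  have hVV : ∀ a b, Gd a → Gd b → a ≠ b → ∀ v ∈ V a, v ∉ V b := by
    have hll : ∀ i j, i < j → j < J → ∀ v, v ∈ V (Sum.inl i) → v ∉ V (Sum.inl j) := by
      intro i j hij hj v hv hv'
      have hi : i < J := by omega
      rw [hVl i hi] at hv
      rw [hVl j hj] at hv'
      rcases hv with hv | ⟨x, hx, rfl⟩
      · rcases hv' with hv' | ⟨x', hx', rfl⟩
        · exact hP2 i j hij ((hJ j).1 hj) v hv hv'
        · exact (hVXU _ ((hXj j x').1 hx').2.2).1 ((hB _).2 ⟨i, (hJ i).1 hi, hv⟩)
      · rcases hv' with hv' | ⟨x', hx', he⟩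
        · exact (hVXU _ ((hXj i x).1 hx).2.2).1 ((hB _).2 ⟨j, (hJ j).1 hj, hv'⟩)
        · have h1 := hXval i x hx
          have h2 := hXval j x' hx'
          rw [he, h2] at h1
          omega
    rintro (i | K) (j | L) ha hb hab v hv hv'
    · rcases lt_trichotomy i j with h1 | h1 | h1
      · exact hll i j h1 hb v hv hv'
      · exact hab (by rw [h1])
      · exact hll j i h1 ha v hv' hv
    · rw [hVr L hb] at hv'
      rcases hVB i ha v hv with h1 | h1
      · exact (disjoint_left.1 (hF1 L hb).2 hv') h1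
      · exact (hVXU v h1).2 L hb hv'
    · rw [hVr K ha] at hv
      rcases hVB j hb v hv' with h1 | h1
      · exact (disjoint_left.1 (hF1 K ha).2 hv) h1
      · exact (hVXU v h1).2 K ha hv
    · rw [hVr K ha] at hv
      rw [hVr L hb] at hv'
      have hKL : K ≠ L := fun h => hab (by rw [h])
      exact (disjoint_left.1 (hF2 K ha L hb hKL) hv) hv'
  -- the cyclic list
  have hN0 : 0 < N := by
    obtain ⟨i, hi, _⟩ := hq3 (Sum.inl 0) ((hQmem _).2 hJ1)
    omega
  have hper : ∀ i, q (i % N) = q i := by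
    have hp : Function.Periodic q N := fun i => by rw [add_comm]; exact hq1 i
    exact fun i => hp.map_mod_nat i
  have hper' : ∀ i, q (i % N + 1) = q (i + 1) := by
    have hp : Function.Periodic (fun i => q (i + 1)) N := fun i => by
      change q (i + N + 1) = q (i + 1)
      rw [show i + N + 1 = N + (i + 1) by omega]
      exact hq1 (i + 1)
    exact fun i => hp.map_mod_nat i
  refine ⟨(List.range N).flatMap (fun i => V (q i) ++ C (i % N)), ?_, ?_, ?_⟩
  · rw [List.nodup_flatMap]
    constructor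
    · intro i hi
      rw [List.mem_range] at hi
      rw [Nat.mod_eq_of_lt hi]
      refine (hVnd _ (hqG i)).append (hC1 i hi).2.2.1 ?_
      intro v hv hv'
      exact hVC _ (hqG i) i hi v hv hv'
    · refine List.Pairwise.imp_of_mem ?_ List.pairwise_lt_range
      intro i j hi hj hij v hv hv'
      rw [List.mem_range] at hi hj
      change v ∈ V (q i) ++ C (i % N) at hv
      change v ∈ V (q j) ++ C (j % N) at hv'
      rw [Nat.mod_eq_of_lt hi, List.mem_append] at hv
      rw [Nat.mod_eq_of_lt hj, List.mem_append] at hv'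
      rcases hv with hv | hv
      · rcases hv' with hv' | hv'
        · refine hVV _ _ (hqG i) (hqG j) ?_ v hv hv'
          intro h1
          have := hq5 i hi j hj h1
          omega
        · exact hVC _ (hqG i) j hj v hv hv'
      · rcases hv' with hv' | hv'
        · exact hVC _ (hqG j) i hi v hv' hv
        · exact hC2 j hj i hij v hv' hv
  · intro v
    have hin : ∀ a, Gd a → v ∈ V a → v ∈ (List.range N).flatMap
        (fun i => V (q i) ++ C (i % N)) := by
      intro a ha hv
      obtain ⟨i, hi, rfl⟩ := hq3 a ((hQmem a).2 ha)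
      rw [List.mem_flatMap]
      exact ⟨i, List.mem_range.2 hi, List.mem_append_left _ hv⟩
    by_cases hvB : v ∈ B
    · obtain ⟨j, hj, hv⟩ := (hB v).1 hvB
      exact hin (Sum.inl j) ((hJ j).2 hj) ((hVl j ((hJ j).2 hj) v).2 (Or.inl hv))
    · by_cases hvF : ∃ K ∈ F, v ∈ K
      · obtain ⟨K, hK, hv⟩ := hvF
        exact hin (Sum.inr K) hK ((hVr K hK v).2 hv)
      · push Not at hvF
        have hvU : v ∈ U := (hU v).2 ⟨hvB, hvF⟩
        by_cases hvC : ∃ i < N, v ∈ C i
        · obtain ⟨i, hi, hv⟩ := hvC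
          rw [List.mem_flatMap]
          refine ⟨i, List.mem_range.2 hi, List.mem_append_right _ ?_⟩
          rw [Nat.mod_eq_of_lt hi]
          exact hv
        · push Not at hvC
          have hvX : v ∈ X := (hX v).2 ⟨hvU, hvC⟩
          have hvn : v.val < n := ZMod.val_lt v
          have hj : v.val / k < J := (hJ _).2 ((Nat.div_mul_le_self _ _).trans_lt hvn)
          have hdm : v.val / k * k + v.val % k = v.val := Nat.div_add_mod' _ _
          have hr : v.val % k < k := Nat.mod_lt _ (by omega)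
          have he : v = zb n k Db (v.val / k) + ((Db * k + v.val % k : ℕ) : ZMod n) := by
            rw [hzbx _ _ (by omega), Nat.add_sub_cancel_left, hdm, ZMod.natCast_zmod_val]
          refine hin (Sum.inl (v.val / k)) hj ((hVl _ hj v).2 (Or.inr
            ⟨Db * k + v.val % k, ?_, he⟩))
          rw [hXj]
          refine ⟨⟨by omega, ?_⟩, ?_, ?_⟩
          · rw [Nat.add_mul, Nat.one_mul]; omega
          · omega
          · rw [← he]; exact hvX
  · have h1 := glue_cyc (R := Ad n k M) (t := t) (N := N) (fun i => V (q i)) (fun i => C (i % N))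
      (fun i => hVlen _ (hqG i)) (fun i => hVpw _ (hqG i)) (by
        intro i
        have h2 := (hC1 (i % N) (Nat.mod_lt _ hN0)).2.2.2
        rw [hper, hper'] at h2
        change Pw (Ad n k M) t (lastn t (V (q i)) ++ C (i % N) ++ (V (q (i + 1))).take t)
        rw [hVlast _ (hqG i), hVtake _ (hqG (i + 1))]
        exact h2) (by
        intro i
        change V (q (N + i)) = V (q i)
        rw [hq1]) (by
        intro i
        change C ((N + i) % N) = C (i % N)
        rw [Nat.add_mod_left])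
    exact h1

end FINL

/-- [FIN] all hosts contain the `t`-th power of a Hamilton cycle -/
theorem fin (h1 : S_BLK) (h2 : S_ALM2) (h3 : S_CONN2) : S_FIN := by
  classical
  intro t ε ht hε hε1
  obtain ⟨Db, hblk⟩ := h1 t ε (by omega) hε hε1
  obtain ⟨E, N₁, hconn⟩ := h3 t (ε / 4) (by omega) (by linarith) (by linarith)
  obtain ⟨D, hD⟩ : ∃ D, D = 2 * Db + 6 := ⟨_, rfl⟩
  obtain ⟨W, hconn⟩ := hconn (N₁ + 1) (by omega) D
  obtain ⟨γ₀, hγ₀, halm⟩ := h2 t (N₁ + 1) ((D + 2 * E) * (N₁ + 1)) ε ht (by omega) hε hε1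
  obtain ⟨h, kb, hh, hblk⟩ := hblk γ₀ hγ₀
  obtain ⟨θ, hθ, halm⟩ := halm h hh
  obtain ⟨kc, hconn⟩ := hconn (θ / 2) (by linarith)
  obtain ⟨s, hs⟩ := exists_nat_ge (8 * (W : ℝ) * ((D + 2 * E + 4 : ℕ) : ℝ) / (ε * θ) + 1)
  have hεθ : 0 < ε * θ := by positivity
  have hs1 : (1 : ℝ) ≤ s := by
    have : 0 ≤ 8 * (W : ℝ) * ((D + 2 * E + 4 : ℕ) : ℝ) / (ε * θ) := by positivity
    linarith
  have hs1' : 1 ≤ s := by exact_mod_cast hs1
  obtain ⟨ka, halm⟩ := halm s hs1'
  obtain ⟨kd, hkd⟩ := exists_nat_ge (8 * (W : ℝ) * ((D + 2 * E + 3 : ℕ) : ℝ) / (ε * θ))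
  refine ⟨max (max kb kc) (max ka kd), ?_⟩
  intro n k m _ M hM hk hm
  have hkb : kb ≤ k := le_trans (le_trans (le_max_left _ _) (le_max_left _ _)) hk
  have hkc : kc ≤ k := le_trans (le_trans (le_max_right _ _) (le_max_left _ _)) hk
  have hka : ka ≤ k := le_trans (le_trans (le_max_left _ _) (le_max_right _ _)) hk
  have hkd' : kd ≤ k := le_trans (le_trans (le_max_right _ _) (le_max_right _ _)) hk
  have hkpos := hM.kpos
  obtain ⟨P, hP1, hP2, hP3⟩ := hblk n k m M hM hkb hm
  obtain ⟨J, hJ⟩ : ∃ J, ∀ j, j < J ↔ j * k < n := by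
    refine ⟨(n + k - 1) / k, fun j => ?_⟩
    rw [← Nat.succ_le_iff, Nat.le_div_iff_mul_le (by omega), Nat.succ_mul]
    omega
  obtain ⟨B, hB⟩ : ∃ B : Finset (ZMod n), ∀ v, v ∈ B ↔
      ∃ j, j * k < n ∧ v ∈ vs (zb n k Db j) (P j) :=
    ⟨univ.filter (fun v => ∃ j, j * k < n ∧ v ∈ vs (zb n k Db j) (P j)), fun v => by
      rw [mem_filter]; simp⟩
  have hBthin := hP3 B (fun v hv => (hB v).1 hv)
  obtain ⟨F, hF1, hF2, hF3, hF4⟩ := halm n k m M hM hka hm B hBthin
  refine FINL.core (h := h) (θ := θ) hM hε hε1 hθ hs1' hD hJ P hP1 hP2 B hB F hF1 hF2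
    ((B ∪ F.biUnion id)ᶜ) ?_ hF3 hF4 (fun σ z U hσ hU => hconn n k m M hM hkc σ z U hσ hU) ?_
  · intro v
    rw [mem_compl, mem_union, mem_biUnion]
    simp only [id_eq, not_or, not_exists, not_and]
  · have hk0 : (0 : ℝ) < k := by exact_mod_cast hkpos
    have hs0 : (0 : ℝ) < s := by linarith
    have e1 : 8 * (W : ℝ) * ((D + 2 * E + 3 : ℕ) : ℝ) ≤ ε * θ * k := by
      have h5 : (kd : ℝ) ≤ k := by exact_mod_cast hkd'
      have h6 := hkd.trans h5
      rw [div_le_iff₀ hεθ] at h6
      linarith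
    have e2 : 8 * (W : ℝ) * ((D + 2 * E + 4 : ℕ) : ℝ) ≤ ε * θ * s := by
      have h6 : 8 * (W : ℝ) * ((D + 2 * E + 4 : ℕ) : ℝ) / (ε * θ) ≤ s := by linarith
      rw [div_le_iff₀ hεθ] at h6
      linarith
    have e3 : (W : ℝ) * (((D + 2 * E + 4 : ℕ) : ℝ) * k / s) ≤ ε * θ / 8 * k := by
      rw [← mul_div_assoc, div_le_iff₀ hs0]
      nlinarith
    have e4 : (W : ℝ) * ((D + 2 * E + 3 : ℕ) : ℝ) ≤ ε * θ / 8 * k := by linarith
    rw [mul_add]
    linarith

end Pool.Agent.H48.PW
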