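import Pool.Agent.H48.PW.Stm
import Pool.Graph.R_pool_sql_team_seeded_1e53cb71.Helper74K9.PS2.All
import Pool.Graph.R_pool_sql_team_seeded_1e53cb71.Helper83K9.CF.Farkas

/-!
# Fractional tilings of a segment of the line by tiles: `S_FT`
-/

set_option autoImplicit false

namespace Pool.Agent.H48.PW

open Finset Pool.Agent.Helper83K9.CF

namespace FTL

open Classical in
theorem tfrac (t : ℕ) (ht : 3 ≤ t) : Fix.T_FRAC t := by
  refine Pool.Agent.Helper64K9.PS2.frac_of t ?_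
  intro k N q μ h2 hk hq1 hq2 hμ hcond
  have htr : (0 : ℝ) < t := by
    have : 0 < t := by omega
    exact_mod_cast this
  obtain ⟨f, w, lam, hf, _, hw0, hwt, hl0, hl1, hcov, heq⟩ :=
    Pool.Agent.Helper87K9.PS2.lpc t k N q μ (fun Y => (3 : ℝ) ^ (Y.sup id)) (1 / (t : ℝ)) (by omega)
      (by positivity) (fun Y => by positivity)
  refine ⟨f, lam, w, hf.nonneg, hw0, fun Y hY => ⟨(hwt Y hY).1, (hwt Y hY).2.1⟩, hl0,
    fun v hv => ⟨(hl1 v hv).2.1, ?_⟩, hcov, heq, ?_⟩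
  · rw [(hl1 v hv).2.2]
    positivity
  · have h3 := Pool.Agent.Helper74K9.PS2.cert3 t k N q μ f w h2 hk hq1 hq2 hμ hcond hf.nonneg
      hf.first hf.le hw0 hwt
      (fun v hv hfv => by
        have e1 := heq v hv hfv
        have e2 := hl0 v
        linarith)
    convert h3

/-! ### Sums over blocks -/

theorem blk_sum (g : ℕ → ℝ) (l a b : ℕ) (hab : a ≤ b) :
    ∑ v ∈ Ico (a * l) (b * l), g v = ∑ j ∈ Ico a b, ∑ v ∈ Ico (j * l) ((j + 1) * l), g v := by
  induction b, hab using Nat.le_induction with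
  | base => simp
  | succ b hab ih =>
    rw [Finset.sum_Ico_succ_top hab, ← ih]
    exact (Finset.sum_Ico_consecutive g (Nat.mul_le_mul_right l hab)
      (Nat.mul_le_mul_right l (Nat.le_succ b))).symm

theorem blk_div (h : ℕ → ℝ) {Q : ℕ} (hQ : 1 ≤ Q) (a b : ℕ) (hab : a ≤ b) :
    ∑ v ∈ Ico (a * Q) (b * Q), h (v / Q) = Q * ∑ j ∈ Ico a b, h j := by
  rw [blk_sum _ _ _ _ hab, Finset.mul_sum]
  refine Finset.sum_congr rfl fun j _ => ?_
  have : ∀ v ∈ Ico (j * Q) ((j + 1) * Q), h (v / Q) = h j := by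
    intro v hv
    rw [Finset.mem_Ico] at hv
    congr 1
    rw [Nat.div_eq_iff (by omega)]
    constructor
    · exact hv.1
    · have := hv.2
      have e : (j + 1) * Q = j * Q + Q := by ring
      omega
  rw [Finset.sum_congr rfl this, Finset.sum_const, Nat.card_Ico, nsmul_eq_mul]
  congr 2
  have e : (j + 1) * Q = j * Q + Q := by ring
  omega

theorem card_eq_sum (A u : Finset ℕ) : ((A ∩ u).card : ℝ) = ∑ v ∈ A, if v ∈ u then (1 : ℝ) else 0 := by
  rw [Finset.sum_ite_mem, Finset.sum_const, nsmul_eq_mul, mul_one]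

theorem blk_card (u : Finset ℕ) (l a b : ℕ) (hab : a ≤ b) :
    ((Ico (a * l) (b * l) ∩ u).card : ℝ) =
      ∑ j ∈ Ico a b, ((Ico (j * l) ((j + 1) * l) ∩ u).card : ℝ) := by
  rw [card_eq_sum, blk_sum _ _ _ _ hab]
  exact Finset.sum_congr rfl fun j _ => (card_eq_sum _ _).symm

/-! ### The dual form -/

/-- the dual form for given constants -/
def DF (t M₀ s : ℕ) (ε θ η : ℝ) (k₀ : ℕ) : Prop :=
  ∀ (k : ℕ) (q : ℕ → ℕ → Prop) (u : Finset ℕ) (x : ℕ → ℝ), k₀ ≤ k → (∀ x, q x x) →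
  (∀ x y, q x y → q y x) → u ⊆ range (M₀ * k) →
  (∀ j, j + k < M₀ * k → θ * k ≤ ((Ico j (j + k) ∩ u).card : ℝ) ∧
    ∀ x, j ≤ x → x ≤ j + 2 * k → x < M₀ * k →
      (t : ℝ) * ((LQ q k (M₀ * k) x ∩ u).card : ℝ) ≤ (1 - ε) * ((Ico j (j + k) ∩ u).card : ℝ)) →
  (∀ v, |x v| ≤ ((t : ℝ) + 1) * s) → (∀ v, v < k → 0 ≤ x v) →
  (∀ K, LTile q k t s u K → 0 ≤ ∑ v ∈ K, x v) → -(η * k) ≤ ∑ v ∈ u, x v

theorem tile_card {q : ℕ → ℕ → Prop} {k t s : ℕ} {u K : Finset ℕ} (h : LTile q k t s u K) :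
    K.card = (t + 1) * s := by
  obtain ⟨p, hp, rfl, -, -⟩ := h
  rw [Finset.card_image_of_injective _ hp, Finset.card_univ, Fintype.card_prod, Fintype.card_fin,
    Fintype.card_fin]

open Classical in
theorem of_dual {t M₀ s : ℕ} {ε θ η : ℝ} {k₀ : ℕ} (hs : 1 ≤ s)
    (hDF : DF t M₀ s ε θ η k₀) (k : ℕ) (hk1 : 1 ≤ k) (q : ℕ → ℕ → Prop)
    (u : Finset ℕ) (hk : k₀ ≤ k) (hq1 : ∀ x, q x x) (hq2 : ∀ x y, q x y → q y x)
    (hu : u ⊆ range (M₀ * k))
    (hcond : ∀ j, j + k < M₀ * k → θ * k ≤ ((Ico j (j + k) ∩ u).card : ℝ) ∧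
      ∀ x, j ≤ x → x ≤ j + 2 * k → x < M₀ * k →
        (t : ℝ) * ((LQ q k (M₀ * k) x ∩ u).card : ℝ) ≤ (1 - ε) * ((Ico j (j + k) ∩ u).card : ℝ)) :
    ∃ w : Finset ℕ → ℝ, (∀ K, 0 ≤ w K) ∧ (∀ K, w K ≠ 0 → LTile q k t s u K) ∧
    (∀ v ∈ u, ∑ K ∈ (range (M₀ * k)).powerset, (if v ∈ K then w K else 0) ≤ 1) ∧
    ∀ c, 1 ≤ c → c < M₀ → ∑ v ∈ Ico (c * k) ((c + 1) * k) ∩ u,
      (1 - ∑ K ∈ (range (M₀ * k)).powerset, (if v ∈ K then w K else 0)) ≤ η * k := by
  set C : Finset (Finset ℕ) := (range (M₀ * k)).powerset.filter (fun K => LTile q k t s u K)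
    with hC
  have memC : ∀ K, K ∈ C ↔ LTile q k t s u K := by
    intro K
    rw [hC, Finset.mem_filter, Finset.mem_powerset]
    constructor
    · exact fun h => h.2
    · intro h
      refine ⟨?_, h⟩
      obtain ⟨p, hp, hK, hKu, -⟩ := h
      exact hKu.trans hu
  have subC : ∀ K, K ∈ C → K ⊆ u := by
    intro K hK
    obtain ⟨p, hp, hK, hKu, -⟩ := (memC K).1 hK
    exact hKu
  have hT1 : (1 : ℝ) ≤ ((t : ℝ) + 1) * s := by
    have h1 : (1 : ℝ) ≤ s := by exact_mod_cast hs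
    have h2 : (0 : ℝ) ≤ t := Nat.cast_nonneg t
    nlinarith
  have hdiv : ∀ c v : ℕ, v / k = c ↔ v ∈ Ico (c * k) ((c + 1) * k) := by
    intro c v
    rw [Finset.mem_Ico, Nat.div_eq_iff (by omega)]
    have e : (c + 1) * k = c * k + k := by ring
    omega
  let a : ({v // v ∈ u} ⊕ {c // c ∈ Ico 1 M₀}) → {K // K ∈ C} → ℝ :=
    Sum.elim (fun v K => if (v : ℕ) ∈ K.1 then (1 : ℝ) else 0)
      (fun c K => -((K.1 ∩ Ico ((c : ℕ) * k) (((c : ℕ) + 1) * k)).card : ℝ))
  let μ : ({v // v ∈ u} ⊕ {c // c ∈ Ico 1 M₀}) → ℝ :=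
    Sum.elim (fun _ => (1 : ℝ))
      (fun c => η * k - ((Ico ((c : ℕ) * k) (((c : ℕ) + 1) * k) ∩ u).card : ℝ))
  obtain ⟨w, hw0, hw⟩ := farkas ({v // v ∈ u} ⊕ {c // c ∈ Ico 1 M₀}) {K // K ∈ C} a μ
    (fun _ => True) (by
      intro σ hσ hσK
      -- the extended functions
      set sg : ℕ → ℝ := fun v => if h : v ∈ u then σ (Sum.inl ⟨v, h⟩) else 0 with hsg
      set lam : ℕ → ℝ := fun c => if h : c ∈ Ico 1 M₀ then σ (Sum.inr ⟨c, h⟩) else 0 with hlam
      have sg0 : ∀ v, 0 ≤ sg v := by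
        intro v
        simp only [hsg]
        split_ifs
        · exact hσ _ trivial
        · exact le_rfl
      have lam0 : ∀ v, 0 ≤ lam v := by
        intro v
        simp only [hlam]
        split_ifs
        · exact hσ _ trivial
        · exact le_rfl
      have lamz : lam 0 = 0 := by
        simp only [hlam]
        rw [dif_neg]
        simp
      set Lam : ℝ := ∑ c ∈ Ico 1 M₀, lam c with hLam
      have hLam0 : 0 ≤ Lam := Finset.sum_nonneg fun c _ => lam0 c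
      have lamle : ∀ c, lam c ≤ Lam := by
        intro c
        by_cases h : c ∈ Ico 1 M₀
        · exact Finset.single_le_sum (fun c _ => lam0 c) h
        · have : lam c = 0 := by simp only [hlam]; rw [dif_neg h]
          rw [this]; exact hLam0
      -- sums over a subset of `u`
      have hfib : ∀ K : Finset ℕ, K ⊆ u → ∑ v ∈ K, lam (v / k) =
          ∑ c ∈ Ico 1 M₀, lam c * ((K ∩ Ico (c * k) ((c + 1) * k)).card : ℝ) := by
        intro K hK
        have h1 : ∑ v ∈ K, lam (v / k) = ∑ c ∈ range M₀, ∑ v ∈ K.filter (fun v => v / k = c),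
            lam (v / k) := by
          refine (Finset.sum_fiberwise_of_maps_to ?_ _).symm
          intro v hv
          have := hu (hK hv)
          rw [Finset.mem_range] at this ⊢
          exact Nat.div_lt_of_lt_mul (by rw [mul_comm]; exact this)
        have h2 : ∀ c, ∑ v ∈ K.filter (fun v => v / k = c), lam (v / k) =
            lam c * ((K ∩ Ico (c * k) ((c + 1) * k)).card : ℝ) := by
          intro c
          have h3 : K.filter (fun v => v / k = c) = K ∩ Ico (c * k) ((c + 1) * k) := by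
            ext v
            rw [Finset.mem_filter, Finset.mem_inter, hdiv]
          rw [← h3, Finset.sum_congr rfl (fun v hv => by rw [(Finset.mem_filter.1 hv).2]),
            Finset.sum_const, nsmul_eq_mul, mul_comm]
        rw [h1, Finset.sum_congr rfl (fun c _ => h2 c)]
        refine (Finset.sum_subset ?_ ?_).symm
        · intro c hc
          rw [Finset.mem_Ico] at hc
          exact Finset.mem_range.2 hc.2
        · intro c hc hc'
          have hc0 : c = 0 := by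
            rw [Finset.mem_range] at hc
            rw [Finset.mem_Ico] at hc'
            omega
          rw [hc0, lamz, zero_mul]
      have hsgsum : ∀ K : Finset ℕ, K ⊆ u → ∑ v ∈ K, sg v =
          ∑ v : {v // v ∈ u}, σ (Sum.inl v) * (if (v : ℕ) ∈ K then (1 : ℝ) else 0) := by
        intro K hK
        have h1 : ∑ v ∈ K, sg v = ∑ v ∈ u, sg v * (if v ∈ K then (1 : ℝ) else 0) := by
          simp only [mul_ite, mul_one, mul_zero]
          rw [Finset.sum_ite_mem, Finset.inter_eq_right.2 hK]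
        rw [h1, ← Finset.sum_coe_sort u]
        refine Finset.sum_congr rfl fun v _ => ?_
        simp only [hsg]
        rw [dif_pos v.2]
      have hlamsum : ∀ f : ℕ → ℝ, ∑ c ∈ Ico 1 M₀, lam c * f c =
          ∑ c : {c // c ∈ Ico 1 M₀}, σ (Sum.inr c) * f c := by
        intro f
        rw [← Finset.sum_coe_sort (Ico 1 M₀)]
        refine Finset.sum_congr rfl fun c _ => ?_
        simp only [hlam]
        rw [dif_pos c.2]
      have hgoal : ∑ v : {v // v ∈ u} ⊕ {c // c ∈ Ico 1 M₀}, σ v * μ v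
          = ∑ v ∈ u, sg v + η * k * Lam - ∑ v ∈ u, lam (v / k) := by
        rw [Fintype.sum_sum_type]
        simp only [μ, Sum.elim_inl, Sum.elim_inr]
        have h1 := hsgsum u (Finset.Subset.refl _)
        have h2 : ∑ v : {v // v ∈ u}, σ (Sum.inl v) * (if (v : ℕ) ∈ u then (1 : ℝ) else 0) =
            ∑ v : {v // v ∈ u}, σ (Sum.inl v) * 1 :=
          Finset.sum_congr rfl fun v _ => by rw [if_pos v.2]
        have h3 : ∑ c ∈ Ico 1 M₀, lam c * (η * k - ((Ico (c * k) ((c + 1) * k) ∩ u).card : ℝ)) =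
            η * k * Lam - ∑ c ∈ Ico 1 M₀, lam c * ((u ∩ Ico (c * k) ((c + 1) * k)).card : ℝ) := by
          rw [hLam, Finset.mul_sum, ← Finset.sum_sub_distrib]
          refine Finset.sum_congr rfl fun c _ => ?_
          rw [Finset.inter_comm u]
          ring
        rw [← hlamsum (fun c => η * k - ((Ico (c * k) ((c + 1) * k) ∩ u).card : ℝ)),
          hfib u (Finset.Subset.refl _), h1, h2, h3]
        simp only [mul_one]
        rw [add_sub_assoc]
      rw [hgoal]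
      rcases hLam0.eq_or_lt with h0 | hpos
      · have hz : ∀ c, lam c = 0 := fun c => le_antisymm ((lamle c).trans h0.symm.le) (lam0 c)
        rw [← h0]
        simp only [hz, Finset.sum_const_zero, mul_zero, sub_zero, add_zero]
        exact Finset.sum_nonneg fun v _ => sg0 v
      · -- the function `x`
        set T : ℝ := ((t : ℝ) + 1) * s with hT
        set x : ℕ → ℝ := fun v => if v ∈ u then (sg v - lam (v / k)) / Lam else 0 with hx
        have xlow : ∀ v, -1 ≤ x v := by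
          intro v
          simp only [hx]
          split_ifs
          · rw [le_div_iff₀ hpos]
            have := sg0 v
            have := lamle (v / k)
            linarith
          · linarith
        have hxK : ∀ K : Finset ℕ, K ⊆ u → ∑ v ∈ K, x v =
            (∑ v ∈ K, sg v - ∑ v ∈ K, lam (v / k)) / Lam := by
          intro K hK
          rw [← Finset.sum_sub_distrib, Finset.sum_div]
          refine Finset.sum_congr rfl fun v hv => ?_
          simp only [hx]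
          rw [if_pos (hK hv)]
        have hDFx := hDF k q u (fun v => min (x v) T) hk hq1 hq2 hu hcond (by
            intro v
            rw [abs_le]
            constructor
            · have := xlow v
              refine le_min (by linarith) (by linarith)
            · exact min_le_right _ _) (by
            intro v hv
            refine le_min ?_ (by linarith)
            simp only [hx]
            split_ifs
            · have : v / k = 0 := Nat.div_eq_of_lt hv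
              rw [this, lamz, sub_zero]
              exact div_nonneg (sg0 v) hLam0
            · exact le_rfl) (by
            intro K hK
            have hKu := subC K ((memC K).2 hK)
            have hcard := tile_card hK
            by_cases hall : ∀ v ∈ K, x v ≤ T
            · rw [Finset.sum_congr rfl (fun v hv => min_eq_left (hall v hv)), hxK K hKu]
              apply div_nonneg _ hLam0
              have h1 := hσK ⟨K, (memC K).2 hK⟩
              rw [Fintype.sum_sum_type] at h1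
              simp only [a, Sum.elim_inl, Sum.elim_inr] at h1
              rw [← hsgsum K hKu] at h1
              have h2 := hlamsum (fun c => -((K ∩ Ico (c * k) ((c + 1) * k)).card : ℝ))
              rw [← h2] at h1
              rw [hfib K hKu]
              simp only [mul_neg, Finset.sum_neg_distrib] at h1
              linarith
            · push Not at hall
              obtain ⟨v₀, hv₀, hv₀'⟩ := hall
              rw [← Finset.add_sum_erase K _ hv₀, min_eq_right hv₀'.le]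
              have h1 : ∑ v ∈ K.erase v₀, (-1 : ℝ) ≤ ∑ v ∈ K.erase v₀, min (x v) T :=
                Finset.sum_le_sum fun v _ => le_min (xlow v) (by linarith)
              rw [Finset.sum_const, nsmul_eq_mul, Finset.card_erase_of_mem hv₀, hcard] at h1
              have h2 : (((t + 1) * s - 1 : ℕ) : ℝ) ≤ T := by
                rw [hT]
                have : (((t + 1) * s - 1 : ℕ) : ℝ) ≤ (((t + 1) * s : ℕ) : ℝ) := by
                  exact_mod_cast Nat.sub_le _ _
                refine this.trans (le_of_eq ?_)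
                push_cast; ring
              linarith)
        have h1 : ∑ v ∈ u, min (x v) T ≤ ∑ v ∈ u, x v :=
          Finset.sum_le_sum fun v _ => min_le_left _ _
        have h2 := hDFx.trans h1
        rw [hxK u (Finset.Subset.refl _), le_div_iff₀ hpos] at h2
        linarith)
  have hsum : ∀ v : ℕ, ∑ K ∈ (range (M₀ * k)).powerset,
      (if v ∈ K then (if h : K ∈ C then w ⟨K, h⟩ else 0) else 0) =
      ∑ i : {K // K ∈ C}, (if v ∈ i.1 then (1 : ℝ) else 0) * w i := by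
    intro v
    have h1 : ∑ K ∈ (range (M₀ * k)).powerset,
        (if v ∈ K then (if h : K ∈ C then w ⟨K, h⟩ else 0) else 0) =
        ∑ K ∈ C, (if v ∈ K then (if h : K ∈ C then w ⟨K, h⟩ else 0) else 0) := by
      refine (Finset.sum_subset (Finset.filter_subset _ _) fun K _ hK => ?_).symm
      rw [dif_neg hK]
      simp
    rw [h1, ← Finset.sum_coe_sort C]
    refine Finset.sum_congr rfl fun i _ => ?_
    rw [dif_pos i.2]
    simp only [ite_mul, one_mul, zero_mul]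
  refine ⟨fun K => if h : K ∈ C then w ⟨K, h⟩ else 0, fun K => ?_, fun K hK => ?_, fun v hv => ?_,
    fun c hc1 hc2 => ?_⟩
  · beta_reduce
    split_ifs with h
    · exact hw0 _
    · exact le_rfl
  · have : K ∈ C := by
      by_contra h
      exact hK (dif_neg h)
    exact (memC K).1 this
  · rw [hsum v]
    exact (hw (Sum.inl ⟨v, hv⟩)).1 trivial
  · have h1 := (hw (Sum.inr ⟨c, Finset.mem_Ico.2 ⟨hc1, hc2⟩⟩)).1 trivial
    simp only [a, μ, Sum.elim_inr] at h1
    rw [Finset.sum_congr rfl (fun v _ => by rw [hsum v]), Finset.sum_sub_distrib, Finset.sum_const,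
      nsmul_eq_mul, mul_one, Finset.sum_comm]
    have h2 : ∀ i : {K // K ∈ C}, ∑ v ∈ Ico (c * k) ((c + 1) * k) ∩ u,
        (if v ∈ i.1 then (1 : ℝ) else 0) * w i =
        ((i.1 ∩ Ico (c * k) ((c + 1) * k)).card : ℝ) * w i := by
      intro i
      rw [← Finset.sum_mul, Finset.sum_ite_mem, Finset.sum_const, nsmul_eq_mul, mul_one]
      congr 3
      ext v
      simp only [Finset.mem_inter]
      constructor
      · rintro ⟨⟨h1, -⟩, h2⟩
        exact ⟨h2, h1⟩
      · rintro ⟨h1, h2⟩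
        exact ⟨⟨h2, subC _ i.2 h1⟩, h1⟩
    rw [Finset.sum_congr rfl (fun i _ => h2 i)]
    simp only [neg_mul, Finset.sum_neg_distrib] at h1
    linarith


/-! ### The sample line -/

/-- the cell `j` -/
def cu (l : ℕ) (u : Finset ℕ) (j : ℕ) : Finset ℕ := Ico (j * l) ((j + 1) * l) ∩ u

open Classical in
/-- the weight of a sample point -/
noncomputable def mw (l : ℕ) (u : Finset ℕ) (τ : ℝ) (Q : ℕ) (y : ℕ) : ℝ :=
  if τ ≤ ((cu l u (y / Q)).card : ℝ) then ((cu l u (y / Q)).card : ℝ) / Q else 0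

theorem mw_nonneg (l : ℕ) (u : Finset ℕ) (τ : ℝ) (Q : ℕ) (y : ℕ) : 0 ≤ mw l u τ Q y := by
  unfold mw
  split_ifs
  · positivity
  · exact le_rfl

theorem cell_dist {l P k a b v w : ℕ} (hPl : P * l ≤ k) (hab : a ≤ b + (P - 1)) (hP : 1 ≤ P)
    (hv : v ∈ Ico (a * l) ((a + 1) * l)) (hw : w ∈ Ico (b * l) ((b + 1) * l)) : v ≤ w + k := by
  rw [Finset.mem_Ico] at hv hw
  have h1 : a + 1 ≤ b + P := by omega
  have h2 : (a + 1) * l ≤ (b + P) * l := Nat.mul_le_mul_right l h1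
  have h3 : (b + P) * l = b * l + P * l := by ring
  omega

theorem div_near {Q P x y : ℕ} (hQ : 1 ≤ Q) (hP : 2 ≤ P) (h : x ≤ y + Q * (P - 2)) :
    x / Q ≤ y / Q + (P - 1) := by
  have h1 : x / Q ≤ (y + Q * (P - 2)) / Q := Nat.div_le_div_right h
  rw [Nat.add_mul_div_left _ _ (by omega)] at h1
  omega

/-- the windows of the sample line -/
theorem window_sum {M₀ P Q l k : ℕ} {τ : ℝ} (hM : 2 ≤ M₀) (hP : 4 ≤ P) (hQ : 1 ≤ Q)
    (hl : 1 ≤ l) (hPl : P * l ≤ k) (hτ : 0 < τ) {u : Finset ℕ} {z : ℕ} (hz1 : Q * (P - 2) ≤ z)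
    (hz2 : z < P * M₀ * Q) :
    ((Ico (min ((z - Q * (P - 2)) / Q * l) (M₀ * k - k - 1))
      (min ((z - Q * (P - 2)) / Q * l) (M₀ * k - k - 1) + k) ∩ u).card : ℝ)
      ≤ ∑ y ∈ Ico (z - Q * (P - 2)) z, mw l u τ Q y + ((k : ℝ) - (P - 3) * l + 1) + P * τ := by
  obtain ⟨p, rfl⟩ : ∃ p, P = p + 3 := ⟨P - 3, by omega⟩
  have e2 : p + 3 - 2 = p + 1 := by omega
  rw [e2] at hz1 ⊢
  set a₀ := (z - Q * (p + 1)) / Q with ha₀
  -- `z = (a₀ + p + 1) Q + i₀`
  set i₀ := (z - Q * (p + 1)) % Q with hi₀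
  have hi₀Q : i₀ < Q := Nat.mod_lt _ (by omega)
  have hz : z = (a₀ + (p + 1)) * Q + i₀ := by
    have := Nat.div_add_mod (z - Q * (p + 1)) Q
    rw [← ha₀, ← hi₀] at this
    have e : (a₀ + (p + 1)) * Q = Q * a₀ + Q * (p + 1) := by ring
    omega
  have hcell : a₀ + (p + 1) < (p + 3) * M₀ := by
    by_contra h
    rw [not_lt] at h
    have := Nat.mul_le_mul_right Q h
    omega
  -- the full cells
  have h1 : ∑ y ∈ Ico ((a₀ + 1) * Q) ((a₀ + (p + 1)) * Q), mw l u τ Q y ≤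
      ∑ y ∈ Ico (z - Q * (p + 1)) z, mw l u τ Q y := by
    refine Finset.sum_le_sum_of_subset_of_nonneg ?_ fun y _ _ => mw_nonneg _ _ _ _ _
    intro y hy
    rw [Finset.mem_Ico] at hy ⊢
    have e3 : (a₀ + 1) * Q = a₀ * Q + Q := by ring
    have e4 : (a₀ + (p + 1)) * Q = a₀ * Q + Q * (p + 1) := by ring
    omega
  have h2 : ∑ y ∈ Ico ((a₀ + 1) * Q) ((a₀ + (p + 1)) * Q), mw l u τ Q y =
      ∑ j ∈ Ico (a₀ + 1) (a₀ + (p + 1)), (if τ ≤ ((cu l u j).card : ℝ) then
        ((cu l u j).card : ℝ) else 0) := by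
    have h3 := blk_div (fun j => if τ ≤ ((cu l u j).card : ℝ) then
      ((cu l u j).card : ℝ) / Q else 0) hQ (a₀ + 1) (a₀ + (p + 1)) (by omega)
    have h4 : ∀ y, mw l u τ Q y = (fun j => if τ ≤ ((cu l u j).card : ℝ) then
      ((cu l u j).card : ℝ) / Q else 0) (y / Q) := fun y => rfl
    rw [Finset.sum_congr rfl (fun y _ => h4 y), h3, Finset.mul_sum]
    refine Finset.sum_congr rfl fun j _ => ?_
    have hQ' : (Q : ℝ) ≠ 0 := by
      have : 0 < Q := hQ
      positivity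
    split_ifs
    · exact mul_div_cancel₀ _ hQ'
    · exact mul_zero _
  have h3 : ∑ j ∈ Ico (a₀ + 1) (a₀ + (p + 1)), ((cu l u j).card : ℝ) - p * τ ≤
      ∑ j ∈ Ico (a₀ + 1) (a₀ + (p + 1)), (if τ ≤ ((cu l u j).card : ℝ) then
        ((cu l u j).card : ℝ) else 0) := by
    have h4 : ∑ j ∈ Ico (a₀ + 1) (a₀ + (p + 1)), (((cu l u j).card : ℝ) - τ) ≤
        ∑ j ∈ Ico (a₀ + 1) (a₀ + (p + 1)), (if τ ≤ ((cu l u j).card : ℝ) then
        ((cu l u j).card : ℝ) else 0) := by
      refine Finset.sum_le_sum fun j _ => ?_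
      split_ifs with h
      · linarith
      · linarith [not_le.1 h]
    rw [Finset.sum_sub_distrib, Finset.sum_const, Nat.card_Ico, nsmul_eq_mul] at h4
    have e5 : a₀ + (p + 1) - (a₀ + 1) = p := by omega
    rw [e5] at h4
    exact h4
  have h4 : ∑ j ∈ Ico (a₀ + 1) (a₀ + (p + 1)), ((cu l u j).card : ℝ) =
      ((Ico ((a₀ + 1) * l) ((a₀ + (p + 1)) * l) ∩ u).card : ℝ) :=
    (blk_card u l (a₀ + 1) (a₀ + (p + 1)) (by omega)).symm
  -- the window of `k` points
  set j := min (a₀ * l) (M₀ * k - k - 1) with hj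
  set A := (a₀ + 1) * l with hA
  set B := (a₀ + (p + 1)) * l with hB
  have hAB : A + p * l = B := by rw [hA, hB]; ring
  have hk1 : 1 ≤ k := by
    have : 1 * 1 ≤ (p + 3) * l := Nat.mul_le_mul (by omega) hl
    omega
  have hMk : 2 * k ≤ M₀ * k := Nat.mul_le_mul_right k hM
  have hjA : j ≤ A := by
    have e3 : A = a₀ * l + l := by rw [hA]; ring
    have := min_le_left (a₀ * l) (M₀ * k - k - 1)
    omega
  have hBj : B ≤ j + k + 1 := by
    have hPl' : (p + 3) * l = p * l + 3 * l := by ring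
    have e3 : A = a₀ * l + l := by rw [hA]; ring
    rcases le_total (a₀ * l) (M₀ * k - k - 1) with h | h
    · have : j = a₀ * l := by rw [hj]; exact min_eq_left h
      omega
    · have e6 : j = M₀ * k - k - 1 := by rw [hj]; exact min_eq_right h
      have h5 : (a₀ + (p + 1)) * l ≤ (p + 3) * M₀ * l := Nat.mul_le_mul_right l hcell.le
      have h6 : (p + 3) * M₀ * l = M₀ * ((p + 3) * l) := by ring
      have h7 : M₀ * ((p + 3) * l) ≤ M₀ * k := Nat.mul_le_mul_left M₀ hPl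
      omega
  have h5 : ((Ico j (j + k) ∩ u).card : ℝ) ≤ ((Ico A B ∩ u).card : ℝ) + ((k : ℝ) - p * l + 1) := by
    have hsub : Ico j (j + k) ∩ u ⊆ (Ico A B ∩ u) ∪ (Ico j A ∪ Ico B (j + k)) := by
      intro v hv
      rw [Finset.mem_inter, Finset.mem_Ico] at hv
      rw [Finset.mem_union, Finset.mem_union, Finset.mem_inter, Finset.mem_Ico, Finset.mem_Ico,
        Finset.mem_Ico]
      by_cases c1 : v < A
      · right; left; exact ⟨hv.1.1, c1⟩
      · by_cases c2 : v < B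
        · left; exact ⟨⟨not_lt.1 c1, c2⟩, hv.2⟩
        · right; right; exact ⟨not_lt.1 c2, hv.1.2⟩
    have hc := (Finset.card_le_card hsub).trans ((Finset.card_union_le _ _).trans
      (Nat.add_le_add_left (Finset.card_union_le _ _) _))
    rw [Nat.card_Ico, Nat.card_Ico] at hc
    have hc2 : (Ico j (j + k) ∩ u).card + p * l ≤ (Ico A B ∩ u).card + (k + 1) := by omega
    have hc3 : ((Ico j (j + k) ∩ u).card : ℝ) + p * l ≤ ((Ico A B ∩ u).card : ℝ) + (k + 1) := by
      exact_mod_cast hc2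
    linarith
  have h6 : (p : ℝ) * τ ≤ ((p + 3 : ℕ) : ℝ) * τ := by
    have : (p : ℝ) ≤ ((p + 3 : ℕ) : ℝ) := by
      push_cast
      linarith
    exact mul_le_mul_of_nonneg_right this hτ.le
  have h7 : ((k : ℝ) - p * l + 1) = ((k : ℝ) - (((p + 3 : ℕ) : ℝ) - 3) * l + 1) := by
    push_cast; ring
  rw [← h7]
  linarith


/-! ### The deterministic step -/

theorem mem_LQ' {q : ℕ → ℕ → Prop} {k N x y : ℕ} :
    y ∈ LQ q k N x ↔ y < N ∧ y ≤ x + k ∧ x ≤ y + k ∧ q x y := by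
  simp only [LQ, Finset.mem_filter, Finset.mem_range]

open Classical in
theorem det_step {t M₀ P Q l k : ℕ} {ε θ τ D₁ : ℝ} (ht : 2 ≤ t) (hM : 2 ≤ M₀) (hP : 4 ≤ P)
    (hQ : 1 ≤ Q) (hl : 1 ≤ l) (hPl : P * l ≤ k) (hτ : 0 < τ) (hε : 0 < ε)
    (hnum : t * D₁ + ((k : ℝ) - (P - 3) * l + 1) + P * τ ≤ ε * θ * k)
    {q : ℕ → ℕ → Prop} (hq1 : ∀ x, q x x) (hq2 : ∀ x y, q x y → q y x) {u : Finset ℕ}
    (hu : u ⊆ range (M₀ * k))
    (hcond : ∀ j, j + k < M₀ * k → θ * k ≤ ((Ico j (j + k) ∩ u).card : ℝ) ∧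
      ∀ x, j ≤ x → x ≤ j + 2 * k → x < M₀ * k →
        (t : ℝ) * ((LQ q k (M₀ * k) x ∩ u).card : ℝ) ≤ (1 - ε) * ((Ico j (j + k) ∩ u).card : ℝ))
    {x : ℕ → ℝ} (hx : ∀ v, v < k → 0 ≤ x v) (ω : ℕ → ℕ)
    (hω : ∀ y, y < P * M₀ * Q → τ ≤ ((cu l u (y / Q)).card : ℝ) → ω y ∈ cu l u (y / Q))
    (h1 : ∀ z, z < P * M₀ * Q → τ ≤ ((cu l u (z / Q)).card : ℝ) →
      ∑ y ∈ (range (P * M₀ * Q)).filter (fun y => y ≤ z + Q * (P - 2) ∧ z ≤ y + Q * (P - 2) ∧
        τ ≤ ((cu l u (y / Q)).card : ℝ) ∧ q (ω z) (ω y)), mw l u τ Q y ≤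
        ((LQ q k (M₀ * k) (ω z) ∩ u).card : ℝ) + D₁)
    (h2 : ∑ y ∈ range (P * M₀ * Q), mw l u τ Q y * x (ω y) < 0) :
    ∃ I : Fin (t + 1) → ℕ, (∀ i, I i < P * M₀ * Q) ∧
      (∀ i, τ ≤ ((cu l u (I i / Q)).card : ℝ)) ∧ (∀ i j, i ≠ j → I i ≠ I j) ∧
      (∀ i j, i ≠ j → ω (I i) ≤ ω (I j) + k ∧ ¬ q (ω (I i)) (ω (I j))) ∧
      ∑ i, x (ω (I i)) < 0 := by
  have hmw : ∀ y, ¬ τ ≤ ((cu l u (y / Q)).card : ℝ) → mw l u τ Q y = 0 := by
    intro y hy
    unfold mw
    rw [if_neg hy]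
  have hcu : ∀ y, y < P * M₀ * Q → τ ≤ ((cu l u (y / Q)).card : ℝ) →
      ω y ∈ Ico (y / Q * l) ((y / Q + 1) * l) ∧ ω y < M₀ * k := by
    intro y hy hy'
    have h := hω y hy hy'
    unfold cu at h
    rw [Finset.mem_inter] at h
    exact ⟨h.1, Finset.mem_range.1 (hu h.2)⟩
  have hk1 : 1 ≤ k := by
    have : 1 * 1 ≤ P * l := Nat.mul_le_mul (by omega) hl
    omega
  have hMk : 2 * k ≤ M₀ * k := Nat.mul_le_mul_right k hM
  have hQP : 1 ≤ Q * (P - 2) := by
    have : 1 * 1 ≤ Q * (P - 2) := Nat.mul_le_mul hQ (by omega)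
    omega
  obtain ⟨w, hw0, hwK, hwle, hweq⟩ := tfrac (t + 1) (by omega) (Q * (P - 2)) (P * M₀ * Q)
    (fun a b => a = b ∨ (τ ≤ ((cu l u (a / Q)).card : ℝ) ∧ τ ≤ ((cu l u (b / Q)).card : ℝ) ∧
      q (ω a) (ω b))) (mw l u τ Q) (by omega) hQP (fun a => Or.inl rfl)
    (fun a b h => by
      rcases h with h | h
      · exact Or.inl h.symm
      · exact Or.inr ⟨h.2.1, h.1, hq2 _ _ h.2.2⟩)
    (fun y => mw_nonneg _ _ _ _ _)
    (fun z a hz1 hz2 ha hza haz => by
      have hnn : 0 ≤ ∑ y ∈ Ico (z - Q * (P - 2)) z, mw l u τ Q y :=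
        Finset.sum_nonneg fun y _ => mw_nonneg _ _ _ _ _
      push_cast
      rw [add_sub_cancel_right]
      by_cases hheavy : τ ≤ ((cu l u (a / Q)).card : ℝ)
      · -- heavy
        have hLQ : LQ (fun a b => a = b ∨ (τ ≤ ((cu l u (a / Q)).card : ℝ) ∧
            τ ≤ ((cu l u (b / Q)).card : ℝ) ∧ q (ω a) (ω b))) (Q * (P - 2)) (P * M₀ * Q) a =
            (range (P * M₀ * Q)).filter (fun y => y ≤ a + Q * (P - 2) ∧ a ≤ y + Q * (P - 2) ∧
              τ ≤ ((cu l u (y / Q)).card : ℝ) ∧ q (ω a) (ω y)) := by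
          ext y
          rw [mem_LQ', Finset.mem_filter, Finset.mem_range]
          constructor
          · rintro ⟨h3, h4, h5, h6⟩
            refine ⟨h3, h4, h5, ?_⟩
            rcases h6 with rfl | h6
            · exact ⟨hheavy, hq1 _⟩
            · exact h6.2
          · rintro ⟨h3, h4, h5, h6, h7⟩
            exact ⟨h3, h4, h5, Or.inr ⟨hheavy, h6, h7⟩⟩
        rw [hLQ]
        have h3 := h1 a ha hheavy
        obtain ⟨h4, h5⟩ := hcu a ha hheavy
        rw [Finset.mem_Ico] at h4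
        set a₀ := (z - Q * (P - 2)) / Q with ha₀
        have hwin := window_sum hM hP hQ hl hPl hτ (u := u) hz1 hz2
        rw [← ha₀] at hwin
        have ha1 : a₀ ≤ a / Q := Nat.div_le_div_right (by omega)
        have ha2 : a / Q ≤ a₀ + 2 * (P - 2) := by
          have h6 : a / Q ≤ ((z - Q * (P - 2)) + Q * (2 * (P - 2))) / Q := by
            apply Nat.div_le_div_right
            have : Q * (2 * (P - 2)) = 2 * (Q * (P - 2)) := by ring
            omega
          rw [Nat.add_mul_div_left _ _ (by omega)] at h6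
          exact h6
        have hj1 : min (a₀ * l) (M₀ * k - k - 1) ≤ ω a :=
          (min_le_left _ _).trans ((Nat.mul_le_mul_right l ha1).trans h4.1)
        have hj2 : ω a ≤ min (a₀ * l) (M₀ * k - k - 1) + 2 * k := by
          rcases le_total (a₀ * l) (M₀ * k - k - 1) with h | h
          · rw [min_eq_left h]
            have h6 : (a / Q + 1) * l ≤ (a₀ + 2 * (P - 2) + 1) * l :=
              Nat.mul_le_mul_right l (by omega)
            have h7 : (a₀ + 2 * (P - 2) + 1) * l ≤ (a₀ + 2 * P) * l :=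
              Nat.mul_le_mul_right l (by omega)
            have h8 : (a₀ + 2 * P) * l = a₀ * l + 2 * (P * l) := by ring
            omega
          · rw [min_eq_right h]
            omega
        obtain ⟨h6, h7⟩ := hcond (min (a₀ * l) (M₀ * k - k - 1)) (by
          have := min_le_right (a₀ * l) (M₀ * k - k - 1)
          omega)
        have h8 := h7 (ω a) hj1 hj2 h5
        have ht0 : (0 : ℝ) ≤ t := Nat.cast_nonneg t
        have h9 := mul_le_mul_of_nonneg_left h3 ht0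
        have h10 := mul_le_mul_of_nonneg_left h6 hε.le
        nlinarith
      · -- light
        have hLQ : ∑ y ∈ LQ (fun a b => a = b ∨ (τ ≤ ((cu l u (a / Q)).card : ℝ) ∧
            τ ≤ ((cu l u (b / Q)).card : ℝ) ∧ q (ω a) (ω b))) (Q * (P - 2)) (P * M₀ * Q) a,
            mw l u τ Q y = 0 := by
          refine Finset.sum_eq_zero fun y hy => ?_
          rw [mem_LQ'] at hy
          rcases hy.2.2.2 with h | h
          · rw [← h]
            exact hmw a hheavy
          · exact absurd h.1 hheavy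
        rw [hLQ, mul_zero]
        exact hnn)
  -- the sum over the cliques
  have hN : ∀ K ∈ (range (P * M₀ * Q)).powerset, ∑ v ∈ range (P * M₀ * Q),
      (if v ∈ K then w K else 0) * x (ω v) = w K * ∑ v ∈ K, x (ω v) := by
    intro K hK
    rw [Finset.mem_powerset] at hK
    rw [Finset.mul_sum]
    simp only [ite_mul, zero_mul]
    rw [Finset.sum_ite_mem, Finset.inter_eq_right.2 hK]
  have hsum : ∑ K ∈ (range (P * M₀ * Q)).powerset, w K * ∑ v ∈ K, x (ω v) ≤
      ∑ y ∈ range (P * M₀ * Q), mw l u τ Q y * x (ω y) := by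
    rw [← Finset.sum_congr rfl hN, Finset.sum_comm]
    refine Finset.sum_le_sum fun v hv => ?_
    rw [← Finset.sum_mul]
    have hvN := Finset.mem_range.1 hv
    by_cases hvk : Q * (P - 2) ≤ v
    · rw [hweq v hvk hvN]
    · have h3 := hwle v hvN
      have h4 : 0 ≤ ∑ K ∈ (range (P * M₀ * Q)).powerset, (if v ∈ K then w K else 0) := by
        refine Finset.sum_nonneg fun K _ => ?_
        split_ifs
        · exact hw0 K
        · exact le_rfl
      by_cases hheavy : τ ≤ ((cu l u (v / Q)).card : ℝ)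
      · refine mul_le_mul_of_nonneg_right h3 (hx _ ?_)
        obtain ⟨h5, h6⟩ := hcu v hvN hheavy
        rw [Finset.mem_Ico] at h5
        have h7 : v / Q < P - 2 := Nat.div_lt_of_lt_mul (by omega)
        have h8 : (v / Q + 1) * l ≤ P * l := Nat.mul_le_mul_right l (by omega)
        omega
      · rw [hmw v hheavy] at h3 ⊢
        rw [le_antisymm h3 h4]
  obtain ⟨K, hK, hKneg⟩ := Finset.exists_lt_of_sum_lt (s := (range (P * M₀ * Q)).powerset)
    (f := fun K => w K * ∑ v ∈ K, x (ω v)) (g := fun _ => (0 : ℝ)) (by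
      rw [Finset.sum_const_zero]
      exact lt_of_le_of_lt hsum h2)
  have hwK0 : w K ≠ 0 := by
    intro h
    simp [h] at hKneg
  have hwKpos : 0 < w K := lt_of_le_of_ne (hw0 K) (Ne.symm hwK0)
  obtain ⟨hKr, hKc, hKp⟩ := hwK K hwK0
  have hKheavy : ∀ v ∈ K, τ ≤ ((cu l u (v / Q)).card : ℝ) := by
    intro v hv
    by_contra hheavy
    have h3 := hwle v (Finset.mem_range.1 (hKr hv))
    rw [hmw v hheavy] at h3
    have h4 : (if v ∈ K then w K else 0) ≤
        ∑ K ∈ (range (P * M₀ * Q)).powerset, (if v ∈ K then w K else 0) :=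
      Finset.single_le_sum (f := fun K => if v ∈ K then w K else 0) (fun K _ => by
        split_ifs
        · exact hw0 K
        · exact le_rfl) hK
    rw [if_pos hv] at h4
    linarith
  have hKsum : ∑ v ∈ K, x (ω v) < 0 := by
    by_contra h
    rw [not_lt] at h
    exact absurd hKneg (not_lt.2 (mul_nonneg hwKpos.le h))
  have hpair : ∀ a ∈ K, ∀ b ∈ K, a < b → (ω a ≤ ω b + k ∧ ω b ≤ ω a + k) ∧ ¬ q (ω a) (ω b) := by
    intro a ha b hb hab
    obtain ⟨h3, h4⟩ := hKp a ha b hb hab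
    obtain ⟨h5, -⟩ := hcu a (Finset.mem_range.1 (hKr ha)) (hKheavy a ha)
    obtain ⟨h6, -⟩ := hcu b (Finset.mem_range.1 (hKr hb)) (hKheavy b hb)
    refine ⟨⟨cell_dist hPl (div_near hQ (by omega) (by omega)) (by omega) h5 h6,
      cell_dist hPl (div_near hQ (by omega) (by omega)) (by omega) h6 h5⟩, fun h => ?_⟩
    exact h4 (Or.inr ⟨hKheavy a ha, hKheavy b hb, h⟩)
  refine ⟨fun i => K.orderEmbOfFin hKc i, fun i => ?_, fun i => ?_, fun i j hij => ?_,
    fun i j hij => ?_, ?_⟩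
  · exact Finset.mem_range.1 (hKr (Finset.orderEmbOfFin_mem K hKc i))
  · exact hKheavy _ (Finset.orderEmbOfFin_mem K hKc i)
  · exact fun h => hij ((K.orderEmbOfFin hKc).injective h)
  · have hne : K.orderEmbOfFin hKc i ≠ K.orderEmbOfFin hKc j :=
      fun h => hij ((K.orderEmbOfFin hKc).injective h)
    rcases lt_or_gt_of_ne hne with h | h
    · have h3 := hpair _ (Finset.orderEmbOfFin_mem K hKc i) _ (Finset.orderEmbOfFin_mem K hKc j) h
      exact ⟨h3.1.1, h3.2⟩
    · have h3 := hpair _ (Finset.orderEmbOfFin_mem K hKc j) _ (Finset.orderEmbOfFin_mem K hKc i) h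
      exact ⟨h3.1.2, fun h4 => h3.2 (hq2 _ _ h4)⟩
  · have h3 : ∑ i, x (ω (K.orderEmbOfFin hKc i)) = ∑ v ∈ K, x (ω v) := by
      have h4 : K = univ.image (K.orderEmbOfFin hKc) := by
        rw [Finset.image_orderEmbOfFin_univ]
      conv_rhs => rw [h4]
      rw [Finset.sum_image]
      intro a _ b _ h
      exact (K.orderEmbOfFin hKc).injective h
    rw [h3]
    exact hKsum


/-! ### Blow-ups give tiles -/

theorem coll_card {κ : Type} [Fintype κ] [DecidableEq κ] (S : κ → Finset ℕ) {p p' : κ}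
    (hp : p ≠ p') :
    ((Fintype.piFinset S).filter (fun Ω => Ω p = Ω p')).card * (S p').card ≤
      ∏ r, (S r).card := by
  rw [← Fintype.card_piFinset, ← Finset.card_product]
  refine Finset.card_le_card_of_injOn (fun z => Function.update z.1 p' z.2) ?_ ?_
  · intro z hz
    rw [Finset.mem_coe, Finset.mem_product, Finset.mem_filter, Fintype.mem_piFinset] at hz
    rw [Finset.mem_coe, Fintype.mem_piFinset]
    intro r
    by_cases hr : r = p'
    · subst hr
      simpa using hz.2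
    · simpa [Function.update_of_ne hr] using hz.1.1 r
  · intro z hz z' hz' h
    rw [Finset.mem_coe, Finset.mem_product, Finset.mem_filter] at hz hz'
    have hval : ∀ r, Function.update z.1 p' z.2 r = Function.update z'.1 p' z'.2 r :=
      fun r => congrFun h r
    have h2 : z.2 = z'.2 := by
      have := hval p'
      simpa using this
    have h1 : ∀ r, r ≠ p' → z.1 r = z'.1 r := by
      intro r hr
      have := hval r
      rwa [Function.update_of_ne hr, Function.update_of_ne hr] at this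
    have h3 : z.1 = z'.1 := by
      funext r
      by_cases hr : r = p'
      · subst hr
        rw [← hz.1.2, ← hz'.1.2]
        exact h1 p hp
      · exact h1 r hr
    exact Prod.ext h3 h2

open Classical in
theorem blow_tile (hB : S_BLOW) {N t s k : ℕ} {q : ℕ → ℕ → Prop} {u : Finset ℕ} {x : ℕ → ℝ}
    (S : Fin N → Finset ℕ) {c τ : ℝ} (hs : 1 ≤ s) (hc : 0 < c) (hτ : 0 < τ)
    (I : Fin (t + 1) → Fin N) (hI : ∀ i j, i ≠ j → I i ≠ I j)
    (hS : ∀ i, τ ≤ ((S (I i)).card : ℝ) ∧ S (I i) ⊆ u) (hne : ∀ y, (S y).Nonempty)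
    (G : Finset (Fin N → ℕ)) (hGS : G ⊆ Fintype.piFinset S)
    (hG : ∀ ω ∈ G, (∀ i j, i ≠ j → ω (I i) ≤ ω (I j) + k ∧ ¬ q (ω (I i)) (ω (I j))) ∧
      ∑ i, x (ω (I i)) < 0)
    (hcard : c * ∏ i, ((S i).card : ℝ) ≤ (G.card : ℝ))
    (hbig : ((N : ℝ) * s) ^ 2 < c ^ (s ^ N) * τ) :
    ∃ K, LTile q k t s u K ∧ ∑ v ∈ K, x v < 0 := by
  have hprod : (0 : ℝ) < ∏ i, ((S i).card : ℝ) ^ s :=
    Finset.prod_pos fun i _ => pow_pos (by exact_mod_cast (hne i).card_pos) _
  have hprod2 : ∏ p : Fin N × Fin s, ((S p.1).card : ℝ) = ∏ i, ((S i).card : ℝ) ^ s := by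
    rw [Fintype.prod_prod_type]
    refine Finset.prod_congr rfl fun i _ => ?_
    simp
  have h1 := hB (Fin N) ℕ S G c s hGS hc.le hs hcard
  rw [Fintype.card_fin] at h1
  set Z : Finset (Fin N × Fin s → ℕ) :=
    (Fintype.piFinset (fun p : Fin N × Fin s => S p.1)).filter
      (fun Ω => ∀ φ : Fin N → Fin s, (fun i => Ω (i, φ i)) ∈ G) with hZ
  -- the collisions
  set J : Finset ((Fin N × Fin s) × (Fin N × Fin s)) :=
    univ.filter (fun z => z.1 ≠ z.2 ∧ τ ≤ ((S z.2.1).card : ℝ)) with hJ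
  have hJcard : (J.card : ℝ) ≤ ((N : ℝ) * s) ^ 2 := by
    have h2 : J.card ≤ (univ : Finset ((Fin N × Fin s) × (Fin N × Fin s))).card :=
      Finset.card_le_card (Finset.filter_subset _ _)
    rw [Finset.card_univ, Fintype.card_prod, Fintype.card_prod, Fintype.card_fin,
      Fintype.card_fin] at h2
    have h3 : (J.card : ℝ) ≤ ((N * s * (N * s) : ℕ) : ℝ) := by exact_mod_cast h2
    refine h3.trans (le_of_eq ?_)
    push_cast
    ring
  have hcoll : ∀ z ∈ J, (((Fintype.piFinset (fun p : Fin N × Fin s => S p.1)).filter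
      (fun Ω => Ω z.1 = Ω z.2)).card : ℝ) ≤ (∏ i, ((S i).card : ℝ) ^ s) / τ := by
    intro z hz
    rw [hJ, Finset.mem_filter] at hz
    have h2 := coll_card (fun p : Fin N × Fin s => S p.1) hz.2.1
    have h3 : (((Fintype.piFinset (fun p : Fin N × Fin s => S p.1)).filter
      (fun Ω => Ω z.1 = Ω z.2)).card : ℝ) * ((S z.2.1).card : ℝ) ≤
        ∏ p : Fin N × Fin s, ((S p.1).card : ℝ) := by
      exact_mod_cast h2
    rw [hprod2] at h3
    rw [le_div_iff₀ hτ]
    exact (mul_le_mul_of_nonneg_left hz.2.2 (Nat.cast_nonneg _)).trans h3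
  have hex : ∃ Ω ∈ Z, ∀ z ∈ J, Ω z.1 ≠ Ω z.2 := by
    by_contra hcon
    push Not at hcon
    have hsub : Z ⊆ J.biUnion (fun z => (Fintype.piFinset (fun p : Fin N × Fin s => S p.1)).filter
        (fun Ω => Ω z.1 = Ω z.2)) := by
      intro Ω hΩ
      obtain ⟨z, hz, hz'⟩ := hcon Ω hΩ
      rw [Finset.mem_biUnion]
      refine ⟨z, hz, ?_⟩
      rw [Finset.mem_filter]
      rw [hZ, Finset.mem_filter] at hΩ
      exact ⟨hΩ.1, hz'⟩
    have h2 : (Z.card : ℝ) ≤ ∑ z ∈ J, (((Fintype.piFinset (fun p : Fin N × Fin s => S p.1)).filter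
        (fun Ω => Ω z.1 = Ω z.2)).card : ℝ) := by
      exact_mod_cast (Finset.card_le_card hsub).trans Finset.card_biUnion_le
    have h3 := h2.trans (Finset.sum_le_sum hcoll)
    rw [Finset.sum_const, nsmul_eq_mul] at h3
    have h4 : c ^ (s ^ N) * ∏ i, ((S i).card : ℝ) ^ s ≤
        ((N : ℝ) * s) ^ 2 * ((∏ i, ((S i).card : ℝ) ^ s) / τ) :=
      (h1.trans h3).trans (mul_le_mul_of_nonneg_right hJcard (div_nonneg hprod.le hτ.le))
    have h5 : ((N : ℝ) * s) ^ 2 * ((∏ i, ((S i).card : ℝ) ^ s) / τ) =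
        (((N : ℝ) * s) ^ 2 / τ) * ∏ i, ((S i).card : ℝ) ^ s := by ring
    rw [h5] at h4
    have h6 := le_of_mul_le_mul_right h4 hprod
    rw [le_div_iff₀ hτ] at h6
    linarith
  obtain ⟨Ω, hΩZ, hΩ⟩ := hex
  rw [hZ, Finset.mem_filter, Fintype.mem_piFinset] at hΩZ
  obtain ⟨hΩS, hΩG⟩ := hΩZ
  have hinj : Function.Injective (fun p : Fin (t + 1) × Fin s => Ω (I p.1, p.2)) := by
    intro p p' hpp
    by_contra hne'
    have h2 : (I p.1, p.2) ≠ (I p'.1, p'.2) := by
      intro h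
      rw [Prod.mk.injEq] at h
      by_cases h3 : p.1 = p'.1
      · exact hne' (Prod.ext h3 h.2)
      · exact hI _ _ h3 h.1
    refine hΩ ((I p.1, p.2), (I p'.1, p'.2)) ?_ hpp
    rw [hJ, Finset.mem_filter]
    exact ⟨Finset.mem_univ _, h2, (hS _).1⟩
  refine ⟨univ.image (fun p : Fin (t + 1) × Fin s => Ω (I p.1, p.2)),
    ⟨fun p => Ω (I p.1, p.2), hinj, rfl, ?_, ?_⟩, ?_⟩
  · intro v hv
    rw [Finset.mem_image] at hv
    obtain ⟨p, -, rfl⟩ := hv
    exact (hS p.1).2 (hΩS (I p.1, p.2))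
  · intro p p' hpp
    have h2 := (hG _ (hΩG (fun y => if y = I p.1 then p.2 else p'.2))).1 p.1 p'.1 hpp
    simp only [if_true, if_neg (hI _ _ (Ne.symm hpp))] at h2
    exact h2
  · rw [Finset.sum_image (fun a _ b _ h => hinj h), Fintype.sum_prod_type, Finset.sum_comm]
    refine Finset.sum_neg (fun a _ => ?_) ?_
    · exact (hG _ (hΩG (fun _ => a))).2
    · exact ⟨⟨0, hs⟩, Finset.mem_univ _⟩


/-! ### Concentration -/

open Classical in
theorem hoef_cond (hH : S_HOEF) {N : ℕ} (S : Fin N → Finset ℕ) (hne : ∀ y, (S y).Nonempty)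
    (z : Fin N) (F : ℕ → Fin N → ℕ → ℝ) {b dev : ℝ} (hb : 0 < b) (hdev : 0 < dev)
    (hF : ∀ v y a, |F v y a| ≤ b) (thr : ℕ → ℝ)
    (hav : ∀ v ∈ S z, ∑ y, (∑ a ∈ Function.update S z {v} y, F v y a) /
      ((Function.update S z {v} y).card : ℝ) + dev ≤ thr v) :
    (((Fintype.piFinset S).filter (fun ω => thr (ω z) ≤ ∑ y, F (ω z) y (ω y))).card : ℝ) ≤
      Real.exp (-(dev ^ 2) / (16 * b ^ 2 * (N : ℝ))) * ∏ i, ((S i).card : ℝ) := by
  have hmaps : Set.MapsTo (fun ω : Fin N → ℕ => ω z)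
      ((Fintype.piFinset S).filter (fun ω => thr (ω z) ≤ ∑ y, F (ω z) y (ω y)) : Set (Fin N → ℕ))
      (S z : Set ℕ) := by
    intro ω hω
    rw [Finset.mem_coe, Finset.mem_filter, Fintype.mem_piFinset] at hω
    exact hω.1 z
  rw [Finset.card_eq_sum_card_fiberwise hmaps]
  have hone : ∀ v ∈ S z, ((((Fintype.piFinset S).filter
      (fun ω => thr (ω z) ≤ ∑ y, F (ω z) y (ω y))).filter (fun ω => ω z = v)).card : ℝ) ≤
      Real.exp (-(dev ^ 2) / (16 * b ^ 2 * (N : ℝ))) *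
        ∏ i ∈ univ \ {z}, ((S i).card : ℝ) := by
    intro v hv
    have h1 := hH (Fin N) ℕ (Function.update S z {v}) (F v) b dev (by
      intro i
      by_cases hi : i = z
      · subst hi
        simp
      · rw [Function.update_of_ne hi]
        exact hne i) hb hdev (hF v)
    rw [Fintype.card_fin] at h1
    have h2 : ∏ i, ((Function.update S z {v} i).card : ℝ) =
        ∏ i ∈ univ \ {z}, ((S i).card : ℝ) := by
      have h3 : (fun i => ((Function.update S z {v} i).card : ℝ)) =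
          Function.update (fun i => ((S i).card : ℝ)) z 1 := by
        funext i
        by_cases hi : i = z
        · subst hi
          simp
        · rw [Function.update_of_ne hi, Function.update_of_ne hi]
      rw [h3, Finset.prod_update_of_mem (Finset.mem_univ z), one_mul]
    rw [h2] at h1
    refine le_trans ?_ h1
    have h3 : (((Fintype.piFinset S).filter
      (fun ω => thr (ω z) ≤ ∑ y, F (ω z) y (ω y))).filter (fun ω => ω z = v)) ⊆
        (Fintype.piFinset (Function.update S z {v})).filter (fun ω =>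
          ∑ i, (∑ a ∈ Function.update S z {v} i, F v i a) /
            ((Function.update S z {v} i).card : ℝ) + dev ≤ ∑ i, F v i (ω i)) := by
      intro ω hω
      rw [Finset.mem_filter, Finset.mem_filter, Fintype.mem_piFinset] at hω
      obtain ⟨⟨h4, h5⟩, rfl⟩ := hω
      rw [Finset.mem_filter, Fintype.mem_piFinset]
      refine ⟨?_, (hav _ hv).trans h5⟩
      intro i
      by_cases hi : i = z
      · subst hi
        simp
      · rw [Function.update_of_ne hi]
        exact h4 i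
    exact_mod_cast Finset.card_le_card h3
  push_cast
  refine (Finset.sum_le_sum hone).trans (le_of_eq ?_)
  rw [Finset.sum_const, nsmul_eq_mul]
  have h3 : ∏ i, ((S i).card : ℝ) = ((S z).card : ℝ) * ∏ i ∈ univ \ {z}, ((S i).card : ℝ) := by
    rw [← Finset.prod_update_of_mem (Finset.mem_univ z), Function.update_eq_self]
  rw [h3]
  ring


/-! ### The random sample -/

open Classical in
/-- the possible values of the sample point `y` -/
noncomputable def sc (l : ℕ) (u : Finset ℕ) (τ : ℝ) (Q : ℕ) (y : ℕ) : Finset ℕ :=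
  if τ ≤ ((cu l u (y / Q)).card : ℝ) then cu l u (y / Q) else {0}

theorem sc_heavy {l : ℕ} {u : Finset ℕ} {τ : ℝ} {Q y : ℕ}
    (h : τ ≤ ((cu l u (y / Q)).card : ℝ)) : sc l u τ Q y = cu l u (y / Q) := by
  unfold sc
  rw [if_pos h]

theorem sc_light {l : ℕ} {u : Finset ℕ} {τ : ℝ} {Q y : ℕ}
    (h : ¬ τ ≤ ((cu l u (y / Q)).card : ℝ)) : sc l u τ Q y = {0} := by
  unfold sc
  rw [if_neg h]

theorem sc_nonempty {l : ℕ} {u : Finset ℕ} {τ : ℝ} (hτ : 0 < τ) {Q : ℕ} (y : ℕ) :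
    (sc l u τ Q y).Nonempty := by
  by_cases h : τ ≤ ((cu l u (y / Q)).card : ℝ)
  · rw [sc_heavy h, ← Finset.card_pos]
    have : (0 : ℝ) < ((cu l u (y / Q)).card : ℝ) := lt_of_lt_of_le hτ h
    exact_mod_cast this
  · rw [sc_light h]
    exact Finset.singleton_nonempty 0

theorem mw_heavy {l : ℕ} {u : Finset ℕ} {τ : ℝ} {Q y : ℕ}
    (h : τ ≤ ((cu l u (y / Q)).card : ℝ)) :
    mw l u τ Q y = ((cu l u (y / Q)).card : ℝ) / Q := by
  unfold mw
  rw [if_pos h]

theorem mw_light {l : ℕ} {u : Finset ℕ} {τ : ℝ} {Q y : ℕ}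
    (h : ¬ τ ≤ ((cu l u (y / Q)).card : ℝ)) : mw l u τ Q y = 0 := by
  unfold mw
  rw [if_neg h]

theorem cu_card_le (l : ℕ) (u : Finset ℕ) (j : ℕ) : (cu l u j).card ≤ l := by
  refine (Finset.card_le_card Finset.inter_subset_left).trans ?_
  rw [Nat.card_Ico]
  have : (j + 1) * l = j * l + l := by ring
  omega

theorem mw_le (l : ℕ) (u : Finset ℕ) (τ : ℝ) (Q y : ℕ) : mw l u τ Q y ≤ (l : ℝ) / Q := by
  by_cases h : τ ≤ ((cu l u (y / Q)).card : ℝ)
  · rw [mw_heavy h]
    have : ((cu l u (y / Q)).card : ℝ) ≤ l := by exact_mod_cast cu_card_le l u _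
    gcongr
  · rw [mw_light h]
    positivity

/-- sums over the sample line -/
theorem fin_cells (h : ℕ → ℝ) {Q : ℕ} (hQ : 1 ≤ Q) (m : ℕ) :
    ∑ y : Fin (m * Q), h ((y : ℕ) / Q) / Q = ∑ j ∈ range m, h j := by
  rw [Fin.sum_univ_eq_sum_range (fun y => h (y / Q) / (Q : ℝ)) (m * Q), ← Finset.sum_div]
  have h1 := blk_div h hQ 0 m (Nat.zero_le _)
  rw [zero_mul, ← Finset.range_eq_Ico, ← Finset.range_eq_Ico] at h1
  rw [h1]
  have hQ' : (Q : ℝ) ≠ 0 := by
    have : 0 < Q := hQ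
    positivity
  exact mul_div_cancel_left₀ _ hQ'

theorem cells_le (l : ℕ) (u A : Finset ℕ) (m : ℕ) :
    ∑ j ∈ range m, ((cu l u j ∩ A).card : ℝ) ≤ ((A ∩ u).card : ℝ) := by
  have h1 := blk_card (A ∩ u) l 0 m (Nat.zero_le _)
  rw [zero_mul, ← Finset.range_eq_Ico, ← Finset.range_eq_Ico] at h1
  have h2 : ∑ j ∈ range m, ((cu l u j ∩ A).card : ℝ) =
      ∑ j ∈ range m, ((Ico (j * l) ((j + 1) * l) ∩ (A ∩ u)).card : ℝ) := by
    refine Finset.sum_congr rfl fun j _ => ?_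
    unfold cu
    rw [Finset.inter_assoc, Finset.inter_comm u A]
  rw [h2, ← h1]
  exact_mod_cast Finset.card_le_card Finset.inter_subset_right

open Classical in
theorem prob_LQ (hH : S_HOEF) {M₀ P Q l k : ℕ} {τ dev : ℝ} (hP : 4 ≤ P)
    (hQ : 1 ≤ Q) (hl : 1 ≤ l) (hPl : P * l ≤ k) (hτ : 0 < τ) (hdev : 0 < dev)
    {q : ℕ → ℕ → Prop} {u : Finset ℕ} (hu : u ⊆ range (M₀ * k))
    (z : Fin (P * M₀ * Q)) (hz : τ ≤ ((cu l u ((z : ℕ) / Q)).card : ℝ)) :
    (((Fintype.piFinset (fun y : Fin (P * M₀ * Q) => sc l u τ Q y)).filter (fun ω =>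
      ((LQ q k (M₀ * k) (ω z) ∩ u).card : ℝ) + (dev + l / Q) ≤
      ∑ y : Fin (P * M₀ * Q), (if (y : ℕ) ≤ z + Q * (P - 2) ∧ (z : ℕ) ≤ y + Q * (P - 2) ∧
        τ ≤ ((cu l u ((y : ℕ) / Q)).card : ℝ) ∧ q (ω z) (ω y) then mw l u τ Q y else 0))).card : ℝ)
      ≤ Real.exp (-(dev ^ 2) / (16 * ((l : ℝ) / Q) ^ 2 * ((P * M₀ * Q : ℕ) : ℝ))) *
        ∏ y : Fin (P * M₀ * Q), ((sc l u τ Q y).card : ℝ) := by
  have hQ0 : (0 : ℝ) < Q := by
    have : 0 < Q := hQ
    exact_mod_cast this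
  have hl0 : (0 : ℝ) < l := by
    have : 0 < l := hl
    exact_mod_cast this
  have hb : (0 : ℝ) < (l : ℝ) / Q := div_pos hl0 hQ0
  refine hoef_cond hH (fun y : Fin (P * M₀ * Q) => sc l u τ Q y) (fun y => sc_nonempty hτ _) z
    (fun v y a => if (y : ℕ) ≤ z + Q * (P - 2) ∧ (z : ℕ) ≤ y + Q * (P - 2) ∧
        τ ≤ ((cu l u ((y : ℕ) / Q)).card : ℝ) ∧ q v a then mw l u τ Q y else 0) hb hdev ?_
    (fun v => ((LQ q k (M₀ * k) v ∩ u).card : ℝ) + (dev + l / Q)) ?_
  · intro v y a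
    split_ifs
    · rw [abs_of_nonneg (mw_nonneg _ _ _ _ _)]
      exact mw_le _ _ _ _ _
    · rw [abs_zero]
      exact hb.le
  · intro v hv
    rw [sc_heavy hz] at hv
    have hterm : ∀ y : Fin (P * M₀ * Q),
        (∑ a ∈ Function.update (fun y : Fin (P * M₀ * Q) => sc l u τ Q y) z {v} y,
          (if (y : ℕ) ≤ z + Q * (P - 2) ∧ (z : ℕ) ≤ y + Q * (P - 2) ∧
          τ ≤ ((cu l u ((y : ℕ) / Q)).card : ℝ) ∧ q v a then mw l u τ Q y else 0)) /
          ((Function.update (fun y : Fin (P * M₀ * Q) => sc l u τ Q y) z {v} y).card : ℝ) ≤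
        (if y = z then (l : ℝ) / Q else 0) +
          ((cu l u ((y : ℕ) / Q) ∩ LQ q k (M₀ * k) v).card : ℝ) / Q := by
      intro y
      by_cases hyz : y = z
      · subst hyz
        rw [Function.update_self, Finset.sum_singleton, Finset.card_singleton, Nat.cast_one,
          div_one, if_pos rfl]
        have h1 : (if (y : ℕ) ≤ y + Q * (P - 2) ∧ (y : ℕ) ≤ y + Q * (P - 2) ∧
          τ ≤ ((cu l u ((y : ℕ) / Q)).card : ℝ) ∧ q v v then mw l u τ Q y else 0) ≤ (l : ℝ) / Q := by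
          split_ifs
          · exact mw_le _ _ _ _ _
          · exact hb.le
        have h2 : 0 ≤ ((cu l u ((y : ℕ) / Q) ∩ LQ q k (M₀ * k) v).card : ℝ) / Q := by positivity
        linarith
      · rw [Function.update_of_ne hyz, if_neg hyz, zero_add]
        by_cases hnear : (y : ℕ) ≤ z + Q * (P - 2) ∧ (z : ℕ) ≤ y + Q * (P - 2) ∧
          τ ≤ ((cu l u ((y : ℕ) / Q)).card : ℝ)
        · obtain ⟨h1, h2, h3⟩ := hnear
          rw [sc_heavy h3]
          have hcpos : (0 : ℝ) < ((cu l u ((y : ℕ) / Q)).card : ℝ) := lt_of_lt_of_le hτ h3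
          have h4 : ∑ a ∈ cu l u ((y : ℕ) / Q), (if (y : ℕ) ≤ z + Q * (P - 2) ∧
              (z : ℕ) ≤ y + Q * (P - 2) ∧ τ ≤ ((cu l u ((y : ℕ) / Q)).card : ℝ) ∧ q v a
              then mw l u τ Q y else 0) ≤
              ((cu l u ((y : ℕ) / Q) ∩ LQ q k (M₀ * k) v).card : ℝ) * mw l u τ Q y := by
            have h5 : ∀ a ∈ cu l u ((y : ℕ) / Q), (if (y : ℕ) ≤ z + Q * (P - 2) ∧
              (z : ℕ) ≤ y + Q * (P - 2) ∧ τ ≤ ((cu l u ((y : ℕ) / Q)).card : ℝ) ∧ q v a
              then mw l u τ Q y else 0) ≤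
              (if a ∈ LQ q k (M₀ * k) v then mw l u τ Q y else 0) := by
              intro a ha
              split_ifs with h6 h7 h7
              · exact le_rfl
              · exfalso
                apply h7
                unfold cu at ha hv
                rw [Finset.mem_inter] at ha hv
                rw [mem_LQ']
                refine ⟨Finset.mem_range.1 (hu ha.2), ?_, ?_, h6.2.2.2⟩
                · exact cell_dist hPl (div_near hQ (by omega) h1) (by omega) ha.1 hv.1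
                · exact cell_dist hPl (div_near hQ (by omega) h2) (by omega) hv.1 ha.1
              · exact mw_nonneg _ _ _ _ _
              · exact le_rfl
            refine (Finset.sum_le_sum h5).trans (le_of_eq ?_)
            rw [Finset.sum_ite_mem, Finset.sum_const, nsmul_eq_mul]
          rw [div_le_iff₀ hcpos]
          refine h4.trans (le_of_eq ?_)
          rw [mw_heavy h3]
          field_simp
        · have h1 : ∀ a ∈ sc l u τ Q (y : ℕ), (if (y : ℕ) ≤ z + Q * (P - 2) ∧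
              (z : ℕ) ≤ y + Q * (P - 2) ∧ τ ≤ ((cu l u ((y : ℕ) / Q)).card : ℝ) ∧ q v a
              then mw l u τ Q y else 0) = 0 := by
            intro a _
            rw [if_neg]
            rintro ⟨h2, h3, h4, -⟩
            exact hnear ⟨h2, h3, h4⟩
          rw [Finset.sum_eq_zero h1, zero_div]
          positivity
    have h1 := Finset.sum_le_sum (s := univ) (fun y _ => hterm y)
    rw [Finset.sum_add_distrib, Finset.sum_ite_eq' univ z, if_pos (Finset.mem_univ _),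
      fin_cells (fun j => ((cu l u j ∩ LQ q k (M₀ * k) v).card : ℝ)) hQ (P * M₀)] at h1
    have h2 := cells_le l u (LQ q k (M₀ * k) v) (P * M₀)
    linarith

theorem prob_sum (hH : S_HOEF) {M₀ P Q l k : ℕ} {τ dev T : ℝ}
    (hQ : 1 ≤ Q) (hl : 1 ≤ l) (hkl : k ≤ P * l + P) (hτ : 0 < τ)
    (hdev : 0 < dev) (hT : 0 < T) {u : Finset ℕ} (hu : u ⊆ range (M₀ * k)) {x : ℕ → ℝ}
    (hx : ∀ v, |x v| ≤ T)
    (hsum : ∑ v ∈ u, x v + (P * M₀ : ℕ) * τ * T + (P * M₀ : ℕ) * T + dev ≤ 0) :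
    (((Fintype.piFinset (fun y : Fin (P * M₀ * Q) => sc l u τ Q y)).filter (fun ω =>
      0 ≤ ∑ y : Fin (P * M₀ * Q), mw l u τ Q y * x (ω y))).card : ℝ)
      ≤ Real.exp (-(dev ^ 2) / (16 * ((l : ℝ) / Q * T) ^ 2 * ((P * M₀ * Q : ℕ) : ℝ))) *
        ∏ y : Fin (P * M₀ * Q), ((sc l u τ Q y).card : ℝ) := by
  have hQ0 : (0 : ℝ) < Q := by
    have : 0 < Q := hQ
    exact_mod_cast this
  have hl0 : (0 : ℝ) < l := by
    have : 0 < l := hl
    exact_mod_cast this
  have hb : (0 : ℝ) < (l : ℝ) / Q * T := mul_pos (div_pos hl0 hQ0) hT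
  have h1 := hH (Fin (P * M₀ * Q)) ℕ (fun y : Fin (P * M₀ * Q) => sc l u τ Q y)
    (fun y a => mw l u τ Q y * x a) ((l : ℝ) / Q * T) dev (fun y => sc_nonempty hτ _) hb hdev
    (fun y a => by
      rw [abs_mul, abs_of_nonneg (mw_nonneg _ _ _ _ _)]
      exact mul_le_mul (mw_le _ _ _ _ _) (hx a) (abs_nonneg _) (div_pos hl0 hQ0).le)
  rw [Fintype.card_fin] at h1
  refine le_trans ?_ h1
  have hav : ∑ y : Fin (P * M₀ * Q), (∑ a ∈ sc l u τ Q y, mw l u τ Q y * x a) /
      ((sc l u τ Q y).card : ℝ) + dev ≤ 0 := by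
    have hterm : ∀ y : Fin (P * M₀ * Q), (∑ a ∈ sc l u τ Q y, mw l u τ Q y * x a) /
      ((sc l u τ Q y).card : ℝ) ≤ (∑ a ∈ cu l u ((y : ℕ) / Q), x a + τ * T) / Q := by
      intro y
      rw [← Finset.mul_sum]
      by_cases h : τ ≤ ((cu l u ((y : ℕ) / Q)).card : ℝ)
      · rw [sc_heavy h, mw_heavy h]
        have hcpos : (0 : ℝ) < ((cu l u ((y : ℕ) / Q)).card : ℝ) := lt_of_lt_of_le hτ h
        have e : ((cu l u ((y : ℕ) / Q)).card : ℝ) / Q * (∑ a ∈ cu l u ((y : ℕ) / Q), x a) /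
            ((cu l u ((y : ℕ) / Q)).card : ℝ) = (∑ a ∈ cu l u ((y : ℕ) / Q), x a) / Q := by
          field_simp
        rw [e]
        have : 0 ≤ τ * T := by positivity
        gcongr
        linarith
      · rw [mw_light h, zero_mul, zero_div]
        apply div_nonneg _ hQ0.le
        have h2 : ∑ a ∈ cu l u ((y : ℕ) / Q), (-T) ≤ ∑ a ∈ cu l u ((y : ℕ) / Q), x a :=
          Finset.sum_le_sum fun a _ => (abs_le.1 (hx a)).1
        rw [Finset.sum_const, nsmul_eq_mul] at h2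
        have h3 : ((cu l u ((y : ℕ) / Q)).card : ℝ) * T ≤ τ * T :=
          mul_le_mul_of_nonneg_right (not_le.1 h).le hT.le
        linarith
    have h2 := Finset.sum_le_sum (s := univ) (fun y _ => hterm y)
    rw [fin_cells (fun j => (∑ a ∈ cu l u j, x a + τ * T)) hQ (P * M₀), Finset.sum_add_distrib,
      Finset.sum_const, Finset.card_range, nsmul_eq_mul] at h2
    have h3 : ∑ j ∈ range (P * M₀), ∑ a ∈ cu l u j, x a =
        ∑ a ∈ range (P * M₀ * l) ∩ u, x a := by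
      have h4 := blk_sum (fun a => if a ∈ u then x a else 0) l 0 (P * M₀) (Nat.zero_le _)
      rw [zero_mul, ← Finset.range_eq_Ico, ← Finset.range_eq_Ico, Finset.sum_ite_mem] at h4
      rw [h4]
      refine Finset.sum_congr rfl fun j _ => ?_
      rw [Finset.sum_ite_mem]
      rfl
    have h4 : ∑ a ∈ range (P * M₀ * l) ∩ u, x a ≤ ∑ v ∈ u, x v + (P * M₀ : ℕ) * T := by
      have h5 : ∑ a ∈ range (P * M₀ * l) ∩ u, x a + ∑ a ∈ u \ range (P * M₀ * l), x a =
          ∑ v ∈ u, x v := by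
        rw [Finset.inter_comm]
        exact Finset.sum_inter_add_sum_sdiff _ _ _
      have h6 : ∑ a ∈ u \ range (P * M₀ * l), (-T) ≤ ∑ a ∈ u \ range (P * M₀ * l), x a :=
        Finset.sum_le_sum fun a _ => (abs_le.1 (hx a)).1
      rw [Finset.sum_const, nsmul_eq_mul] at h6
      have h7 : (u \ range (P * M₀ * l)).card ≤ P * M₀ := by
        have h8 : u \ range (P * M₀ * l) ⊆ Ico (P * M₀ * l) (M₀ * k) := by
          intro v hv
          rw [Finset.mem_sdiff, Finset.mem_range] at hv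
          rw [Finset.mem_Ico]
          exact ⟨not_lt.1 hv.2, Finset.mem_range.1 (hu hv.1)⟩
        have h9 := Finset.card_le_card h8
        rw [Nat.card_Ico] at h9
        have h10 : M₀ * k ≤ M₀ * (P * l + P) := Nat.mul_le_mul_left _ hkl
        have e1 : M₀ * (P * l + P) = P * M₀ * l + P * M₀ := by ring
        omega
      have h8 : ((u \ range (P * M₀ * l)).card : ℝ) ≤ ((P * M₀ : ℕ) : ℝ) := by exact_mod_cast h7
      have h9 := mul_le_mul_of_nonneg_right h8 hT.le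
      linarith
    rw [h3] at h2
    linarith
  have hsub : ((Fintype.piFinset (fun y : Fin (P * M₀ * Q) => sc l u τ Q y)).filter (fun ω =>
      0 ≤ ∑ y : Fin (P * M₀ * Q), mw l u τ Q y * x (ω y))) ⊆
      ((Fintype.piFinset (fun y : Fin (P * M₀ * Q) => sc l u τ Q y)).filter (fun ω =>
      ∑ y : Fin (P * M₀ * Q), (∑ a ∈ sc l u τ Q y, mw l u τ Q y * x a) /
      ((sc l u τ Q y).card : ℝ) + dev ≤ ∑ y : Fin (P * M₀ * Q), mw l u τ Q y * x (ω y))) := by
    intro ω hω
    rw [Finset.mem_filter] at hω ⊢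
    exact ⟨hω.1, hav.trans hω.2⟩
  exact_mod_cast Finset.card_le_card hsub


open Classical in
theorem exists_tile (hH : S_HOEF) (hB : S_BLOW) {t M₀ P Q l k s : ℕ}
    {ε θ τ dev₁ dev₂ T : ℝ} (ht : 2 ≤ t) (hM : 2 ≤ M₀) (hP : 4 ≤ P) (hQ : 1 ≤ Q) (hl : 1 ≤ l)
    (hs : 1 ≤ s) (hPl : P * l ≤ k) (hkl : k ≤ P * l + P) (hτ : 0 < τ) (hε : 0 < ε)
    (hT : 0 < T) (hdev₁ : 0 < dev₁) (hdev₂ : 0 < dev₂)
    (hnum : t * (dev₁ + l / Q) + ((k : ℝ) - (P - 3) * l + 1) + P * τ ≤ ε * θ * k)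
    {q : ℕ → ℕ → Prop} (hq1 : ∀ x, q x x) (hq2 : ∀ x y, q x y → q y x) {u : Finset ℕ}
    (hu : u ⊆ range (M₀ * k))
    (hcond : ∀ j, j + k < M₀ * k → θ * k ≤ ((Ico j (j + k) ∩ u).card : ℝ) ∧
      ∀ x, j ≤ x → x ≤ j + 2 * k → x < M₀ * k →
        (t : ℝ) * ((LQ q k (M₀ * k) x ∩ u).card : ℝ) ≤ (1 - ε) * ((Ico j (j + k) ∩ u).card : ℝ))
    {x : ℕ → ℝ} (hxT : ∀ v, |x v| ≤ T) (hx : ∀ v, v < k → 0 ≤ x v)
    (hsum : ∑ v ∈ u, x v + (P * M₀ : ℕ) * τ * T + (P * M₀ : ℕ) * T + dev₂ ≤ 0)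
    (hprob : ((P * M₀ * Q : ℕ) : ℝ) *
        Real.exp (-(dev₁ ^ 2) / (16 * ((l : ℝ) / Q) ^ 2 * ((P * M₀ * Q : ℕ) : ℝ))) +
        Real.exp (-(dev₂ ^ 2) / (16 * ((l : ℝ) / Q * T) ^ 2 * ((P * M₀ * Q : ℕ) : ℝ))) ≤ 1 / 2)
    (hbig : (((P * M₀ * Q : ℕ) : ℝ) * s) ^ 2 <
      (1 / (2 * ((P * M₀ * Q : ℕ) : ℝ) ^ (t + 1))) ^ (s ^ (P * M₀ * Q)) * τ) :
    ∃ K, LTile q k t s u K ∧ ∑ v ∈ K, x v < 0 := by
  set N := P * M₀ * Q with hN
  have hN1 : 1 ≤ N := by
    have : 1 * 1 * 1 ≤ P * M₀ * Q := Nat.mul_le_mul (Nat.mul_le_mul (by omega) (by omega)) hQ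
    omega
  have hN0 : (0 : ℝ) < (N : ℝ) := by exact_mod_cast hN1
  set S : Fin N → Finset ℕ := fun y => sc l u τ Q y with hS
  have hne : ∀ y, (S y).Nonempty := fun y => sc_nonempty hτ _
  have hprod : (0 : ℝ) < ∏ i, ((S i).card : ℝ) :=
    Finset.prod_pos fun i _ => by exact_mod_cast (hne i).card_pos
  set A : (Fin (t + 1) → Fin N) → Finset (Fin N → ℕ) := fun I =>
    (Fintype.piFinset S).filter (fun ω => (∀ i, τ ≤ ((cu l u ((I i : ℕ) / Q)).card : ℝ)) ∧
      (∀ i j, i ≠ j → I i ≠ I j) ∧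
      (∀ i j, i ≠ j → ω (I i) ≤ ω (I j) + k ∧ ¬ q (ω (I i)) (ω (I j))) ∧
      ∑ i, x (ω (I i)) < 0) with hA
  set B : Fin N → Finset (Fin N → ℕ) := fun z =>
    (Fintype.piFinset S).filter (fun ω => τ ≤ ((cu l u ((z : ℕ) / Q)).card : ℝ) ∧
      ((LQ q k (M₀ * k) (ω z) ∩ u).card : ℝ) + (dev₁ + l / Q) ≤
      ∑ y : Fin N, (if (y : ℕ) ≤ z + Q * (P - 2) ∧ (z : ℕ) ≤ y + Q * (P - 2) ∧
        τ ≤ ((cu l u ((y : ℕ) / Q)).card : ℝ) ∧ q (ω z) (ω y) then mw l u τ Q y else 0)) with hBd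
  set C : Finset (Fin N → ℕ) := (Fintype.piFinset S).filter (fun ω =>
      0 ≤ ∑ y : Fin N, mw l u τ Q y * x (ω y)) with hC
  have hcover : Fintype.piFinset S ⊆ univ.biUnion A ∪ (univ.biUnion B ∪ C) := by
    intro ω hω
    by_contra hcon
    rw [Finset.mem_union, Finset.mem_union, Finset.mem_biUnion, Finset.mem_biUnion] at hcon
    push Not at hcon
    obtain ⟨hcA, hcB, hcC⟩ := hcon
    have hωS := Fintype.mem_piFinset.1 hω
    set ω' : ℕ → ℕ := fun y => if h : y < N then ω ⟨y, h⟩ else 0 with hω'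
    have hω'f : ∀ y : Fin N, ω' y = ω y := by
      intro y
      simp only [hω']
      rw [dif_pos y.2]
    have h3 := det_step ht hM hP hQ hl hPl hτ hε hnum hq1 hq2 hu hcond hx ω' (by
        intro y hy hheavy
        have h4 := hωS ⟨y, hy⟩
        simp only [hS] at h4
        rw [sc_heavy hheavy] at h4
        have h5 := hω'f ⟨y, hy⟩
        simp only at h5
        rw [h5]
        exact h4) (by
        intro z hz hheavy
        have h4 := hcB ⟨z, hz⟩ (Finset.mem_univ _)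
        rw [hBd, Finset.mem_filter] at h4
        have h5 : ¬ (((LQ q k (M₀ * k) (ω ⟨z, hz⟩) ∩ u).card : ℝ) + (dev₁ + l / Q) ≤
          ∑ y : Fin N, (if (y : ℕ) ≤ z + Q * (P - 2) ∧ (z : ℕ) ≤ y + Q * (P - 2) ∧
          τ ≤ ((cu l u ((y : ℕ) / Q)).card : ℝ) ∧ q (ω ⟨z, hz⟩) (ω y)
            then mw l u τ Q y else 0)) := fun h => h4 ⟨hω, hheavy, h⟩
        have h6 := hω'f ⟨z, hz⟩
        simp only at h6
        rw [h6, Finset.sum_filter]
        have h7 : ∑ y : Fin N, (if (y : ℕ) ≤ z + Q * (P - 2) ∧ (z : ℕ) ≤ y + Q * (P - 2) ∧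
          τ ≤ ((cu l u ((y : ℕ) / Q)).card : ℝ) ∧ q (ω ⟨z, hz⟩) (ω y)
            then mw l u τ Q y else 0) = ∑ y ∈ range N, (if y ≤ z + Q * (P - 2) ∧
            z ≤ y + Q * (P - 2) ∧ τ ≤ ((cu l u (y / Q)).card : ℝ) ∧ q (ω ⟨z, hz⟩) (ω' y)
            then mw l u τ Q y else 0) := by
          rw [← Fin.sum_univ_eq_sum_range (fun y => if y ≤ z + Q * (P - 2) ∧
            z ≤ y + Q * (P - 2) ∧ τ ≤ ((cu l u (y / Q)).card : ℝ) ∧ q (ω ⟨z, hz⟩) (ω' y)
            then mw l u τ Q y else 0) N]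
          refine Finset.sum_congr rfl fun y _ => ?_
          rw [hω'f y]
        rw [h7] at h5
        exact (not_le.1 h5).le) (by
        have h4 : ¬ (0 ≤ ∑ y : Fin N, mw l u τ Q y * x (ω y)) := by
          intro h
          apply hcC
          rw [hC, Finset.mem_filter]
          exact ⟨hω, h⟩
        have h5 : ∑ y : Fin N, mw l u τ Q y * x (ω y) =
            ∑ y ∈ range N, mw l u τ Q y * x (ω' y) := by
          rw [← Fin.sum_univ_eq_sum_range (fun y => mw l u τ Q y * x (ω' y)) N]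
          refine Finset.sum_congr rfl fun y _ => ?_
          rw [hω'f y]
        rw [h5] at h4
        exact not_le.1 h4)
    obtain ⟨I, hI1, hI2, hI3, hI4, hI5⟩ := h3
    refine hcA (fun i => ⟨I i, hI1 i⟩) (Finset.mem_univ _) ?_
    have hIω : ∀ i, ω ⟨I i, hI1 i⟩ = ω' (I i) := fun i => (hω'f ⟨I i, hI1 i⟩).symm
    rw [hA, Finset.mem_filter]
    refine ⟨hω, hI2, ?_, ?_, ?_⟩
    · intro i j hij h
      rw [Fin.mk.injEq] at h
      exact hI3 i j hij h
    · intro i j hij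
      rw [hIω i, hIω j]
      exact hI4 i j hij
    · rw [Finset.sum_congr rfl (fun i _ => by rw [hIω i])]
      exact hI5
  have hcardle : (∏ i, ((S i).card : ℝ)) ≤ ∑ I, ((A I).card : ℝ) +
      (∑ z, ((B z).card : ℝ) + (C.card : ℝ)) := by
    have h1 := (Finset.card_le_card hcover).trans ((Finset.card_union_le _ _).trans
      (Nat.add_le_add Finset.card_biUnion_le ((Finset.card_union_le _ _).trans
        (Nat.add_le_add_right Finset.card_biUnion_le _))))
    rw [Fintype.card_piFinset] at h1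
    exact_mod_cast h1
  have hBcard : ∀ z, ((B z).card : ℝ) ≤
      Real.exp (-(dev₁ ^ 2) / (16 * ((l : ℝ) / Q) ^ 2 * (N : ℝ))) * ∏ i, ((S i).card : ℝ) := by
    intro z
    by_cases hz : τ ≤ ((cu l u ((z : ℕ) / Q)).card : ℝ)
    · refine le_trans ?_ (prob_LQ hH hP hQ hl hPl hτ hdev₁ hu z hz (q := q))
      have : B z ⊆ _ := fun ω hω => by
        rw [hBd, Finset.mem_filter] at hω
        exact Finset.mem_filter.2 ⟨hω.1, hω.2.2⟩
      exact_mod_cast Finset.card_le_card this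
    · have : B z = ∅ := by
        rw [hBd]
        exact Finset.filter_false_of_mem fun ω _ h => hz h.1
      rw [this, Finset.card_empty, Nat.cast_zero]
      exact mul_nonneg (Real.exp_pos _).le hprod.le
  have hCcard : (C.card : ℝ) ≤
      Real.exp (-(dev₂ ^ 2) / (16 * ((l : ℝ) / Q * T) ^ 2 * (N : ℝ))) *
        ∏ i, ((S i).card : ℝ) := prob_sum hH hQ hl hkl hτ hdev₂ hT hu hxT hsum
  have hAsum : (1 / 2) * ∏ i, ((S i).card : ℝ) ≤ ∑ I, ((A I).card : ℝ) := by
    have h1 := Finset.sum_le_sum (s := univ) (fun z _ => hBcard z)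
    rw [Finset.sum_const, Finset.card_univ, Fintype.card_fin, nsmul_eq_mul] at h1
    have h2 := mul_le_mul_of_nonneg_right hprob hprod.le
    rw [add_mul] at h2
    linarith
  -- pigeonhole
  have hex : ∃ I, (1 / (2 * (N : ℝ) ^ (t + 1))) * ∏ i, ((S i).card : ℝ) ≤ ((A I).card : ℝ) := by
    by_contra hcon
    push Not at hcon
    have : Nonempty (Fin N) := ⟨⟨0, hN1⟩⟩
    have h1 : ∑ I : Fin (t + 1) → Fin N, ((A I).card : ℝ) <
        ∑ I : Fin (t + 1) → Fin N, (1 / (2 * (N : ℝ) ^ (t + 1))) * ∏ i, ((S i).card : ℝ) :=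
      Finset.sum_lt_sum_of_nonempty Finset.univ_nonempty (fun I _ => hcon I)
    rw [Finset.sum_const, Finset.card_univ, Fintype.card_fun, Fintype.card_fin, Fintype.card_fin,
      nsmul_eq_mul] at h1
    have h2 : ((N ^ (t + 1) : ℕ) : ℝ) * ((1 / (2 * (N : ℝ) ^ (t + 1))) *
        ∏ i, ((S i).card : ℝ)) = (1 / 2) * ∏ i, ((S i).card : ℝ) := by
      push_cast
      field_simp
    rw [h2] at h1
    linarith
  obtain ⟨I, hI⟩ := hex
  have hAne : (A I).Nonempty := by
    rw [← Finset.card_pos]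
    have : (0 : ℝ) < ((A I).card : ℝ) := lt_of_lt_of_le (by positivity) hI
    exact_mod_cast this
  obtain ⟨ω₀, hω₀⟩ := hAne
  rw [hA, Finset.mem_filter] at hω₀
  obtain ⟨-, hheavy, hIinj, -, -⟩ := hω₀
  refine blow_tile hB S hs (by positivity) hτ I hIinj (fun i => ?_) hne (A I)
    (Finset.filter_subset _ _) (fun ω hω => ?_) hI hbig
  · simp only [hS]
    rw [sc_heavy (hheavy i)]
    exact ⟨hheavy i, Finset.inter_subset_right⟩
  · rw [hA, Finset.mem_filter] at hω
    exact hω.2.2.2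


/-! ### The constants -/

theorem exp_bd {P M₀ Q l k : ℕ} {δ T α : ℝ} (hP : 1 ≤ P) (hM : 1 ≤ M₀) (hQ : 1 ≤ Q) (hl : 1 ≤ l)
    (hPl : P * l ≤ k) (hδ : 0 < δ) (hT : 0 < T) (hα : α * (16 * T ^ 2 * M₀) ≤ δ ^ 2 * P) :
    Real.exp (-((δ * k) ^ 2) / (16 * ((l : ℝ) / Q * T) ^ 2 * ((P * M₀ * Q : ℕ) : ℝ))) ≤
      Real.exp (-(α * Q)) := by
  have hP0 : (0 : ℝ) < P := by
    have : 0 < P := hP
    exact_mod_cast this
  have hM0 : (0 : ℝ) < M₀ := by
    have : 0 < M₀ := hM
    exact_mod_cast this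
  have hQ0 : (0 : ℝ) < Q := by
    have : 0 < Q := hQ
    exact_mod_cast this
  have hl0 : (0 : ℝ) < l := by
    have : 0 < l := hl
    exact_mod_cast this
  have hPl' : (P : ℝ) * l ≤ k := by exact_mod_cast hPl
  apply Real.exp_le_exp.2
  rw [neg_div, neg_le_neg_iff, le_div_iff₀ (by positivity)]
  have e : α * Q * (16 * ((l : ℝ) / Q * T) ^ 2 * ((P * M₀ * Q : ℕ) : ℝ)) =
      (α * (16 * T ^ 2 * M₀)) * (P * l ^ 2) := by
    push_cast
    field_simp
  rw [e]
  have h1 : (α * (16 * T ^ 2 * M₀)) * (P * (l : ℝ) ^ 2) ≤ (δ ^ 2 * P) * (P * (l : ℝ) ^ 2) :=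
    mul_le_mul_of_nonneg_right hα (by positivity)
  have h2 : (δ ^ 2 * P) * (P * (l : ℝ) ^ 2) = (δ * (P * l)) ^ 2 := by ring
  rw [h2] at h1
  refine h1.trans ?_
  have h3 : δ * (P * l) ≤ δ * k := mul_le_mul_of_nonneg_left hPl' hδ.le
  exact pow_le_pow_left₀ (by positivity) h3 2

theorem exp_neg_le {y : ℝ} (hy : 0 < y) : Real.exp (-y) ≤ 2 / y ^ 2 := by
  have h1 := Real.quadratic_le_exp_of_nonneg hy.le
  rw [Real.exp_neg, ← one_div, div_le_div_iff₀ (Real.exp_pos y) (by positivity)]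
  nlinarith

theorem dual (hH : S_HOEF) (hB : S_BLOW) (t M₀ s : ℕ) (ε θ η : ℝ) (ht : 2 ≤ t) (hM : 2 ≤ M₀)
    (hs : 1 ≤ s) (hε : 0 < ε) (hθ : 0 < θ) (hη : 0 < η) :
    ∃ k₀ : ℕ, 1 ≤ k₀ ∧ DF t M₀ s ε θ η k₀ := by
  have ht0 : (0 : ℝ) < t := by
    have : 0 < t := by omega
    exact_mod_cast this
  have hM0 : (0 : ℝ) < M₀ := by
    have : 0 < M₀ := by omega
    exact_mod_cast this
  have hs0 : (0 : ℝ) < s := by
    have : 0 < s := hs
    exact_mod_cast this
  set T : ℝ := ((t : ℝ) + 1) * s with hTdef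
  have hT : 0 < T := by positivity
  set a : ℝ := ε * θ with hadef
  have ha : 0 < a := mul_pos hε hθ
  obtain ⟨P, hP⟩ := exists_nat_ge (max 4 (24 / a))
  have hP4 : 4 ≤ P := by
    have : (4 : ℝ) ≤ P := (le_max_left _ _).trans hP
    exact_mod_cast this
  have hP0 : (0 : ℝ) < P := by
    have : 0 < P := by omega
    exact_mod_cast this
  have hPa : 24 ≤ a * P := by
    have h1 : 24 / a ≤ P := (le_max_right _ _).trans hP
    rw [div_le_iff₀ ha] at h1
    linarith
  set δ₁ : ℝ := a / (8 * t) with hδ₁def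
  have hδ₁ : 0 < δ₁ := by positivity
  set ζ : ℝ := min (a / (8 * P)) (η / (4 * (P * M₀) * T)) with hζdef
  have hζ : 0 < ζ := lt_min (by positivity) (by positivity)
  have hζ1 : P * ζ ≤ a / 8 := by
    have h1 : ζ ≤ a / (8 * P) := min_le_left _ _
    rw [le_div_iff₀ (by positivity)] at h1
    linarith
  have hζ2 : P * M₀ * ζ * T ≤ η / 4 := by
    have h1 : ζ ≤ η / (4 * (P * M₀) * T) := min_le_right _ _
    rw [le_div_iff₀ (by positivity)] at h1
    linarith
  set α : ℝ := min (δ₁ ^ 2 * P / (16 * 1 ^ 2 * M₀)) ((η / 4) ^ 2 * P / (16 * T ^ 2 * M₀))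
    with hαdef
  have hα : 0 < α := lt_min (by positivity) (by positivity)
  have hα1 : α * (16 * 1 ^ 2 * M₀) ≤ δ₁ ^ 2 * P := by
    have h1 : α ≤ δ₁ ^ 2 * P / (16 * 1 ^ 2 * M₀) := min_le_left _ _
    rwa [le_div_iff₀ (by positivity)] at h1
  have hα2 : α * (16 * T ^ 2 * M₀) ≤ (η / 4) ^ 2 * P := by
    have h1 : α ≤ (η / 4) ^ 2 * P / (16 * T ^ 2 * M₀) := min_le_right _ _
    rwa [le_div_iff₀ (by positivity)] at h1
  obtain ⟨Q, hQ⟩ := exists_nat_ge (max (t : ℝ) (8 * (P * M₀) / α ^ 2))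
  have hQt : (t : ℝ) ≤ Q := (le_max_left _ _).trans hQ
  have hQ1 : 1 ≤ Q := by
    have : t ≤ Q := by exact_mod_cast hQt
    omega
  have hQ0 : (0 : ℝ) < Q := lt_of_lt_of_le ht0 hQt
  have hQ2 : 8 * (P * M₀) ≤ Q * α ^ 2 := by
    have h1 : 8 * (P * M₀) / α ^ 2 ≤ Q := (le_max_right _ _).trans hQ
    rwa [div_le_iff₀ (by positivity)] at h1
  set N : ℕ := P * M₀ * Q with hNdef
  have hN0 : (0 : ℝ) < (N : ℝ) := by
    rw [hNdef]
    push_cast
    positivity
  set c : ℝ := 1 / (2 * (N : ℝ) ^ (t + 1)) with hcdef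
  have hc : 0 < c := by positivity
  obtain ⟨k₀, hk₀⟩ := exists_nat_ge (max (max (P : ℝ) (8 * (P + 1) / a))
    (max (4 * (P * M₀) * T / η) (((N : ℝ) * s) ^ 2 / (ζ * c ^ (s ^ N)) + 1)))
  have hk₀P : P ≤ k₀ := by
    have : (P : ℝ) ≤ k₀ := ((le_max_left _ _).trans (le_max_left _ _)).trans hk₀
    exact_mod_cast this
  refine ⟨k₀, by omega, ?_⟩
  intro k q u x hk hq1 hq2 hu hcond hxT hx htile
  have hkR : (k₀ : ℝ) ≤ k := by exact_mod_cast hk
  have hkP : P ≤ k := hk₀P.trans hk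
  have hk1 : (0 : ℝ) < k := by
    have : 0 < k := by omega
    exact_mod_cast this
  have hkb : 8 * (P + 1) ≤ a * k := by
    have h1 : 8 * (P + 1) / a ≤ k :=
      (((le_max_right _ _).trans (le_max_left _ _)).trans hk₀).trans hkR
    rw [div_le_iff₀ ha] at h1
    linarith
  have hkc : 4 * (P * M₀) * T ≤ η * k := by
    have h1 : 4 * (P * M₀) * T / η ≤ k :=
      (((le_max_left _ _).trans (le_max_right _ _)).trans hk₀).trans hkR
    rw [div_le_iff₀ hη] at h1
    linarith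
  have hkd : ((N : ℝ) * s) ^ 2 < c ^ (s ^ N) * (ζ * k) := by
    have h1 : ((N : ℝ) * s) ^ 2 / (ζ * c ^ (s ^ N)) + 1 ≤ k :=
      (((le_max_right _ _).trans (le_max_right _ _)).trans hk₀).trans hkR
    have h2 : ((N : ℝ) * s) ^ 2 / (ζ * c ^ (s ^ N)) < k := by linarith
    rw [div_lt_iff₀ (by positivity)] at h2
    linarith
  by_contra hcon
  rw [not_le] at hcon
  set l := k / P with hldef
  have hPl : P * l ≤ k := Nat.mul_div_le k P
  have hkl : k ≤ P * l + P := by
    have h1 := Nat.div_add_mod k P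
    have h2 := Nat.mod_lt k (show 0 < P by omega)
    rw [← hldef] at h1
    omega
  have hl1 : 1 ≤ l := Nat.div_pos hkP (by omega)
  have hPlR : (P : ℝ) * l ≤ k := by exact_mod_cast hPl
  have hklR : (k : ℝ) ≤ P * l + P := by exact_mod_cast hkl
  obtain ⟨K, hK1, hK2⟩ := exists_tile hH hB (t := t) (M₀ := M₀) (P := P) (Q := Q) (l := l) (k := k)
    (s := s) (ε := ε) (θ := θ) (τ := ζ * k) (dev₁ := δ₁ * k) (dev₂ := η / 4 * k) (T := T) ht hM hP4
    hQ1 hl1 hs hPl hkl (by positivity) hε hT (by positivity) (by positivity) (by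
      rw [← hadef]
      have h1 : t * (δ₁ * k) = a * k / 8 := by
        rw [hδ₁def]
        field_simp
      have h2 : (l : ℝ) ≤ a * k / 24 := by
        -- `24 l ≤ a P l ≤ a k`
        have h3 : 24 * (l : ℝ) ≤ a * P * l := mul_le_mul_of_nonneg_right hPa (Nat.cast_nonneg l)
        have h4 : a * P * l ≤ a * k := by
          rw [mul_assoc]
          exact mul_le_mul_of_nonneg_left hPlR ha.le
        linarith
      have h3 : t * ((l : ℝ) / Q) ≤ l := by
        rw [mul_div_assoc', div_le_iff₀ hQ0, mul_comm]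
        exact mul_le_mul_of_nonneg_left hQt (Nat.cast_nonneg l)
      have h4 : P * (ζ * k) ≤ a / 8 * k := by
        rw [← mul_assoc]
        exact mul_le_mul_of_nonneg_right hζ1 hk1.le
      have h5 : t * (δ₁ * k + l / Q) = t * (δ₁ * k) + t * ((l : ℝ) / Q) := by ring
      rw [h5, h1]
      have h6 : (k : ℝ) - (P - 3) * l + 1 ≤ 3 * l + P + 1 := by linarith
      linarith) hq1 hq2 hu hcond hxT hx (by
      have h1 : (P * M₀ : ℕ) * (ζ * k) * T ≤ η / 4 * k := by
        push_cast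
        have h2 := mul_le_mul_of_nonneg_right hζ2 hk1.le
        linarith
      have h2 : ((P * M₀ : ℕ) : ℝ) * T ≤ η / 4 * k := by
        push_cast
        linarith
      have h3 := mul_pos hη hk1
      linarith) (by
      have h1 := exp_bd (P := P) (M₀ := M₀) (Q := Q) (l := l) (k := k) (δ := δ₁) (T := 1)
        (by omega) (by omega) hQ1 hl1 hPl hδ₁ one_pos hα1
      rw [mul_one] at h1
      have h2 := exp_bd (P := P) (M₀ := M₀) (Q := Q) (l := l) (k := k) (δ := η / 4) (T := T)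
        (by omega) (by omega) hQ1 hl1 hPl (by positivity) hT hα2
      have h3 := exp_neg_le (y := α * Q) (by positivity)
      have hN1 : (1 : ℝ) ≤ ((P * M₀ * Q : ℕ) : ℝ) := by
        have : 1 * 1 * 1 ≤ P * M₀ * Q := Nat.mul_le_mul (Nat.mul_le_mul (by omega) (by omega)) hQ1
        exact_mod_cast this
      have h4 : ((P * M₀ * Q : ℕ) : ℝ) * (2 / (α * Q) ^ 2) ≤ 1 / 4 := by
        have e : ((P * M₀ * Q : ℕ) : ℝ) * (2 / (α * Q) ^ 2) = 2 * (P * M₀) / (Q * α ^ 2) := by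
          push_cast
          field_simp
        rw [e, div_le_iff₀ (by positivity)]
        linarith
      have h5 : (2 / (α * Q) ^ 2) ≤ ((P * M₀ * Q : ℕ) : ℝ) * (2 / (α * Q) ^ 2) :=
        le_mul_of_one_le_left (by positivity) hN1
      have h6 := mul_le_mul_of_nonneg_left (h1.trans h3) (Nat.cast_nonneg (α := ℝ) (P * M₀ * Q))
      have h7 := h2.trans h3
      linarith) hkd
  exact absurd (htile K hK1) (not_le.2 hK2)

end FTL

theorem ft (h1 : S_HOEF) (h2 : S_BLOW) : S_FT := by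
  intro t M₀ s ε θ η ht hM hs hε _ hθ hη
  obtain ⟨k₀, hk₀, hDF⟩ := FTL.dual h1 h2 t M₀ s ε θ η ht hM hs hε hθ hη
  refine ⟨k₀, ?_⟩
  intro k q u hk hq1 hq2 hu hcond
  exact FTL.of_dual hs hDF k (hk₀.trans hk) q u hk hq1 hq2 hu hcond

end Pool.Agent.H48.PW
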