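import Pool.Agent.H48.PW.Stm

set_option autoImplicit false

namespace Pool.Agent.H48.PW

namespace HBL

open Finset

/-- `e^x ≤ 1 + x + x²` for `|x| ≤ 1` -/
theorem exp_le (x : ℝ) (hx : |x| ≤ 1) : Real.exp x ≤ 1 + x + x ^ 2 := by
  have h := Real.abs_exp_sub_one_sub_id_le hx
  have := (abs_le.1 h).2
  linarith

/-- one factor -/
theorem factor {V : Type} [DecidableEq V] (S : Finset V) (f : V → ℝ) (b lam : ℝ)
    (hS : S.Nonempty) (hb : 0 < b) (hlam : 0 ≤ lam) (hl : 2 * b * lam ≤ 1)
    (hf : ∀ v, |f v| ≤ b) :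
    ∑ v ∈ S, Real.exp (lam * (f v - (∑ v ∈ S, f v) / (S.card : ℝ))) ≤
      (S.card : ℝ) * Real.exp (4 * b ^ 2 * lam ^ 2) := by
  set m := (∑ v ∈ S, f v) / (S.card : ℝ) with hm
  have hc : (0 : ℝ) < S.card := by exact_mod_cast hS.card_pos
  have hmb : |m| ≤ b := by
    rw [hm, abs_div, abs_of_pos hc, div_le_iff₀ hc]
    calc |∑ v ∈ S, f v| ≤ ∑ v ∈ S, |f v| := Finset.abs_sum_le_sum_abs _ _
      _ ≤ ∑ _v ∈ S, b := Finset.sum_le_sum fun v _ => hf v
      _ = b * S.card := by rw [Finset.sum_const, nsmul_eq_mul, mul_comm]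
  have hg : ∀ v, |f v - m| ≤ 2 * b := by
    intro v
    have h1 := abs_le.1 (hf v)
    have h2 := abs_le.1 hmb
    rw [abs_le]
    constructor <;> linarith
  have h1 : ∀ v ∈ S, Real.exp (lam * (f v - m)) ≤
      1 + lam * (f v - m) + 4 * b ^ 2 * lam ^ 2 := by
    intro v _
    have hx : |lam * (f v - m)| ≤ 1 := by
      rw [abs_mul, abs_of_nonneg hlam]
      calc lam * |f v - m| ≤ lam * (2 * b) := mul_le_mul_of_nonneg_left (hg v) hlam
        _ ≤ 1 := by linarith
    refine (exp_le _ hx).trans ?_
    have h2 : (f v - m) ^ 2 ≤ (2 * b) ^ 2 := by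
      rw [← sq_abs (f v - m)]
      exact pow_le_pow_left₀ (abs_nonneg _) (hg v) 2
    have h3 : lam ^ 2 * (f v - m) ^ 2 ≤ lam ^ 2 * (2 * b) ^ 2 :=
      mul_le_mul_of_nonneg_left h2 (sq_nonneg _)
    nlinarith
  refine (Finset.sum_le_sum h1).trans ?_
  have h2 : ∑ v ∈ S, (f v - m) = 0 := by
    rw [Finset.sum_sub_distrib, Finset.sum_const, nsmul_eq_mul, hm]
    field_simp
    ring
  rw [Finset.sum_add_distrib, Finset.sum_add_distrib, ← Finset.mul_sum, h2, mul_zero, add_zero,
    Finset.sum_const, Finset.sum_const, nsmul_eq_mul, nsmul_eq_mul, mul_one]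
  have h3 : 1 + 4 * b ^ 2 * lam ^ 2 ≤ Real.exp (4 * b ^ 2 * lam ^ 2) := by
    have := Real.add_one_le_exp (4 * b ^ 2 * lam ^ 2)
    linarith
  calc (S.card : ℝ) + S.card * (4 * b ^ 2 * lam ^ 2) = S.card * (1 + 4 * b ^ 2 * lam ^ 2) := by
        ring
    _ ≤ _ := mul_le_mul_of_nonneg_left h3 hc.le

end HBL

open Finset in
theorem hoef : S_HOEF := by
  intro ι V _ _ _ S f b dev hS hb hdev hf
  set n := Fintype.card ι with hn
  set F := (Fintype.piFinset S).filter (fun ω => ∑ i, (∑ v ∈ S i, f i v) / ((S i).card : ℝ) + dev ≤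
    ∑ i, f i (ω i)) with hF
  have hpos : (0 : ℝ) < ∏ i, ((S i).card : ℝ) :=
    Finset.prod_pos fun i _ => by exact_mod_cast (hS i).card_pos
  by_cases hbig : 4 * b * n < dev
  · have hem : F = ∅ := by
      rw [hF, Finset.filter_eq_empty_iff]
      intro ω _ hcon
      have h1 : ∑ i, f i (ω i) ≤ n * b := by
        calc ∑ i, f i (ω i) ≤ ∑ _i : ι, b := Finset.sum_le_sum fun i _ => (abs_le.1 (hf i _)).2
          _ = n * b := by rw [Finset.sum_const, Finset.card_univ, nsmul_eq_mul]
      have h2 : -(n * b) ≤ ∑ i, (∑ v ∈ S i, f i v) / ((S i).card : ℝ) := by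
        have h3 : ∑ _i : ι, (-b) ≤ ∑ i, (∑ v ∈ S i, f i v) / ((S i).card : ℝ) := by
          refine Finset.sum_le_sum fun i _ => ?_
          have hc : (0 : ℝ) < (S i).card := by exact_mod_cast (hS i).card_pos
          rw [le_div_iff₀ hc]
          calc -b * (S i).card = ∑ _v ∈ S i, (-b) := by
                rw [Finset.sum_const, nsmul_eq_mul]; ring
            _ ≤ _ := Finset.sum_le_sum fun v _ => (abs_le.1 (hf i v)).1
        rw [Finset.sum_const, Finset.card_univ, nsmul_eq_mul] at h3
        linarith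
      have h4 : (0 : ℝ) ≤ n * b := by positivity
      linarith
    rw [hem, Finset.card_empty, Nat.cast_zero]
    positivity
  · push Not at hbig
    have hn0 : (0 : ℝ) < n := by
      by_contra h
      have : (n : ℝ) = 0 := le_antisymm (not_lt.1 h) (Nat.cast_nonneg _)
      rw [this] at hbig
      linarith
    set lam := dev / (8 * b ^ 2 * n) with hlam
    have hlam0 : 0 < lam := by positivity
    have hl : 2 * b * lam ≤ 1 := by
      rw [hlam]
      have : 2 * b * (dev / (8 * b ^ 2 * n)) = dev / (4 * b * n) := by field_simp; ring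
      rw [this, div_le_one (by positivity)]
      exact hbig
    -- the exponential moment
    have h1 : (F.card : ℝ) * Real.exp (lam * dev) ≤
        ∑ ω ∈ Fintype.piFinset S, ∏ i, Real.exp (lam * (f i (ω i) -
          (∑ v ∈ S i, f i v) / ((S i).card : ℝ))) := by
      calc (F.card : ℝ) * Real.exp (lam * dev) = ∑ _ω ∈ F, Real.exp (lam * dev) := by
            rw [Finset.sum_const, nsmul_eq_mul]
        _ ≤ ∑ ω ∈ F, ∏ i, Real.exp (lam * (f i (ω i) -
          (∑ v ∈ S i, f i v) / ((S i).card : ℝ))) := by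
            refine Finset.sum_le_sum fun ω hω => ?_
            rw [← Real.exp_sum, Real.exp_le_exp, ← Finset.mul_sum, Finset.sum_sub_distrib]
            refine mul_le_mul_of_nonneg_left ?_ hlam0.le
            have := (Finset.mem_filter.1 hω).2
            linarith
        _ ≤ _ := Finset.sum_le_sum_of_subset_of_nonneg (Finset.filter_subset _ _)
            fun ω _ _ => Finset.prod_nonneg fun i _ => (Real.exp_pos _).le
    rw [← Finset.prod_univ_sum S (fun i v => Real.exp (lam * (f i v -
          (∑ v ∈ S i, f i v) / ((S i).card : ℝ))))] at h1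
    have h2 : ∏ i, ∑ v ∈ S i, Real.exp (lam * (f i v - (∑ v ∈ S i, f i v) / ((S i).card : ℝ))) ≤
        ∏ i, (((S i).card : ℝ) * Real.exp (4 * b ^ 2 * lam ^ 2)) :=
      Finset.prod_le_prod (fun i _ => Finset.sum_nonneg fun v _ => (Real.exp_pos _).le)
        fun i _ => HBL.factor (S i) (f i) b lam (hS i) hb hlam0.le hl (hf i)
    rw [Finset.prod_mul_distrib, Finset.prod_const, Finset.card_univ, ← Real.exp_nat_mul] at h2
    have h3 := h1.trans h2
    have h4 : (F.card : ℝ) ≤ (∏ i, ((S i).card : ℝ)) *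
        Real.exp (n * (4 * b ^ 2 * lam ^ 2)) * Real.exp (-(lam * dev)) := by
      rw [Real.exp_neg, ← div_eq_mul_inv, le_div_iff₀ (Real.exp_pos _)]
      exact h3
    refine h4.trans (le_of_eq ?_)
    rw [mul_assoc, ← Real.exp_add, mul_comm]
    congr 2
    rw [hlam]
    field_simp
    ring

namespace HBL

open Finset Classical

variable {ι V : Type} [Fintype ι] [DecidableEq ι] [DecidableEq V]

/-- recombination -/
def comb {s : ℕ} (j : ι) (ρ : ι × Fin s → V) (v : Fin s → V) : ι × Fin s → V :=
  fun p => if p.1 = j then v p.2 else ρ p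

theorem split {s : ℕ} (S : ι → Finset V) (j : ι) (x₀ : V) (hx₀ : x₀ ∈ S j)
    (F : (ι × Fin s → V) → ℝ) :
    ∑ Ω ∈ Fintype.piFinset (fun p : ι × Fin s => S p.1), F Ω =
      ∑ ρ ∈ Fintype.piFinset (fun p : ι × Fin s => if p.1 = j then ({x₀} : Finset V) else S p.1),
        ∑ v ∈ Fintype.piFinset (fun _ : Fin s => S j), F (comb j ρ v) := by
  rw [← Finset.sum_product']
  refine Finset.sum_nbij' (fun Ω => (fun p => if p.1 = j then x₀ else Ω p, fun a => Ω (j, a)))
    (fun q => comb j q.1 q.2) ?_ ?_ ?_ ?_ ?_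
  · intro Ω hΩ
    rw [Fintype.mem_piFinset] at hΩ
    rw [Finset.mem_product, Fintype.mem_piFinset, Fintype.mem_piFinset]
    constructor
    · intro p
      by_cases hp : p.1 = j
      · simp [hp]
      · simp only [if_neg hp]
        exact hΩ p
    · intro a
      exact hΩ (j, a)
  · rintro ⟨ρ, v⟩ hq
    rw [Finset.mem_product, Fintype.mem_piFinset, Fintype.mem_piFinset] at hq
    rw [Fintype.mem_piFinset]
    intro p
    unfold comb
    by_cases hp : p.1 = j
    · simp only [if_pos hp]
      rw [hp]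
      exact hq.2 p.2
    · simp only [if_neg hp]
      have := hq.1 p
      simpa only [if_neg hp] using this
  · intro Ω _
    funext p
    unfold comb
    by_cases hp : p.1 = j
    · simp only [if_pos hp]
      rw [← hp]
    · simp only [if_neg hp]
  · rintro ⟨ρ, v⟩ hq
    rw [Finset.mem_product, Fintype.mem_piFinset, Fintype.mem_piFinset] at hq
    refine Prod.ext ?_ ?_
    · funext p
      by_cases hp : p.1 = j
      · have := hq.1 p
        simp only [if_pos hp, Finset.mem_singleton] at this
        simp only [if_pos hp]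
        exact this.symm
      · simp only [if_neg hp, comb]
    · funext a
      simp only [comb, if_true]
  · intro Ω _
    congr 1
    funext p
    unfold comb
    by_cases hp : p.1 = j
    · simp only [if_pos hp]
      rw [← hp]
    · simp only [if_neg hp]

theorem sum_first (s : ℕ) (B : Finset V) (q : V → Prop) :
    ∑ v ∈ Fintype.piFinset (fun _ : Fin (s + 1) => B), (if q (v 0) then (1 : ℝ) else 0) =
      ((B.filter q).card : ℝ) * (B.card : ℝ) ^ s := by
  have h : ∀ v : Fin (s + 1) → V, (if q (v 0) then (1 : ℝ) else 0) =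
      ∏ a : Fin (s + 1), (if a = 0 then (if q (v a) then (1 : ℝ) else 0) else 1) := by
    intro v
    rw [Fin.prod_univ_succ]
    simp
  simp_rw [h]
  rw [← Finset.prod_univ_sum (fun _ : Fin (s + 1) => B)
    (fun a x => if a = 0 then (if q x then (1 : ℝ) else 0) else 1), Fin.prod_univ_succ]
  simp

theorem sum_all (s : ℕ) (B : Finset V) (q : V → Prop) :
    ∑ v ∈ Fintype.piFinset (fun _ : Fin s => B), (if ∀ a, q (v a) then (1 : ℝ) else 0) =
      ((B.filter q).card : ℝ) ^ s := by
  have h : ∀ v : Fin s → V, (if ∀ a, q (v a) then (1 : ℝ) else 0) =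
      ∏ a : Fin s, (if q (v a) then (1 : ℝ) else 0) := by
    intro v
    rw [Finset.prod_ite_zero]
    simp
  simp_rw [h]
  rw [← Finset.prod_univ_sum (fun _ : Fin s => B)
    (fun a x => if q x then (1 : ℝ) else 0)]
  simp

/-- the property for the set `T` of duplicated coordinates -/
def PT {s : ℕ} (G : Finset (ι → V)) (T : Finset ι) (Ω : ι × Fin (s + 1) → V) : Prop :=
  ∀ φ : ι → Fin (s + 1), (∀ i ∉ T, φ i = 0) → (fun i => Ω (i, φ i)) ∈ G

theorem PT_old {s : ℕ} (G : Finset (ι → V)) (T : Finset ι) (j : ι) (hj : j ∉ T)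
    (ρ : ι × Fin (s + 1) → V) (v : Fin (s + 1) → V) :
    PT G T (comb j ρ v) ↔ PT G T (comb j ρ (fun _ => v 0)) := by
  unfold PT
  refine forall_congr' fun φ => forall_congr' fun hφ => ?_
  have : (fun i => comb j ρ v (i, φ i)) = (fun i => comb j ρ (fun _ => v 0) (i, φ i)) := by
    funext i
    unfold comb
    by_cases hi : i = j
    · subst hi
      simp [hφ i hj]
    · simp [hi]
  rw [this]

theorem PT_new {s : ℕ} (G : Finset (ι → V)) (T : Finset ι) (j : ι) (hj : j ∉ T)
    (ρ : ι × Fin (s + 1) → V) (v : Fin (s + 1) → V) :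
    PT G (insert j T) (comb j ρ v) ↔ ∀ a, PT G T (comb j ρ (fun _ => v a)) := by
  constructor
  · intro h a φ hφ
    have h1 := h (Function.update φ j a) (fun i hi => by
      rw [Finset.mem_insert, not_or] at hi
      rw [Function.update_of_ne hi.1]
      exact hφ i hi.2)
    have : (fun i => comb j ρ (fun _ => v a) (i, φ i)) =
        (fun i => comb j ρ v (i, Function.update φ j a i)) := by
      funext i
      unfold comb
      by_cases hi : i = j
      · subst hi
        simp
      · simp [hi]
    rw [this]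
    exact h1
  · intro h φ hφ
    have h1 := h (φ j) (Function.update φ j 0) (fun i hi => by
      by_cases hij : i = j
      · subst hij
        simp
      · rw [Function.update_of_ne hij]
        exact hφ i (by rw [Finset.mem_insert, not_or]; exact ⟨hij, hi⟩))
    have : (fun i => comb j ρ v (i, φ i)) =
        (fun i => comb j ρ (fun _ => v (φ j)) (i, Function.update φ j 0 i)) := by
      funext i
      unfold comb
      by_cases hi : i = j
      · subst hi
        simp
      · simp [hi]
    rw [this]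
    exact h1

theorem card_all {s : ℕ} (S : ι → Finset V) :
    ((Fintype.piFinset (fun p : ι × Fin s => S p.1)).card : ℝ) = ∏ i, ((S i).card : ℝ) ^ s := by
  rw [Fintype.card_piFinset]
  push_cast
  rw [Fintype.prod_prod_type]
  simp

theorem main {s : ℕ} (S : ι → Finset V) (hS : ∀ i, (S i).Nonempty) (G : Finset (ι → V)) (c : ℝ)
    (hG : G ⊆ Fintype.piFinset S) (hc : 0 ≤ c)
    (hcG : c * ∏ i, ((S i).card : ℝ) ≤ (G.card : ℝ)) (T : Finset ι) :
    c ^ ((s + 1) ^ T.card) * ∏ i, ((S i).card : ℝ) ^ (s + 1) ≤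
      ∑ Ω ∈ Fintype.piFinset (fun p : ι × Fin (s + 1) => S p.1),
        (if PT G T Ω then (1 : ℝ) else 0) := by
  induction T using Finset.induction_on with
  | empty =>
    rw [Finset.card_empty, pow_zero, pow_one, Finset.sum_boole]
    have h1 : (G ×ˢ Fintype.piFinset (fun p : ι × Fin s => S p.1)).card ≤
        ((Fintype.piFinset (fun p : ι × Fin (s + 1) => S p.1)).filter
          (fun Ω => PT G ∅ Ω)).card := by
      refine Finset.card_le_card_of_injOn
        (fun q => fun p => Fin.cases (q.1 p.1) (fun a => q.2 (p.1, a)) p.2) ?_ ?_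
      · rintro ⟨g, τ⟩ hq
        rw [Finset.mem_coe, Finset.mem_product] at hq
        have hg := Fintype.mem_piFinset.1 (hG hq.1)
        have hτ := Fintype.mem_piFinset.1 hq.2
        rw [Finset.mem_coe, Finset.mem_filter, Fintype.mem_piFinset]
        constructor
        · rintro ⟨i, a⟩
          refine Fin.cases ?_ (fun a => ?_) a
          · exact hg i
          · exact hτ (i, a)
        · intro φ hφ
          have : φ = fun _ => 0 := funext fun i => hφ i (Finset.notMem_empty i)
          subst this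
          exact hq.1
      · rintro ⟨g, τ⟩ _ ⟨g', τ'⟩ _ h
        refine Prod.ext ?_ ?_
        · funext i
          exact congrFun h (i, 0)
        · funext p
          exact congrFun h (p.1, p.2.succ)
    have h2 : ((G.card : ℝ)) * ∏ i, ((S i).card : ℝ) ^ s ≤
        (((Fintype.piFinset (fun p : ι × Fin (s + 1) => S p.1)).filter
          (fun Ω => PT G ∅ Ω)).card : ℝ) := by
      rw [← card_all, ← Nat.cast_mul, ← Finset.card_product]
      exact_mod_cast h1
    refine le_trans ?_ h2
    have h3 : c * ∏ i, ((S i).card : ℝ) ^ (s + 1) =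
        (c * ∏ i, ((S i).card : ℝ)) * ∏ i, ((S i).card : ℝ) ^ s := by
      rw [mul_assoc, ← Finset.prod_mul_distrib]
      congr 1
      exact Finset.prod_congr rfl fun i _ => by ring
    rw [h3]
    exact mul_le_mul_of_nonneg_right hcG (Finset.prod_nonneg fun i _ => by positivity)
  | insert j T hj ih =>
    obtain ⟨x₀, hx₀⟩ := hS j
    set R := Fintype.piFinset (fun p : ι × Fin (s + 1) => if p.1 = j then ({x₀} : Finset V)
      else S p.1) with hR
    set D : (ι × Fin (s + 1) → V) → Finset V :=
      fun ρ => (S j).filter (fun x => PT G T (comb j ρ (fun _ => x))) with hD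
    have e1 : ∑ Ω ∈ Fintype.piFinset (fun p : ι × Fin (s + 1) => S p.1),
        (if PT G T Ω then (1 : ℝ) else 0) =
        ∑ ρ ∈ R, ((D ρ).card : ℝ) * ((S j).card : ℝ) ^ s := by
      rw [split S j x₀ hx₀]
      refine Finset.sum_congr rfl fun ρ _ => ?_
      rw [← sum_first s (S j) (fun x => PT G T (comb j ρ (fun _ => x)))]
      refine Finset.sum_congr rfl fun v _ => ?_
      simp only [PT_old G T j hj ρ v]
    have e2 : ∑ Ω ∈ Fintype.piFinset (fun p : ι × Fin (s + 1) => S p.1),
        (if PT G (insert j T) Ω then (1 : ℝ) else 0) =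
        ∑ ρ ∈ R, ((D ρ).card : ℝ) ^ (s + 1) := by
      rw [split S j x₀ hx₀]
      refine Finset.sum_congr rfl fun ρ _ => ?_
      rw [← sum_all (s + 1) (S j) (fun x => PT G T (comb j ρ (fun _ => x)))]
      refine Finset.sum_congr rfl fun v _ => ?_
      simp only [PT_new G T j hj ρ v]
    have e3 : ∏ i, ((S i).card : ℝ) ^ (s + 1) = (R.card : ℝ) * ((S j).card : ℝ) ^ (s + 1) := by
      rw [← card_all]
      have := split (s := s + 1) S j x₀ hx₀ (fun _ => (1 : ℝ))
      simp only [Finset.sum_const, nsmul_eq_mul, mul_one, Fintype.card_piFinset_const] at this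
      rw [this]
      push_cast
      rfl
    rw [e1, e3, ← Finset.sum_mul] at ih
    rw [e2, e3, Finset.card_insert_of_notMem hj, pow_succ (s + 1) T.card, pow_mul]
    set b := ((S j).card : ℝ) with hb
    have hb0 : 0 < b := by rw [hb]; exact_mod_cast (hS j).card_pos
    set C := c ^ ((s + 1) ^ T.card) with hC
    have hC0 : 0 ≤ C := pow_nonneg hc _
    have hR0 : (0 : ℝ) < R.card := by
      have : R.Nonempty := by
        rw [hR, Fintype.piFinset_nonempty]
        intro p
        by_cases hp : p.1 = j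
        · simp [hp]
        · simp only [if_neg hp]
          exact hS p.1
      exact_mod_cast this.card_pos
    have h1 : C * R.card * b ≤ ∑ ρ ∈ R, ((D ρ).card : ℝ) := by
      have : (C * R.card * b) * b ^ s ≤ (∑ ρ ∈ R, ((D ρ).card : ℝ)) * b ^ s := by
        calc (C * R.card * b) * b ^ s = C * (R.card * b ^ (s + 1)) := by ring
          _ ≤ _ := ih
      exact le_of_mul_le_mul_right this (by positivity)
    have h3 := pow_sum_div_card_le_sum_pow (s := R) (f := fun ρ => ((D ρ).card : ℝ))
      (fun _ _ => Nat.cast_nonneg _) s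
    refine le_trans ?_ h3
    rw [le_div_iff₀ (by positivity)]
    calc C ^ (s + 1) * (R.card * b ^ (s + 1)) * (R.card : ℝ) ^ s = (C * R.card * b) ^ (s + 1) := by
          ring
      _ ≤ _ := pow_le_pow_left₀ (by positivity) h1 _

end HBL

open Finset Classical in
theorem blow : S_BLOW := by
  intro ι V _ _ _ S G c s hG hc hs hcG
  obtain ⟨s, rfl⟩ : ∃ s', s = s' + 1 := ⟨s - 1, by omega⟩
  by_cases hS : ∀ i, (S i).Nonempty
  · have h := HBL.main (s := s) S hS G c hG hc hcG Finset.univ
    rw [Finset.sum_boole, Finset.card_univ] at h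
    refine h.trans (le_of_eq ?_)
    congr 2
    ext Ω
    simp only [Finset.mem_filter]
    refine and_congr_right fun _ => ?_
    unfold HBL.PT
    refine forall_congr' fun φ => ?_
    simp
  · push Not at hS
    obtain ⟨i, hi⟩ := hS
    have h0 : ∏ i, ((S i).card : ℝ) ^ (s + 1) = 0 := by
      refine Finset.prod_eq_zero (Finset.mem_univ i) ?_
      simp [hi]
    rw [h0, mul_zero]
    exact Nat.cast_nonneg _

end Pool.Agent.H48.PW
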