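import Pool.Agent.H48.PW.Stm

set_option autoImplicit false

namespace Pool.Agent.H48.PW

namespace KT2L

open Finset

/-- greedy extension of a clique by one vertex -/
theorem extend {t K μ ν N : ℕ} {Γ : ℕ → ℕ → Prop} (hK : t * (μ + ν) + 1 ≤ K) (hΓ : LG N K μ Γ)
    (e : ℕ) (he : e + 2 ≤ t + 1) (Z : Finset ℕ) (hZ : Clq N K Γ Z) (hc : Z.card = e + 2)
    (lo hi : ℕ) (hlh : lo ≤ hi) (hs : hi ≤ lo + (e * (μ + ν) + 1)) (hlo : ∀ z ∈ Z, lo ≤ z)
    (hhi : ∀ z ∈ Z, z ≤ hi) (hb1 : K ≤ lo) (hb2 : hi + K < N) :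
    ∃ w, w ∉ Z ∧ Clq N K Γ (insert w Z) ∧ hi ≤ w + ((e + 1) * (μ + ν) + 1) ∧
      w ≤ lo + ((e + 1) * (μ + ν) + 1) := by
  classical
  set q := μ + ν with hq
  set R := (e + 1) * q + 1 with hR
  have hRK : R ≤ K := by
    refine le_trans ?_ hK
    rw [hR]
    have : (e + 1) * q ≤ t * q := Nat.mul_le_mul_right _ (by omega)
    omega
  have hsR : e * q + 1 ≤ R := by
    rw [hR]
    have : e * q ≤ (e + 1) * q := Nat.mul_le_mul_right _ (by omega)
    omega
  have hSex : ∀ z, ∃ S : Finset ℕ, z ∈ Z → (S.card ≤ μ ∧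
      ∀ y, y < N → z ≤ y + K → y ≤ z + K → ¬ Γ z y → y ∈ S) := by
    intro z
    by_cases hz : z ∈ Z
    · obtain ⟨S, h1, h2⟩ := hΓ.miss z (hZ.1 z hz)
      exact ⟨S, fun _ => ⟨h1, h2⟩⟩
    · exact ⟨∅, fun h => absurd h hz⟩
  choose S hS using hSex
  have hcard : (Z.biUnion S).card ≤ (e + 2) * μ := by
    refine (Finset.card_biUnion_le).trans ?_
    rw [← hc]
    exact Finset.sum_le_card_nsmul _ _ _ fun z hz => (hS z hz).1
  have hW : (e + 2) * μ < (Icc (hi - R) (lo + R)).card := by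
    rw [Nat.card_Icc]
    have h1 : (e + 2) * μ ≤ (e + 2) * q := Nat.mul_le_mul_left _ (by omega)
    have h2 : (e + 2) * q = e * q + 2 * q := by ring
    have h3 : R = e * q + q + 1 := by rw [hR]; ring
    omega
  obtain ⟨w, hw, hwS⟩ : ∃ w ∈ Icc (hi - R) (lo + R), w ∉ Z.biUnion S := by
    by_contra hcon
    push Not at hcon
    have := Finset.card_le_card hcon
    omega
  rw [Finset.mem_Icc] at hw
  have hadj : ∀ z ∈ Z, Γ z w := by
    intro z hz
    by_contra hcon
    apply hwS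
    rw [Finset.mem_biUnion]
    have h1 := hlo z hz
    have h2 := hhi z hz
    exact ⟨z, hz, (hS z hz).2 w (by omega) (by omega) (by omega) hcon⟩
  have hwZ : w ∉ Z := fun h => hΓ.irrefl w (hadj w h)
  refine ⟨w, hwZ, ⟨?_, ?_⟩, by omega, by omega⟩
  · intro x hx
    rcases Finset.mem_insert.1 hx with rfl | hx
    · omega
    · exact hZ.1 x hx
  · intro x hx y hy hxy
    rcases Finset.mem_insert.1 hx with hx' | hx' <;> rcases Finset.mem_insert.1 hy with hy' | hy'
    · exact absurd (hx'.trans hy'.symm) hxy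
    · subst hx'
      have h1 := hlo y hy'
      have h2 := hhi y hy'
      exact ⟨by omega, hZ.1 y hy', by omega, by omega, hΓ.symm _ _ (hadj y hy')⟩
    · subst hy'
      have h1 := hlo x hx'
      have h2 := hhi x hx'
      exact ⟨hZ.1 x hx', by omega, by omega, by omega, hadj x hx'⟩
    · exact hZ.2 x hx' y hy' hxy

theorem grow {t K μ ν N : ℕ} {Γ : ℕ → ℕ → Prop} (hK : t * (μ + ν) + 1 ≤ K) (hΓ : LG N K μ Γ)
    (x0 : ℕ) (h1 : 2 * K ≤ x0) (h2 : x0 + 2 * K < N) (Z : Finset ℕ) (hZ : Clq N K Γ Z)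
    (hc : Z.card = 3) (hx0 : x0 ∈ Z) (lo hi : ℕ) (hs : hi ≤ lo + (μ + ν + 1))
    (hlo : ∀ z ∈ Z, lo ≤ z) (hhi : ∀ z ∈ Z, z ≤ hi) (ht : 1 ≤ t) :
    ∀ e, 1 ≤ e → e ≤ t → ∃ Z : Finset ℕ, Clq N K Γ Z ∧ Z.card = e + 2 ∧ x0 ∈ Z ∧
      ∃ lo hi, hi ≤ lo + (e * (μ + ν) + 1) ∧ (∀ z ∈ Z, lo ≤ z) ∧ (∀ z ∈ Z, z ≤ hi) := by
  classical
  intro e he
  induction e, he using Nat.le_induction with
  | base => intro _; exact ⟨Z, hZ, hc, hx0, lo, hi, by omega, hlo, hhi⟩
  | succ e he ih =>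
    intro het
    obtain ⟨Z', hZ', hc', hx', lo', hi', hs', hlo', hhi'⟩ := ih (by omega)
    have hb : e * (μ + ν) + 1 ≤ K := by
      have : e * (μ + ν) ≤ t * (μ + ν) := Nat.mul_le_mul_right _ (by omega)
      omega
    have g1 := hlo' x0 hx'
    have g2 := hhi' x0 hx'
    obtain ⟨w, hw1, hw2, hw3, hw4⟩ := extend hK hΓ e (by omega) Z' hZ' hc' lo' hi' (by omega) hs'
      hlo' hhi' (by omega) (by omega)
    have hmono : e * (μ + ν) ≤ (e + 1) * (μ + ν) := Nat.mul_le_mul_right _ (by omega)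
    refine ⟨insert w Z', hw2, ?_, Finset.mem_insert_of_mem hx', min lo' w, max hi' w, ?_, ?_, ?_⟩
    · rw [Finset.card_insert_of_notMem hw1, hc']
    · rcases le_total lo' w with h | h <;> rcases le_total hi' w with h' | h' <;>
        simp only [min_eq_left h, min_eq_right h, max_eq_left h', max_eq_right h'] <;> omega
    · intro z hz
      rcases Finset.mem_insert.1 hz with rfl | hz
      · exact min_le_right _ _
      · exact (min_le_left _ _).trans (hlo' z hz)
    · intro z hz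
      rcases Finset.mem_insert.1 hz with rfl | hz
      · exact le_max_right _ _
      · exact (hhi' z hz).trans (le_max_left _ _)

/-- the counting argument for the triangle -/
theorem triangle {K μ ν N : ℕ} {Γ : ℕ → ℕ → Prop} (hν : 1 ≤ ν) (hK : μ + ν + 1 ≤ K)
    (hΓ : LG N K μ Γ) (x y g lo hi : ℕ) (hg : 1 ≤ g) (hgμ : g ≤ μ)
    (hxy : (x = lo ∧ y = hi) ∨ (x = hi ∧ y = lo)) (hlh : hi = lo + g)
    (hb1 : 2 * K ≤ lo) (hb2 : hi + 2 * K < N) (hxyΓ : Γ x y)
    (hx : ∀ z, z < x + g → x < z + g → ¬ Γ x z)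
    (hy : ∀ z, z + ν ≤ y + g → y + ν ≤ z + g → ¬ Γ y z) :
    ∃ z, Γ x z ∧ Γ y z ∧ hi ≤ z + (μ + ν + 1) ∧ z ≤ lo + (μ + ν + 1) ∧ z < N := by
  classical
  have hxr : 2 * K ≤ x ∧ x + 2 * K < N := by omega
  have hyr : 2 * K ≤ y ∧ y + 2 * K < N := by omega
  obtain ⟨Sx, hSx, hSx'⟩ := hΓ.miss x (by omega)
  obtain ⟨Sy, hSy, hSy'⟩ := hΓ.miss y (by omega)
  set R := μ + ν + 1 with hR
  -- points missed by `x` because they are near
  have hBx : Icc (x + 1 - g) (x + g - 1) ⊆ Sx := by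
    intro z hz
    rw [Finset.mem_Icc] at hz
    exact hSx' z (by omega) (by omega) (by omega) (hx z (by omega) (by omega))
  have hBxc : (Icc (x + 1 - g) (x + g - 1)).card = 2 * g - 1 := by
    rw [Nat.card_Icc]; omega
  have hg2 : 2 * g - 1 ≤ μ := by
    rw [← hBxc]; exact (Finset.card_le_card hBx).trans hSx
  by_contra hcon
  push Not at hcon
  set A := Icc (hi - R) (lo - g) ∪ Icc (hi + g) (lo + R) with hA
  have hAc : A.card = 2 * (R + 1 - 2 * g) := by
    rw [hA, Finset.card_union_of_disjoint]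
    · rw [Nat.card_Icc, Nat.card_Icc]; omega
    · rw [Finset.disjoint_left]
      intro z h1 h2
      rw [Finset.mem_Icc] at h1 h2
      omega
  have hAm : ∀ z ∈ A, (hi - R ≤ z ∧ z ≤ lo - g) ∨ (hi + g ≤ z ∧ z ≤ lo + R) := by
    intro z hz
    rw [hA, Finset.mem_union, Finset.mem_Icc, Finset.mem_Icc] at hz
    exact hz
  have hsub : A ⊆ (Sx \ Icc (x + 1 - g) (x + g - 1)) ∪
      (Sy \ (if g ≤ ν then ∅ else Icc (y - (g - ν)) (y + (g - ν)))) := by
    intro z hz
    have hz' := hAm z hz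
    rw [Finset.mem_union]
    by_cases hxz : Γ x z
    · right
      have hyz : ¬ Γ y z := by
        intro hyz
        have := hcon z hxz hyz (by omega) (by omega)
        omega
      rw [Finset.mem_sdiff]
      refine ⟨hSy' z (by omega) (by omega) (by omega) hyz, ?_⟩
      split_ifs with h
      · simp
      · rw [Finset.mem_Icc]; omega
    · left
      rw [Finset.mem_sdiff, Finset.mem_Icc]
      exact ⟨hSx' z (by omega) (by omega) (by omega) hxz, by omega⟩
  have hc1 : (Sx \ Icc (x + 1 - g) (x + g - 1)).card ≤ μ - (2 * g - 1) := by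
    rw [Finset.card_sdiff_of_subset hBx, hBxc]; omega
  have hc3 := (Finset.card_le_card hsub).trans (Finset.card_union_le _ _)
  rw [hAc] at hc3
  by_cases hgν : g ≤ ν
  · have hc2 : (Sy \ (if g ≤ ν then ∅ else Icc (y - (g - ν)) (y + (g - ν)))).card ≤ μ := by
      rw [if_pos hgν, Finset.sdiff_empty]; exact hSy
    omega
  · have hBy : Icc (y - (g - ν)) (y + (g - ν)) ⊆ Sy := by
      intro z hz
      rw [Finset.mem_Icc] at hz
      exact hSy' z (by omega) (by omega) (by omega) (hy z (by omega) (by omega))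
    have hByc : (Icc (y - (g - ν)) (y + (g - ν))).card = 2 * (g - ν) + 1 := by
      rw [Nat.card_Icc]; omega
    have hc4 : 2 * (g - ν) + 1 ≤ μ := by
      rw [← hByc]; exact (Finset.card_le_card hBy).trans hSy
    have hc2 : (Sy \ (if g ≤ ν then ∅ else Icc (y - (g - ν)) (y + (g - ν)))).card ≤
        μ - (2 * (g - ν) + 1) := by
      rw [if_neg hgν, Finset.card_sdiff_of_subset hBy, hByc]; omega
    omega

end KT2L

open Finset in
theorem kt2 : S_KT2 := by
  classical
  intro t K μ ν N Γ ht hν hK hΓ a ha1 ha2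
  set Λ := μ / ν + 1 with hΛ
  have hΛν : μ < Λ * ν := by
    have h1 := Nat.div_add_mod μ ν
    have h2 := Nat.mod_lt μ (by omega : 0 < ν)
    have h3 : Λ * ν = ν * (μ / ν) + ν := by rw [hΛ]; ring
    omega
  have hK1 : μ + ν + 1 ≤ K := by
    have : μ + ν ≤ t * (μ + ν) := Nat.le_mul_of_pos_left _ ht
    omega
  -- a neighbour of `a`
  obtain ⟨y0, hy0, hay0⟩ : ∃ y0, (a < y0 ∧ y0 ≤ a + μ) ∧ Γ a y0 := by
    obtain ⟨S, hS, hS'⟩ := hΓ.miss a (by omega)
    by_contra hcon
    push Not at hcon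
    have hsub : Icc a (a + μ) ⊆ S := by
      intro z hz
      rw [Finset.mem_Icc] at hz
      refine hS' z (by omega) (by omega) (by omega) ?_
      by_cases hza : z = a
      · rw [hza]; exact hΓ.irrefl a
      · exact hcon z ⟨by omega, by omega⟩
    have := Finset.card_le_card hsub
    rw [Nat.card_Icc] at this
    omega
  -- the minimal pair
  let P : ℕ → Prop := fun v => ∃ x y, LA N K Γ x y ∧ v = Λ * ((x - y) + (y - x)) + ((x - a) + (a - x))
  have hP : ∃ v, P v :=
    ⟨Λ * ((a - y0) + (y0 - a)) + ((a - a) + (a - a)), a, y0,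
      ⟨by omega, by omega, by omega, by omega, hay0⟩, rfl⟩
  obtain ⟨x, y, hxy, hv⟩ := Nat.find_spec hP
  have hmin : ∀ x' y', LA N K Γ x' y' → Nat.find hP ≤
      Λ * ((x' - y') + (y' - x')) + ((x' - a) + (a - x')) :=
    fun x' y' h => Nat.find_min' hP ⟨x', y', h, rfl⟩
  have hle0 := hmin a y0 ⟨by omega, by omega, by omega, by omega, hay0⟩
  rw [hv] at hle0 hmin
  clear hv
  have hle1 : Λ * ((a - y0) + (y0 - a)) + ((a - a) + (a - a)) ≤ Λ * μ := by
    have : Λ * ((a - y0) + (y0 - a)) ≤ Λ * μ := Nat.mul_le_mul_left _ (by omega)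
    omega
  obtain ⟨hxN, hyN, hxy1, hxy2, hxyΓ⟩ := hxy
  set g := (x - y) + (y - x) with hg
  have hΛpos : 0 < Λ := Nat.succ_pos _
  have hgμ : g ≤ μ := by
    have : Λ * g ≤ Λ * μ := le_trans (le_trans (Nat.le_add_right _ _) hle0) hle1
    exact Nat.le_of_mul_le_mul_left this hΛpos
  have hxa : (x - a) + (a - x) ≤ Λ * μ := le_trans (le_trans (Nat.le_add_left _ _) hle0) hle1
  have hg1 : 1 ≤ g := by
    by_contra h
    have : x = y := by omega
    rw [this] at hxyΓ
    exact hΓ.irrefl y hxyΓ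
  have hKμ : μ ≤ K := by omega
  -- no near neighbours
  have hx : ∀ z, z < x + g → x < z + g → ¬ Γ x z := by
    intro z h1 h2 hxz
    have h3 := hmin x z ⟨hxN, by omega, by omega, by omega, hxz⟩
    have h4 : Λ * ((x - z) + (z - x)) < Λ * g := Nat.mul_lt_mul_of_pos_left (by omega) hΛpos
    omega
  have hy : ∀ z, z + ν ≤ y + g → y + ν ≤ z + g → ¬ Γ y z := by
    intro z h1 h2 hyz
    have h3 := hmin y z ⟨hyN, by omega, by omega, by omega, hyz⟩
    have h4 : Λ * ((y - z) + (z - y) + ν) ≤ Λ * g := Nat.mul_le_mul_left _ (by omega)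
    rw [Nat.mul_add] at h4
    omega
  have hxr : 3 * K ≤ x ∧ x + 3 * K < N := by omega
  obtain ⟨lo, hi, hxy', hlh⟩ : ∃ lo hi, ((x = lo ∧ y = hi) ∨ (x = hi ∧ y = lo)) ∧ hi = lo + g := by
    rcases le_total x y with h | h
    · exact ⟨x, y, Or.inl ⟨rfl, rfl⟩, by omega⟩
    · exact ⟨y, x, Or.inr ⟨rfl, rfl⟩, by omega⟩
  obtain ⟨z, hxz, hyz, hz1, hz2, hzN⟩ := KT2L.triangle hν hK1 hΓ x y g lo hi hg1 hgμ hxy' hlh
    (by omega) (by omega) hxyΓ hx hy
  have hne1 : x ≠ y := fun h => by omega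
  have hne2 : x ≠ z := fun h => hΓ.irrefl z (h ▸ hxz)
  have hne3 : y ≠ z := fun h => hΓ.irrefl z (h ▸ hyz)
  -- the triangle as a clique
  have hLAxz : LA N K Γ x z := ⟨hxN, hzN, by omega, by omega, hxz⟩
  have hLAyz : LA N K Γ y z := ⟨hyN, hzN, by omega, by omega, hyz⟩
  have hLAxy : LA N K Γ x y := ⟨hxN, hyN, hxy1, hxy2, hxyΓ⟩
  have hLAs : ∀ u v, LA N K Γ u v → LA N K Γ v u :=
    fun u v h => ⟨h.2.1, h.1, h.2.2.2.1, h.2.2.1, hΓ.symm _ _ h.2.2.2.2⟩
  have hZ : Clq N K Γ ({x, y, z} : Finset ℕ) := by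
    constructor
    · intro w hw
      simp only [Finset.mem_insert, Finset.mem_singleton] at hw
      rcases hw with rfl | rfl | rfl <;> assumption
    · intro u hu v hv huv
      simp only [Finset.mem_insert, Finset.mem_singleton] at hu hv
      rcases hu with rfl | rfl | rfl <;> rcases hv with rfl | rfl | rfl <;>
        first
        | exact absurd rfl huv
        | assumption
        | exact hLAs _ _ (by assumption)
  have hZc : ({x, y, z} : Finset ℕ).card = 3 := by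
    rw [Finset.card_insert_of_notMem, Finset.card_insert_of_notMem, Finset.card_singleton]
    · simpa using hne3
    · simp [hne1, hne2]
  obtain ⟨C, hC, hCc, hxC, lo', hi', hsp, hl, hh⟩ := KT2L.grow hK hΓ x (by omega) (by omega)
    {x, y, z} hZ hZc (by simp) (min lo z) (max hi z) (by
      rcases le_total lo z with h | h <;> rcases le_total hi z with h' | h' <;>
        simp only [min_eq_left h, min_eq_right h, max_eq_left h', max_eq_right h'] <;> omega)
    (by
      intro w hw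
      simp only [Finset.mem_insert, Finset.mem_singleton] at hw
      rw [min_le_iff]
      omega)
    (by
      intro w hw
      simp only [Finset.mem_insert, Finset.mem_singleton] at hw
      rw [le_max_iff]
      omega) ht t ht le_rfl
  refine ⟨C, hC, hCc, fun w hw => ?_⟩
  have g1 := hl w hw
  have g2 := hh w hw
  have g3 := hl x hxC
  have g4 := hh x hxC
  omega

end Pool.Agent.H48.PW
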