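import Pool.Agent.H48.PW.Stm
import Pool.Graph.R_pool_sql_team_seeded_1e53cb71.Helper83K9.CF.Pot
import Pool.Graph.R_pool_sql_team_seeded_1e53cb71.Helper83K9.CF.Bal

/-! # Leaf POT2: the leaves POT and BAL with deficiencies (adapted from the library). -/

set_option autoImplicit false

namespace Pool.Agent.H48.PW

open Finset Pool.Agent.Helper83K9.CF

namespace POT2L

open Pool.Agent.Helper83K9.CF.PotL

variable {V : Type} [Fintype V] [DecidableEq V]

/-- one test, one step -/
lemma step2 {t k : ℕ} {d κ η lam s B : ℝ} (hd : 0 < d) (hκ : 0 < κ) (hη : 0 ≤ η) (hη1 : η ≤ 1)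
    (P : Finset V) (hP : (P.card : ℝ) ≤ 3 * k) (r e a a' : V → ℝ) (w : Finset V → ℝ)
    (hs : 0 < s) (hs1 : s ≤ 1) (hW : ∑ K, w K = 1 / s) (hsk : s * k ≤ 1 / κ)
    (hw : ∀ K, 0 ≤ w K) (hwt : ∀ K, w K ≠ 0 → K.card = t)
    (hr : ∀ v, 0 ≤ r v ∧ r v ≤ 1) (he : ∀ v, 0 ≤ e v ∧ e v ≤ η)
    (ha : ∀ v, 0 ≤ a v) (had : ∀ v, a v ≤ 1 / d)
    (ha' : ∀ v, a' v = a v * Real.exp (s * r v)) (had' : ∀ v, a' v ≤ 1 / d)
    (hc : ∀ v ∈ P, ∑ K, (if v ∈ K then w K else 0) ≤ r v + e v)
    (hdef : ∑ v ∈ P, max 0 (r v - ∑ K, (if v ∈ K then w K else 0)) ≤ η * k)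
    (hB : B = 6 / (d * κ) + t / d) (hlam : 0 < lam) (hlB : lam * B ≤ 1) :
    ∑ K, w K * Real.exp (lam * Del P a a' K) ≤ 1 / s + k * (lam * (3 / d) * (s + 3 * η) + 12 * lam ^ 2 * B / d) ∧
      ∑ K, w K * Real.exp (-(lam * Del P a a' K)) ≤
        1 / s + k * (lam * (3 / d) * (s + 3 * η) + 12 * lam ^ 2 * B / d) := by
  have hB0 : 0 ≤ B := by rw [hB]; positivity
  have ha'0 : ∀ v, 0 ≤ a' v := fun v => by rw [ha']; exact mul_nonneg (ha v) (Real.exp_pos _).le
  have hdiff : ∀ v, 0 ≤ a' v - a v ∧ a' v - a v ≤ 2 * s / d := by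
    intro v
    have hx0 : 0 ≤ s * r v := mul_nonneg hs.le (hr v).1
    have hxs : s * r v ≤ s := mul_le_of_le_one_right hs.le (hr v).2
    have e1 : a' v - a v = a v * (Real.exp (s * r v) - 1) := by rw [ha']; ring
    have e2 : 0 ≤ Real.exp (s * r v) - 1 := by
      have := Real.add_one_le_exp (s * r v)
      linarith
    have e3 := exp_le_lin hx0 (hxs.trans hs1)
    rw [e1]
    refine ⟨mul_nonneg (ha v) e2, ?_⟩
    calc a v * (Real.exp (s * r v) - 1) ≤ (1 / d) * (2 * s) := mul_le_mul (had v) (by linarith) e2 (by positivity)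
      _ = 2 * s / d := by ring
  -- first moment
  have hm1 : -(3 * k * ((1 / d) * (s + 3 * η))) ≤ ∑ K, w K * Del P a a' K ∧
      ∑ K, w K * Del P a a' K ≤ 3 * k * ((1 / d) * (s + 3 * η)) := by
    rw [swap, hW]
    have hp : ∀ v ∈ P, -((1 / d) * (s + 3 * η)) ≤ (1 / s) * (a' v - a v) - (∑ K, (if v ∈ K then w K else 0)) * a' v ∧
        (1 / s) * (a' v - a v) - (∑ K, (if v ∈ K then w K else 0)) * a' v ≤
          (1 / d) * max 0 (r v - ∑ K, (if v ∈ K then w K else 0)) := by
      intro v hv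
      obtain ⟨c, hcd⟩ : ∃ c : ℝ, c = ∑ K, (if v ∈ K then w K else 0) := ⟨_, rfl⟩
      have hcv := hc v hv
      rw [← hcd] at hcv ⊢
      have he0 := (he v).1
      have h1 := point (c := max c (r v)) (ha v) (had v) hs hs1 (hr v).1 (hr v).2 (le_max_right _ _)
        (max_le hcv (by linarith)) (he v).2 hη
      rw [← ha' v] at h1
      have h2 : max c (r v) = c + max 0 (r v - c) := by
        rcases le_total c (r v) with h | h
        · rw [max_eq_right h, max_eq_right (by linarith)]; ring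
        · rw [max_eq_left h, max_eq_left (by linarith)]; ring
      have h3 : 0 ≤ max 0 (r v - c) := le_max_left _ _
      have h4 : 0 ≤ max 0 (r v - c) * a' v := mul_nonneg h3 (ha'0 v)
      have h5 : max 0 (r v - c) * a' v ≤ max 0 (r v - c) * (1 / d) := mul_le_mul_of_nonneg_left (had' v) h3
      rw [h2] at h1
      constructor
      · linarith [h1.1]
      · linarith [h1.2]
    constructor
    · have h1 : ∑ _v ∈ P, -((1 / d) * (s + 3 * η)) ≤
          ∑ v ∈ P, ((1 / s) * (a' v - a v) - (∑ K, (if v ∈ K then w K else 0)) * a' v) :=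
        sum_le_sum fun v hv => (hp v hv).1
      rw [sum_const, nsmul_eq_mul] at h1
      have h2 : (P.card : ℝ) * ((1 / d) * (s + 3 * η)) ≤ 3 * k * ((1 / d) * (s + 3 * η)) :=
        mul_le_mul_of_nonneg_right hP (by positivity)
      linarith
    · have h1 : ∑ v ∈ P, ((1 / s) * (a' v - a v) - (∑ K, (if v ∈ K then w K else 0)) * a' v) ≤
          ∑ v ∈ P, (1 / d) * max 0 (r v - ∑ K, (if v ∈ K then w K else 0)) :=
        sum_le_sum fun v hv => (hp v hv).2
      rw [← mul_sum] at h1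
      have h2 : (1 / d) * ∑ v ∈ P, max 0 (r v - ∑ K, (if v ∈ K then w K else 0)) ≤ (1 / d) * (η * k) :=
        mul_le_mul_of_nonneg_left hdef (by positivity)
      have h3 : (0 : ℝ) ≤ (1 / d) * (η * k) := by positivity
      have h4 : (0 : ℝ) ≤ (1 / d) * (s * k) := by positivity
      have h5 : 3 * (k : ℝ) * ((1 / d) * (s + 3 * η)) = 3 * ((1 / d) * (s * k)) + 9 * ((1 / d) * (η * k)) := by ring
      rw [h5]
      linarith
  -- absolute values
  have habs : ∀ K, |Del P a a' K| ≤ ∑ v ∈ P, ((a' v - a v) + (if v ∈ K then a' v else 0)) := by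
    intro K
    unfold Del
    refine (abs_sum_le_sum_abs _ _).trans (sum_le_sum fun v _ => ?_)
    have := (hdiff v).1
    have h0 := ha'0 v
    have h1 := ha v
    by_cases h : v ∈ K
    · simp only [h, if_true]
      rw [abs_le]; constructor <;> linarith
    · simp only [h, if_false]
      rw [abs_le]; constructor <;> linarith
  have hbd : ∀ K, w K ≠ 0 → |Del P a a' K| ≤ B := by
    intro K hK
    refine (habs K).trans ?_
    rw [sum_add_distrib]
    have h1 : ∑ v ∈ P, (a' v - a v) ≤ 6 / (d * κ) := by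
      calc ∑ v ∈ P, (a' v - a v) ≤ ∑ _v ∈ P, 2 * s / d := sum_le_sum fun v _ => (hdiff v).2
        _ = P.card * (2 * s / d) := by rw [sum_const, nsmul_eq_mul]
        _ ≤ 3 * k * (2 * s / d) := mul_le_mul_of_nonneg_right hP (by positivity)
        _ = (6 / d) * (s * k) := by ring
        _ ≤ (6 / d) * (1 / κ) := mul_le_mul_of_nonneg_left hsk (by positivity)
        _ = 6 / (d * κ) := by field_simp
    have h2 : ∑ v ∈ P, (if v ∈ K then a' v else 0) ≤ t / d := by
      rw [← sum_filter]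
      calc ∑ v ∈ P.filter (fun v => v ∈ K), a' v ≤ ∑ _v ∈ P.filter (fun v => v ∈ K), 1 / d :=
            sum_le_sum fun v _ => had' v
        _ = (P.filter (fun v => v ∈ K)).card * (1 / d) := by rw [sum_const, nsmul_eq_mul]
        _ ≤ t * (1 / d) := by
            apply mul_le_mul_of_nonneg_right _ (by positivity)
            rw [← hwt K hK]
            exact_mod_cast card_le_card fun v hv => (mem_filter.1 hv).2
        _ = t / d := by ring
    rw [hB]
    linarith
  have hm2 : ∑ K, w K * |Del P a a' K| ≤ 12 * k / d := by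
    calc ∑ K, w K * |Del P a a' K| ≤ ∑ K, w K * ∑ v ∈ P, ((a' v - a v) + (if v ∈ K then a' v else 0)) :=
          sum_le_sum fun K _ => mul_le_mul_of_nonneg_left (habs K) (hw K)
      _ = ∑ v ∈ P, ((1 / s) * (a' v - a v) + (∑ K, (if v ∈ K then w K else 0)) * a' v) := by rw [swap2, hW]
      _ ≤ ∑ _v ∈ P, 4 / d := by
          refine sum_le_sum fun v hv => ?_
          have h1 : (1 / s) * (a' v - a v) ≤ 2 / d := by
            calc (1 / s) * (a' v - a v) ≤ (1 / s) * (2 * s / d) := mul_le_mul_of_nonneg_left (hdiff v).2 (by positivity)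
              _ = 2 / d := by field_simp
          have h2 : ∑ K, (if v ∈ K then w K else 0) ≤ 2 := by
            have := hc v hv
            have := (hr v).2
            have := (he v).2
            linarith
          have h3 : (∑ K, (if v ∈ K then w K else 0)) * a' v ≤ 2 * (1 / d) :=
            mul_le_mul h2 (had' v) (ha'0 v) (by norm_num)
          have h4 : (4 : ℝ) / d = 2 / d + 2 * (1 / d) := by ring
          rw [h4]
          exact add_le_add h1 h3
      _ = P.card * (4 / d) := by rw [sum_const, nsmul_eq_mul]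
      _ ≤ 3 * k * (4 / d) := mul_le_mul_of_nonneg_right hP (by positivity)
      _ = 12 * k / d := by ring
  have hm3 : ∑ K, w K * Del P a a' K ^ 2 ≤ B * (12 * k / d) := by
    refine le_trans ?_ (mul_le_mul_of_nonneg_left hm2 hB0)
    rw [mul_sum]
    refine sum_le_sum fun K _ => ?_
    by_cases hK : w K = 0
    · rw [hK]; simp
    · have h1 := hbd K hK
      have h2 : Del P a a' K ^ 2 = |Del P a a' K| * |Del P a a' K| := by rw [← sq, sq_abs]
      rw [h2]
      calc w K * (|Del P a a' K| * |Del P a a' K|) ≤ w K * (B * |Del P a a' K|) :=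
            mul_le_mul_of_nonneg_left (mul_le_mul_of_nonneg_right h1 (abs_nonneg _)) (hw K)
        _ = B * (w K * |Del P a a' K|) := by ring
  have hsgn : ∀ ς : ℝ, (ς = 1 ∨ ς = -1) → ∑ K, w K * Real.exp (ς * (lam * Del P a a' K)) ≤
      1 / s + ς * lam * ∑ K, w K * Del P a a' K + lam ^ 2 * (B * (12 * k / d)) := by
    intro ς hς
    have hς2 : ς ^ 2 = 1 := by rcases hς with h | h <;> rw [h] <;> norm_num
    have hςa : |ς| = 1 := by rcases hς with h | h <;> rw [h] <;> norm_num
    calc ∑ K, w K * Real.exp (ς * (lam * Del P a a' K)) ≤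
        ∑ K, (w K + ς * lam * (w K * Del P a a' K) + lam ^ 2 * (w K * Del P a a' K ^ 2)) := by
          refine sum_le_sum fun K _ => ?_
          by_cases hK : w K = 0
          · rw [hK]; simp
          · have h1 : |ς * (lam * Del P a a' K)| ≤ 1 := by
              rw [abs_mul, hςa, one_mul, abs_mul, abs_of_pos hlam]
              exact (mul_le_mul_of_nonneg_left (hbd K hK) hlam.le).trans hlB
            have h2 := mul_le_mul_of_nonneg_left (exp_le_quad h1) (hw K)
            refine h2.trans (le_of_eq ?_)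
            have h3 : (ς * (lam * Del P a a' K)) ^ 2 = ς ^ 2 * (lam ^ 2 * Del P a a' K ^ 2) := by ring
            rw [h3, hς2]
            ring
      _ = 1 / s + ς * lam * ∑ K, w K * Del P a a' K + lam ^ 2 * ∑ K, w K * Del P a a' K ^ 2 := by
          rw [sum_add_distrib, sum_add_distrib, hW, mul_sum, mul_sum]
      _ ≤ _ := by
          have := mul_le_mul_of_nonneg_left hm3 (sq_nonneg lam)
          linarith
  have hk0 : (0 : ℝ) ≤ k := Nat.cast_nonneg k
  have hR : 1 / s + k * (lam * (3 / d) * (s + 3 * η) + 12 * lam ^ 2 * B / d) =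
      1 / s + lam * (3 * k * ((1 / d) * (s + 3 * η))) + lam ^ 2 * (B * (12 * k / d)) := by ring
  rw [hR]
  constructor
  · have h1 := hsgn 1 (Or.inl rfl)
    simp only [one_mul] at h1
    refine h1.trans ?_
    have h2 := mul_le_mul_of_nonneg_left hm1.2 hlam.le
    linarith
  · have h1 := hsgn (-1) (Or.inr rfl)
    simp only [neg_mul, one_mul] at h1
    refine h1.trans ?_
    have h2 := mul_le_mul_of_nonneg_left hm1.1 hlam.le
    linarith

/-- one step of the process -/
lemma one_step2 {t k : ℕ} {d κ η lam s B : ℝ} (hd : 0 < d) (hκ : 0 < κ) (hη : 0 ≤ η) (hη1 : η ≤ 1)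
    (T : Finset (Finset V)) (hT : ∀ S ∈ T, (S.card : ℝ) ≤ 3 * k) (U₀ U : Finset V) (D : V → ℝ)
    (r e g g' : V → ℝ) (w : Finset V → ℝ)
    (hs : 0 < s) (hs1 : s ≤ 1) (hW : ∑ K, w K = 1 / s) (hsk : s * k ≤ 1 / κ)
    (hw : ∀ K, 0 ≤ w K) (hwt : ∀ K, w K ≠ 0 → K.card = t)
    (hr : ∀ v, 0 ≤ r v ∧ r v ≤ 1) (he : ∀ v, 0 ≤ e v ∧ e v ≤ η)
    (hg : ∀ v, d ≤ g v) (hg' : ∀ v, d ≤ g' v) (hgg : ∀ v, g' v = g v * Real.exp (-(s * r v)))
    (hc : ∀ v ∈ U, ∑ K, (if v ∈ K then w K else 0) ≤ r v + e v)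
    (hdef : ∀ S ∈ T, ∑ v ∈ S ∩ U, max 0 (r v - ∑ K, (if v ∈ K then w K else 0)) ≤ η * k)
    (hB : B = 6 / (d * κ) + t / d) (hlam : 0 < lam) (hlB : lam * B ≤ 1) :
    ∃ K, w K ≠ 0 ∧ Phi T lam U₀ (U \ K) D g' ≤
      Phi T lam U₀ U D g * Real.exp (s * (k * (lam * (3 / d) * (s + 3 * η) + 12 * lam ^ 2 * B / d))) := by
  obtain ⟨Λ, hΛ⟩ : ∃ Λ : ℝ, Λ = k * (lam * (3 / d) * (s + 3 * η) + 12 * lam ^ 2 * B / d) := ⟨_, rfl⟩
  rw [← hΛ]
  have ha' : ∀ v, (g' v)⁻¹ = (g v)⁻¹ * Real.exp (s * r v) := by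
    intro v
    rw [hgg, mul_inv, ← Real.exp_neg, neg_neg]
  have hinv : ∀ {x : ℝ}, d ≤ x → x⁻¹ ≤ 1 / d := fun {x} hx => by
    rw [one_div]; exact inv_anti₀ hd hx
  have hsum : ∑ K, w K * Phi T lam U₀ (U \ K) D g' ≤ (1 / s + Λ) * Phi T lam U₀ U D g := by
    unfold Phi
    simp only [mul_sum]
    rw [sum_comm]
    refine sum_le_sum fun S hS => ?_
    obtain ⟨Z, hZ⟩ : ∃ Z : ℝ, Z = Y S U g - Y S U₀ D := ⟨_, rfl⟩
    have e1 : ∀ K, Y S (U \ K) g' - Y S U₀ D = Z + Del (S ∩ U) (fun v => (g v)⁻¹) (fun v => (g' v)⁻¹) K := by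
      intro K
      rw [Y_step S U K g g', hZ]; ring
    rw [← hZ]
    simp only [e1]
    have hst := step2 (t := t) (k := k) (B := B) hd hκ hη hη1 (S ∩ U)
      (le_trans (by exact_mod_cast card_le_card inter_subset_left) (hT S hS)) r e (fun v => (g v)⁻¹) (fun v => (g' v)⁻¹) w
      hs hs1 hW hsk hw hwt hr he (fun v => inv_nonneg.2 (hd.le.trans (hg v))) (fun v => hinv (hg v)) ha'
      (fun v => hinv (hg' v)) (fun v hv => hc v (mem_inter.1 hv).2) (hdef S hS) hB hlam hlB
    rw [← hΛ] at hst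
    have e2 : ∀ K, w K * (Real.exp (lam * (Z + Del (S ∩ U) (fun v => (g v)⁻¹) (fun v => (g' v)⁻¹) K)) +
        Real.exp (-(lam * (Z + Del (S ∩ U) (fun v => (g v)⁻¹) (fun v => (g' v)⁻¹) K)))) =
        Real.exp (lam * Z) * (w K * Real.exp (lam * Del (S ∩ U) (fun v => (g v)⁻¹) (fun v => (g' v)⁻¹) K)) +
        Real.exp (-(lam * Z)) * (w K * Real.exp (-(lam * Del (S ∩ U) (fun v => (g v)⁻¹) (fun v => (g' v)⁻¹) K))) := by
      intro K
      have h1 : lam * (Z + Del (S ∩ U) (fun v => (g v)⁻¹) (fun v => (g' v)⁻¹) K) =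
        lam * Z + lam * Del (S ∩ U) (fun v => (g v)⁻¹) (fun v => (g' v)⁻¹) K := by ring
      rw [h1, neg_add, Real.exp_add, Real.exp_add]
      ring
    simp only [e2]
    rw [sum_add_distrib, ← mul_sum, ← mul_sum]
    have h1 := mul_le_mul_of_nonneg_left hst.1 (Real.exp_pos (lam * Z)).le
    have h2 := mul_le_mul_of_nonneg_left hst.2 (Real.exp_pos (-(lam * Z))).le
    calc _ ≤ Real.exp (lam * Z) * (1 / s + Λ) + Real.exp (-(lam * Z)) * (1 / s + Λ) := add_le_add h1 h2
      _ = _ := by ring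
  obtain ⟨A, hA⟩ : ∃ A : Finset (Finset V), A = univ.filter (fun K => w K ≠ 0) := ⟨_, rfl⟩
  have hAs : ∀ F : Finset V → ℝ, ∑ K ∈ A, w K * F K = ∑ K, w K * F K := by
    intro F
    rw [hA, sum_filter]
    refine sum_congr rfl fun K _ => ?_
    by_cases h : w K = 0 <;> simp [h]
  have hne : A.Nonempty := by
    by_contra hem
    rw [not_nonempty_iff_eq_empty] at hem
    have h1 := hAs (fun _ => 1)
    rw [hem, sum_empty] at h1
    simp only [mul_one] at h1
    rw [hW] at h1
    have : 0 < 1 / s := by positivity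
    linarith
  have hle : ∑ K ∈ A, w K * Phi T lam U₀ (U \ K) D g' ≤ ∑ K ∈ A, w K * ((1 + s * Λ) * Phi T lam U₀ U D g) := by
    rw [hAs, hAs (fun _ => (1 + s * Λ) * Phi T lam U₀ U D g), ← sum_mul, hW]
    refine hsum.trans (le_of_eq ?_)
    field_simp
  obtain ⟨K, hK, hKle⟩ := exists_le_of_sum_le hne hle
  rw [hA, mem_filter] at hK
  refine ⟨K, hK.2, ?_⟩
  have h1 : Phi T lam U₀ (U \ K) D g' ≤ (1 + s * Λ) * Phi T lam U₀ U D g :=
    le_of_mul_le_mul_left hKle (lt_of_le_of_ne (hw K) (Ne.symm hK.2))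
  refine h1.trans ?_
  rw [mul_comm]
  apply mul_le_mul_of_nonneg_left _ (Phi_nonneg _ _ _ _ _ _)
  have := Real.add_one_le_exp (s * Λ)
  linarith

end POT2L

open POT2L Pool.Agent.Helper83K9.CF.PotL

theorem pot2 : S_POT2 := by
  intro t d τ γ κ ht hd hd1 hτ hγ hκ
  have htr : (1 : ℝ) ≤ t := by exact_mod_cast ht
  obtain ⟨B, hB⟩ : ∃ B : ℝ, B = 6 / (d * κ) + t / d := ⟨_, rfl⟩
  have hB0 : 0 < B := by rw [hB]; positivity
  obtain ⟨lam, hl⟩ : ∃ lam : ℝ, lam = min (1 / B) (γ * d / (48 * B * (τ + 1))) := ⟨_, rfl⟩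
  have hlam : 0 < lam := by rw [hl]; exact lt_min (by positivity) (by positivity)
  have hlB : lam * B ≤ 1 := by
    have : lam ≤ 1 / B := by rw [hl]; exact min_le_left _ _
    rw [le_div_iff₀ hB0] at this
    exact this
  have hlC : 48 * lam * B * (τ + 1) ≤ γ * d := by
    have : lam ≤ γ * d / (48 * B * (τ + 1)) := by rw [hl]; exact min_le_right _ _
    rw [le_div_iff₀ (by positivity)] at this
    linarith
  obtain ⟨η, hη⟩ : ∃ η : ℝ, η = min 1 (γ * d / (36 * (τ + 1))) := ⟨_, rfl⟩
  have hη0 : 0 < η := by rw [hη]; exact lt_min one_pos (by positivity)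
  have hη1 : η ≤ 1 := by rw [hη]; exact min_le_left _ _
  have hηC : 36 * η * (τ + 1) ≤ γ * d := by
    have : η ≤ γ * d / (36 * (τ + 1)) := by rw [hη]; exact min_le_right _ _
    rw [le_div_iff₀ (by positivity)] at this
    linarith
  refine ⟨η, hη0, hη1, fun C => ?_⟩
  refine ⟨max (max 1 ⌈1 / κ⌉₊) (max ⌈12 * (τ + 1) / (d * κ * γ)⌉₊ ⌈64 * C / (lam ^ 2 * γ ^ 2)⌉₊), fun k hk => ?_⟩
  have hk1 : 1 ≤ k := le_trans (le_trans (le_max_left _ _) (le_max_left _ _)) hk
  have hkr : (1 : ℝ) ≤ k := by exact_mod_cast hk1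
  have hk2 : 1 ≤ κ * k := by
    have : 1 / κ ≤ k := (Nat.le_ceil _).trans (by exact_mod_cast le_trans (le_trans (le_max_right _ _) (le_max_left _ _)) hk)
    rw [div_le_iff₀ hκ] at this
    linarith
  have hk3 : 12 * (τ + 1) ≤ d * κ * γ * k := by
    have : 12 * (τ + 1) / (d * κ * γ) ≤ k :=
      (Nat.le_ceil _).trans (by exact_mod_cast le_trans (le_trans (le_max_left _ _) (le_max_right _ _)) hk)
    rw [div_le_iff₀ (by positivity)] at this
    linarith
  have hk4 : 64 * C ≤ lam ^ 2 * γ ^ 2 * k := by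
    have : 64 * C / (lam ^ 2 * γ ^ 2) ≤ k :=
      (Nat.le_ceil _).trans (by exact_mod_cast le_trans (le_trans (le_max_right _ _) (le_max_right _ _)) hk)
    rw [div_le_iff₀ (by positivity)] at this
    linarith
  intro V _ _ T r e D U₀ ok hTc hT hr he hD hok hyp
  -- the growth rate
  obtain ⟨Λ, hΛ⟩ : ∃ Λ : ℝ, Λ = k * (lam * (3 / d) * (1 / (κ * k) + 3 * η) + 12 * lam ^ 2 * B / d) := ⟨_, rfl⟩
  have hΛ0 : 0 ≤ Λ := by rw [hΛ]; positivity
  have hΛ1 : Λ * (τ + 1) ≤ (3 / 4) * (lam * γ * k) := by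
    have e1 : Λ * (τ + 1) = lam * k * (3 * (τ + 1) / (d * κ * k) + 9 * η * (τ + 1) / d + 12 * lam * B * (τ + 1) / d) := by
      rw [hΛ]; field_simp; ring
    rw [e1]
    have e2 : 3 * (τ + 1) / (d * κ * k) ≤ γ / 4 := by
      rw [div_le_iff₀ (by positivity)]
      nlinarith
    have e3 : 9 * η * (τ + 1) / d ≤ γ / 4 := by
      rw [div_le_iff₀ hd]; linarith
    have e4 : 12 * lam * B * (τ + 1) / d ≤ γ / 4 := by
      rw [div_le_iff₀ hd]; linarith
    calc lam * k * (3 * (τ + 1) / (d * κ * k) + 9 * η * (τ + 1) / d + 12 * lam * B * (τ + 1) / d) ≤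
        lam * k * (γ / 4 + γ / 4 + γ / 4) := by
          apply mul_le_mul_of_nonneg_left _ (by positivity)
          linarith
      _ = (3 / 4) * (lam * γ * k) := by ring
  -- the potential controls the tests
  have hctl : ∀ (U : Finset V) (σ : ℝ), 0 ≤ σ → σ ≤ τ + 1 →
      Phi T lam U₀ U D (fun v => D v * Real.exp (-(σ * r v))) ≤ 2 * T.card * Real.exp (Λ * σ) →
      ∀ S ∈ T, |Y S U (fun v => D v * Real.exp (-(σ * r v))) - Y S U₀ D| ≤ γ * k := by
    intro U σ hσ0 hσ1 hΦ S hS
    have h1 := (abs_le_Phi T lam hlam U₀ U D (fun v => D v * Real.exp (-(σ * r v))) hS).trans hΦ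
    have h2 : Real.exp (Λ * σ) ≤ Real.exp ((3 / 4) * (lam * γ * k)) :=
      Real.exp_le_exp.2 ((mul_le_mul_of_nonneg_left hσ1 hΛ0).trans hΛ1)
    have h3 : 2 * (T.card : ℝ) ≤ Real.exp ((1 / 4) * (lam * γ * k)) := by
      have h4 : 0 ≤ (1 / 4) * (lam * γ * k) := by positivity
      have h5 := Real.quadratic_le_exp_of_nonneg h4
      have h6 : 2 * (C * k) ≤ ((1 / 4) * (lam * γ * k)) ^ 2 / 2 := by
        have h7 : ((1 / 4) * (lam * γ * k)) ^ 2 / 2 = (lam ^ 2 * γ ^ 2 * k) * k / 32 := by ring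
        have h8 : 64 * C * k ≤ (lam ^ 2 * γ ^ 2 * k) * k := mul_le_mul_of_nonneg_right hk4 (by positivity)
        rw [h7]; linarith
      linarith
    have h4 : Real.exp (lam * |Y S U (fun v => D v * Real.exp (-(σ * r v))) - Y S U₀ D|) ≤ Real.exp (lam * (γ * k)) := by
      refine h1.trans ?_
      calc 2 * (T.card : ℝ) * Real.exp (Λ * σ) ≤ Real.exp ((1 / 4) * (lam * γ * k)) * Real.exp ((3 / 4) * (lam * γ * k)) :=
            mul_le_mul h3 h2 (Real.exp_pos _).le (Real.exp_pos _).le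
        _ = Real.exp (lam * (γ * k)) := by rw [← Real.exp_add]; congr 1; ring
    exact le_of_mul_le_mul_left (Real.exp_le_exp.1 h4) hlam
  -- the process
  have main : ∀ (N : ℕ) (U : Finset V) (σ : ℝ) (F : Finset (Finset V)), U.card ≤ N → U = U₀ \ F.biUnion id →
      0 ≤ σ → σ ≤ τ + 1 → (∀ K ∈ F, ok K ∧ K ⊆ U₀) → (∀ K ∈ F, ∀ L ∈ F, K ≠ L → Disjoint K L) →
      (∀ K ∈ F, ∀ v ∈ K, 0 < r v + e v) →
      Phi T lam U₀ U D (fun v => D v * Real.exp (-(σ * r v))) ≤ 2 * T.card * Real.exp (Λ * σ) →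
      ∃ (σ : ℝ) (F : Finset (Finset V)), τ ≤ σ ∧ σ ≤ τ + 1 ∧ (∀ K ∈ F, ok K ∧ K ⊆ U₀) ∧
        (∀ K ∈ F, ∀ L ∈ F, K ≠ L → Disjoint K L) ∧ (∀ K ∈ F, ∀ v ∈ K, 0 < r v + e v) ∧
        ∀ S ∈ T, |Y S (U₀ \ F.biUnion id) (fun v => D v * Real.exp (-(σ * r v))) - Y S U₀ D| ≤ γ * k := by
    intro N
    induction N with
    | zero =>
      intro U σ F hUN hU hσ0 hσ1 hF1 hF2 hF3 hΦ
      rcases le_or_gt τ σ with hτσ | hστ
      · refine ⟨σ, F, hτσ, hσ1, hF1, hF2, hF3, ?_⟩
        rw [← hU]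
        exact hctl U σ hσ0 hσ1 hΦ
      · exfalso
        obtain ⟨w, hw0, hwok, hwc, hwd, hwW⟩ := hyp U σ (by rw [hU]; exact sdiff_subset) hσ0 hστ.le (hctl U σ hσ0 hσ1 hΦ) (by
          intro v hv
          rw [hU, mem_sdiff]
          constructor
          · exact fun h => h.1
          · intro h
            refine ⟨h, fun hvF => ?_⟩
            rw [mem_biUnion] at hvF
            obtain ⟨K, hK, hvK⟩ := hvF
            have := hF3 K hK v hvK
            linarith)
        have hpos : 0 < ∑ K, w K := by linarith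
        obtain ⟨K, _, hK⟩ := exists_ne_zero_of_sum_ne_zero hpos.ne'
        have h1 := hwok K hK
        have h2 := hok K h1.1
        have h3 := card_le_card h1.2
        omega
    | succ N ih =>
      intro U σ F hUN hU hσ0 hσ1 hF1 hF2 hF3 hΦ
      rcases le_or_gt τ σ with hτσ | hστ
      · refine ⟨σ, F, hτσ, hσ1, hF1, hF2, hF3, ?_⟩
        rw [← hU]
        exact hctl U σ hσ0 hσ1 hΦ
      · obtain ⟨w, hw0, hwok, hwc, hwd, hwW⟩ := hyp U σ (by rw [hU]; exact sdiff_subset) hσ0 hστ.le (hctl U σ hσ0 hσ1 hΦ) (by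
          intro v hv
          rw [hU, mem_sdiff]
          constructor
          · exact fun h => h.1
          · intro h
            refine ⟨h, fun hvF => ?_⟩
            rw [mem_biUnion] at hvF
            obtain ⟨K, hK, hvK⟩ := hvF
            have := hF3 K hK v hvK
            linarith)
        have hpos : 0 < ∑ K, w K := by linarith
        obtain ⟨s, hs⟩ : ∃ s : ℝ, s = 1 / ∑ K, w K := ⟨_, rfl⟩
        have hs0 : 0 < s := by rw [hs]; positivity
        have hWs : ∑ K, w K = 1 / s := by rw [hs]; field_simp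
        have hsle : s ≤ 1 / (κ * k) := by
          rw [hs]; exact one_div_le_one_div_of_le (by positivity) hwW
        have hs1 : s ≤ 1 := hsle.trans (by rw [div_le_one (by positivity)]; exact hk2)
        have hsk : s * k ≤ 1 / κ := by
          calc s * k ≤ 1 / (κ * k) * k := mul_le_mul_of_nonneg_right hsle (by positivity)
            _ = 1 / κ := by field_simp
        have hσ' : σ + s ≤ τ + 1 := by linarith
        obtain ⟨K, hK, hKΦ⟩ := one_step2 (t := t) (k := k) (B := B) hd hκ hη0.le hη1 T hT U₀ U D r e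
          (fun v => D v * Real.exp (-(σ * r v))) (fun v => D v * Real.exp (-((σ + s) * r v))) w hs0 hs1 hWs hsk hw0
          (fun K hK => hok K (hwok K hK).1) hr he (fun v => (hD v σ hσ0 hσ1).1)
          (fun v => (hD v (σ + s) (by positivity) hσ').1) (fun v => by
            rw [mul_assoc, ← Real.exp_add]; congr 2; ring) hwc hwd hB hlam hlB
        have hKok := hwok K hK
        have hKcard : K.card = t := hok K hKok.1
        have hKne : K.Nonempty := by rw [← card_pos]; omega
        have hKpos : 0 < w K := lt_of_le_of_ne (hw0 K) (Ne.symm hK)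
        have hU' : U \ K = U₀ \ (insert K F).biUnion id := by
          rw [hU]
          ext v
          simp only [mem_sdiff, mem_biUnion, mem_insert, id]
          constructor
          · rintro ⟨⟨h1, h2⟩, h3⟩
            refine ⟨h1, ?_⟩
            rintro ⟨L, rfl | hL, hv⟩
            · exact h3 hv
            · exact h2 ⟨L, hL, hv⟩
          · rintro ⟨h1, h2⟩
            exact ⟨⟨h1, fun ⟨L, hL, hv⟩ => h2 ⟨L, Or.inr hL, hv⟩⟩, fun hv => h2 ⟨K, Or.inl rfl, hv⟩⟩
        have hdisF : ∀ L ∈ F, Disjoint K L := by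
          intro L hL
          rw [Finset.disjoint_left]
          intro v hvK hvL
          have := hKok.2 hvK
          rw [hU, mem_sdiff] at this
          exact this.2 (mem_biUnion.2 ⟨L, hL, hvL⟩)
        refine ih (U \ K) (σ + s) (insert K F) ?_ hU' (by positivity) hσ' ?_ ?_ ?_ ?_
        · have h1 : (U \ K).card + K.card = U.card := card_sdiff_add_card_eq_card hKok.2
          have h2 := card_pos.2 hKne
          omega
        · intro L hL
          rcases mem_insert.1 hL with rfl | hL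
          · exact ⟨hKok.1, hKok.2.trans (by rw [hU]; exact sdiff_subset)⟩
          · exact hF1 L hL
        · intro L hL L' hL' hne
          rcases mem_insert.1 hL with h1 | h1
          · rcases mem_insert.1 hL' with h2 | h2
            · exact absurd (h1.trans h2.symm) hne
            · rw [h1]; exact hdisF L' h2
          · rcases mem_insert.1 hL' with h2 | h2
            · rw [h2]; exact (hdisF L h1).symm
            · exact hF2 L h1 L' h2 hne
        · intro L hL v hv
          rcases mem_insert.1 hL with rfl | hL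
          · have h1 := hwc v (hKok.2 hv)
            have h2 : w L ≤ ∑ K, (if v ∈ K then w K else 0) := by
              have h3 : (if v ∈ L then w L else 0) ≤ ∑ K, (if v ∈ K then w K else 0) :=
                single_le_sum (f := fun K : Finset V => if v ∈ K then w K else 0)
                (fun K _ => by
                  by_cases hvK : v ∈ K
                  · show 0 ≤ (if v ∈ K then w K else 0)
                    rw [if_pos hvK]; exact hw0 K
                  · show 0 ≤ (if v ∈ K then w K else 0)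
                    rw [if_neg hvK]) (mem_univ L)
              rw [if_pos hv] at h3
              exact h3
            linarith
          · exact hF3 L hL v hv
        · refine hKΦ.trans ?_
          have h1 : s * (k * (lam * (3 / d) * (s + 3 * η) + 12 * lam ^ 2 * B / d)) ≤ Λ * s := by
            rw [mul_comm s, hΛ]
            apply mul_le_mul_of_nonneg_right _ hs0.le
            apply mul_le_mul_of_nonneg_left _ (by positivity)
            have : lam * (3 / d) * (s + 3 * η) ≤ lam * (3 / d) * (1 / (κ * k) + 3 * η) :=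
              mul_le_mul_of_nonneg_left (by linarith) (by positivity)
            linarith
          calc Phi T lam U₀ U D (fun v => D v * Real.exp (-(σ * r v))) *
              Real.exp (s * (k * (lam * (3 / d) * (s + 3 * η) + 12 * lam ^ 2 * B / d))) ≤
              (2 * T.card * Real.exp (Λ * σ)) * Real.exp (Λ * s) :=
                mul_le_mul hΦ (Real.exp_le_exp.2 h1) (Real.exp_pos _).le
                  (mul_nonneg (mul_nonneg zero_le_two (Nat.cast_nonneg _)) (Real.exp_pos _).le)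
            _ = 2 * T.card * Real.exp (Λ * (σ + s)) := by rw [mul_assoc, ← Real.exp_add]; congr 2; ring
  refine main U₀.card U₀ 0 ∅ le_rfl (by rw [biUnion_empty, sdiff_empty]) le_rfl (by positivity)
    (fun K hK => absurd hK (notMem_empty K)) (fun K hK => absurd hK (notMem_empty K))
    (fun K hK => absurd hK (notMem_empty K)) ?_
  have h1 : (fun v => D v * Real.exp (-(0 * r v))) = D := by
    funext v; simp
  rw [h1]
  unfold Phi
  simp only [sub_self, mul_zero, neg_zero, Real.exp_zero, sum_const, nsmul_eq_mul]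
  linarith


theorem bal2 : S_BAL2 := by
  intro t ε ht hε hε1
  have htR : (1 : ℝ) ≤ t := by exact_mod_cast ht
  have ht0 : (0 : ℝ) < t := by linarith
  refine ⟨ε / (32 * t), by positivity, ?_, ?_⟩
  · rw [div_le_div_iff₀ (by positivity) (by norm_num)]
    nlinarith
  intro n k m _ M hM hs U D θ hD hθ hθk hslow hSt y
  set β : ℝ := ε / (32 * t) with hβ
  have hβ0 : 0 < β := by positivity
  have htβ : (t : ℝ) * β = ε / 32 := by rw [hβ]; field_simp
  have hβ32 : β ≤ ε / 32 := by nlinarith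
  have hk0 : (0 : ℝ) < k := by exact_mod_cast hM.kpos
  have hm1 : (0 : ℝ) ≤ (m : ℝ) + 1 := by positivity
  -- comparison of D
  set E : ℝ := Real.exp (3 * β) with hE
  have hE1 : 1 ≤ E := Real.one_le_exp (by positivity)
  have hexp : ∀ c : ℕ, c ≤ 3 * k → Real.exp (c * θ) ≤ E := by
    intro c hc
    apply Real.exp_le_exp.2
    have h1 : (c : ℝ) ≤ 3 * k := by exact_mod_cast hc
    nlinarith
  have hlo : ∀ v ∈ win n k y, E⁻¹ * D y ≤ D v := by
    intro v hv
    obtain ⟨j, hj, rfl⟩ := mem_win.1 hv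
    have h1 := BalL.slow_le hslow hD hθ y 0 j (3 * k) (by omega) (by omega)
    rw [Nat.cast_zero, add_zero] at h1
    have h2 : D y ≤ E * D (y + (j : ZMod n)) :=
      h1.trans (mul_le_mul_of_nonneg_right (hexp _ le_rfl) (hD _).le)
    rw [inv_mul_le_iff₀ (by positivity)]
    exact h2
  have hB := BalL.Y_le_card (win n k y) U D hD _ hlo
  have hB2 : (1 - β) * k ≤ Y (win n k y) U D := by
    have := (abs_le.1 (hSt.2 y)).1
    linarith
  have hDy := hD y
  have hE0 : 0 < E := by linarith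
  have hexp6 : E * E ≤ 1 + 12 * β := by
    rw [hE, ← Real.exp_add]
    have h6 : 3 * β + 3 * β = 6 * β := by ring
    rw [h6]
    have h61 : 6 * β ≤ 1 := by nlinarith
    have := Real.exp_bound_div_one_sub_of_interval' (x := 6 * β / 1) (by positivity) (by
      rw [div_one]; nlinarith)
    rw [div_one] at this
    refine this.le.trans ?_
    rw [div_le_iff₀ (by nlinarith)]
    nlinarith
  have hcard : E⁻¹ * D y * ((1 - β) * k) ≤ ((win n k y ∩ U).card : ℝ) :=
    (mul_le_mul_of_nonneg_left hB2 (by positivity)).trans hB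
  refine ⟨?_, fun i hi => ?_⟩
  · refine le_trans ?_ hcard
    have hE2 : E ≤ 2 * (1 - β) := by nlinarith
    have h1 : D y / 2 * k = E⁻¹ * D y * (E / 2 * k) := by field_simp
    rw [h1]
    apply mul_le_mul_of_nonneg_left _ (by positivity)
    apply mul_le_mul_of_nonneg_right _ hk0.le
    linarith
  have hup : ∀ v ∈ M (y + (i : ZMod n)), D v ≤ E * D y := by
    intro v hv
    obtain ⟨j, hj, rfl⟩ := mem_win.1 (hM.subset _ hv)
    have h1 := BalL.slow_le hslow hD hθ (y - (k : ZMod n)) (i + j) k (3 * k) (by omega) (by omega)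
    have e1 : y - (k : ZMod n) + ((i + j : ℕ) : ZMod n) =
        y + (i : ZMod n) - (k : ZMod n) + (j : ZMod n) := by push_cast; ring
    have e2 : y - (k : ZMod n) + (k : ZMod n) = y := by ring
    rw [e1, e2] at h1
    exact h1.trans (mul_le_mul_of_nonneg_right (hexp _ le_rfl) (hD y).le)
  have hA := BalL.card_le_Y (M (y + (i : ZMod n))) U D hD _ hup
  have hA2 : Y (M (y + (i : ZMod n))) U D ≤ (m + 1) + β * k := by
    refine (hSt.1 _).trans ?_
    have : ((M (y + (i : ZMod n))).card : ℝ) ≤ m + 1 := by exact_mod_cast hM.card _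
    linarith
  -- final inequality
  have hfin : (t : ℝ) * ((m + 1) + β * k) * (E * E) ≤ (1 - ε / 2) * ((1 - β) * k) := by
    have h1 : (t : ℝ) * ((m + 1) + β * k) ≤ (1 - 31 / 32 * ε) * k := by
      have h3 : (t : ℝ) * ((m + 1) + β * k) = (t : ℝ) * (m + 1) + (t * β) * k := by ring
      rw [h3, htβ]
      linarith
    have h4 : 0 ≤ (t : ℝ) * ((m + 1) + β * k) := by positivity
    have h0 : 0 ≤ 1 - 31 / 32 * ε := by linarith
    calc (t : ℝ) * ((m + 1) + β * k) * (E * E)
        ≤ ((1 - 31 / 32 * ε) * k) * (1 + 12 * β) := by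
          apply mul_le_mul h1 hexp6 (by positivity)
          positivity
      _ ≤ (1 - ε / 2) * ((1 - β) * k) := by
          have h5 : (1 - 31 / 32 * ε) * (1 + 12 * β) ≤ (1 - ε / 2) * (1 - β) := by nlinarith
          nlinarith
  have h2 : 0 ≤ 1 - ε / 2 := by linarith
  calc (t : ℝ) * (M (y + (i : ZMod n)) ∩ U).card
      ≤ (t : ℝ) * (E * D y * Y (M (y + (i : ZMod n))) U D) :=
        mul_le_mul_of_nonneg_left hA ht0.le
    _ ≤ (t : ℝ) * (E * D y * ((m + 1) + β * k)) := by
        apply mul_le_mul_of_nonneg_left _ ht0.le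
        exact mul_le_mul_of_nonneg_left hA2 (by positivity)
    _ = E⁻¹ * D y * ((t : ℝ) * ((m + 1) + β * k) * (E * E)) := by
        field_simp
    _ ≤ E⁻¹ * D y * ((1 - ε / 2) * ((1 - β) * k)) := mul_le_mul_of_nonneg_left hfin (by positivity)
    _ = (1 - ε / 2) * (E⁻¹ * D y * ((1 - β) * k)) := by ring
    _ ≤ (1 - ε / 2) * ((win n k y ∩ U).card : ℝ) := mul_le_mul_of_nonneg_left hcard h2

end Pool.Agent.H48.PW
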