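import Pool.Agent.H48.PW.Stm
import Pool.Graph.R_seed8.TH742.HP.Upper

/-!
# MP_61e9ba_co: reduction of the problem to hosts (leaf RED)
-/

set_option autoImplicit false

namespace Pool.Agent.H48.PW

open Finset Pool.Agent.Helper83K9.CF

namespace REDL

open Pool.Agent.TH742.HP

/-- entries of `l ++ l` -/
lemma getElem_append_self {α : Type} (l : List α) (a : ℕ) (ha : a < 2 * l.length) :
    (l ++ l)[a]? = l[a % l.length]? := by
  rcases Nat.lt_or_ge a l.length with h | h
  · rw [List.getElem?_append_left h, Nat.mod_eq_of_lt h]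
  · rw [List.getElem?_append_right h]
    congr 1
    rw [Nat.mod_eq_sub_mod h, Nat.mod_eq_of_lt (by omega)]

/-- from the list to the cyclic order -/
lemma order {n t : ℕ} [NeZero n] {R : ZMod n → ZMod n → Prop} {l : List (ZMod n)} (hnd : l.Nodup)
    (hall : ∀ v, v ∈ l) (hR : Pw R t (l ++ l)) :
    ∃ v : ZMod n ≃ ZMod n, ∀ i j : ZMod n, i ≠ j → cdist i j ≤ t → R (v i) (v j) ∨ R (v j) (v i) := by
  classical
  have hlen : l.length = n := by
    have h1 : l.toFinset = univ := by
      ext v; simp [hall v]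
    have h2 : l.toFinset.card = l.length := List.toFinset_card_of_nodup hnd
    rw [← h2, h1, card_univ, ZMod.card]
  have hlt : ∀ i : ZMod n, i.val < l.length := fun i => by rw [hlen]; exact ZMod.val_lt i
  let f : ZMod n → ZMod n := fun i => l[i.val]'(hlt i)
  have hinj : Function.Injective f := by
    intro i j h
    exact ZMod.val_injective n ((hnd.getElem_inj_iff).1 h)
  have hbij : Function.Bijective f := Finite.injective_iff_bijective.1 hinj
  have hf : ∀ i : ZMod n, l[i.val]? = some (f i) := fun i => List.getElem?_eq_getElem (hlt i)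
  have key : ∀ i j : ZMod n, i ≠ j → (j - i).val ≤ t → R (f i) (f j) := by
    intro i j hij hs
    have hs0 : (j - i).val ≠ 0 := by
      intro h0
      rw [ZMod.val_eq_zero, sub_eq_zero] at h0
      exact hij h0.symm
    have hsn : (j - i).val < n := ZMod.val_lt _
    have hin : i.val < n := ZMod.val_lt _
    have hjv : j.val = (i.val + (j - i).val) % n := by
      rw [← ZMod.val_add]; congr 1; ring
    refine hR i.val (i.val + (j - i).val) (f i) (f j) (by omega) (by omega) ?_ ?_
    · rw [getElem_append_self l _ (by omega), Nat.mod_eq_of_lt (by omega)]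
      exact hf i
    · rw [getElem_append_self l _ (by omega), hlen, ← hjv]
      exact hf j
  refine ⟨Equiv.ofBijective f hbij, fun i j hij hd => ?_⟩
  unfold cdist at hd
  rcases min_le_iff.1 hd with h | h
  · right
    exact key j i (Ne.symm hij) h
  · left
    exact key i j hij h

end REDL

open REDL Pool.Agent.TH742.HP in
/-- the leaf RED -/
theorem red (h : S_FIN) (t : ℕ) (ht : 2 ≤ t) (α : ℝ) (hα : 1 - 1 / (2 * (t : ℝ)) < α) :
    Pool.Agent.TH742.HP.Good t α := by
  classical
  have ht0 : (0 : ℝ) < t := by exact_mod_cast (by omega : 0 < t)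
  have ht2 : (0 : ℝ) < 2 * t := by positivity
  obtain ⟨β, hβ⟩ : ∃ β : ℝ, β = max (1 - α) 0 := ⟨_, rfl⟩
  have hβ0 : 0 ≤ β := by rw [hβ]; exact le_max_right _ _
  have hβα : 1 - α ≤ β := by rw [hβ]; exact le_max_left _ _
  have hβ1 : β < 1 / (2 * t) := by
    rw [hβ]
    exact max_lt (by linarith) (by positivity)
  obtain ⟨ε, hε⟩ : ∃ ε : ℝ, ε = (1 - 2 * t * β) / 2 := ⟨_, rfl⟩
  have hε0 : 0 < ε := by
    rw [lt_div_iff₀ ht2] at hβ1
    rw [hε]
    linarith
  have hε1 : ε ≤ 1 := by
    rw [hε]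
    have : 0 ≤ 2 * (t : ℝ) * β := by positivity
    linarith
  obtain ⟨k₁, hk₁⟩ := h t ε ht hε0 hε1
  obtain ⟨k₂, hk₂⟩ := exists_nat_ge (t * (1 + β) / ε)
  refine ⟨2 * (k₁ + k₂ + 1) + 1, fun k n hk hkn hn3 H hH => ?_⟩
  have : NeZero n := ⟨by omega⟩
  obtain ⟨k', hk'⟩ : ∃ k' : ℕ, k' = min k ((n - 1) / 2) := ⟨_, rfl⟩
  have hk1 : k₁ + k₂ + 1 ≤ k' := by omega
  have hk'n : 2 * k' + 1 ≤ n := by omega
  have hk'k : k' ≤ k := by omega
  obtain ⟨m, hm⟩ : ∃ m : ℕ, m = ⌊β * (2 * k' + 1)⌋₊ := ⟨_, rfl⟩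
  obtain ⟨M, hM⟩ : ∃ M : ZMod n → Finset (ZMod n), M = fun x =>
    univ.filter (fun y => Near n k' x y ∧ ¬ H.Adj x y) := ⟨_, rfl⟩
  have hmem : ∀ x y, y ∈ M x ↔ Near n k' x y ∧ ¬ H.Adj x y := by
    intro x y
    rw [hM]
    simp
  have hhost : Host n k' m M := by
    refine ⟨by omega, hk'n, ?_, ?_, ?_, ?_⟩
    · intro x
      rw [hmem]
      exact ⟨⟨0, by simp, by simp⟩, H.loopless.irrefl x⟩
    · intro x y h
      rw [hmem] at h ⊢
      obtain ⟨⟨i, hi, hy⟩, h2⟩ := h
      refine ⟨⟨-i, by rwa [abs_neg], ?_⟩, fun h3 => h2 h3.symm⟩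
      rw [hy]
      push_cast
      ring
    · intro x y h
      rw [hmem] at h
      exact h.1
    · intro x
      have h1 : ((M x).erase x : Set (ZMod n)) ⊆
          {w | (cyclePow n k).Adj x w ∧ ¬ H.Adj x w} := by
        intro y hy
        rw [mem_coe, mem_erase, hmem] at hy
        obtain ⟨hne, ⟨i, hi, hyi⟩, hnadj⟩ := hy
        refine ⟨⟨fun h => hne h.symm, ?_⟩, hnadj⟩
        rw [hyi]
        refine (cdist_add_int_le x i).trans ?_
        have : (i.natAbs : ℤ) ≤ k' := by rw [Int.natCast_natAbs]; exact hi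
        omega
      have h3 : ((M x).erase x).card ≤ {w | (cyclePow n k).Adj x w ∧ ¬ H.Adj x w}.ncard := by
        rw [← Set.ncard_coe_finset]
        exact Set.ncard_le_ncard h1 (Set.toFinite _)
      have h5 : (((M x).erase x).card : ℝ) ≤ β * (2 * k' + 1) := by
        have h6 : (((M x).erase x).card : ℝ) ≤
            ({w | (cyclePow n k).Adj x w ∧ ¬ H.Adj x w}.ncard : ℝ) := by exact_mod_cast h3
        have h7 := missing hH x
        have h8 : (((cyclePow n k).neighborSet x).ncard : ℝ) ≤ 2 * k' + 1 := by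
          have h9 := deg_le (k := k) x
          have h10 := deg_lt (k := k) x
          have h11 : ((cyclePow n k).neighborSet x).ncard ≤ 2 * k' + 1 := by omega
          exact_mod_cast h11
        have h9 : (0 : ℝ) ≤ (((cyclePow n k).neighborSet x).ncard : ℝ) := Nat.cast_nonneg _
        calc (((M x).erase x).card : ℝ) ≤
              ({w | (cyclePow n k).Adj x w ∧ ¬ H.Adj x w}.ncard : ℝ) := h6
          _ ≤ (1 - α) * (((cyclePow n k).neighborSet x).ncard : ℝ) := h7
          _ ≤ β * (((cyclePow n k).neighborSet x).ncard : ℝ) := mul_le_mul_of_nonneg_right hβα h9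
          _ ≤ β * (2 * k' + 1) := mul_le_mul_of_nonneg_left h8 hβ0
      have h6 : ((M x).erase x).card ≤ m := by
        rw [hm]
        exact Nat.le_floor h5
      have h7 : (M x).card - 1 ≤ ((M x).erase x).card := pred_card_le_card_erase
      omega
  have hineq : (t : ℝ) * ((m : ℝ) + 1) ≤ (1 - ε) * k' := by
    have h1 : (m : ℝ) ≤ β * (2 * k' + 1) := by
      rw [hm]
      exact Nat.floor_le (by positivity)
    have h2 : t * (1 + β) ≤ ε * k' := by
      have h3 : (k₂ : ℝ) ≤ k' := by exact_mod_cast (by omega : k₂ ≤ k')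
      have h4 := hk₂.trans h3
      rw [div_le_iff₀ hε0] at h4
      linarith
    have h3 : (t : ℝ) * (m + 1) ≤ t * (β * (2 * k' + 1) + 1) :=
      mul_le_mul_of_nonneg_left (by linarith) ht0.le
    have h4 : (t : ℝ) * (β * (2 * k' + 1) + 1) = 2 * t * β * k' + t * (1 + β) := by ring
    have h5 : 2 * (t : ℝ) * β = 1 - 2 * ε := by rw [hε]; ring
    rw [h4, h5] at h3
    linarith
  obtain ⟨l, hl1, hl2, hl3⟩ := hk₁ n k' m M hhost (by omega) hineq
  obtain ⟨v, hv⟩ := order hl1 hl2 hl3
  have hadj : ∀ x y, Ad n k' M x y → H.Adj x y := by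
    intro x y hxy
    by_contra h1
    exact hxy.2 ((hmem x y).2 ⟨hxy.1, h1⟩)
  refine ⟨v, fun i j hij hd => ?_⟩
  rcases hv i j hij hd with h1 | h1
  · exact hadj _ _ h1
  · exact (hadj _ _ h1).symm

end Pool.Agent.H48.PW
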