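import Pool.Agent.H48.PW.Stm

set_option autoImplicit false

namespace Pool.Agent.H48.PW

open Finset Pool.Agent.Helper83K9.CF

namespace TRANSL

/-- Hoeffding with an upper bound of the number of coordinates -/
theorem hoef (h1 : S_HOEF) {ι V : Type} [Fintype ι] [DecidableEq ι] [DecidableEq V]
    (S : ι → Finset V) (f : ι → V → ℝ) (E dev A : ℝ) (hS : ∀ i, (S i).Nonempty) (hdev : 0 < dev)
    (hιA : (Fintype.card ι : ℝ) ≤ A) (hf : ∀ i v, |f i v| ≤ 1)
    (hE : ∑ i, (∑ v ∈ S i, f i v) / ((S i).card : ℝ) ≤ E) :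
    (((Fintype.piFinset S).filter (fun ω => E + dev ≤ ∑ i, f i (ω i))).card : ℝ) ≤
      Real.exp (-(dev ^ 2) / (16 * A)) * ∏ i, ((S i).card : ℝ) := by
  rcases Nat.eq_zero_or_pos (Fintype.card ι) with h0 | h0
  · have hempty : (univ : Finset ι) = ∅ := by
      rw [← Finset.card_eq_zero]; exact h0
    have hE0 : 0 ≤ E := by
      rw [hempty, sum_empty] at hE; exact hE
    have : (Fintype.piFinset S).filter (fun ω => E + dev ≤ ∑ i, f i (ω i)) = ∅ := by
      apply Finset.filter_false_of_mem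
      intro ω _ h
      rw [hempty, sum_empty] at h
      linarith
    rw [this]
    simp only [card_empty, Nat.cast_zero]
    positivity
  · have hc : (0 : ℝ) < Fintype.card ι := by exact_mod_cast h0
    have h2 := h1 ι V S f 1 dev hS one_pos hdev hf
    have h3 : (((Fintype.piFinset S).filter (fun ω => E + dev ≤ ∑ i, f i (ω i))).card : ℝ) ≤
        (((Fintype.piFinset S).filter (fun ω => ∑ i, (∑ v ∈ S i, f i v) / ((S i).card : ℝ) + dev ≤
          ∑ i, f i (ω i))).card : ℝ) := by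
      exact_mod_cast Finset.card_le_card (by
        intro ω hω
        rw [mem_filter] at hω ⊢
        exact ⟨hω.1, by linarith [hω.2]⟩)
    refine h3.trans (h2.trans ?_)
    apply mul_le_mul_of_nonneg_right _ (by positivity)
    apply Real.exp_le_exp.mpr
    rw [neg_div, neg_div, neg_le_neg_iff, one_pow, mul_one]
    apply div_le_div_of_nonneg_left (by positivity) (by positivity)
    linarith

/-- one coordinate fixed -/
theorem bad_int (h1 : S_HOEF) {ι V : Type} [Fintype ι] [DecidableEq ι] [DecidableEq V]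
    (S : ι → Finset V) (x : ι) (F : V → ι → V → ℝ) (E dev A : ℝ) (hS : ∀ i, (S i).Nonempty)
    (hdev : 0 < dev) (hιA : (Fintype.card ι : ℝ) ≤ A) (hF0 : ∀ w i v, 0 ≤ F w i v)
    (hF1 : ∀ w i v, F w i v ≤ 1)
    (hE : ∀ w ∈ S x, ∑ i, (∑ v ∈ S i, F w i v) / ((S i).card : ℝ) ≤ E) :
    (((Fintype.piFinset S).filter (fun ω => E + 1 + dev ≤ ∑ i, F (ω x) i (ω i))).card : ℝ) ≤
      Real.exp (-(dev ^ 2) / (16 * A)) * ∏ i, ((S i).card : ℝ) := by
  have hfib : ((Fintype.piFinset S).filter (fun ω => E + 1 + dev ≤ ∑ i, F (ω x) i (ω i))).card =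
      ∑ w ∈ S x, (((Fintype.piFinset S).filter
        (fun ω => E + 1 + dev ≤ ∑ i, F (ω x) i (ω i))).filter (fun ω => ω x = w)).card := by
    apply Finset.card_eq_sum_card_fiberwise
    intro ω hω
    rw [mem_coe, mem_filter] at hω
    exact Fintype.mem_piFinset.mp hω.1 x
  rw [hfib]
  push_cast
  have hprod : ∀ w, ∏ i, ((Function.update S x {w} i).card : ℝ) =
      ∏ i ∈ univ.erase x, ((S i).card : ℝ) := by
    intro w
    rw [← Finset.mul_prod_erase univ _ (mem_univ x), Function.update_self, card_singleton,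
      Nat.cast_one, one_mul]
    apply Finset.prod_congr rfl
    intro i hi
    rw [Function.update_of_ne (Finset.ne_of_mem_erase hi)]
  have hterm : ∀ w ∈ S x, ((((Fintype.piFinset S).filter
        (fun ω => E + 1 + dev ≤ ∑ i, F (ω x) i (ω i))).filter (fun ω => ω x = w)).card : ℝ) ≤
      Real.exp (-(dev ^ 2) / (16 * A)) * ∏ i ∈ univ.erase x, ((S i).card : ℝ) := by
    intro w hw
    rw [← hprod w]
    refine le_trans ?_ (hoef h1 (Function.update S x {w}) (F w) (E + 1) dev A ?_ hdev hιA ?_ ?_)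
    · exact_mod_cast Finset.card_le_card (by
        intro ω hω
        rw [mem_filter, mem_filter] at hω
        obtain ⟨⟨h2, h3⟩, h4⟩ := hω
        rw [mem_filter]
        refine ⟨?_, by rw [h4] at h3; exact h3⟩
        rw [Fintype.mem_piFinset] at h2 ⊢
        intro i
        by_cases hi : i = x
        · subst hi
          rw [Function.update_self, mem_singleton]; exact h4
        · rw [Function.update_of_ne hi]; exact h2 i)
    · intro i
      by_cases hi : i = x
      · subst hi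
        rw [Function.update_self]; exact singleton_nonempty _
      · rw [Function.update_of_ne hi]; exact hS i
    · intro i v
      rw [abs_of_nonneg (hF0 _ _ _)]
      exact hF1 _ _ _
    · have h5 := hE w hw
      rw [← Finset.add_sum_erase univ _ (mem_univ x)] at h5 ⊢
      have h6 : (∑ v ∈ Function.update S x {w} x, F w x v) /
          ((Function.update S x {w} x).card : ℝ) ≤ 1 := by
        rw [Function.update_self, sum_singleton, card_singleton, Nat.cast_one, div_one]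
        exact hF1 _ _ _
      have h7 : ∑ i ∈ univ.erase x, (∑ v ∈ Function.update S x {w} i, F w i v) /
          ((Function.update S x {w} i).card : ℝ) =
          ∑ i ∈ univ.erase x, (∑ v ∈ S i, F w i v) / ((S i).card : ℝ) := by
        apply Finset.sum_congr rfl
        intro i hi
        rw [Function.update_of_ne (Finset.ne_of_mem_erase hi)]
      have h8 : 0 ≤ (∑ v ∈ S x, F w x v) / ((S x).card : ℝ) :=
        div_nonneg (Finset.sum_nonneg (fun v _ => hF0 _ _ _)) (Nat.cast_nonneg _)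
      rw [h7]
      linarith
  calc ∑ w ∈ S x, ((((Fintype.piFinset S).filter
        (fun ω => E + 1 + dev ≤ ∑ i, F (ω x) i (ω i))).filter (fun ω => ω x = w)).card : ℝ)
      ≤ ∑ w ∈ S x, Real.exp (-(dev ^ 2) / (16 * A)) * ∏ i ∈ univ.erase x, ((S i).card : ℝ) :=
        Finset.sum_le_sum hterm
    _ = Real.exp (-(dev ^ 2) / (16 * A)) * ∏ i, ((S i).card : ℝ) := by
        rw [Finset.sum_const, nsmul_eq_mul, ← Finset.mul_prod_erase univ _ (mem_univ x)]
        ring

/-- the indicator of a missed point -/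
noncomputable def ff {n : ℕ} (M : ZMod n → Finset (ZMod n)) (z : ZMod n) (K x₀ : ℕ) (v : ZMod n)
    {N : ℕ} (y : Fin N) (u : ℕ) : ℝ :=
  if ((y : ℕ) ≤ x₀ + K ∧ x₀ ≤ (y : ℕ) + K) ∧ z + (u : ZMod n) ∈ M v then 1 else 0

theorem ff_nonneg {n : ℕ} (M : ZMod n → Finset (ZMod n)) (z : ZMod n) (K x₀ : ℕ) (v : ZMod n)
    {N : ℕ} (y : Fin N) (u : ℕ) : 0 ≤ ff M z K x₀ v y u := by
  rw [ff]; split_ifs <;> norm_num

theorem ff_le {n : ℕ} (M : ZMod n → Finset (ZMod n)) (z : ZMod n) (K x₀ : ℕ) (v : ZMod n)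
    {N : ℕ} (y : Fin N) (u : ℕ) : ff M z K x₀ v y u ≤ 1 := by
  rw [ff]; split_ifs <;> norm_num

theorem cast_inj {n : ℕ} {z : ZMod n} {u u' : ℕ} (h : z + (u : ZMod n) = z + (u' : ZMod n))
    (h1 : u < u' + n) (h2 : u' < u + n) : u = u' := by
  have h3 : (u : ZMod n) = (u' : ZMod n) := add_left_cancel h
  rw [ZMod.natCast_eq_natCast_iff] at h3
  rcases le_total u u' with h4 | h4
  · have h5 : n ∣ u' - u := (Nat.modEq_iff_dvd' h4).mp h3
    have h6 := Nat.eq_zero_of_dvd_of_lt h5 (by omega)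
    omega
  · have h5 : n ∣ u - u' := (Nat.modEq_iff_dvd' h4).mp h3.symm
    have h6 := Nat.eq_zero_of_dvd_of_lt h5 (by omega)
    omega

theorem expect {n : ℕ} (M : ZMod n → Finset (ZMod n)) (z : ZMod n) (U : Finset (ZMod n))
    (ℓ q N₀ L : ℕ) (σ : ℝ) (hσ : 0 < σ) (hq : 0 < q)
    (hcell : ∀ j, j < L → σ ≤ ((cellU z ℓ U j).card : ℝ)) (hn : 2 * N₀ * ℓ ≤ n) (hN : 3 ≤ N₀)
    (x₀ : ℕ) (v : ZMod n) :
    ∑ y : Fin (L * q), (∑ u ∈ cellU z ℓ U ((y : ℕ) / q), ff M z (q * (N₀ - 2)) x₀ v y u) /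
      ((cellU z ℓ U ((y : ℕ) / q)).card : ℝ) ≤ q * ((M v ∩ U).card : ℝ) / σ := by
  classical
  set a : ℕ → Finset ℕ := fun j => (cellU z ℓ U j).filter (fun u => z + (u : ZMod n) ∈ M v)
    with ha
  set W : Finset (Fin (L * q)) := univ.filter
    (fun y => (y : ℕ) ≤ x₀ + q * (N₀ - 2) ∧ x₀ ≤ (y : ℕ) + q * (N₀ - 2)) with hW
  set J : Finset ℕ := Icc (x₀ / q - (N₀ - 2)) (x₀ / q + (N₀ - 2)) with hJ
  have hy : ∀ y : Fin (L * q), (y : ℕ) / q < L := by
    intro y
    rw [Nat.div_lt_iff_lt_mul hq]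
    exact y.2
  have hterm : ∀ y : Fin (L * q), (∑ u ∈ cellU z ℓ U ((y : ℕ) / q),
      ff M z (q * (N₀ - 2)) x₀ v y u) / ((cellU z ℓ U ((y : ℕ) / q)).card : ℝ) ≤
      (if y ∈ W then ((a ((y : ℕ) / q)).card : ℝ) else 0) / σ := by
    intro y
    have h1 := hcell _ (hy y)
    have h2 : ∑ u ∈ cellU z ℓ U ((y : ℕ) / q), ff M z (q * (N₀ - 2)) x₀ v y u =
        (if y ∈ W then ((a ((y : ℕ) / q)).card : ℝ) else 0) := by
      by_cases hyW : y ∈ W
      · have hyW' := (mem_filter.mp hyW).2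
        rw [if_pos hyW, ha, Finset.card_filter]
        push_cast
        apply Finset.sum_congr rfl
        intro u _
        simp [ff, hyW']
      · rw [if_neg hyW]
        apply Finset.sum_eq_zero
        intro u _
        rw [ff, if_neg]
        rintro ⟨h3, -⟩
        exact hyW (mem_filter.mpr ⟨mem_univ _, h3⟩)
    rw [h2]
    apply div_le_div_of_nonneg_left _ hσ h1
    split_ifs <;> positivity
  have hmaps : ∀ y ∈ W, (y : ℕ) / q ∈ J := by
    intro y hyW
    obtain ⟨h1, h2⟩ := (mem_filter.mp hyW).2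
    rw [hJ, mem_Icc]
    constructor
    · have h3 : x₀ / q ≤ (y : ℕ) / q + (N₀ - 2) := by
        calc x₀ / q ≤ ((y : ℕ) + q * (N₀ - 2)) / q := Nat.div_le_div_right h2
          _ = _ := Nat.add_mul_div_left _ _ hq
      exact Nat.sub_le_iff_le_add.mpr h3
    · calc (y : ℕ) / q ≤ (x₀ + q * (N₀ - 2)) / q := Nat.div_le_div_right h1
        _ = _ := Nat.add_mul_div_left _ _ hq
  have hcount : ∑ y ∈ W, ((a ((y : ℕ) / q)).card : ℝ) ≤ q * ∑ j ∈ J, ((a j).card : ℝ) := by
    rw [← Finset.sum_fiberwise_of_maps_to hmaps, Finset.mul_sum]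
    apply Finset.sum_le_sum
    intro j _
    have h1 : ∑ y ∈ W.filter (fun y : Fin (L * q) => (y : ℕ) / q = j),
        ((a ((y : ℕ) / q)).card : ℝ) =
        ((W.filter (fun y : Fin (L * q) => (y : ℕ) / q = j)).card : ℝ) * ((a j).card : ℝ) := by
      rw [← nsmul_eq_mul, ← Finset.sum_const]
      apply Finset.sum_congr rfl
      intro y hy'
      rw [(mem_filter.mp hy').2]
    rw [h1]
    apply mul_le_mul_of_nonneg_right _ (Nat.cast_nonneg _)
    have h2 : (W.filter (fun y : Fin (L * q) => (y : ℕ) / q = j)).card ≤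
        (Ico (j * q) ((j + 1) * q)).card := by
      apply Finset.card_le_card_of_injOn (fun y : Fin (L * q) => (y : ℕ))
      · intro y hy'
        have h3 := (mem_filter.mp hy').2
        simp only [mem_coe, mem_Ico]
        constructor
        · rw [← h3]; exact Nat.div_mul_le_self _ _
        · rw [← h3]; exact Nat.lt_mul_of_div_lt (Nat.lt_succ_self _) hq
      · intro y _ y' _ h; exact Fin.ext h
    rw [Nat.card_Ico, add_mul, one_mul, Nat.add_sub_cancel_left] at h2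
    exact_mod_cast h2
  have hinj : ∑ j ∈ J, (a j).card ≤ (M v ∩ U).card := by
    rw [← Finset.card_sigma]
    apply Finset.card_le_card_of_injOn (fun p : Σ _ : ℕ, ℕ => z + (p.2 : ZMod n))
    · rintro ⟨j, u⟩ hp
      simp only [coe_sigma, Set.mem_sigma_iff, mem_coe, ha, mem_filter, cellU] at hp
      simp only [mem_coe, mem_inter]
      exact ⟨hp.2.2, hp.2.1.2⟩
    · rintro ⟨j, u⟩ hp ⟨j', u'⟩ hp' heq
      simp only [coe_sigma, Set.mem_sigma_iff, mem_coe, ha, mem_filter, cellU, hJ, mem_Icc,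
        mem_Ico] at hp hp'
      obtain ⟨⟨g1, g2⟩, ⟨⟨g3, g4⟩, -⟩, -⟩ := hp
      obtain ⟨⟨g1', g2'⟩, ⟨⟨g3', g4'⟩, -⟩, -⟩ := hp'
      have hℓ : 0 < ℓ := by
        rcases Nat.eq_zero_or_pos ℓ with h | h
        · subst h; omega
        · exact h
      have k1 : j ≤ j' + 2 * (N₀ - 2) := by omega
      have k2 : j' ≤ j + 2 * (N₀ - 2) := by omega
      have k3 : u < u' + n := by
        calc u < (j + 1) * ℓ := g4
          _ ≤ (j' + 2 * (N₀ - 2) + 1) * ℓ := Nat.mul_le_mul_right _ (by omega)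
          _ = j' * ℓ + (2 * (N₀ - 2) + 1) * ℓ := by ring
          _ ≤ u' + 2 * N₀ * ℓ := Nat.add_le_add g3' (Nat.mul_le_mul_right _ (by omega))
          _ ≤ u' + n := Nat.add_le_add_left hn _
      have k4 : u' < u + n := by
        calc u' < (j' + 1) * ℓ := g4'
          _ ≤ (j + 2 * (N₀ - 2) + 1) * ℓ := Nat.mul_le_mul_right _ (by omega)
          _ = j * ℓ + (2 * (N₀ - 2) + 1) * ℓ := by ring
          _ ≤ u + 2 * N₀ * ℓ := Nat.add_le_add g3 (Nat.mul_le_mul_right _ (by omega))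
          _ ≤ u + n := Nat.add_le_add_left hn _
      have k5 : u = u' := cast_inj heq k3 k4
      subst k5
      have k6 : j = u / ℓ := by
        symm
        rw [Nat.div_eq_iff hℓ]
        constructor
        · exact g3
        · have : (j + 1) * ℓ = j * ℓ + ℓ := by ring
          omega
      have k7 : j' = u / ℓ := by
        symm
        rw [Nat.div_eq_iff hℓ]
        constructor
        · exact g3'
        · have : (j' + 1) * ℓ = j' * ℓ + ℓ := by ring
          omega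
      rw [k6, k7]
  have hinj' : ∑ j ∈ J, ((a j).card : ℝ) ≤ ((M v ∩ U).card : ℝ) := by exact_mod_cast hinj
  calc ∑ y : Fin (L * q), (∑ u ∈ cellU z ℓ U ((y : ℕ) / q), ff M z (q * (N₀ - 2)) x₀ v y u) /
      ((cellU z ℓ U ((y : ℕ) / q)).card : ℝ)
      ≤ ∑ y : Fin (L * q), (if y ∈ W then ((a ((y : ℕ) / q)).card : ℝ) else 0) / σ :=
        Finset.sum_le_sum (fun y _ => hterm y)
    _ = (∑ y ∈ W, ((a ((y : ℕ) / q)).card : ℝ)) / σ := by
        rw [← Finset.sum_div, Finset.sum_ite_mem, univ_inter]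
    _ ≤ q * ((M v ∩ U).card : ℝ) / σ := by
        apply div_le_div_of_nonneg_right _ hσ.le
        exact hcount.trans (mul_le_mul_of_nonneg_left hinj' (Nat.cast_nonneg _))

/-- the data of a sample -/
noncomputable def dat {n : ℕ} (M : ZMod n → Finset (ZMod n)) (z : ZMod n) (K N : ℕ) {R : ℕ}
    (e : Fin R → ZMod n) (pe : Fin R → ℕ) (ω : Fin N → ℕ) :
    Finset (Fin N × Fin N) × Finset (Fin R × Fin N) :=
  (univ.filter (fun p : Fin N × Fin N => z + (ω p.2 : ZMod n) ∈ M (z + (ω p.1 : ZMod n))),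
    univ.filter (fun p : Fin R × Fin N => (((p.2 : ℕ) ≤ pe p.1 + K ∧ pe p.1 ≤ (p.2 : ℕ) + K)) ∧
      z + (ω p.2 : ZMod n) ∈ M (e p.1)))

/-- the number of possible data -/
def Qn (N R : ℕ) : ℕ := Fintype.card (Finset (Fin N × Fin N) × Finset (Fin R × Fin N))

theorem Qn_pos (N R : ℕ) : 0 < Qn N R := Fintype.card_pos

/-- a sample without many missed points -/
def Good {n : ℕ} (M : ZMod n → Finset (ZMod n)) (z : ZMod n) (K N : ℕ) {R : ℕ}
    (e : Fin R → ZMod n) (pe : Fin R → ℕ) (Δ : ℝ) (ω : Fin N → ℕ) : Prop :=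
  (∀ x : Fin N, ∑ y, ff M z K x (z + (ω x : ZMod n)) y (ω y) < Δ) ∧
    ∀ i : Fin R, ∑ y, ff M z K (pe i) (e i) y (ω y) < Δ

open Classical in
theorem good_count (h1 : S_HOEF) {n : ℕ} (M : ZMod n → Finset (ZMod n)) (z : ZMod n)
    (U : Finset (ZMod n)) (ℓ q N₀ L R : ℕ) (σ E dev : ℝ) (hσ : 0 < σ) (hq : 0 < q)
    (hcell : ∀ j, j < L → σ ≤ ((cellU z ℓ U j).card : ℝ)) (hn : 2 * N₀ * ℓ ≤ n) (hN : 3 ≤ N₀)
    (hdev : 0 < dev) (e : Fin R → ZMod n) (pe : Fin R → ℕ)
    (hMv : ∀ p : ℕ, p < L * ℓ → q * ((M (z + (p : ZMod n)) ∩ U).card : ℝ) / σ ≤ E)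
    (he : ∀ i, ∃ p : ℕ, p < L * ℓ ∧ e i = z + (p : ZMod n))
    (hprob : (((L * q : ℕ) : ℝ) + R) * Real.exp (-(dev ^ 2) / (16 * ((L * q : ℕ) + 1))) ≤ 1 / 2) :
    1 / 2 * ∏ y : Fin (L * q), ((cellU z ℓ U ((y : ℕ) / q)).card : ℝ) ≤
      (((Fintype.piFinset (fun y : Fin (L * q) => cellU z ℓ U ((y : ℕ) / q))).filter
        (Good M z (q * (N₀ - 2)) (L * q) e pe (E + 1 + dev))).card : ℝ) := by
  set S : Fin (L * q) → Finset ℕ := fun y => cellU z ℓ U ((y : ℕ) / q) with hS
  set K := q * (N₀ - 2) with hK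
  have hyL : ∀ y : Fin (L * q), (y : ℕ) / q < L := by
    intro y
    rw [Nat.div_lt_iff_lt_mul hq]
    exact y.2
  have hSne : ∀ y, (S y).Nonempty := by
    intro y
    rw [← Finset.card_pos]
    have := hcell _ (hyL y)
    have h2 : (0 : ℝ) < ((S y).card : ℝ) := lt_of_lt_of_le hσ this
    exact_mod_cast h2
  have hSlt : ∀ y, ∀ w ∈ S y, w < L * ℓ := by
    intro y w hw
    rw [hS] at hw
    simp only [cellU, mem_filter, mem_Ico] at hw
    calc w < ((y : ℕ) / q + 1) * ℓ := hw.1.2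
      _ ≤ L * ℓ := Nat.mul_le_mul_right _ (hyL y)
  have hcardA : (Fintype.card (Fin (L * q)) : ℝ) ≤ ((L * q : ℕ) : ℝ) + 1 := by
    rw [Fintype.card_fin]; linarith
  set ex := Real.exp (-(dev ^ 2) / (16 * ((L * q : ℕ) + 1))) with hex
  set PP := ∏ y : Fin (L * q), ((S y).card : ℝ) with hPP
  have hPP0 : 0 ≤ PP := by positivity
  have hBx : ∀ x : Fin (L * q), (((Fintype.piFinset S).filter (fun ω => E + 1 + dev ≤
      ∑ y, ff M z K x (z + (ω x : ZMod n)) y (ω y))).card : ℝ) ≤ ex * PP := by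
    intro x
    refine bad_int h1 S x (fun w y u => ff M z K x (z + (w : ZMod n)) y u) E dev _ hSne hdev
      hcardA (fun _ _ _ => ff_nonneg _ _ _ _ _ _ _) (fun _ _ _ => ff_le _ _ _ _ _ _ _) ?_
    intro w hw
    exact (expect M z U ℓ q N₀ L σ hσ hq hcell hn hN x _).trans (hMv w (hSlt x w hw))
  have hBi : ∀ i : Fin R, (((Fintype.piFinset S).filter (fun ω => E + 1 + dev ≤
      ∑ y, ff M z K (pe i) (e i) y (ω y))).card : ℝ) ≤ ex * PP := by
    intro i
    refine hoef h1 S (fun y u => ff M z K (pe i) (e i) y u) (E + 1) dev _ hSne hdev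
      hcardA (fun _ _ => ?_) ?_
    · rw [abs_of_nonneg (ff_nonneg _ _ _ _ _ _ _)]
      exact ff_le _ _ _ _ _ _ _
    · obtain ⟨p, hp, hep⟩ := he i
      have h2 := (expect M z U ℓ q N₀ L σ hσ hq hcell hn hN (pe i) (e i))
      have h3 := hMv p hp
      rw [← hep] at h3
      linarith
  have hunion : Fintype.piFinset S ⊆ (Fintype.piFinset S).filter
      (Good M z K (L * q) e pe (E + 1 + dev)) ∪
      ((univ.biUnion (fun x : Fin (L * q) => (Fintype.piFinset S).filter (fun ω => E + 1 + dev ≤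
        ∑ y, ff M z K x (z + (ω x : ZMod n)) y (ω y)))) ∪
      (univ.biUnion (fun i : Fin R => (Fintype.piFinset S).filter (fun ω => E + 1 + dev ≤
        ∑ y, ff M z K (pe i) (e i) y (ω y))))) := by
    intro ω hω
    by_cases hg : Good M z K (L * q) e pe (E + 1 + dev) ω
    · exact mem_union_left _ (mem_filter.mpr ⟨hω, hg⟩)
    · apply mem_union_right
      rw [Good, not_and_or] at hg
      rcases hg with hg | hg
      · push Not at hg
        obtain ⟨x, hx⟩ := hg
        exact mem_union_left _ (mem_biUnion.mpr ⟨x, mem_univ _, mem_filter.mpr ⟨hω, hx⟩⟩)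
      · push Not at hg
        obtain ⟨x, hx⟩ := hg
        exact mem_union_right _ (mem_biUnion.mpr ⟨x, mem_univ _, mem_filter.mpr ⟨hω, hx⟩⟩)
  have hcard := Finset.card_le_card hunion
  have hPPc : ((Fintype.piFinset S).card : ℝ) = PP := by
    rw [Fintype.card_piFinset, hPP]; push_cast; rfl
  have hb1 : ((univ.biUnion (fun x : Fin (L * q) => (Fintype.piFinset S).filter
      (fun ω => E + 1 + dev ≤ ∑ y, ff M z K x (z + (ω x : ZMod n)) y (ω y)))).card : ℝ) ≤
      ((L * q : ℕ) : ℝ) * (ex * PP) := by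
    calc ((univ.biUnion (fun x : Fin (L * q) => (Fintype.piFinset S).filter
      (fun ω => E + 1 + dev ≤ ∑ y, ff M z K x (z + (ω x : ZMod n)) y (ω y)))).card : ℝ)
        ≤ ((∑ x : Fin (L * q), ((Fintype.piFinset S).filter
      (fun ω => E + 1 + dev ≤ ∑ y, ff M z K x (z + (ω x : ZMod n)) y (ω y))).card : ℕ) : ℝ) := by
          exact_mod_cast Finset.card_biUnion_le
      _ ≤ ∑ x : Fin (L * q), ex * PP := by
          push_cast
          exact Finset.sum_le_sum (fun x _ => hBx x)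
      _ = _ := by rw [Finset.sum_const, Finset.card_univ, Fintype.card_fin, nsmul_eq_mul]
  have hb2 : ((univ.biUnion (fun i : Fin R => (Fintype.piFinset S).filter
      (fun ω => E + 1 + dev ≤ ∑ y, ff M z K (pe i) (e i) y (ω y)))).card : ℝ) ≤
      (R : ℝ) * (ex * PP) := by
    calc ((univ.biUnion (fun i : Fin R => (Fintype.piFinset S).filter
      (fun ω => E + 1 + dev ≤ ∑ y, ff M z K (pe i) (e i) y (ω y)))).card : ℝ)
        ≤ ((∑ i : Fin R, ((Fintype.piFinset S).filter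
      (fun ω => E + 1 + dev ≤ ∑ y, ff M z K (pe i) (e i) y (ω y))).card : ℕ) : ℝ) := by
          exact_mod_cast Finset.card_biUnion_le
      _ ≤ ∑ i : Fin R, ex * PP := by
          push_cast
          exact Finset.sum_le_sum (fun x _ => hBi x)
      _ = _ := by rw [Finset.sum_const, Finset.card_univ, Fintype.card_fin, nsmul_eq_mul]
  have hc1 : ((Fintype.piFinset S).card : ℝ) ≤ (((Fintype.piFinset S).filter
      (Good M z K (L * q) e pe (E + 1 + dev))).card : ℝ) + (((L * q : ℕ) : ℝ) * (ex * PP) +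
      (R : ℝ) * (ex * PP)) := by
    refine le_trans (b := ((((Fintype.piFinset S).filter
      (Good M z K (L * q) e pe (E + 1 + dev))).card + ((univ.biUnion (fun x : Fin (L * q) =>
        (Fintype.piFinset S).filter (fun ω => E + 1 + dev ≤
        ∑ y, ff M z K x (z + (ω x : ZMod n)) y (ω y)))).card +
      (univ.biUnion (fun i : Fin R => (Fintype.piFinset S).filter (fun ω => E + 1 + dev ≤
        ∑ y, ff M z K (pe i) (e i) y (ω y)))).card) : ℕ) : ℝ)) ?_ ?_
    · exact_mod_cast hcard.trans ((Finset.card_union_le _ _).trans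
        (Nat.add_le_add_left (Finset.card_union_le _ _) _))
    · rw [Nat.cast_add, Nat.cast_add]
      linarith
  rw [hPPc] at hc1
  have hfin : (((L * q : ℕ) : ℝ) + R) * ex * PP ≤ 1 / 2 * PP :=
    mul_le_mul_of_nonneg_right hprob hPP0
  linarith [hfin]

theorem count_le {n : ℕ} (M : ZMod n → Finset (ZMod n)) (z : ZMod n) (K N x₀ : ℕ) (v : ZMod n)
    (ω : Fin N → ℕ) (Δ : ℝ) (μ : ℕ) (h : ∑ y, ff M z K x₀ v y (ω y) < Δ) (hμ : Δ ≤ μ + 1) :
    (univ.filter (fun y : Fin N => ((y : ℕ) ≤ x₀ + K ∧ x₀ ≤ (y : ℕ) + K) ∧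
      z + (ω y : ZMod n) ∈ M v)).card ≤ μ := by
  have h2 : ((univ.filter (fun y : Fin N => ((y : ℕ) ≤ x₀ + K ∧ x₀ ≤ (y : ℕ) + K) ∧
      z + (ω y : ZMod n) ∈ M v)).card : ℝ) = ∑ y, ff M z K x₀ v y (ω y) := by
    rw [Finset.card_filter]
    push_cast
    rfl
  have h3 : ((univ.filter (fun y : Fin N => ((y : ℕ) ≤ x₀ + K ∧ x₀ ≤ (y : ℕ) + K) ∧
      z + (ω y : ZMod n) ∈ M v)).card : ℝ) < (μ : ℝ) + 1 := by
    rw [h2]; linarith
  have h4 : (univ.filter (fun y : Fin N => ((y : ℕ) ≤ x₀ + K ∧ x₀ ≤ (y : ℕ) + K) ∧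
      z + (ω y : ZMod n) ∈ M v)).card < μ + 1 := by exact_mod_cast h3
  omega

open Classical in
/-- the non-injective samples are few -/
theorem noninj {n : ℕ} (z : ZMod n) (U : Finset (ZMod n)) (ℓ q L s : ℕ) (σ : ℝ) (hσ : 0 < σ)
    (hq : 0 < q) (hcell : ∀ j, j < L → σ ≤ ((cellU z ℓ U j).card : ℝ)) (hn : ℓ ≤ n) :
    (((Fintype.piFinset (fun p : Fin (L * q) × Fin s => cellU z ℓ U ((p.1 : ℕ) / q))).filter
      (fun Ω => ¬ Function.Injective (fun p => z + (Ω p : ZMod n)))).card : ℝ) ≤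
      ((L * q * s : ℕ) : ℝ) ^ 2 / σ *
        ∏ p : Fin (L * q) × Fin s, ((cellU z ℓ U ((p.1 : ℕ) / q)).card : ℝ) := by
  set S : Fin (L * q) × Fin s → Finset ℕ := fun p => cellU z ℓ U ((p.1 : ℕ) / q) with hS
  set PP := ∏ p : Fin (L * q) × Fin s, ((S p).card : ℝ) with hPP
  have hyL : ∀ y : Fin (L * q), (y : ℕ) / q < L := by
    intro y
    rw [Nat.div_lt_iff_lt_mul hq]
    exact y.2
  have hPP0 : 0 ≤ PP := Finset.prod_nonneg (fun _ _ => Nat.cast_nonneg _)
  have hpair : ∀ p p' : Fin (L * q) × Fin s, p ≠ p' → (((Fintype.piFinset S).filter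
      (fun Ω => z + (Ω p : ZMod n) = z + (Ω p' : ZMod n))).card : ℝ) ≤ PP / σ := by
    intro p p' hne
    -- forget the coordinate `p`
    have h1 : ((Fintype.piFinset S).filter
        (fun Ω => z + (Ω p : ZMod n) = z + (Ω p' : ZMod n))).card ≤
        (Fintype.piFinset (Function.update S p {0})).card := by
      apply Finset.card_le_card_of_injOn (fun Ω => Function.update Ω p 0)
      · intro Ω hΩ
        rw [mem_coe, mem_filter, Fintype.mem_piFinset] at hΩ
        rw [mem_coe, Fintype.mem_piFinset]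
        intro r
        by_cases hr : r = p
        · subst hr
          show Function.update Ω r 0 r ∈ Function.update S r {0} r
          rw [Function.update_self, Function.update_self]
          exact mem_singleton_self 0
        · show Function.update Ω p 0 r ∈ Function.update S p {0} r
          rw [Function.update_of_ne hr, Function.update_of_ne hr]
          exact hΩ.1 r
      · intro Ω hΩ Ω' hΩ' heq
        rw [mem_coe, mem_filter, Fintype.mem_piFinset] at hΩ hΩ'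
        have heq' : ∀ r, r ≠ p → Ω r = Ω' r := by
          intro r hr
          have h5 : Function.update Ω p 0 r = Function.update Ω' p 0 r := congrFun heq r
          rwa [Function.update_of_ne hr, Function.update_of_ne hr] at h5
        funext r
        by_cases hr : r = p
        · subst hr
          have e1 : z + (Ω r : ZMod n) = z + (Ω' r : ZMod n) := by
            rw [hΩ.2, hΩ'.2, heq' p' hne.symm]
          have g1 := hΩ.1 r
          have g2 := hΩ'.1 r
          simp only [hS, cellU, mem_filter, mem_Ico] at g1 g2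
          have e2 : (((r.1 : ℕ) / q) + 1) * ℓ = ((r.1 : ℕ) / q) * ℓ + ℓ := by ring
          exact cast_inj e1 (by omega) (by omega)
        · exact heq' r hr
    have h2 : ((Fintype.piFinset (Function.update S p {0})).card : ℝ) =
        ∏ r ∈ univ.erase p, ((S r).card : ℝ) := by
      rw [Fintype.card_piFinset]
      push_cast
      rw [← Finset.mul_prod_erase univ _ (mem_univ p), Function.update_self, card_singleton,
        Nat.cast_one, one_mul]
      apply Finset.prod_congr rfl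
      intro i hi
      rw [Function.update_of_ne (Finset.ne_of_mem_erase hi)]
    have h3 : σ ≤ ((S p).card : ℝ) := hcell _ (hyL p.1)
    have h4 : (((Fintype.piFinset S).filter
      (fun Ω => z + (Ω p : ZMod n) = z + (Ω p' : ZMod n))).card : ℝ) ≤
      ∏ r ∈ univ.erase p, ((S r).card : ℝ) := by
      rw [← h2]; exact_mod_cast h1
    refine h4.trans ?_
    rw [le_div_iff₀ hσ, hPP, ← Finset.mul_prod_erase univ _ (mem_univ p), mul_comm]
    exact mul_le_mul_of_nonneg_right h3 (Finset.prod_nonneg (fun _ _ => Nat.cast_nonneg _))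
  have hsub : (Fintype.piFinset S).filter
      (fun Ω => ¬ Function.Injective (fun p => z + (Ω p : ZMod n))) ⊆
      ((univ : Finset ((Fin (L * q) × Fin s) × (Fin (L * q) × Fin s))).filter (fun pp => pp.1 ≠ pp.2)).biUnion (fun pp =>
        (Fintype.piFinset S).filter (fun Ω => z + (Ω pp.1 : ZMod n) = z + (Ω pp.2 : ZMod n))) := by
    intro Ω hΩ
    rw [mem_filter] at hΩ
    obtain ⟨g1, g2⟩ := hΩ
    rw [Function.Injective] at g2
    push Not at g2
    obtain ⟨p, p', g3, g4⟩ := g2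
    exact mem_biUnion.mpr ⟨(p, p'), mem_filter.mpr ⟨mem_univ _, g4⟩, mem_filter.mpr ⟨g1, g3⟩⟩
  calc (((Fintype.piFinset S).filter
      (fun Ω => ¬ Function.Injective (fun p => z + (Ω p : ZMod n)))).card : ℝ)
      ≤ ((∑ pp ∈ (univ : Finset ((Fin (L * q) × Fin s) × (Fin (L * q) × Fin s))).filter (fun pp => pp.1 ≠ pp.2),
        ((Fintype.piFinset S).filter
          (fun Ω => z + (Ω pp.1 : ZMod n) = z + (Ω pp.2 : ZMod n))).card : ℕ) : ℝ) := by
        exact_mod_cast (Finset.card_le_card hsub).trans Finset.card_biUnion_le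
    _ ≤ ∑ pp ∈ (univ : Finset ((Fin (L * q) × Fin s) × (Fin (L * q) × Fin s))).filter (fun pp => pp.1 ≠ pp.2), PP / σ := by
        push_cast
        exact Finset.sum_le_sum (fun pp hpp => hpair pp.1 pp.2 (mem_filter.mp hpp).2)
    _ = (((univ : Finset ((Fin (L * q) × Fin s) × (Fin (L * q) × Fin s))).filter (fun pp => pp.1 ≠ pp.2)).card : ℝ) * (PP / σ) := by
        rw [Finset.sum_const, nsmul_eq_mul]
    _ ≤ ((L * q * s : ℕ) : ℝ) ^ 2 * (PP / σ) := by
        apply mul_le_mul_of_nonneg_right _ (div_nonneg hPP0 hσ.le)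
        have : ((univ : Finset ((Fin (L * q) × Fin s) × (Fin (L * q) × Fin s))).filter (fun pp => pp.1 ≠ pp.2)).card ≤
            (L * q * s) ^ 2 := by
          refine (Finset.card_filter_le _ _).trans ?_
          rw [Finset.card_univ, Fintype.card_prod, Fintype.card_prod, Fintype.card_fin,
            Fintype.card_fin, sq]
        exact_mod_cast this
    _ = _ := by ring

open Classical in
theorem core (h1 : S_HOEF) (h2 : S_BLOW) {n : ℕ} (M : ZMod n → Finset (ZMod n)) (z : ZMod n)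
    (U : Finset (ZMod n)) (ℓ q N₀ L R s μ : ℕ) (σ E dev : ℝ)
    (hrefl : ∀ x, x ∈ M x) (hsymm : ∀ x y, y ∈ M x → x ∈ M y)
    (hσ : 0 < σ) (hq : 0 < q) (hs : 1 ≤ s)
    (hcell : ∀ j, j < L → σ ≤ ((cellU z ℓ U j).card : ℝ)) (hn : 2 * N₀ * ℓ ≤ n) (hN : 3 ≤ N₀)
    (hdev : 0 < dev) (e : Fin R → ZMod n) (pe : Fin R → ℕ)
    (hMv : ∀ p : ℕ, p < L * ℓ → q * ((M (z + (p : ZMod n)) ∩ U).card : ℝ) / σ ≤ E)
    (he : ∀ i, ∃ p : ℕ, p < L * ℓ ∧ e i = z + (p : ZMod n))
    (hprob : (((L * q : ℕ) : ℝ) + R) * Real.exp (-(dev ^ 2) / (16 * ((L * q : ℕ) + 1))) ≤ 1 / 2)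
    (hμ : E + 1 + dev ≤ μ + 1) (C : ℝ)
    (hC : C = (1 / (2 * (Qn (L * q) R : ℝ))) ^ (s ^ (L * q)))
    (hbig : ((L * q * s : ℕ) : ℝ) ^ 2 / σ ≤ C / 2) :
    ∃ (Γ : ℕ → ℕ → Prop) (X : Fin R → Finset ℕ), LG (L * q) (q * (N₀ - 2)) μ Γ ∧
      (∀ i, (X i).card ≤ μ) ∧
      C / 2 * ∏ p : Fin (L * q) × Fin s, ((cellU z ℓ U ((p.1 : ℕ) / q)).card : ℝ) ≤
        (((Fintype.piFinset (fun p : Fin (L * q) × Fin s => cellU z ℓ U ((p.1 : ℕ) / q))).filter
          (fun Ω => Faith n M z (L * q) (q * (N₀ - 2)) s e pe Γ X Ω)).card : ℝ) := by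
  have hg := good_count h1 M z U ℓ q N₀ L R σ E dev hσ hq hcell hn hN hdev e pe hMv he hprob
  set S : Fin (L * q) → Finset ℕ := fun y => cellU z ℓ U ((y : ℕ) / q) with hS
  set K := q * (N₀ - 2) with hK
  set Δ := E + 1 + dev with hΔ
  set GS := (Fintype.piFinset S).filter (Good M z K (L * q) e pe Δ) with hGS
  set PP := ∏ y : Fin (L * q), ((S y).card : ℝ) with hPP
  set Q := Qn (L * q) R with hQ
  have hQ0 : (0 : ℝ) < Q := by exact_mod_cast Qn_pos (L * q) R
  have hyL : ∀ y : Fin (L * q), (y : ℕ) / q < L := by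
    intro y
    rw [Nat.div_lt_iff_lt_mul hq]
    exact y.2
  have hPPpos : 0 < PP := Finset.prod_pos (fun y _ => lt_of_lt_of_le hσ (hcell _ (hyL y)))
  -- pigeonhole
  obtain ⟨τ, hτ⟩ : ∃ τ : Finset (Fin (L * q) × Fin (L * q)) × Finset (Fin R × Fin (L * q)),
      1 / (2 * (Q : ℝ)) * PP ≤ ((GS.filter (fun ω => dat M z K (L * q) e pe ω = τ)).card : ℝ) := by
    have hsum : (GS.card : ℝ) = ∑ τ : Finset (Fin (L * q) × Fin (L * q)) × Finset (Fin R × Fin (L * q)),
        ((GS.filter (fun ω => dat M z K (L * q) e pe ω = τ)).card : ℝ) := by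
      have := Finset.card_eq_sum_card_fiberwise (s := GS) (t := univ)
        (f := fun ω => dat M z K (L * q) e pe ω) (fun _ _ => Finset.mem_coe.mpr (mem_univ _))
      exact_mod_cast this
    have hle : ∑ _τ : Finset (Fin (L * q) × Fin (L * q)) × Finset (Fin R × Fin (L * q)), 1 / (2 * (Q : ℝ)) * PP ≤
        ∑ τ : Finset (Fin (L * q) × Fin (L * q)) × Finset (Fin R × Fin (L * q)),
        ((GS.filter (fun ω => dat M z K (L * q) e pe ω = τ)).card : ℝ) := by
      rw [← hsum, Finset.sum_const, Finset.card_univ, nsmul_eq_mul]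
      have e1 : (Fintype.card (Finset (Fin (L * q) × Fin (L * q)) × Finset (Fin R × Fin (L * q))) : ℝ) *
          (1 / (2 * (Q : ℝ)) * PP) = 1 / 2 * PP := by
        have : (Fintype.card (Finset (Fin (L * q) × Fin (L * q)) × Finset (Fin R × Fin (L * q))) : ℝ) = Q := rfl
        rw [this]
        field_simp
      rw [e1]
      exact hg
    obtain ⟨τ, _, hτ⟩ := Finset.exists_le_of_sum_le Finset.univ_nonempty hle
    exact ⟨τ, hτ⟩
  set G := GS.filter (fun ω => dat M z K (L * q) e pe ω = τ) with hG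
  have hGne : G.Nonempty := by
    rw [← Finset.card_pos]
    have : (0 : ℝ) < (G.card : ℝ) := lt_of_lt_of_le
      (mul_pos (div_pos one_pos (mul_pos two_pos hQ0)) hPPpos) hτ
    exact_mod_cast this
  obtain ⟨ω₀, hω₀⟩ := hGne
  have hω₀' := mem_filter.mp hω₀
  have hω₀G : Good M z K (L * q) e pe Δ ω₀ := (mem_filter.mp hω₀'.1).2
  have hτ1 : ∀ ω ∈ G, ∀ x y : Fin (L * q), (x, y) ∈ τ.1 ↔
      z + (ω y : ZMod n) ∈ M (z + (ω x : ZMod n)) := by
    intro ω hω x y
    rw [← (mem_filter.mp hω).2, dat]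
    simp only [mem_filter, mem_univ, true_and]
  have hτ2 : ∀ ω ∈ G, ∀ (i : Fin R) (y : Fin (L * q)), (i, y) ∈ τ.2 ↔
      ((y : ℕ) ≤ pe i + K ∧ pe i ≤ (y : ℕ) + K) ∧ z + (ω y : ZMod n) ∈ M (e i) := by
    intro ω hω x y
    rw [← (mem_filter.mp hω).2, dat]
    simp only [mem_filter, mem_univ, true_and]
  let Γ : ℕ → ℕ → Prop := fun x y => ∃ (hx : x < L * q) (hy : y < L * q),
    ((⟨x, hx⟩ : Fin (L * q)), (⟨y, hy⟩ : Fin (L * q))) ∉ τ.1
  let X : Fin R → Finset ℕ := fun i => (univ.filter (fun y : Fin (L * q) => (i, y) ∈ τ.2)).image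
    (fun y : Fin (L * q) => (y : ℕ))
  refine ⟨Γ, X, ⟨?_, ?_, ?_⟩, ?_, ?_⟩
  · rintro x y ⟨hx, hy, hxy⟩
    refine ⟨hy, hx, ?_⟩
    rw [hτ1 ω₀ hω₀] at hxy ⊢
    intro h
    exact hxy (hsymm _ _ h)
  · rintro x ⟨hx, hy, hxy⟩
    rw [hτ1 ω₀ hω₀] at hxy
    exact hxy (hrefl _)
  · intro x hx
    refine ⟨(univ.filter (fun y : Fin (L * q) => ((y : ℕ) ≤ x + K ∧ x ≤ (y : ℕ) + K) ∧
      z + (ω₀ y : ZMod n) ∈ M (z + (ω₀ ⟨x, hx⟩ : ZMod n)))).image (fun y : Fin (L * q) => (y : ℕ)), ?_, ?_⟩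
    · exact Finset.card_image_le.trans (count_le M z K (L * q) x _ ω₀ Δ μ (hω₀G.1 ⟨x, hx⟩) hμ)
    · intro y hy hxy hyx hn'
      rw [mem_image]
      refine ⟨⟨y, hy⟩, mem_filter.mpr ⟨mem_univ _, ⟨hyx, hxy⟩, ?_⟩, rfl⟩
      by_contra h
      apply hn'
      refine ⟨hx, hy, ?_⟩
      rw [hτ1 ω₀ hω₀]
      exact h
  · intro i
    refine Finset.card_image_le.trans ?_
    refine le_trans (Finset.card_le_card ?_) (count_le M z K (L * q) (pe i) (e i) ω₀ Δ μ (hω₀G.2 i) hμ)
    intro y hy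
    rw [mem_filter] at hy ⊢
    exact ⟨mem_univ _, (hτ2 ω₀ hω₀ i y).mp hy.2⟩
  · have hb := h2 (Fin (L * q)) ℕ S G (1 / (2 * (Q : ℝ))) s
      (fun ω hω => (mem_filter.mp (mem_filter.mp hω).1).1)
      (div_pos one_pos (mul_pos two_pos hQ0)).le hs hτ
    rw [Fintype.card_fin, ← hC] at hb
    have hprod : ∏ p : Fin (L * q) × Fin s, ((cellU z ℓ U ((p.1 : ℕ) / q)).card : ℝ) =
        ∏ i, ((S i).card : ℝ) ^ s := by
      rw [Fintype.prod_prod_type]
      apply Finset.prod_congr rfl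
      intro i _
      show ∏ _y : Fin s, ((S i).card : ℝ) = _
      rw [Finset.prod_const, Finset.card_univ, Fintype.card_fin]
    have hnoninj := noninj z U ℓ q L s σ hσ hq hcell (by nlinarith)
    rw [hprod] at hnoninj ⊢
    set PS := ∏ i, ((S i).card : ℝ) ^ s with hPS
    have hPS0 : 0 ≤ PS := Finset.prod_nonneg (fun _ _ => pow_nonneg (Nat.cast_nonneg _) _)
    have hsub : (Fintype.piFinset (fun p : Fin (L * q) × Fin s => S p.1)).filter
        (fun Ω => ∀ φ : Fin (L * q) → Fin s, (fun i => Ω (i, φ i)) ∈ G) ⊆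
        (Fintype.piFinset (fun p : Fin (L * q) × Fin s => cellU z ℓ U ((p.1 : ℕ) / q))).filter
          (fun Ω => Faith n M z (L * q) K s e pe Γ X Ω) ∪
        (Fintype.piFinset (fun p : Fin (L * q) × Fin s => cellU z ℓ U ((p.1 : ℕ) / q))).filter
          (fun Ω => ¬ Function.Injective (fun p => z + (Ω p : ZMod n))) := by
      intro Ω hΩ
      rw [mem_filter] at hΩ
      obtain ⟨hΩ1, hΩ2⟩ := hΩ
      by_cases hinj : Function.Injective (fun p => z + (Ω p : ZMod n))
      · apply mem_union_left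
        rw [mem_filter]
        refine ⟨hΩ1, hinj, ?_, ?_⟩
        · intro x y a b _ _ hxy hmem
          obtain ⟨hx, hy, hxy⟩ := hxy
          have hne : x ≠ y := by
            rintro rfl
            rw [hτ1 ω₀ hω₀] at hxy
            exact hxy (hrefl _)
          have hφ := hΩ2 (fun i => if i = x then a else b)
          have h5 := (hτ1 _ hφ x y).mpr (by
            show z + ((Ω (y, if y = x then a else b) : ℕ) : ZMod n) ∈
              M (z + ((Ω (x, if x = x then a else b) : ℕ) : ZMod n))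
            rw [if_pos rfl, if_neg hne.symm]
            exact hmem)
          exact hxy h5
        · intro i y b hy1 hy2 hyX hmem
          have hφ := hΩ2 (fun _ => b)
          have h5 := (hτ2 _ hφ i y).mpr ⟨⟨hy1, hy2⟩, hmem⟩
          exact hyX (mem_image.mpr ⟨y, mem_filter.mpr ⟨mem_univ _, h5⟩, rfl⟩)
      · apply mem_union_right
        rw [mem_filter]
        exact ⟨hΩ1, hinj⟩
    have hcard : (((Fintype.piFinset (fun p : Fin (L * q) × Fin s => S p.1)).filter
        (fun Ω => ∀ φ : Fin (L * q) → Fin s, (fun i => Ω (i, φ i)) ∈ G)).card : ℝ) ≤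
        (((Fintype.piFinset (fun p : Fin (L * q) × Fin s => cellU z ℓ U ((p.1 : ℕ) / q))).filter
          (fun Ω => Faith n M z (L * q) K s e pe Γ X Ω)).card : ℝ) +
        (((Fintype.piFinset (fun p : Fin (L * q) × Fin s => cellU z ℓ U ((p.1 : ℕ) / q))).filter
          (fun Ω => ¬ Function.Injective (fun p => z + (Ω p : ZMod n)))).card : ℝ) := by
      exact_mod_cast (Finset.card_le_card hsub).trans (Finset.card_union_le _ _)
    have hbig' := mul_le_mul_of_nonneg_right hbig hPS0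
    linarith

theorem prob_aux (A q a : ℝ) (hq : 0 < q) (ha : 0 < a) (h : 4 * A / a ^ 2 ≤ q) :
    (A * q) * (2 / (a * q) ^ 2) ≤ 1 / 2 := by
  have e1 : (A * q) * (2 / (a * q) ^ 2) = (4 * A / a ^ 2) / (2 * q) := by
    field_simp
    ring
  rw [e1, div_le_iff₀ (by positivity)]
  linarith

theorem exp_aux (L q lam dev a : ℝ) (hL : 0 ≤ L) (hq : 1 ≤ q) (hdev : dev = q * lam)
    (ha : a = lam ^ 2 / (16 * (L + 1))) (ha0 : 0 < a) :
    Real.exp (-(dev ^ 2) / (16 * (L * q + 1))) ≤ 2 / (a * q) ^ 2 := by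
  have hexp : Real.exp (-(dev ^ 2) / (16 * (L * q + 1))) ≤ Real.exp (-(a * q)) := by
    apply Real.exp_le_exp.mpr
    rw [neg_div, neg_le_neg_iff, ha, hdev]
    rw [div_mul_eq_mul_div, div_le_div_iff₀ (by positivity) (by positivity)]
    have h3 : (L * q + 1) ≤ (L + 1) * q := by nlinarith
    have h4 : 0 ≤ lam ^ 2 * q * 16 := by positivity
    nlinarith [mul_le_mul_of_nonneg_left h3 h4]
  have haq : 0 < a * q := by positivity
  have h3 := Real.quadratic_le_exp_of_nonneg haq.le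
  have h4 : Real.exp (-(a * q)) ≤ 2 / (a * q) ^ 2 := by
    rw [Real.exp_neg, inv_eq_one_div, div_le_div_iff₀ (Real.exp_pos _) (by positivity)]
    nlinarith
  exact hexp.trans h4

end TRANSL

set_option maxHeartbeats 1000000 in
/-- [TRANS] transfer -/
theorem trans (h1 : S_HOEF) (h2 : S_BLOW) : S_TRANS := by
  intro t ε ht hε hε1
  have ht0 : (0 : ℝ) < t := by exact_mod_cast ht
  refine ⟨max 3 ⌈64 / ε⌉₊, ⌈16 / ε⌉₊ + 3, le_max_left _ _, ?_⟩
  intro N₀ L R hN
  have hN3 : 3 ≤ N₀ := (le_max_left _ _).trans hN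
  have hεN : 64 ≤ ε * N₀ := by
    have h3 : 64 / ε ≤ (N₀ : ℝ) :=
      (Nat.le_ceil _).trans (by exact_mod_cast (le_max_right _ _).trans hN)
    rw [div_le_iff₀ hε] at h3
    linarith
  have hN0 : (3 : ℝ) ≤ N₀ := by exact_mod_cast hN3
  set lam : ℝ := ε * N₀ / (8 * t) with hlam
  have hlam0 : 0 < lam := by positivity
  set a : ℝ := lam ^ 2 / (16 * (L + 1)) with ha
  have ha0 : 0 < a := by positivity
  set q : ℕ := 3 * t + 1 + ⌈4 * ((L : ℝ) + R) / a ^ 2⌉₊ with hq
  have hq1 : 3 * t + 1 ≤ q := by omega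
  have hq1' : 3 * (t : ℝ) + 1 ≤ q := by exact_mod_cast hq1
  have hqpos : (0 : ℝ) < q := by linarith
  have hq2 : 4 * ((L : ℝ) + R) / a ^ 2 ≤ q := by
    refine (Nat.le_ceil _).trans ?_
    exact_mod_cast (by omega : ⌈4 * ((L : ℝ) + R) / a ^ 2⌉₊ ≤ q)
  set E : ℝ := q * (1 - ε) * (N₀ + 1) / t with hE
  set dev : ℝ := q * lam with hdev
  have hdev0 : 0 < dev := by positivity
  have hE0 : 0 ≤ E := by
    have : 0 ≤ 1 - ε := by linarith
    positivity
  set μ : ℕ := ⌈E + 1 + dev⌉₊ with hμ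
  set ν : ℕ := ⌈dev⌉₊ with hν
  have hμ1 : E + 1 + dev ≤ μ := Nat.le_ceil _
  have hμ2 : (μ : ℝ) < E + 1 + dev + 1 := Nat.ceil_lt_add_one (by positivity)
  have hν1 : dev ≤ ν := Nat.le_ceil _
  have hν2 : (ν : ℝ) < dev + 1 := Nat.ceil_lt_add_one hdev0.le
  have hν3 : 1 ≤ ν := Nat.one_le_ceil_iff.mpr hdev0
  have hν3' : (1 : ℝ) ≤ ν := by exact_mod_cast hν3
  have hEt : t * E = q * (1 - ε) * (N₀ + 1) := by rw [hE]; field_simp
  have hdt : t * dev = q * (ε * N₀) / 8 := by rw [hdev, hlam]; field_simp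
  clear_value q a lam E dev μ ν
  refine ⟨q, μ, ν, by omega, hν3, ?_, ?_, ?_, ?_⟩
  · -- μ ≤ C₀ ν
    have h3 : E ≤ 16 / ε * dev := by
      have h4 : 16 / ε * dev = 2 * q * N₀ / t := by
        rw [hdev, hlam]; field_simp; ring
      rw [h4, hE]
      apply div_le_div_of_nonneg_right _ ht0.le
      nlinarith [mul_pos hqpos hε, mul_nonneg hqpos.le (by linarith : (0:ℝ) ≤ N₀ - 1),
        mul_nonneg (mul_pos hqpos hε).le (by linarith : (0:ℝ) ≤ N₀)]
    have h4 : 16 / ε * dev ≤ 16 / ε * ν := mul_le_mul_of_nonneg_left hν1 (by positivity)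
    have h5 : (μ : ℝ) ≤ (16 / ε + 3) * ν := by nlinarith
    have h6 : (16 / ε + 3) * (ν : ℝ) ≤ ((⌈16 / ε⌉₊ + 3 : ℕ) : ℝ) * ν := by
      apply mul_le_mul_of_nonneg_right _ (by positivity)
      push_cast
      linarith [Nat.le_ceil (16 / ε)]
    exact_mod_cast h5.trans h6
  · have h3 : ((t * (μ + ν) + 1 : ℕ) : ℝ) ≤ ((q * (N₀ - 2) : ℕ) : ℝ) := by
      rw [Nat.cast_mul q, Nat.cast_sub (by omega : 2 ≤ N₀)]
      push_cast
      have h4 : (t : ℝ) * (μ + ν) ≤ t * (E + 1 + dev + 1 + (dev + 1)) :=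
        mul_le_mul_of_nonneg_left (by linarith) ht0.le
      have h5 : (t : ℝ) * (E + 1 + dev + 1 + (dev + 1)) = t * E + 2 * (t * dev) + 3 * t := by ring
      rw [h5, hEt, hdt] at h4
      nlinarith [mul_nonneg hqpos.le (by linarith : (0:ℝ) ≤ ε * N₀ - 64), mul_pos hqpos hε]
    exact_mod_cast h3
  · have h3 : ((8 * q : ℕ) : ℝ) ≤ ((t * ν : ℕ) : ℝ) := by
      push_cast
      have h4 : (t : ℝ) * dev ≤ t * ν := mul_le_mul_of_nonneg_left hν1 ht0.le
      rw [hdt] at h4
      nlinarith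
    exact_mod_cast h3
  · intro s θ hs hθ
    set C : ℝ := (1 / (2 * (TRANSL.Qn (L * q) R : ℝ))) ^ (s ^ (L * q)) with hC
    have hQ0 : (0 : ℝ) < TRANSL.Qn (L * q) R := by exact_mod_cast TRANSL.Qn_pos _ _
    have hC0 : 0 < C := by
      rw [hC]
      exact pow_pos (div_pos one_pos (mul_pos two_pos hQ0)) _
    clear_value C
    refine ⟨C / 2, N₀ * (N₀ + 1) + ⌈((L * q * s : ℕ) : ℝ) ^ 2 / (θ * (C / 2))⌉₊ + 1,
      by positivity, ?_⟩
    intro n k m _ M hM hk σ z U hσ hD e pe he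
    have hkpos : (0 : ℝ) < k := by
      have := hM.kpos
      exact_mod_cast this
    have hσ0 : 0 < σ := lt_of_lt_of_le (by positivity) hσ
    have hN0' : 0 < N₀ := by omega
    set ℓ := k / N₀ with hℓ
    clear_value ℓ
    have hℓk : N₀ * ℓ ≤ k := by rw [hℓ]; exact Nat.mul_div_le k N₀
    have hkℓ : k ≤ (N₀ + 1) * ℓ := by
      have h3 : k < N₀ * (ℓ + 1) := by
        rw [hℓ]
        exact Nat.lt_mul_div_succ k hN0'
      have h4 : N₀ + 1 ≤ ℓ + 1 := by
        have : N₀ * (N₀ + 1) < N₀ * (ℓ + 1) := by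
          calc N₀ * (N₀ + 1) ≤ k := by omega
            _ < _ := h3
        exact (Nat.lt_of_mul_lt_mul_left this).le
      calc k ≤ N₀ * (ℓ + 1) := h3.le
        _ = N₀ * ℓ + N₀ := by ring
        _ ≤ N₀ * ℓ + ℓ := by omega
        _ = (N₀ + 1) * ℓ := by ring
    have hℓpos : 0 < ℓ := by
      rcases Nat.eq_zero_or_pos ℓ with h | h
      · rw [h, mul_zero] at hkℓ
        have := hM.kpos
        omega
      · exact h
    have hℓpos' : (0 : ℝ) < ℓ := by exact_mod_cast hℓpos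
    have hkℓ' : (k : ℝ) ≤ (N₀ + 1) * ℓ := by exact_mod_cast hkℓ
    have hn2 : 2 * N₀ * ℓ ≤ n := by
      have h3 := hM.size
      calc 2 * N₀ * ℓ = 2 * (N₀ * ℓ) := by ring
        _ ≤ 2 * k := Nat.mul_le_mul_left _ hℓk
        _ ≤ n := by omega
    have hMv : ∀ p : ℕ, p < L * ℓ → q * ((M (z + (p : ZMod n)) ∩ U).card : ℝ) / σ ≤ E := by
      intro p hp
      have h3 := hD.miss p hp
      have h4 : (1 - ε) * k * σ ≤ (1 - ε) * ((N₀ + 1) * ℓ) * σ := by
        apply mul_le_mul_of_nonneg_right _ hσ0.le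
        exact mul_le_mul_of_nonneg_left hkℓ' (by linarith)
      have h5 : (t : ℝ) * ((M (z + (p : ZMod n)) ∩ U).card : ℝ) * ℓ ≤
          (1 - ε) * (N₀ + 1) * σ * ℓ := by
        refine (h3.trans h4).trans (le_of_eq ?_)
        ring
      have h6 := le_of_mul_le_mul_right h5 hℓpos'
      rw [hE, div_le_div_iff₀ hσ0 ht0]
      have h7 := mul_le_mul_of_nonneg_left h6 hqpos.le
      linarith
    refine TRANSL.core h1 h2 M z U ℓ q N₀ L R s μ σ E dev hM.refl hM.symm hσ0 (by omega) hs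
      hD.cell hn2 hN3 hdev0 e pe hMv he ?_ (by linarith) C hC ?_
    · -- probability
      have h4 := TRANSL.exp_aux L q lam dev a (Nat.cast_nonneg L) (by linarith) hdev ha ha0
      have h5 : (((L * q : ℕ) : ℝ) + R) ≤ ((L : ℝ) + R) * q := by
        rw [Nat.cast_mul]
        have h6 : (R : ℝ) * 1 ≤ R * q := mul_le_mul_of_nonneg_left (by linarith) (Nat.cast_nonneg _)
        linarith
      rw [Nat.cast_mul] at h5 ⊢
      exact (mul_le_mul h5 h4 (Real.exp_pos _).le (by positivity)).trans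
        (TRANSL.prob_aux _ _ _ hqpos ha0 hq2)
    · -- size
      have hk2 : ((L * q * s : ℕ) : ℝ) ^ 2 / (θ * (C / 2)) ≤ k := by
        refine (Nat.le_ceil _).trans ?_
        exact_mod_cast (by omega : ⌈((L * q * s : ℕ) : ℝ) ^ 2 / (θ * (C / 2))⌉₊ ≤ k)
      rw [div_le_iff₀ (by positivity)] at hk2
      rw [div_le_iff₀ hσ0]
      calc ((L * q * s : ℕ) : ℝ) ^ 2 ≤ k * (θ * (C / 2)) := hk2
        _ = C / 2 * (θ * k) := by ring
        _ ≤ C / 2 * σ := mul_le_mul_of_nonneg_left hσ (by positivity)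

end Pool.Agent.H48.PW
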