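import Pool.Agent.H48.PW.Stm

/-!
# [UPD], [WALK], [CHAIN]
-/

set_option autoImplicit false

namespace Pool.Agent.H48.PW

open Finset Pool.Agent.Helper83K9.CF

namespace WLKL

variable {N K : ℕ} {Γ : ℕ → ℕ → Prop}

/-! ## Clique functions -/

theorem clf_inj {μ r : ℕ} (hG : LG N K μ Γ) {c : Fin r → ℕ} (hc : Clf N K Γ c) :
    Function.Injective c := by
  intro i j hij
  by_contra hne
  have h := (hc.2 i j hne).2.2.2.2
  rw [hij] at h
  exact hG.irrefl _ h

theorem clf_of_clq {r : ℕ} {Q : Finset ℕ} (hQ : Clq N K Γ Q) {c : Fin r → ℕ}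
    (hinj : Function.Injective c) (hc : ∀ i, c i ∈ Q) : Clf N K Γ c :=
  ⟨fun i => hQ.1 _ (hc i), fun i j hij => hQ.2 _ (hc i) _ (hc j) (fun h => hij (hinj h))⟩

theorem clq_of_clf {r : ℕ} {c : Fin r → ℕ} (hc : Clf N K Γ c) {A : Finset ℕ}
    (hA : ∀ x ∈ A, ∃ i, c i = x) : Clq N K Γ A := by
  constructor
  · intro x hx
    obtain ⟨i, rfl⟩ := hA x hx
    exact hc.1 i
  · intro x hx y hy hxy
    obtain ⟨i, rfl⟩ := hA x hx
    obtain ⟨j, rfl⟩ := hA y hy
    exact hc.2 i j (fun h => hxy (by rw [h]))

theorem upd_symm {r : ℕ} {c d : Fin r → ℕ} (h : Upd N K Γ c d) : Upd N K Γ d c := by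
  obtain ⟨h1, h2, i, hi⟩ := h
  exact ⟨h2, h1, i, fun j hj => (hi j hj).symm⟩

theorem rtg_symm {r : ℕ} {c d : Fin r → ℕ} (h : Relation.ReflTransGen (Upd N K Γ) c d) :
    Relation.ReflTransGen (Upd N K Γ) d c := by
  induction h with
  | refl => exact Relation.ReflTransGen.refl
  | tail _ h2 ih => exact Relation.ReflTransGen.head (upd_symm h2) ih

/-- moving to a clique which shares all points but one -/
theorem move {μ t : ℕ} (hG : LG N K μ Γ) {c : Fin (t + 1) → ℕ} (hc : Clf N K Γ c)
    {A C : Finset ℕ} (hA : A.card = t) (hAc : ∀ x ∈ A, ∃ i, c i = x) (hC : Clq N K Γ C)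
    (hCc : C.card = t + 1) (hAC : A ⊆ C) :
    ∃ d : Fin (t + 1) → ℕ, Upd N K Γ c d ∧ univ.image d = C := by
  have hci := clf_inj hG hc
  have hAi : A ⊆ univ.image c := by
    intro x hx
    obtain ⟨i, rfl⟩ := hAc x hx
    exact mem_image_of_mem _ (mem_univ _)
  have hcard : (univ.image c).card = t + 1 := by
    rw [card_image_of_injective _ hci]; simp
  -- the missing coordinate
  have h1 : ((univ.image c) \ A).card = 1 := by
    rw [card_sdiff_of_subset hAi, hcard, hA]; omega
  have h2 : (C \ A).card = 1 := by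
    rw [card_sdiff_of_subset hAC, hCc, hA]; omega
  obtain ⟨u, hu⟩ := card_eq_one.1 h1
  obtain ⟨v, hv⟩ := card_eq_one.1 h2
  have hu' : u ∈ univ.image c \ A := by rw [hu]; exact mem_singleton_self _
  have hv' : v ∈ C \ A := by rw [hv]; exact mem_singleton_self _
  rw [mem_sdiff] at hu' hv'
  obtain ⟨i, -, hi⟩ := mem_image.1 hu'.1
  have hother : ∀ j, j ≠ i → c j ∈ A := by
    intro j hj
    by_contra hjA
    have : c j ∈ univ.image c \ A := mem_sdiff.2 ⟨mem_image_of_mem _ (mem_univ _), hjA⟩
    rw [hu, mem_singleton, ← hi] at this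
    exact hj (hci this)
  have hdinj : Function.Injective (Function.update c i v) := by
    intro a b hab
    by_cases ha : a = i
    · by_cases hb : b = i
      · rw [ha, hb]
      · exfalso
        rw [ha, Function.update_self, Function.update_of_ne hb] at hab
        exact hv'.2 (hab ▸ hother b hb)
    · by_cases hb : b = i
      · exfalso
        rw [hb, Function.update_self, Function.update_of_ne ha] at hab
        exact hv'.2 (hab ▸ hother a ha)
      · rw [Function.update_of_ne ha, Function.update_of_ne hb] at hab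
        exact hci hab
  have hdC : ∀ j, Function.update c i v j ∈ C := by
    intro j
    by_cases hj : j = i
    · rw [hj, Function.update_self]; exact hv'.1
    · rw [Function.update_of_ne hj]; exact hAC (hother j hj)
  refine ⟨Function.update c i v, ⟨hc, clf_of_clq hC hdinj hdC, i, fun j hj =>
    Function.update_of_ne hj _ _⟩, ?_⟩
  apply eq_of_subset_of_card_le
  · intro x hx
    obtain ⟨j, -, rfl⟩ := mem_image.1 hx
    exact hdC j
  · rw [card_image_of_injective _ hdinj, hCc]; simp

/-- lifting a tight walk -/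
theorem lift {μ t : ℕ} (hG : LG N K μ Γ) {c : Fin (t + 1) → ℕ} (hc : Clf N K Γ c)
    {A B : Finset ℕ} (hAc : ∀ x ∈ A, ∃ i, c i = x)
    (h : Relation.ReflTransGen (TStep N K t Γ) A B) :
    ∃ d : Fin (t + 1) → ℕ, Clf N K Γ d ∧ Relation.ReflTransGen (Upd N K Γ) c d ∧
      ∀ x ∈ B, ∃ i, d i = x := by
  induction h with
  | refl => exact ⟨c, hc, Relation.ReflTransGen.refl, hAc⟩
  | tail _ h2 ih =>
    obtain ⟨d, hd, hcd, hdB⟩ := ih
    obtain ⟨hB, hB', C, hC, hCc, hBC, hBC'⟩ := h2
    obtain ⟨e, he, heC⟩ := move hG hd hB hdB hC hCc hBC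
    refine ⟨e, he.2.1, hcd.tail he, fun x hx => ?_⟩
    have := hBC' hx
    rw [← heC] at this
    obtain ⟨i, -, hi⟩ := mem_image.1 this
    exact ⟨i, hi⟩

/-- injective functions into a clique with one more element are connected -/
theorem inside {t : ℕ} {Q : Finset ℕ} (hQ : Clq N K Γ Q) (hQc : Q.card = t + 2) :
    ∀ (n : ℕ) (c d : Fin (t + 1) → ℕ), Function.Injective c → Function.Injective d →
      (∀ i, c i ∈ Q) → (∀ i, d i ∈ Q) → (univ.filter (fun i => c i ≠ d i)).card ≤ n →
      Relation.ReflTransGen (Upd N K Γ) c d := by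
  intro n
  induction n with
  | zero =>
    intro c d _ _ _ _ hn
    have : c = d := by
      funext i
      by_contra hne
      have h0 : (univ.filter (fun i => c i ≠ d i)) = ∅ := card_eq_zero.1 (Nat.le_zero.1 hn)
      have : i ∈ (univ.filter (fun i => c i ≠ d i)) := mem_filter.2 ⟨mem_univ _, hne⟩
      rw [h0] at this
      exact absurd this (notMem_empty _)
    rw [this]
  | succ n ih =>
    intro c d hc hd hcQ hdQ hn
    -- a one-step improvement
    have key : ∀ c : Fin (t + 1) → ℕ, Function.Injective c → (∀ i, c i ∈ Q) → ∀ i, c i ≠ d i →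
        (∀ j, c j ≠ d i) → (univ.filter (fun i => c i ≠ d i)).card ≤ n + 1 →
        Relation.ReflTransGen (Upd N K Γ) c d := by
      intro c hc hcQ i hi hij hn
      have hinj : Function.Injective (Function.update c i (d i)) := by
        intro a b hab
        by_cases ha : a = i
        · by_cases hb : b = i
          · rw [ha, hb]
          · exfalso
            rw [ha, Function.update_self, Function.update_of_ne hb] at hab
            exact hij b hab.symm
        · by_cases hb : b = i
          · exfalso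
            rw [hb, Function.update_self, Function.update_of_ne ha] at hab
            exact hij a hab
          · rw [Function.update_of_ne ha, Function.update_of_ne hb] at hab
            exact hc hab
      have hmem : ∀ j, Function.update c i (d i) j ∈ Q := by
        intro j
        by_cases hj : j = i
        · rw [hj, Function.update_self]; exact hdQ i
        · rw [Function.update_of_ne hj]; exact hcQ j
      have hstep : Upd N K Γ c (Function.update c i (d i)) :=
        ⟨clf_of_clq hQ hc hcQ, clf_of_clq hQ hinj hmem, i, fun j hj => Function.update_of_ne hj _ _⟩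
      refine Relation.ReflTransGen.head hstep (ih _ _ hinj hd hmem hdQ ?_)
      have hlt : (univ.filter (fun j => Function.update c i (d i) j ≠ d j)).card <
          (univ.filter (fun i => c i ≠ d i)).card := by
        apply card_lt_card
        rw [ssubset_iff_of_subset]
        · refine ⟨i, mem_filter.2 ⟨mem_univ _, hi⟩, ?_⟩
          intro h
          have := (mem_filter.1 h).2
          rw [Function.update_self] at this
          exact this rfl
        · intro j hj
          have hj' := (mem_filter.1 hj).2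
          by_cases hji : j = i
          · rw [hji, Function.update_self] at hj'
            exact absurd rfl hj'
          · rw [Function.update_of_ne hji] at hj'
            exact mem_filter.2 ⟨mem_univ _, hj'⟩
      omega
    by_cases hne : ∃ i, c i ≠ d i
    · obtain ⟨i, hi⟩ := hne
      by_cases hj : ∃ j, c j = d i
      · obtain ⟨j, hj⟩ := hj
        have hij : j ≠ i := by
          intro h
          rw [h] at hj
          exact hi hj
        -- a spare element
        have hspare : ∃ w ∈ Q, ∀ a, c a ≠ w := by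
          have hcard : (univ.image c).card = t + 1 := by
            rw [card_image_of_injective _ hc]; simp
          have : ∃ w ∈ Q, w ∉ univ.image c := by
            apply exists_mem_notMem_of_card_lt_card
            rw [hcard, hQc]; omega
          obtain ⟨w, hw, hw'⟩ := this
          exact ⟨w, hw, fun a ha => hw' (mem_image.2 ⟨a, mem_univ _, ha⟩)⟩
        obtain ⟨w, hwQ, hw⟩ := hspare
        have hinj : Function.Injective (Function.update c j w) := by
          intro a b hab
          by_cases ha : a = j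
          · by_cases hb : b = j
            · rw [ha, hb]
            · exfalso
              rw [ha, Function.update_self, Function.update_of_ne hb] at hab
              exact hw b hab.symm
          · by_cases hb : b = j
            · exfalso
              rw [hb, Function.update_self, Function.update_of_ne ha] at hab
              exact hw a hab
            · rw [Function.update_of_ne ha, Function.update_of_ne hb] at hab
              exact hc hab
        have hmem : ∀ a, Function.update c j w a ∈ Q := by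
          intro a
          by_cases ha : a = j
          · rw [ha, Function.update_self]; exact hwQ
          · rw [Function.update_of_ne ha]; exact hcQ a
        have hstep : Upd N K Γ c (Function.update c j w) :=
          ⟨clf_of_clq hQ hc hcQ, clf_of_clq hQ hinj hmem, j,
            fun a ha => Function.update_of_ne ha _ _⟩
        refine Relation.ReflTransGen.head hstep (key _ hinj hmem i ?_ ?_ ?_)
        · rw [Function.update_of_ne hij.symm]; exact hi
        · intro a
          by_cases ha : a = j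
          · rw [ha, Function.update_self]
            intro h
            exact hw j (by rw [hj, h])
          · rw [Function.update_of_ne ha]
            intro h
            exact ha (hc (by rw [h, hj]))
        · refine le_trans (card_le_card ?_) hn
          intro a ha
          have ha' := (mem_filter.1 ha).2
          by_cases haj : a = j
          · rw [haj]
            refine mem_filter.2 ⟨mem_univ _, ?_⟩
            rw [hj]
            intro h
            exact hij (hd h).symm
          · rw [Function.update_of_ne haj] at ha'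
            exact mem_filter.2 ⟨mem_univ _, ha'⟩
      · push Not at hj
        exact key c hc hcQ i hi hj hn
    · push Not at hne
      have : c = d := funext hne
      rw [this]

end WLKL

open WLKL in
theorem upd (h1 : S_T1) (h2 : S_KT2) : S_UPD := by
  intro t K μ ν N Γ ht hν hK hG hN c d hc hd hcc hdc
  have hμ : t * μ + 1 ≤ K := by
    have : t * μ ≤ t * (μ + ν) := Nat.mul_le_mul_left _ (Nat.le_add_right _ _)
    omega
  -- a clique with `t + 2` points near the middle
  have hmg : mg t K μ ν = (t + 2) * K + 4 * K + (μ / ν + 1) * μ := by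
    unfold mg; ring
  obtain ⟨Q, hQ, hQc, hQa⟩ := h2 t K μ ν N Γ ht hν hK hG (mg t K μ ν) (by omega) (by omega)
  have hQcen : ∀ x ∈ Q, (t + 2) * K ≤ x ∧ x + (t + 2) * K < N := by
    intro x hx
    obtain ⟨h3, h4⟩ := hQa x hx
    constructor <;> omega
  obtain ⟨C, hCQ, hCc⟩ := exists_subset_card_eq (show t + 1 ≤ Q.card by omega)
  obtain ⟨B, hBC, hBc⟩ := exists_subset_card_eq (show t ≤ C.card by omega)
  have hCcl : Clq N K Γ C := ⟨fun x hx => hQ.1 x (hCQ hx), fun x hx y hy => hQ.2 x (hCQ hx) y (hCQ hy)⟩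
  have hBcl : Clq N K Γ B := ⟨fun x hx => hCcl.1 x (hBC hx),
    fun x hx y hy => hCcl.2 x (hBC hx) y (hBC hy)⟩
  have hBcen : ∃ x ∈ B, (t + 2) * K ≤ x ∧ x + (t + 2) * K < N := by
    have : B.Nonempty := card_pos.1 (by omega)
    obtain ⟨x, hx⟩ := this
    exact ⟨x, hx, hQcen x (hCQ (hBC hx))⟩
  -- every function is connected with a function with values in `Q`
  have key : ∀ c : Fin (t + 1) → ℕ, Clf N K Γ c →
      (∃ i, (t + 2) * K ≤ c i ∧ c i + (t + 2) * K < N) →
      ∃ e : Fin (t + 1) → ℕ, Relation.ReflTransGen (Upd N K Γ) c e ∧ Clf N K Γ e ∧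
        ∀ i, e i ∈ Q := by
    intro c hc hcc
    obtain ⟨i, hi⟩ := hcc
    have hci := clf_inj hG hc
    -- a set of `t` values containing the central point
    have hcard : (univ.image c).card = t + 1 := by
      rw [card_image_of_injective _ hci]; simp
    obtain ⟨A, hiA, hAc', hAc⟩ := exists_subsuperset_card_eq
      (show {c i} ⊆ univ.image c by
        intro x hx
        rw [mem_singleton] at hx
        rw [hx]
        exact mem_image_of_mem _ (mem_univ _))
      (show ({c i} : Finset ℕ).card ≤ t by simpa using ht)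
      (show t ≤ (univ.image c).card by omega)
    have hAi : ∀ x ∈ A, ∃ j, c j = x := by
      intro x hx
      obtain ⟨j, -, hj⟩ := mem_image.1 (hAc' hx)
      exact ⟨j, hj⟩
    have hAcl : Clq N K Γ A := clq_of_clf hc hAi
    have hAB := h1 t K μ N Γ ht hμ hG A B hAcl hBcl hAc hBc
      ⟨c i, hiA (mem_singleton_self _), hi⟩ hBcen
    obtain ⟨d, hd, hcd, hdB⟩ := lift hG hc hAi hAB
    obtain ⟨e, he, heC⟩ := move hG hd hBc hdB hCcl hCc hBC
    refine ⟨e, hcd.tail he, he.2.1, fun j => hCQ ?_⟩
    rw [← heC]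
    exact mem_image_of_mem _ (mem_univ _)
  obtain ⟨c', hcc', hc', hcQ⟩ := key c hc hcc
  obtain ⟨d', hdd', hd', hdQ⟩ := key d hd hdc
  have := inside hQ hQc _ c' d' (clf_inj hG hc') (clf_inj hG hd') hcQ hdQ le_rfl
  exact (hcc'.trans this).trans (rtg_symm hdd')


namespace WLKL

variable {N K : ℕ} {Γ : ℕ → ℕ → Prop}

/-! ## Lists -/

theorem pw_ofFn {r t : ℕ} (hrt : t < r) {c d : Fin r → ℕ} (h : Upd N K Γ c d ∨ (Clf N K Γ c ∧ c = d)) :
    Pw (LA N K Γ) t (List.ofFn c ++ List.ofFn d) := by
  have hc : Clf N K Γ c := by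
    rcases h with h | h
    · exact h.1
    · exact h.1
  have hd : Clf N K Γ d := by
    rcases h with h | h
    · exact h.2.1
    · exact h.2 ▸ h.1
  intro i j x y hij hji hx hy
  have hlen : (List.ofFn c).length = r := by simp
  by_cases hi : i < r
  · rw [List.getElem?_append_left (by omega)] at hx
    have hx' : c ⟨i, hi⟩ = x := by
      rw [List.getElem?_eq_getElem (by omega)] at hx
      simpa using hx
    by_cases hj : j < r
    · rw [List.getElem?_append_left (by omega)] at hy
      have hy' : c ⟨j, hj⟩ = y := by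
        rw [List.getElem?_eq_getElem (by omega)] at hy
        simpa using hy
      rw [← hx', ← hy']
      exact hc.2 _ _ (by intro h; have := congrArg Fin.val h; simp at this; omega)
    · rw [List.getElem?_append_right (by omega), hlen] at hy
      have hj' : j - r < r := by omega
      have hy' : d ⟨j - r, hj'⟩ = y := by
        rw [List.getElem?_eq_getElem (by simpa using hj')] at hy
        simpa using hy
      have hne : (⟨i, hi⟩ : Fin r) ≠ ⟨j - r, hj'⟩ := by
        intro h; have := congrArg Fin.val h; simp at this; omega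
      rw [← hx', ← hy']
      rcases h with ⟨-, -, a, ha⟩ | ⟨-, rfl⟩
      · by_cases hja : (⟨j - r, hj'⟩ : Fin r) = a
        · rw [← ha _ (by rw [← hja]; exact hne)]
          exact hd.2 _ _ hne
        · rw [ha _ hja]
          exact hc.2 _ _ hne
      · exact hc.2 _ _ hne
  · rw [List.getElem?_append_right (by omega), hlen] at hx hy
    have hjl : j - r < r := by
      by_contra hcon
      rw [List.getElem?_eq_none (by simpa using hcon)] at hy
      cases hy
    have hil : i - r < r := by omega
    have hx' : d ⟨i - r, hil⟩ = x := by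
      rw [List.getElem?_eq_getElem (by simpa using hil)] at hx
      simpa using hx
    have hy' : d ⟨j - r, hjl⟩ = y := by
      rw [List.getElem?_eq_getElem (by simpa using hjl)] at hy
      simpa using hy
    rw [← hx', ← hy']
    exact hd.2 _ _ (by intro h; have := congrArg Fin.val h; simp at this; omega)

theorem pw_glue {α : Type} {R : α → α → Prop} {t : ℕ} {a m b : List α} (h1 : Pw R t (a ++ m))
    (h2 : Pw R t (m ++ b)) (hm : t ≤ m.length) : Pw R t (a ++ m ++ b) := by
  intro i j x y hij hji hx hy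
  by_cases hi : i < a.length
  · have hj : j < (a ++ m).length := by rw [List.length_append]; omega
    rw [List.getElem?_append_left hj] at hy
    rw [List.getElem?_append_left (by omega)] at hx
    exact h1 i j x y hij hji hx hy
  · rw [List.append_assoc, List.getElem?_append_right (by omega)] at hx hy
    exact h2 (i - a.length) (j - a.length) x y (by omega) (by omega) hx hy

theorem walk_one {t : ℕ} {c d : Fin (t + 1) → ℕ} (hc : Clf N K Γ c)
    (h : Relation.ReflTransGen (Upd N K Γ) c d) :
    ∃ w : List ℕ, (∀ x ∈ w, x < N) ∧ Pw (LA N K Γ) t (List.ofFn c ++ w ++ List.ofFn d) := by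
  induction h with
  | refl => exact ⟨[], by simp, by
      rw [List.append_nil]; exact pw_ofFn (by omega) (Or.inr ⟨hc, rfl⟩)⟩
  | @tail d e _ h2 ih =>
    obtain ⟨w, hw, hwp⟩ := ih
    refine ⟨w ++ List.ofFn d, ?_, ?_⟩
    · intro x hx
      rcases List.mem_append.1 hx with hx | hx
      · exact hw x hx
      · rw [List.mem_ofFn] at hx
        obtain ⟨i, rfl⟩ := hx
        exact h2.1.1 i
    · have h3 : Pw (LA N K Γ) t (List.ofFn d ++ List.ofFn e) := pw_ofFn (by omega) (Or.inl h2)
      have := pw_glue hwp h3 (by simp)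
      simpa [List.append_assoc] using this

/-! ## Finitely many graphs -/

/-- the graph given by a relation on `Fin N` -/
def res (N : ℕ) (G : Fin N → Fin N → Prop) : ℕ → ℕ → Prop :=
  fun x y => ∃ (hx : x < N) (hy : y < N), G ⟨x, hx⟩ ⟨y, hy⟩

theorem unif {α : Type} [Finite α] (P : α → ℕ → Prop)
    (mono : ∀ a m n, m ≤ n → P a m → P a n) : ∃ W : ℕ, ∀ a, (∃ m, P a m) → P a W := by
  classical
  have := Fintype.ofFinite α
  let f : α → ℕ := fun a => if h : ∃ m, P a m then Classical.choose h else 0
  refine ⟨univ.sup f, fun a ha => ?_⟩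
  have h1 : P a (f a) := by
    have : f a = Classical.choose ha := dif_pos ha
    rw [this]
    exact Classical.choose_spec ha
  exact mono a _ _ (le_sup (f := f) (mem_univ a)) h1

theorem res_iff {x y : ℕ} (hx : x < N) (hy : y < N) :
    res N (fun a b => Γ a b) x y ↔ Γ x y :=
  ⟨fun ⟨_, _, h⟩ => h, fun h => ⟨hx, hy, h⟩⟩

theorem la_res : LA N K (res N (fun a b => Γ a b)) = LA N K Γ := by
  funext x y
  apply propext
  constructor
  · rintro ⟨h1, h2, h3, h4, h5⟩
    exact ⟨h1, h2, h3, h4, (res_iff h1 h2).1 h5⟩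
  · rintro ⟨h1, h2, h3, h4, h5⟩
    exact ⟨h1, h2, h3, h4, (res_iff h1 h2).2 h5⟩

theorem clf_res {r : ℕ} (c : Fin r → ℕ) :
    Clf N K (res N (fun a b => Γ a b)) c ↔ Clf N K Γ c := by
  unfold Clf
  rw [la_res]

end WLKL

open WLKL in
theorem walk (h : S_UPD) : S_WALK := by
  intro t K μ ν N ht hν hK hN
  obtain ⟨W, hW⟩ := unif (α := (Fin N → Fin N → Prop) × (Fin (t + 1) → Fin N) × (Fin (t + 1) → Fin N))
    (fun a m => ∃ w : List ℕ, w.length ≤ m ∧ (∀ x ∈ w, x < N) ∧
      Pw (LA N K (res N a.1)) t
        (List.ofFn (fun i => (a.2.1 i : ℕ)) ++ w ++ List.ofFn (fun i => (a.2.2 i : ℕ))))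
    (by
      rintro a m n hmn ⟨w, h1, h2⟩
      exact ⟨w, h1.trans hmn, h2⟩)
  refine ⟨W, fun Γ hG c d hc hd hcc hdc => ?_⟩
  have := hW ⟨fun a b => Γ a b, fun i => ⟨c i, hc.1 i⟩, fun i => ⟨d i, hd.1 i⟩⟩ (by
    obtain ⟨w, hw, hwp⟩ := walk_one hc (h t K μ ν N Γ ht hν hK hG hN c d hc hd hcc hdc)
    refine ⟨w.length, w, le_rfl, hw, ?_⟩
    simp only [la_res]
    exact hwp)
  simp only [la_res] at this
  exact this

namespace WLKL

variable {N K : ℕ} {Γ : ℕ → ℕ → Prop}

/-! ## Exchange chains -/

/-- common neighbours in a window which avoid a given set -/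
theorem common {μ n : ℕ} (hG : LG N K μ Γ) {p : ℕ} (hp : p + K < N) (X : Finset ℕ)
    (c : Fin n → ℕ) (hc : ∀ i, p ≤ c i ∧ c i ≤ p + K) (hX : n * μ + X.card ≤ K) :
    ∃ v, p ≤ v ∧ v ≤ p + K ∧ v ∉ X ∧ ∀ i, LA N K Γ v (c i) := by
  classical
  by_contra hcon
  push Not at hcon
  have hS : ∀ i, ∃ S : Finset ℕ, S.card ≤ μ ∧
      ∀ y, y < N → c i ≤ y + K → y ≤ c i + K → ¬ Γ (c i) y → y ∈ S := fun i =>
    hG.miss (c i) (by have := hc i; omega)
  choose S hS1 hS2 using hS
  have hsub : Finset.Icc p (p + K) ⊆ X ∪ univ.biUnion S := by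
    intro v hv
    rw [mem_Icc] at hv
    rw [mem_union]
    by_cases hvX : v ∈ X
    · exact Or.inl hvX
    · right
      obtain ⟨i, hi⟩ := hcon v hv.1 hv.2 hvX
      rw [mem_biUnion]
      refine ⟨i, mem_univ _, hS2 i v (by omega) (by have := hc i; omega) (by have := hc i; omega)
        (fun h => hi ⟨by omega, by have := hc i; omega, by have := hc i; omega,
          by have := hc i; omega, hG.symm _ _ h⟩)⟩
  have h1 := card_le_card hsub
  have h2 : (X ∪ univ.biUnion S).card ≤ X.card + n * μ := by
    refine (card_union_le _ _).trans (Nat.add_le_add_left ?_ _)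
    refine (card_biUnion_le).trans ?_
    calc ∑ i, (S i).card ≤ ∑ _i : Fin n, μ := sum_le_sum (fun i _ => hS1 i)
      _ = n * μ := by simp
  rw [Nat.card_Icc] at h1
  omega

/-- greedy cliques in a window which avoid a given set -/
theorem greedy {μ : ℕ} (hG : LG N K μ Γ) {p : ℕ} (hp : p + K < N) (X : Finset ℕ) (hX : X.card ≤ μ) :
    ∀ n : ℕ, n * μ ≤ K → ∃ c : Fin n → ℕ, Clf N K Γ c ∧ ∀ i, p ≤ c i ∧ c i ≤ p + K ∧ c i ∉ X := by
  intro n
  induction n with
  | zero => intro _; exact ⟨Fin.elim0, ⟨fun i => i.elim0, fun i => i.elim0⟩, fun i => i.elim0⟩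
  | succ n ih =>
    intro hn
    have hn' : n * μ + μ ≤ K := by
      have : (n + 1) * μ = n * μ + μ := by ring
      omega
    obtain ⟨c, hc, hcp⟩ := ih (by omega)
    obtain ⟨v, hv1, hv2, hvX, hv⟩ := common hG hp X c (fun i => ⟨(hcp i).1, (hcp i).2.1⟩) (by omega)
    refine ⟨Fin.snoc c v, ⟨?_, ?_⟩, ?_⟩
    · intro i
      refine Fin.lastCases ?_ (fun i => ?_) i
      · rw [Fin.snoc_last]; omega
      · rw [Fin.snoc_castSucc]; exact hc.1 i
    · intro i j
      refine Fin.lastCases ?_ (fun i => ?_) i
      · refine Fin.lastCases ?_ (fun j => ?_) j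
        · intro h; exact absurd rfl h
        · intro _
          rw [Fin.snoc_last, Fin.snoc_castSucc]
          exact hv j
      · refine Fin.lastCases ?_ (fun j => ?_) j
        · intro _
          rw [Fin.snoc_last, Fin.snoc_castSucc]
          obtain ⟨h1, h2, h3, h4, h5⟩ := hv i
          exact ⟨h2, h1, h4, h3, hG.symm _ _ h5⟩
        · intro h
          rw [Fin.snoc_castSucc, Fin.snoc_castSucc]
          exact hc.2 i j (fun h' => h (by rw [h']))
    · intro i
      refine Fin.lastCases ?_ (fun i => ?_) i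
      · rw [Fin.snoc_last]; exact ⟨hv1, hv2, hvX⟩
      · rw [Fin.snoc_castSucc]; exact hcp i

theorem la_symm {μ x y : ℕ} (hG : LG N K μ Γ) (h : LA N K Γ x y) : LA N K Γ y x :=
  ⟨h.2.1, h.1, h.2.2.2.1, h.2.2.1, hG.symm _ _ h.2.2.2.2⟩

/-- an exchange chain of length `r` which starts with the clique `a` and ends with `v` -/
def Ch (N K : ℕ) (Γ : ℕ → ℕ → Prop) {t : ℕ} (a : Fin t → ℕ) (v r : ℕ) : Prop :=
  1 ≤ r ∧ ∃ (u : ℕ → ℕ) (A : ℕ → Fin t → ℕ), (∀ i, u i < N) ∧ (∀ i, Clf N K Γ (A i)) ∧
    A 0 = a ∧ (∀ i, i < r → ∀ j, LA N K Γ (u (i + 1)) (A i j)) ∧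
    (∀ i, 1 ≤ i → i < r → ∀ j, LA N K Γ (u i) (A i j)) ∧ u r = v

theorem chain_step {t : ℕ} {a : Fin t → ℕ} {v v' r : ℕ} (h : Ch N K Γ a v r) (hv' : v' < N)
    {b : Fin t → ℕ} (hb : Clf N K Γ b) (h1 : ∀ j, LA N K Γ v (b j)) (h2 : ∀ j, LA N K Γ v' (b j)) :
    Ch N K Γ a v' (r + 1) := by
  obtain ⟨hr, u, A, hu, hA, hA0, h3, h4, h5⟩ := h
  refine ⟨by omega, fun i => if i ≤ r then u i else v', fun i => if i < r then A i else b, ?_, ?_,
    ?_, ?_, ?_, ?_⟩
  · intro i
    dsimp only
    split_ifs
    · exact hu i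
    · exact hv'
  · intro i
    dsimp only
    split_ifs
    · exact hA i
    · exact hb
  · dsimp only
    rw [if_pos (by omega)]
    exact hA0
  · intro i hi j
    dsimp only
    by_cases hir : i < r
    · rw [if_pos (by omega), if_pos hir]
      exact h3 i hir j
    · rw [if_neg (by omega), if_neg hir]
      exact h2 j
  · intro i hi1 hi j
    dsimp only
    by_cases hir : i < r
    · rw [if_pos (by omega), if_pos hir]
      exact h4 i hi1 hir j
    · have : i = r := by omega
      rw [if_pos (by omega), if_neg hir, this, h5]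
      exact h1 j
  · dsimp only
    rw [if_neg (by omega)]

theorem chain_pad {t : ℕ} {a : Fin t → ℕ} {v r s : ℕ} (h : Ch N K Γ a v r) (hrs : r ≤ s) (hv : v < N)
    {b : Fin t → ℕ} (hb : Clf N K Γ b) (h1 : ∀ j, LA N K Γ v (b j)) : Ch N K Γ a v s := by
  induction s, hrs using Nat.le_induction with
  | base => exact h
  | succ s _ ih => exact chain_step ih hv hb h1 h1

theorem clf_init {t : ℕ} {c : Fin (t + 1) → ℕ} (hc : Clf N K Γ c) :
    Clf N K Γ (fun j : Fin t => c j.castSucc) :=
  ⟨fun i => hc.1 _, fun i j hij => hc.2 _ _ (fun h => hij (Fin.castSucc_injective _ h))⟩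

theorem chain_upd {t : ℕ} {c d : Fin (t + 1) → ℕ} (hc : Clf N K Γ c)
    (h : Relation.ReflTransGen (Upd N K Γ) c d) :
    ∃ r, Ch N K Γ (fun j : Fin t => c j.castSucc) (d (Fin.last t)) r := by
  have hne : ∀ j : Fin t, (Fin.last t) ≠ j.castSucc := fun j => (Fin.castSucc_lt_last j).ne'
  induction h with
  | refl =>
    refine ⟨1, le_rfl, fun _ => c (Fin.last t), fun _ j => c j.castSucc, fun _ => hc.1 _,
      fun _ => clf_init hc, rfl, fun i _ j => hc.2 _ _ (hne j), fun i _ _ j => hc.2 _ _ (hne j), rfl⟩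
  | @tail d e _ h2 ih =>
    obtain ⟨r, hr⟩ := ih
    obtain ⟨hd, he, i, hi⟩ := h2
    refine ⟨r + 1, chain_step hr (he.1 _) (clf_init he) ?_ (fun j => he.2 _ _ (hne j))⟩
    intro j
    by_cases hil : i = Fin.last t
    · have : e j.castSucc = d j.castSucc := hi _ (by rw [hil]; exact (hne j).symm)
      rw [this]
      exact hd.2 _ _ (hne j)
    · have : e (Fin.last t) = d (Fin.last t) := hi _ (fun h => hil h.symm)
      rw [← this]
      exact he.2 _ _ (hne j)

end WLKL

open WLKL in
theorem chain (h : S_UPD) (h2 : S_KT2) : S_CHAIN := by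
  intro t K μ ν N ht hν hK hN
  have hmg : mg t K μ ν = (t + 2) * K + 4 * K + (μ / ν + 1) * μ := by
    unfold mg; ring
  have hμ : t * μ + 1 ≤ K := by
    have : t * μ ≤ t * (μ + ν) := Nat.mul_le_mul_left _ (Nat.le_add_right _ _)
    omega
  obtain ⟨r, hr⟩ := unif (α := (Fin N → Fin N → Prop) × Fin N × Finset (Fin N))
    (fun a m => 1 ≤ m ∧ ∃ (b : Fin t → ℕ) (v : ℕ) (B : Fin (t + 1) → ℕ),
      (∀ j, b j ≤ a.2.1 + K ∧ (a.2.1 : ℕ) ≤ b j + K ∧ ∀ y ∈ a.2.2, (y : ℕ) ≠ b j) ∧
      v < N ∧ Ch N K (res N a.1) b v m ∧ Clf N K (res N a.1) B ∧ ∀ j, LA N K (res N a.1) v (B j))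
    (by
      rintro a m n hmn ⟨h1, b, v, B, h3, hv, h4, h5, h6⟩
      exact ⟨h1.trans hmn, b, v, B, h3, hv,
        chain_pad h4 hmn hv (clf_init h5) (fun j => h6 _), h5, h6⟩)
  refine ⟨max r 1, le_max_right _ _, fun Γ hG p X hp1 hp2 hX => ?_⟩
  classical
  have hpN : p < N := by omega
  have hX' : ∀ y : ℕ, y < N → (y ∈ X ↔ ∃ z ∈ univ.filter (fun y : Fin N => (y : ℕ) ∈ X), (z : ℕ) = y) := by
    intro y hy
    constructor
    · intro h
      exact ⟨⟨y, hy⟩, mem_filter.2 ⟨mem_univ _, h⟩, rfl⟩
    · rintro ⟨z, hz, rfl⟩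
      exact (mem_filter.1 hz).2
  have hspec := hr ⟨fun a b => Γ a b, ⟨p, hpN⟩, univ.filter (fun y : Fin N => (y : ℕ) ∈ X)⟩ (by
    -- the first clique
    obtain ⟨a, ha, hap⟩ := greedy hG (p := p) (by omega) X hX t (by omega)
    obtain ⟨v, hv1, hv2, -, hv⟩ := common hG (p := p) (by omega) ∅ a
      (fun i => ⟨(hap i).1, (hap i).2.1⟩) (by rw [card_empty]; omega)
    have hc : Clf N K Γ (Fin.snoc a v : Fin (t + 1) → ℕ) := by
      constructor
      · intro i
        refine Fin.lastCases ?_ (fun i => ?_) i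
        · rw [Fin.snoc_last]; omega
        · rw [Fin.snoc_castSucc]; exact ha.1 i
      · intro i j
        refine Fin.lastCases ?_ (fun i => ?_) i
        · refine Fin.lastCases ?_ (fun j => ?_) j
          · intro h; exact absurd rfl h
          · intro _
            rw [Fin.snoc_last, Fin.snoc_castSucc]
            exact hv j
        · refine Fin.lastCases ?_ (fun j => ?_) j
          · intro _
            rw [Fin.snoc_last, Fin.snoc_castSucc]
            exact la_symm hG (hv i)
          · intro h
            rw [Fin.snoc_castSucc, Fin.snoc_castSucc]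
            exact ha.2 i j (fun h' => h (by rw [h']))
    -- a clique with `t + 2` points
    obtain ⟨Q, hQ, hQc, hQa⟩ := h2 t K μ ν N Γ ht hν hK hG (mg t K μ ν) (by omega) (by omega)
    obtain ⟨C, hCQ, hCc⟩ := exists_subset_card_eq (show t + 1 ≤ Q.card by omega)
    have hdQ : ∀ i, (C.orderEmbOfFin hCc i : ℕ) ∈ Q := fun i => hCQ (orderEmbOfFin_mem _ _ _)
    have hd : Clf N K Γ (fun i => C.orderEmbOfFin hCc i) :=
      clf_of_clq hQ (C.orderEmbOfFin hCc).injective hdQ
    have hcd := h t K μ ν N Γ ht hν hK hG hN (Fin.snoc a v) (fun i => C.orderEmbOfFin hCc i) hc hd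
      ⟨Fin.last t, by rw [Fin.snoc_last]; omega, by rw [Fin.snoc_last]; omega⟩
      ⟨Fin.last t, by have := hQa _ (hdQ (Fin.last t)); omega,
        by have := hQa _ (hdQ (Fin.last t)); omega⟩
    obtain ⟨m, hm⟩ := chain_upd hc hcd
    have hBc : (Q.erase (C.orderEmbOfFin hCc (Fin.last t))).card = t + 1 := by
      rw [card_erase_of_mem (hdQ _), hQc]; omega
    refine ⟨m, hm.1, a, C.orderEmbOfFin hCc (Fin.last t),
      fun i => (Q.erase (C.orderEmbOfFin hCc (Fin.last t))).orderEmbOfFin hBc i, ?_, hd.1 _, ?_, ?_, ?_⟩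
    · intro j
      have := hap j
      refine ⟨by dsimp only; omega, by dsimp only; omega, fun y hy hyb => ?_⟩
      have h3 := (mem_filter.1 hy).2
      rw [hyb] at h3
      exact this.2.2 h3
    · have : (fun j : Fin t => (Fin.snoc a v : Fin (t + 1) → ℕ) j.castSucc) = a := by
        funext j
        rw [Fin.snoc_castSucc]
      rw [this] at hm
      unfold Ch at hm ⊢
      simp only [la_res, clf_res]
      exact hm
    · simp only [clf_res]
      exact clf_of_clq hQ (orderEmbOfFin _ hBc).injective
        (fun i => mem_of_mem_erase (orderEmbOfFin_mem _ hBc i))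
    · intro j
      simp only [la_res]
      have := orderEmbOfFin_mem _ hBc j
      exact hQ.2 _ (hdQ _) _ (mem_of_mem_erase this) (ne_of_mem_erase this).symm)
  obtain ⟨hr1, b, v, B, h3, hv, h4, h5, h6⟩ := hspec
  rw [max_eq_left hr1]
  unfold Ch at h4
  simp only [la_res, clf_res] at h4 h5 h6
  obtain ⟨-, u, A, hu, hA, hA0, h7, h8, h9⟩ := h4
  refine ⟨u, A, B, hu, hA, h5, ?_, h7, h8, ?_⟩
  · intro j
    rw [hA0]
    obtain ⟨h10, h11, h12⟩ := h3 j
    refine ⟨h10, h11, fun h13 => ?_⟩
    have hbN : b j < N := by rw [← hA0]; exact (hA 0).1 j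
    obtain ⟨z, hz, hzb⟩ := (hX' _ hbN).1 h13
    exact h12 z hz hzb
  · rw [h9]
    exact h6

end Pool.Agent.H48.PW
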