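import Pool.Agent.H48.PW.T1
import Pool.Agent.H48.PW.KT2
import Pool.Agent.H48.PW.WLK
import Pool.Agent.H48.PW.HB
import Pool.Agent.H48.PW.TRANS
import Pool.Agent.H48.PW.CONN
import Pool.Agent.H48.PW.ABSC
import Pool.Agent.H48.PW.APATH
import Pool.Agent.H48.PW.BLK
import Pool.Agent.H48.PW.FT
import Pool.Agent.H48.PW.DIST2
import Pool.Agent.H48.PW.POT2
import Pool.Agent.H48.PW.ARC2
import Pool.Agent.H48.PW.ALM2
import Pool.Agent.H48.PW.FIN
import Pool.Agent.H48.PW.RED

/-! Every `α > 1 - 1/(2t)` is good for `t ≥ 2`. -/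

set_option autoImplicit false

namespace Pool.Agent.H48.PW

theorem main_fin : S_FIN :=
  have hupd : S_UPD := upd t1 kt2
  have hwalk : S_WALK := walk hupd
  have hchain : S_CHAIN := chain hupd kt2
  have htrans : S_TRANS := trans hoef blow
  have hconn : S_CONN2 := conn2 htrans hwalk
  have habsc : S_ABSC := absc thd htrans hchain
  have hblk : S_BLK := blk (apath thd hconn habsc)
  have halm : S_ALM2 := alm2 (arc2 pot2 (dist2 (ft hoef blow)) bal2)
  fin hblk halm hconn

theorem upper (t : ℕ) (ht : 2 ≤ t) (α : ℝ) (hα : 1 - 1 / (2 * (t : ℝ)) < α) :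
    Pool.Agent.TH742.HP.Good t α :=
  red main_fin t ht α hα

end Pool.Agent.H48.PW
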