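import Pool.Graph.R_pool_sql_team_seeded_1e53cb71.Helper83K9.CF.Stm

/-!
# MP_61e9ba_co: powers of Hamilton cycles in dense subgraphs of powers of cycles

Statements of the leaves of the proof that every `α > 1 - 1/(2t)` is good for `t`.
The definitions `Host`, `Near`, `win`, `Thin`, `Y`, `rate`, `err`, `Slow`, `St`, `Arc`, `LQ`, `LCl`
and the statements `S_POT`, `S_BAL`, `S_ARC1`, `S_ALM`, `S_SEL`, `S_FARKAS` are in the library file
`Pool/Graph/R_pool_sql_team_seeded_1e53cb71/Helper83K9/CF/Stm.lean` (all of them are proved in the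
neighbouring files).  A host `M` has `t (m + 1) ≤ (1 - ε) k`.
-/

set_option autoImplicit false

namespace Pool.Agent.H48.PW

open Finset Pool.Agent.Helper83K9.CF

/-! ## Lists -/

/-- entries of the list at index distance at most `t` are related (in the order of the list) -/
def Pw {α : Type} (R : α → α → Prop) (t : ℕ) (l : List α) : Prop :=
  ∀ (i j : ℕ) (x y : α), i < j → j ≤ i + t → l[i]? = some x → l[j]? = some y → R x y

/-- adjacency of the vertices `z + x`, `z + y` given by positions `x`, `y` relative to `z` -/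
def La (n k : ℕ) (M : ZMod n → Finset (ZMod n)) (z : ZMod n) (x y : ℕ) : Prop :=
  x ≤ y + k ∧ y ≤ x + k ∧ z + (y : ZMod n) ∉ M (z + (x : ZMod n))

/-- adjacency in the host -/
def Ad (n k : ℕ) (M : ZMod n → Finset (ZMod n)) (x y : ZMod n) : Prop := Near n k x y ∧ y ∉ M x

/-- the list of vertices of a list of positions relative to `z` -/
def vs {n : ℕ} (z : ZMod n) (P : List ℕ) : List (ZMod n) := P.map (fun p : ℕ => z + (p : ZMod n))

/-- the last `t` entries -/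
def lastn {α : Type} (t : ℕ) (l : List α) : List α := l.drop (l.length - t)

/-- a piece: a `t`-th power of a path given by positions `< D k` relative to `z` -/
structure Pc (n k t D : ℕ) (M : ZMod n → Finset (ZMod n)) (z : ZMod n) (P : List ℕ) : Prop where
  len : t ≤ P.length
  bd : ∀ p ∈ P, p < D * k
  pw : Pw (La n k M z) t P
  nd : (vs z P).Nodup

/-! ## Graphs on the line -/

/-- a graph on the points `0, ..., N-1` in which every point misses at most `μ` points (itself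
included) at distance at most `K` -/
structure LG (N K μ : ℕ) (Γ : ℕ → ℕ → Prop) : Prop where
  symm : ∀ x y, Γ x y → Γ y x
  irrefl : ∀ x, ¬ Γ x x
  miss : ∀ x, x < N → ∃ S : Finset ℕ, S.card ≤ μ ∧
    ∀ y, y < N → x ≤ y + K → y ≤ x + K → ¬ Γ x y → y ∈ S

/-- adjacency of two points at distance at most `K` -/
def LA (N K : ℕ) (Γ : ℕ → ℕ → Prop) (x y : ℕ) : Prop :=
  x < N ∧ y < N ∧ x ≤ y + K ∧ y ≤ x + K ∧ Γ x y

/-- a clique (as a set) -/
def Clq (N K : ℕ) (Γ : ℕ → ℕ → Prop) (A : Finset ℕ) : Prop :=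
  (∀ x ∈ A, x < N) ∧ ∀ x ∈ A, ∀ y ∈ A, x ≠ y → LA N K Γ x y

/-- a clique (as a function) -/
def Clf (N K : ℕ) (Γ : ℕ → ℕ → Prop) {r : ℕ} (c : Fin r → ℕ) : Prop :=
  (∀ i, c i < N) ∧ ∀ i j, i ≠ j → LA N K Γ (c i) (c j)

/-- `t`-cliques contained in a common `(t+1)`-clique -/
def TStep (N K t : ℕ) (Γ : ℕ → ℕ → Prop) (A B : Finset ℕ) : Prop :=
  A.card = t ∧ B.card = t ∧ ∃ C, Clq N K Γ C ∧ C.card = t + 1 ∧ A ⊆ C ∧ B ⊆ C

/-- [T1] all `t`-cliques which contain a central point are tightly connected -/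
def S_T1 : Prop := ∀ (t K μ N : ℕ) (Γ : ℕ → ℕ → Prop), 1 ≤ t → t * μ + 1 ≤ K → LG N K μ Γ →
  ∀ A B : Finset ℕ, Clq N K Γ A → Clq N K Γ B → A.card = t → B.card = t →
    (∃ x ∈ A, (t + 2) * K ≤ x ∧ x + (t + 2) * K < N) →
    (∃ x ∈ B, (t + 2) * K ≤ x ∧ x + (t + 2) * K < N) →
    Relation.ReflTransGen (TStep N K t Γ) A B

/-- the distance from the ends of the line which is used -/
def mg (t K μ ν : ℕ) : ℕ := (t + 6) * K + (μ / ν + 1) * μ

/-- [KT2] there are cliques with `t + 2` vertices near every central point `a`.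
PROOF.  Let `Λ = μ / ν + 1` and let `(x, y)`, adjacent, minimise `Λ |x - y| + |x - a|` (there is a
neighbour of `a` at distance at most `μ`, so `|x - a| ≤ Λ μ`).  Let `g = |x - y|`.  No neighbour of
`x` is at distance `< g`, and no neighbour of `y` is at distance `< g - ν`.  So `2g - 1 ≤ μ`, and with
`R = μ + ν + 1` among the `2 (R - 2g + 1)` points `z` at distance `≥ g` from both with
`span {x, y, z} ≤ R` at most `(μ - (2g - 1)) + (μ - (2 (g - ν) - 1))` are missed: there is a triangle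
with span at most `(μ + ν) + 1`.  In general (greedy): a clique `Z` with `c ≥ 3` elements and span
`s ≤ (c-2)(μ+ν) + 1` has a common neighbour `w` with `span (Z ∪ w) ≤ R = (c-1)(μ+ν) + 1`, because
`[max Z - R, min Z + R]` has `2 R - s + 1 > c μ` points.  For `c = t + 1`: `R ≤ K`.
(For `t = 1` the triangle is the required clique.) -/
def S_KT2 : Prop := ∀ (t K μ ν N : ℕ) (Γ : ℕ → ℕ → Prop), 1 ≤ t → 1 ≤ ν → t * (μ + ν) + 1 ≤ K →
  LG N K μ Γ → ∀ a : ℕ, 3 * K + (μ / ν + 1) * μ ≤ a → a + (3 * K + (μ / ν + 1) * μ) < N →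
    ∃ C : Finset ℕ, Clq N K Γ C ∧ C.card = t + 2 ∧
      ∀ x ∈ C, a ≤ x + (3 * K + (μ / ν + 1) * μ) ∧ x ≤ a + (3 * K + (μ / ν + 1) * μ)

/-- one coordinate of a clique function is changed -/
def Upd (N K : ℕ) (Γ : ℕ → ℕ → Prop) {r : ℕ} (c d : Fin r → ℕ) : Prop :=
  Clf N K Γ c ∧ Clf N K Γ d ∧ ∃ i, ∀ j, j ≠ i → d j = c j

/-- [UPD] all clique functions with `t + 1` values, containing a central point, are connected by
changes of one coordinate.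
PROOF.  `S_T1` gives a sequence of `(t+1)`-cliques (sets), consecutive ones with `t` common points;
for a function `c` with values `K_i` and `K_{i+1} = K_i - u + v` change the coordinate of `u` to `v`.
So `c` is connected with a function with values in a clique `Q` with `t + 2` vertices (`S_KT2`, near the
middle of the line).  Two injective functions `c, d : Fin (t+1) → Q` are connected: induction on the
number of `i` with `c i ≠ d i`; if `d i` is not a value of `c`, change `c i` to `d i`; if `d i = c j`,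
first change `c j` to the element of `Q` which is not a value of `c`. -/
def S_UPD : Prop := ∀ (t K μ ν N : ℕ) (Γ : ℕ → ℕ → Prop), 1 ≤ t → 1 ≤ ν → t * (μ + ν) + 1 ≤ K →
  LG N K μ Γ → 2 * mg t K μ ν + 2 ≤ N → ∀ c d : Fin (t + 1) → ℕ, Clf N K Γ c → Clf N K Γ d →
    (∃ i, (t + 2) * K ≤ c i ∧ c i + (t + 2) * K < N) →
    (∃ i, (t + 2) * K ≤ d i ∧ d i + (t + 2) * K < N) →
    Relation.ReflTransGen (Upd N K Γ) c d

/-- [WALK] walks between clique functions (`S_UPD`: a change of one coordinate `c → d` gives the walk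
`c ++ d`, and walks can be glued along `t + 1 ≥ t` common entries).  The bound `W` exists because only
the finitely many values of `Γ` on `{0,...,N-1}` matter. -/
def S_WALK : Prop := ∀ (t K μ ν N : ℕ), 1 ≤ t → 1 ≤ ν → t * (μ + ν) + 1 ≤ K →
  2 * mg t K μ ν + 2 ≤ N → ∃ W : ℕ, ∀ Γ : ℕ → ℕ → Prop, LG N K μ Γ →
  ∀ c d : Fin (t + 1) → ℕ, Clf N K Γ c → Clf N K Γ d →
    (∃ i, (t + 2) * K ≤ c i ∧ c i + (t + 2) * K < N) →
    (∃ i, (t + 2) * K ≤ d i ∧ d i + (t + 2) * K < N) →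
    ∃ w : List ℕ, w.length ≤ W ∧ (∀ x ∈ w, x < N) ∧
      Pw (LA N K Γ) t (List.ofFn c ++ w ++ List.ofFn d)

/-- [CHAIN] exchange chains.  `p` is the position of an exterior point which misses the points of `X`.
`A i` (`i < r`) are `t`-cliques; the exterior point and `u 1` are adjacent to `A 0`; `u i`, `u (i+1)`
are adjacent to `A i` (`1 ≤ i < r`); `u r` is adjacent to the `(t+1)`-clique `B`.
PROOF.  Choose `A 0` greedily near `p` in the complement of `X` (windows of length `K > t μ`), `u 1` a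
common neighbour of `A 0`, `c = (A 0, u 1)`.  By `S_UPD` `c` is connected by changes of one coordinate
with a function with values in a `(t+2)`-clique `Q`; the changes of the coordinate of `u 1` give the
chain, and `B = Q \ {u r}`.  Pad the chain by constant steps (`u (i+1) = u i`, `A i` any `t`-clique
of neighbours of `u i`). The bound `r` exists because only finitely many `Γ` matter. -/
def S_CHAIN : Prop := ∀ (t K μ ν N : ℕ), 1 ≤ t → 1 ≤ ν → t * (μ + ν) + 1 ≤ K →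
  2 * mg t K μ ν + 2 ≤ N → ∃ r : ℕ, 1 ≤ r ∧ ∀ Γ : ℕ → ℕ → Prop, LG N K μ Γ →
  ∀ (p : ℕ) (X : Finset ℕ), mg t K μ ν ≤ p → p + mg t K μ ν < N → X.card ≤ μ →
    ∃ (u : ℕ → ℕ) (A : ℕ → Fin t → ℕ) (B : Fin (t + 1) → ℕ),
      (∀ i, u i < N) ∧ (∀ i, Clf N K Γ (A i)) ∧ Clf N K Γ B ∧
      (∀ j, A 0 j ≤ p + K ∧ p ≤ A 0 j + K ∧ A 0 j ∉ X) ∧
      (∀ i, i < r → ∀ j, LA N K Γ (u (i + 1)) (A i j)) ∧
      (∀ i, 1 ≤ i → i < r → ∀ j, LA N K Γ (u i) (A i j)) ∧ ∀ j, LA N K Γ (u r) (B j)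

/-! ## Counting -/

/-- [HOEF] Hoeffding's inequality, counting form -/
def S_HOEF : Prop := ∀ (ι V : Type) [Fintype ι] [DecidableEq ι] [DecidableEq V] (S : ι → Finset V)
  (f : ι → V → ℝ) (b dev : ℝ), (∀ i, (S i).Nonempty) → 0 < b → 0 < dev → (∀ i v, |f i v| ≤ b) →
  (((Fintype.piFinset S).filter (fun ω => ∑ i, (∑ v ∈ S i, f i v) / ((S i).card : ℝ) + dev ≤
    ∑ i, f i (ω i))).card : ℝ) ≤
    Real.exp (-(dev ^ 2) / (16 * b ^ 2 * (Fintype.card ι : ℝ))) * ∏ i, ((S i).card : ℝ)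

open Classical in
/-- [BLOW] blow-ups, counting form (Jensen for one coordinate after the other) -/
def S_BLOW : Prop := ∀ (ι V : Type) [Fintype ι] [DecidableEq ι] [DecidableEq V] (S : ι → Finset V)
  (G : Finset (ι → V)) (c : ℝ) (s : ℕ), G ⊆ Fintype.piFinset S → 0 ≤ c → 1 ≤ s →
  c * ∏ i, ((S i).card : ℝ) ≤ (G.card : ℝ) →
  c ^ (s ^ Fintype.card ι) * ∏ i, ((S i).card : ℝ) ^ s ≤
    (((Fintype.piFinset (fun p : ι × Fin s => S p.1)).filter
      (fun Ω => ∀ φ : ι → Fin s, (fun i => Ω (i, φ i)) ∈ G)).card : ℝ)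

/-! ## Dense sets and the transfer from the line to the host -/

/-- the positions of the cell `j` which belong to `U` -/
def cellU {n : ℕ} (z : ZMod n) (ℓ : ℕ) (U : Finset (ZMod n)) (j : ℕ) : Finset ℕ :=
  (Ico (j * ℓ) ((j + 1) * ℓ)).filter (fun p : ℕ => z + (p : ZMod n) ∈ U)

/-- `U` is dense and regular on the cells `z + [j ℓ, (j+1) ℓ)`, `j < L` -/
structure Dense (n k t : ℕ) (M : ZMod n → Finset (ZMod n)) (ε : ℝ) (ℓ : ℕ) (σ : ℝ) (z : ZMod n)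
    (L : ℕ) (U : Finset (ZMod n)) : Prop where
  cell : ∀ j, j < L → σ ≤ ((cellU z ℓ U j).card : ℝ)
  miss : ∀ p : ℕ, p < L * ℓ →
    (t : ℝ) * ((M (z + (p : ZMod n)) ∩ U).card : ℝ) * ℓ ≤ (1 - ε) * k * σ

/-- [THD] complements of thin sets are dense -/
def S_THD : Prop := ∀ (t N₀ : ℕ) (ε : ℝ), 1 ≤ t → 1 ≤ N₀ → 0 < ε → ε ≤ 1 → ∃ β : ℝ, 0 < β ∧
  ∃ k₀ : ℕ, ∀ (n k m : ℕ) [NeZero n] (M : ZMod n → Finset (ZMod n)), Host n k m M → k₀ ≤ k →
  (t : ℝ) * (m + 1) ≤ (1 - ε) * k → ∀ B : Finset (ZMod n), Thin n k (β * k) B →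
  ∃ σ : ℝ, 1 / (2 * N₀) * (k : ℝ) ≤ σ ∧
    ∀ (z : ZMod n) (L : ℕ), Dense n k t M (ε / 2) (k / N₀) σ z L Bᶜ

/-- `Ω` realises `Γ` (`s` vertices for every point of the line `0, ..., L q - 1`; the exterior vertices
`e i` at the points `pe i` of the line miss only the points of `X i`) -/
def Faith (n : ℕ) (M : ZMod n → Finset (ZMod n)) (z : ZMod n) (Nq K s : ℕ) {R : ℕ}
    (e : Fin R → ZMod n) (pe : Fin R → ℕ) (Γ : ℕ → ℕ → Prop) (X : Fin R → Finset ℕ)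
    (Ω : Fin Nq × Fin s → ℕ) : Prop :=
  Function.Injective (fun p => z + (Ω p : ZMod n)) ∧
  (∀ (x y : Fin Nq) (a b : Fin s), (x : ℕ) ≤ y + K → (y : ℕ) ≤ x + K → Γ x y →
    z + (Ω (y, b) : ZMod n) ∉ M (z + (Ω (x, a) : ZMod n))) ∧
  ∀ (i : Fin R) (y : Fin Nq) (b : Fin s), (y : ℕ) ≤ pe i + K → pe i ≤ y + K → (y : ℕ) ∉ X i →
    z + (Ω (y, b) : ZMod n) ∉ M (e i)

open Classical in
/-- [TRANS] transfer.  The point `y` of the line belongs to the cell `y / q`; points of the line at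
distance at most `K = q (N₀ - 2)` are in cells with difference `≤ N₀ - 1`, so all positions in these
cells are at distance at most `k`.
PROOF.  Choose `ω y` in the cell of `y`, uniformly and independently.  For a vertex `v` the expected
number of `y` in a window with `ω y ∈ M v` is at most `q |M v ∩ U| / σ ≤ q (1 - ε) (N₀ + 1) / t`, and
by `S_HOEF` (applied with the coordinate `x` fixed if `v = ω x`) with probability `≥ 3/4` no point of
the line and no `e i` misses more than `μ` (`μ` about `q (1 - ε/2) N₀ / t`, `ν` about `q ε N₀ / (4 t)`;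
windows of the points `pe i` resp. of the `x`, at most `2 K + 1` points each).  There are at most
`2 ^ (N q)^2 * ...` possibilities for the resulting `Γ, X`, so one of them has a positive proportion; use
`S_BLOW`, and remove the non-injective `Ω` (at most `(L q s)^2 / (θ k)` of all). -/
def S_TRANS : Prop := ∀ (t : ℕ) (ε : ℝ), 1 ≤ t → 0 < ε → ε ≤ 1 → ∃ N₁ C₀ : ℕ, 3 ≤ N₁ ∧
  ∀ N₀ L R : ℕ, N₁ ≤ N₀ → ∃ q μ ν : ℕ, 1 ≤ q ∧ 1 ≤ ν ∧ μ ≤ C₀ * ν ∧
    t * (μ + ν) + 1 ≤ q * (N₀ - 2) ∧ 8 * q ≤ t * ν ∧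
  ∀ (s : ℕ) (θ : ℝ), 1 ≤ s → 0 < θ → ∃ (c : ℝ) (k₀ : ℕ), 0 < c ∧
  ∀ (n k m : ℕ) [NeZero n] (M : ZMod n → Finset (ZMod n)), Host n k m M → k₀ ≤ k →
  ∀ (σ : ℝ) (z : ZMod n) (U : Finset (ZMod n)), θ * k ≤ σ → Dense n k t M ε (k / N₀) σ z L U →
  ∀ (e : Fin R → ZMod n) (pe : Fin R → ℕ),
  (∀ i, ∃ p : ℕ, p < L * (k / N₀) ∧ e i = z + (p : ZMod n)) →
    ∃ (Γ : ℕ → ℕ → Prop) (X : Fin R → Finset ℕ), LG (L * q) (q * (N₀ - 2)) μ Γ ∧
      (∀ i, (X i).card ≤ μ) ∧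
      c * ∏ p : Fin (L * q) × Fin s, ((cellU z (k / N₀) U ((p.1 : ℕ) / q)).card : ℝ) ≤
        (((Fintype.piFinset (fun p : Fin (L * q) × Fin s => cellU z (k / N₀) U ((p.1 : ℕ) / q))).filter
          (fun Ω => Faith n M z (L * q) (q * (N₀ - 2)) s e pe Γ X Ω)).card : ℝ)

/-- [CONN] connections inside of dense sets.
PROOF.  `S_TRANS` with the exterior vertices `z + a_i`, `z + b_i` at the points `q (p / ℓ)` of the line
(`ℓ = k / N₀`), `E = t + 8 + C₀`, `L = (D + 2 E) N₀`.  Choose greedily points `c_0, ..., c_t` of the line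
such that `a ++ c` is a walk (always `t` conditions; the points and the `q (p / ℓ)` are in an interval of length
`K + 4 q`, so there is a common window with at least `K - 4 q + 1 > t μ` points), in the
same way `d ++ b` from the right, then `S_WALK` between `c` and `d`.  `s` = length of the walk: the
`i`-th entry `y` of the walk is realised by `Ω (y, i)`. -/
def S_CONN2 : Prop := ∀ (t : ℕ) (ε : ℝ), 1 ≤ t → 0 < ε → ε ≤ 1 → ∃ E N₁ : ℕ, ∀ N₀ : ℕ, N₁ ≤ N₀ →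
  ∀ D : ℕ, ∃ W : ℕ, ∀ θ : ℝ, 0 < θ → ∃ k₀ : ℕ,
  ∀ (n k m : ℕ) [NeZero n] (M : ZMod n → Finset (ZMod n)), Host n k m M → k₀ ≤ k →
  ∀ (σ : ℝ) (z : ZMod n) (U : Finset (ZMod n)), θ * k ≤ σ →
  Dense n k t M ε (k / N₀) σ z ((D + 2 * E) * N₀) U →
  ∀ a b : List ℕ, a.length = t → b.length = t →
    (∀ p ∈ a, E * k ≤ p ∧ p < (E + D) * k) → (∀ p ∈ b, E * k ≤ p ∧ p < (E + D) * k) →
    Pw (La n k M z) t a → Pw (La n k M z) t b →
    ∃ c : List ℕ, c.length ≤ W ∧ (∀ p ∈ c, p < (D + 2 * E) * k ∧ z + (p : ZMod n) ∈ U) ∧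
      (vs z c).Nodup ∧ Pw (La n k M z) t (a ++ c ++ b)

/-! ## Absorption -/

/-- index set of the entries of an absorber: `r + 1` rows with `2 t` entries and `r` middle vertices -/
abbrev IA (t r : ℕ) : Type := (Fin (r + 1) × Fin (2 * t)) ⊕ Fin r

/-- the row `i` -/
def row {t r : ℕ} (g : IA t r → ℕ) (i : Fin (r + 1)) : List ℕ :=
  List.ofFn (fun a : Fin (2 * t) => g (Sum.inl (i, a)))

/-- `v` is inserted in the middle of the row `Q` -/
def mid (t : ℕ) (Q : List ℕ) (v : ℕ) : List ℕ := Q.take t ++ v :: Q.drop t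

/-- `g` is an absorber: the rows `i < r` with the middle vertices `i` and the row `r` are powers of
paths, and the rows `i + 1` with the middle vertices `i` are powers of paths -/
structure Absb (n k t r : ℕ) (M : ZMod n → Finset (ZMod n)) (z : ZMod n) (g : IA t r → ℕ) :
    Prop where
  inj : Function.Injective (fun i => z + (g i : ZMod n))
  self : ∀ i : Fin r, Pw (La n k M z) t (mid t (row g i.castSucc) (g (Sum.inr i)))
  next : ∀ i : Fin r, Pw (La n k M z) t (mid t (row g i.succ) (g (Sum.inr i)))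
  last : Pw (La n k M z) t (row g (Fin.last r))

/-- the vertex at the position `x` can be absorbed: it can be inserted in the row `0` -/
def Hit (n k t r : ℕ) (M : ZMod n → Finset (ZMod n)) (z : ZMod n) (g : IA t r → ℕ) (x : ℕ) : Prop :=
  Pw (La n k M z) t (mid t (row g 0) x)

open Classical in
/-- [ABSC] many absorbers for every vertex.
PROOF.  `S_THD`, `S_TRANS` with `R = 1` (the exterior vertex `z + x`), `s = 2 (r + 1) + r`, `S_CHAIN`.
Row `i < r`: the entry `a` is realised by the copy `2 i + a / t` of the point `A i (a % t)`; row `r`: the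
entry `a` is realised by the copy `2 r + a / t` of the point `B (a % (t + 1))`; middle vertex `i`: the
copy `2 (r + 1) + i` of the point `u (i + 1)`.  A positive proportion of the `Ω` gives
a positive proportion of the `g`. -/
def S_ABSC : Prop := ∀ (t : ℕ) (ε : ℝ), 1 ≤ t → 0 < ε → ε ≤ 1 → ∃ (r D : ℕ) (β c : ℝ) (k₀ : ℕ),
  1 ≤ r ∧ 0 < β ∧ 0 < c ∧
  ∀ (n k m : ℕ) [NeZero n] (M : ZMod n → Finset (ZMod n)), Host n k m M → k₀ ≤ k →
  (t : ℝ) * (m + 1) ≤ (1 - ε) * k → ∀ (z : ZMod n) (B : Finset (ZMod n)), Thin n k (β * k) B →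
  ∀ x : ℕ, D * k ≤ x → x < (D + 1) * k →
    c * (k : ℝ) ^ Fintype.card (IA t r) ≤
      (((Fintype.piFinset (fun _ : IA t r => range ((2 * D + 1) * k))).filter (fun g =>
        Absb n k t r M z g ∧ Hit n k t r M z g x ∧
          ∀ i, z + (g i : ZMod n) ∉ B ∧ z + (g i : ZMod n) ≠ z + (x : ZMod n))).card : ℝ)

/-- `P` absorbs every set `X` of at most `h k` positions of `[D k, (D+1) k)`: there is a piece with the
same first `t` and last `t` entries which contains the vertices of `X` and those of `P` -/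
def Absorbs (n k t D : ℕ) (M : ZMod n → Finset (ZMod n)) (z : ZMod n) (h : ℝ) (P : List ℕ) : Prop :=
  ∀ X : Finset ℕ, X ⊆ Ico (D * k) ((D + 1) * k) → (X.card : ℝ) ≤ h * k →
    (∀ x ∈ X, z + (x : ZMod n) ∉ vs z P) →
    ∃ P' : List ℕ, Pc n k t (2 * D + 1) M z P' ∧ P'.take t = P.take t ∧
      lastn t P' = lastn t P ∧
      ∀ v, v ∈ vs z P' ↔ v ∈ vs z P ∨ ∃ x ∈ X, v = z + (x : ZMod n)

/-- [APATH] absorbing pieces.
PROOF.  `S_SEL` (library) with `Cand = IA t r → ℕ`, `C` = all functions with values in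
`range ((2 D₀ + 1) k)` (`D₀` from `S_ABSC`, shifted by a constant number of `k` in order to have room for
`S_CONN2`), requests = positions of the block, state = the piece `P` built so far, `next P g = P ++ c ++
A` where `A = row_0 with its middle ++ c_1 ++ row_1 with its middle ++ ... ++ c_r ++ row r` (connections
by `S_THD` and `S_CONN2`, always outside `B`, `P` and `g`; at most `a` new vertices), `R = ⌊γ k / a⌋`
steps.  If `g` is hit by `x` then `A` can be replaced by `row_0 with x, c_1, row_1 with middle vertex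
0, ..., c_r, row_r with middle vertex r - 1`. -/
def S_APATH : Prop := ∀ (t : ℕ) (ε : ℝ), 1 ≤ t → 0 < ε → ε ≤ 1 → ∃ (D : ℕ) (β : ℝ), 0 < β ∧
  ∀ γ : ℝ, 0 < γ → ∃ (h : ℝ) (k₀ : ℕ), 0 < h ∧
  ∀ (n k m : ℕ) [NeZero n] (M : ZMod n → Finset (ZMod n)), Host n k m M → k₀ ≤ k →
  (t : ℝ) * (m + 1) ≤ (1 - ε) * k → ∀ (z : ZMod n) (B : Finset (ZMod n)), Thin n k (β * k) B →
  ∃ P : List ℕ, Pc n k t (2 * D + 1) M z P ∧ (P.length : ℝ) ≤ γ * k ∧ (∀ v ∈ vs z P, v ∉ B) ∧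
    Absorbs n k t D M z h P

/-- base point of the block `j` -/
def zb (n k D j : ℕ) : ZMod n := ((j * k : ℕ) : ZMod n) - ((D * k : ℕ) : ZMod n)

/-- [BLK] absorbing pieces for all blocks: `S_APATH` for `j = 0, 1, ...` (`B` = all vertices used so
far; every window meets a bounded number of the pieces) -/
def S_BLK : Prop := ∀ (t : ℕ) (ε : ℝ), 1 ≤ t → 0 < ε → ε ≤ 1 → ∃ D : ℕ,
  ∀ γ : ℝ, 0 < γ → ∃ (h : ℝ) (k₀ : ℕ), 0 < h ∧
  ∀ (n k m : ℕ) [NeZero n] (M : ZMod n → Finset (ZMod n)), Host n k m M → k₀ ≤ k →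
  (t : ℝ) * (m + 1) ≤ (1 - ε) * k → ∃ P : ℕ → List ℕ,
    (∀ j, j * k < n → Pc n k t (2 * D + 1) M (zb n k D j) (P j) ∧
      Absorbs n k t D M (zb n k D j) h (P j)) ∧
    (∀ i j, i < j → j * k < n → ∀ v, v ∈ vs (zb n k D i) (P i) → v ∉ vs (zb n k D j) (P j)) ∧
    ∀ B : Finset (ZMod n), (∀ v ∈ B, ∃ j, j * k < n ∧ v ∈ vs (zb n k D j) (P j)) →
      Thin n k (γ * k) B

/-! ## Almost perfect tilings by complete `(t+1)`-partite graphs with classes of size `s` -/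

/-- a tile in the host -/
def CTile (n k t s : ℕ) (M : ZMod n → Finset (ZMod n)) (K : Finset (ZMod n)) : Prop :=
  ∃ (z : ZMod n) (p : Fin (t + 1) × Fin s → ℕ), (∀ x, p x ≤ 2 * k) ∧
    Function.Injective (fun x => z + (p x : ZMod n)) ∧
    K = univ.image (fun x => z + (p x : ZMod n)) ∧
    ∀ x y, x.1 ≠ y.1 → p x ≤ p y + k ∧ z + (p y : ZMod n) ∉ M (z + (p x : ZMod n))

/-- a tile on the line, inside of `u` -/
def LTile (q : ℕ → ℕ → Prop) (k t s : ℕ) (u K : Finset ℕ) : Prop :=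
  ∃ p : Fin (t + 1) × Fin s → ℕ, Function.Injective p ∧ K = univ.image p ∧ K ⊆ u ∧
    ∀ x y, x.1 ≠ y.1 → p x ≤ p y + k ∧ ¬ q (p x) (p y)

open Classical in
/-- [FT] fractional tilings of a segment of the line by tiles.
PROOF.  Farkas (`S_FARKAS`) for the unknowns `w K` (tiles), `d v` (`v ≥ k`, deficiencies), conditions
`load v ≤ 1` (`v < k`), `load v + d v = 1` (`v ≥ k`), `∑_{v ∈ block c} d v ≤ η k` for the blocks
`[c k, (c+1) k)`, `1 ≤ c < M₀`.  If there is no solution there are `x v` (`≥ 0` for `v < k`) and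
`λ c ≥ 0` with `x v ≥ - λ (block of v)` for `v ≥ k`, `∑_{v ∈ K} x v ≥ 0` for all tiles `K` and
`∑_{v ∈ u} x v + η k ∑ λ c < 0`.  So `Λ = max λ > 0`; scale to `Λ = 1` and replace `x v` by
`min (x v) (tile size)`.  Cells of length `ℓ = k / N'`, `N'` a large constant; light cells (fewer than
`ζ k` elements of `u`) are dropped.  Sample `Q` points `ω (j, i)` in every cell `j`, weights
`μ (j, i) = |cell j ∩ u| / Q` (`0` for light cells).  With probability `> 0` (in fact `≥ 1/2`), by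
`S_HOEF`, every sample point misses at most the weight `|M ∩ u| + small k`, and
`∑ μ x (ω) ≤ ∑_{v∈u} x v + small k < - (η / 2) k`.  The dual form of `T_FRAC (t+1)` on the line of the
sample points (windows of `Q (N' - 2)` points) gives a clique `I` with `t + 1` points and
`∑_{I} x (ω) < - c₁` (use `x + c₂` instead of `x`).  So for some `I` a positive proportion of all
`(t+1)`-tuples are cliques with sum `< - c₁`; by `S_BLOW` there is a tile all of whose transversals are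
such cliques, with `∑_{K} x < 0`: contradiction. -/
def S_FT : Prop := ∀ (t M₀ s : ℕ) (ε θ η : ℝ), 2 ≤ t → 2 ≤ M₀ → 1 ≤ s → 0 < ε → ε ≤ 1 → 0 < θ →
  0 < η → ∃ k₀ : ℕ, ∀ (k : ℕ) (q : ℕ → ℕ → Prop) (u : Finset ℕ), k₀ ≤ k → (∀ x, q x x) →
  (∀ x y, q x y → q y x) → u ⊆ range (M₀ * k) →
  (∀ j, j + k < M₀ * k → θ * k ≤ ((Ico j (j + k) ∩ u).card : ℝ) ∧
    ∀ x, j ≤ x → x ≤ j + 2 * k → x < M₀ * k →
      (t : ℝ) * ((LQ q k (M₀ * k) x ∩ u).card : ℝ) ≤ (1 - ε) * ((Ico j (j + k) ∩ u).card : ℝ)) →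
  ∃ w : Finset ℕ → ℝ, (∀ K, 0 ≤ w K) ∧ (∀ K, w K ≠ 0 → LTile q k t s u K) ∧
    (∀ v ∈ u, ∑ K ∈ (range (M₀ * k)).powerset, (if v ∈ K then w K else 0) ≤ 1) ∧
    ∀ c, 1 ≤ c → c < M₀ → ∑ v ∈ Ico (c * k) ((c + 1) * k) ∩ u,
      (1 - ∑ K ∈ (range (M₀ * k)).powerset, (if v ∈ K then w K else 0)) ≤ η * k

/-- [DIST2] fractional tilings of the segments starting in `A`, averaged (compare `S_DIST` and its
proof in the library, `CF/Dist.lean`, `CF/Fix.lean`: push forward and average).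
The deficiencies: `∑_{v ∈ W ∩ U} (rate v - load v)⁺ ≤ 1/N ∑_{z ∈ A} ∑_{k ≤ i < N, z + i ∈ W ∩ U}
(1 - load_z i)`; for every block `c` at most `3 k + 1` of the `z` matter for `W = win (2k+1) y`. -/
def S_DIST2 : Prop := ∀ (t M₀ s : ℕ) (ε θ η : ℝ), 2 ≤ t → 2 ≤ M₀ → 1 ≤ s → 0 < ε → ε ≤ 1 →
  0 < θ → 0 < η → ∃ k₀ : ℕ, ∀ (n k m : ℕ) [NeZero n] (M : ZMod n → Finset (ZMod n)),
  Host n k m M → k₀ ≤ k → ∀ U A : Finset (ZMod n),
  (∀ z ∈ A, ∀ j : ℕ, j + k < M₀ * k → θ * k ≤ ((win n k (z + (j : ZMod n)) ∩ U).card : ℝ) ∧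
    ∀ i : ℕ, i ≤ 2 * k →
    (t : ℝ) * ((M (z + (j : ZMod n) + (i : ZMod n)) ∩ U).card : ℝ) ≤
      (1 - ε) * ((win n k (z + (j : ZMod n)) ∩ U).card : ℝ)) →
  ∃ w : Finset (ZMod n) → ℝ, (∀ K, 0 ≤ w K) ∧ (∀ K, w K ≠ 0 → CTile n k t s M K ∧ K ⊆ U) ∧
    (∀ v ∈ U, ∑ K, (if v ∈ K then w K else 0) ≤
      rate n k (M₀ * k) A v + err n k (M₀ * k) A v) ∧
    ∀ y, ∑ v ∈ win n (2 * k + 1) y ∩ U,
      max 0 (rate n k (M₀ * k) A v - ∑ K, (if v ∈ K then w K else 0)) ≤ η * k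

/-- [POT2] `S_POT` with deficiencies (the proof of `S_POT` in `CF/Pot.lean` with small changes: in
the first moment of a test the deficiencies contribute at most `η k / d`) -/
def S_POT2 : Prop := ∀ (t : ℕ) (d τ γ κ : ℝ), 1 ≤ t → 0 < d → d ≤ 1 → 0 < τ → 0 < γ → 0 < κ →
  ∃ η : ℝ, 0 < η ∧ η ≤ 1 ∧ ∀ C : ℝ, ∃ k₀ : ℕ, ∀ k : ℕ, k₀ ≤ k →
  ∀ (V : Type) [Fintype V] [DecidableEq V] (T : Finset (Finset V)) (r e D : V → ℝ)
    (U₀ : Finset V) (ok : Finset V → Prop),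
  (T.card : ℝ) ≤ C * k → (∀ S ∈ T, (S.card : ℝ) ≤ 3 * k) → (∀ v, 0 ≤ r v ∧ r v ≤ 1) →
  (∀ v, 0 ≤ e v ∧ e v ≤ η) →
  (∀ v, ∀ σ : ℝ, 0 ≤ σ → σ ≤ τ + 1 → d ≤ D v * Real.exp (-(σ * r v)) ∧
    D v * Real.exp (-(σ * r v)) ≤ 1) →
  (∀ K, ok K → K.card = t) →
  (∀ (U : Finset V) (σ : ℝ), U ⊆ U₀ → 0 ≤ σ → σ ≤ τ →
    (∀ S ∈ T, |Y S U (fun v => D v * Real.exp (-(σ * r v))) - Y S U₀ D| ≤ γ * k) →
    (∀ v, r v + e v = 0 → (v ∈ U ↔ v ∈ U₀)) →
    ∃ w : Finset V → ℝ, (∀ K, 0 ≤ w K) ∧ (∀ K, w K ≠ 0 → ok K ∧ K ⊆ U) ∧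
      (∀ v ∈ U, ∑ K, (if v ∈ K then w K else 0) ≤ r v + e v) ∧
      (∀ S ∈ T, ∑ v ∈ S ∩ U, max 0 (r v - ∑ K, (if v ∈ K then w K else 0)) ≤ η * k) ∧
      κ * k ≤ ∑ K, w K) →
  ∃ (σ : ℝ) (F : Finset (Finset V)), τ ≤ σ ∧ σ ≤ τ + 1 ∧ (∀ K ∈ F, ok K ∧ K ⊆ U₀) ∧
    (∀ K ∈ F, ∀ L ∈ F, K ≠ L → Disjoint K L) ∧ (∀ K ∈ F, ∀ v ∈ K, 0 < r v + e v) ∧
    ∀ S ∈ T, |Y S (U₀ \ F.biUnion id) (fun v => D v * Real.exp (-(σ * r v))) - Y S U₀ D| ≤ γ * k

/-- [BAL2] compare `S_BAL` (`CF/Bal.lean`) -/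
def S_BAL2 : Prop := ∀ (t : ℕ) (ε : ℝ), 1 ≤ t → 0 < ε → ε ≤ 1 → ∃ β : ℝ, 0 < β ∧ β ≤ 1 / 4 ∧
  ∀ (n k m : ℕ) [NeZero n] (M : ZMod n → Finset (ZMod n)), Host n k m M →
  (t : ℝ) * (m + 1) ≤ (1 - ε) * k → ∀ (U : Finset (ZMod n)) (D : ZMod n → ℝ) (θ : ℝ),
  (∀ v, 0 < D v) → 0 ≤ θ → θ * k ≤ β → Slow n θ D → St n k M (β * k) U D →
  ∀ y : ZMod n, D y / 2 * k ≤ ((win n k y ∩ U).card : ℝ) ∧ ∀ i : ℕ, i ≤ 2 * k →
    (t : ℝ) * ((M (y + (i : ZMod n)) ∩ U).card : ℝ) ≤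
      (1 - ε / 2) * ((win n k y ∩ U).card : ℝ)

/-- the remaining set `U` has density `D` with respect to all tests (windows of length `k` and `ℓ`,
missing neighbourhoods), up to `b` -/
def St2 (n k ℓ : ℕ) (M : ZMod n → Finset (ZMod n)) (b : ℝ) (U : Finset (ZMod n)) (D : ZMod n → ℝ) :
    Prop :=
  St n k M b U D ∧ ∀ y, |Y (win n ℓ y) U D - ℓ| ≤ b

/-- [ARC2] one arc, for tiles (compare `S_ARC1`, `CF/Arc1.lean`, `CF/Fix.lean`): `S_POT2`, `S_DIST2`,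
`S_BAL2` (`t := (t+1) s` in `S_POT2`).  `β` is the `β` of `S_BAL2`. -/
def S_ARC2 : Prop := ∀ (t : ℕ) (ε : ℝ), 2 ≤ t → 0 < ε → ε ≤ 1 → ∃ β : ℝ, 0 < β ∧ β ≤ 1 / 4 ∧
  ∀ (τ γ : ℝ) (s M₁ : ℕ), 0 < τ → 0 < γ → γ ≤ β → 1 ≤ s → ∃ M₀ k₀ : ℕ, 3 ≤ M₀ ∧ M₁ ≤ M₀ ∧
  ∀ (n k m ℓ : ℕ) [NeZero n] (M : ZMod n → Finset (ZMod n)), Host n k m M → k₀ ≤ k → ℓ ≤ k →
  (t : ℝ) * (m + 1) ≤ (1 - ε) * k → ∀ (Ar : Finset (ZMod n)), Arc n (M₀ * k) Ar →
  ∀ (U : Finset (ZMod n)) (D : ZMod n → ℝ),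
  (∀ v, ∀ σ : ℝ, 0 ≤ σ → σ ≤ τ + 1 →
    Real.exp (-(τ + 1)) ≤ D v * Real.exp (-(σ * rate n k (M₀ * k) Ar v)) ∧
    D v * Real.exp (-(σ * rate n k (M₀ * k) Ar v)) ≤ 1) →
  (∀ σ : ℝ, 0 ≤ σ → σ ≤ τ + 1 → Slow n (2 * (τ + 1) / (M₀ * k : ℕ))
    (fun v => D v * Real.exp (-(σ * rate n k (M₀ * k) Ar v)))) →
  St2 n k ℓ M ((β - γ) * k) U D →
  ∃ (σ : ℝ) (F : Finset (Finset (ZMod n))), τ ≤ σ ∧ σ ≤ τ + 1 ∧
    (∀ K ∈ F, CTile n k t s M K ∧ K ⊆ U) ∧ (∀ K ∈ F, ∀ L ∈ F, K ≠ L → Disjoint K L) ∧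
    (∀ K ∈ F, ∀ v ∈ K, ∃ i : ℕ, i < M₀ * k ∧ v - (i : ZMod n) ∈ Ar) ∧
    (∀ x, |Y (M x) (U \ F.biUnion id) (fun v => D v * Real.exp (-(σ * rate n k (M₀ * k) Ar v)))
      - Y (M x) U D| ≤ γ * k) ∧
    (∀ y, |Y (win n k y) (U \ F.biUnion id)
      (fun v => D v * Real.exp (-(σ * rate n k (M₀ * k) Ar v))) - Y (win n k y) U D| ≤ γ * k) ∧
    ∀ y, |Y (win n ℓ y) (U \ F.biUnion id)
      (fun v => D v * Real.exp (-(σ * rate n k (M₀ * k) Ar v))) - Y (win n ℓ y) U D| ≤ γ * k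

/-- [ALM2] almost perfect tilings by tiles; the remaining set is thin, but dense and regular.
PROOF.  As `S_ALM` (`CF/Alm.lean`, `CF/Fix.lean`) with `S_ARC2`, `S_PART`, `S_RATE`; `γ` small also
with respect to `1 / N₀` and `ε`, `M₁` large with respect to `L`, `τ`, so that the density `D` changes
at most by a factor close to `1` on an interval of length `(L + 3) k`. `θ` is about
`exp (-(τ + 1) * 2) / (2 N₀)`. -/
def S_ALM2 : Prop := ∀ (t N₀ L : ℕ) (ε : ℝ), 2 ≤ t → 1 ≤ N₀ → 0 < ε → ε ≤ 1 →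
  ∃ γ₀ : ℝ, 0 < γ₀ ∧ ∀ δ : ℝ, 0 < δ → ∃ θ : ℝ, 0 < θ ∧ ∀ s : ℕ, 1 ≤ s → ∃ k₀ : ℕ,
  ∀ (n k m : ℕ) [NeZero n] (M : ZMod n → Finset (ZMod n)), Host n k m M → k₀ ≤ k →
  (t : ℝ) * (m + 1) ≤ (1 - ε) * k → ∀ B : Finset (ZMod n), Thin n k (γ₀ * k) B →
  ∃ F : Finset (Finset (ZMod n)), (∀ K ∈ F, CTile n k t s M K ∧ Disjoint K B) ∧
    (∀ K ∈ F, ∀ L ∈ F, K ≠ L → Disjoint K L) ∧ Thin n k (δ * k) ((B ∪ F.biUnion id)ᶜ) ∧
    ∀ z, ∃ σ : ℝ, θ * k ≤ σ ∧
      Dense n k t M (ε / 2) (k / N₀) σ z L ((B ∪ F.biUnion id)ᶜ)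

/-! ## Assembly -/

/-- [FIN] all hosts contain the `t`-th power of a Hamilton cycle -/
def S_FIN : Prop := ∀ (t : ℕ) (ε : ℝ), 2 ≤ t → 0 < ε → ε ≤ 1 → ∃ k₀ : ℕ,
  ∀ (n k m : ℕ) [NeZero n] (M : ZMod n → Finset (ZMod n)), Host n k m M → k₀ ≤ k →
  (t : ℝ) * (m + 1) ≤ (1 - ε) * k →
  ∃ l : List (ZMod n), l.Nodup ∧ (∀ v, v ∈ l) ∧ Pw (Ad n k M) t (l ++ l)

end Pool.Agent.H48.PW
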