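import Pool.Agent.H48.PW.Stm

/-!
[T1] tight connectivity of the `t`-cliques on the line.
-/

set_option autoImplicit false

namespace Pool.Agent.H48.PW

open Finset

namespace T1L

variable {N K μ t : ℕ} {Γ : ℕ → ℕ → Prop}

theorem la_symm (hG : LG N K μ Γ) {x y : ℕ} (h : LA N K Γ x y) : LA N K Γ y x :=
  ⟨h.2.1, h.1, h.2.2.2.1, h.2.2.1, hG.symm _ _ h.2.2.2.2⟩

theorem la_ne (hG : LG N K μ Γ) {x y : ℕ} (h : LA N K Γ x y) : x ≠ y := by
  rintro rfl
  exact hG.irrefl _ h.2.2.2.2

theorem step_symm {A B : Finset ℕ} (h : TStep N K t Γ A B) : TStep N K t Γ B A := by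
  obtain ⟨h1, h2, C, h3, h4, h5, h6⟩ := h
  exact ⟨h2, h1, C, h3, h4, h6, h5⟩

/-- connected -/
abbrev Con (N K t : ℕ) (Γ : ℕ → ℕ → Prop) : Finset ℕ → Finset ℕ → Prop :=
  Relation.ReflTransGen (TStep N K t Γ)

theorem con_symm {A B : Finset ℕ} (h : Con N K t Γ A B) : Con N K t Γ B A := by
  induction h with
  | refl => exact .refl
  | tail _ h2 ih => exact Relation.ReflTransGen.head (step_symm h2) ih

theorem clq_sub {A B : Finset ℕ} (hB : Clq N K Γ B) (h : A ⊆ B) : Clq N K Γ A :=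
  ⟨fun x hx => hB.1 x (h hx), fun x hx y hy hxy => hB.2 x (h hx) y (h hy) hxy⟩

theorem clq_insert (hG : LG N K μ Γ) {A : Finset ℕ} (hA : Clq N K Γ A) {v : ℕ} (hv : v < N)
    (h : ∀ z ∈ A, LA N K Γ z v) : Clq N K Γ (insert v A) := by
  constructor
  · intro x hx
    rcases mem_insert.1 hx with rfl | hx
    · exact hv
    · exact hA.1 x hx
  · intro x hx y hy hxy
    rcases mem_insert.1 hx with h1 | h1
    · rcases mem_insert.1 hy with h2 | h2
      · exact absurd (h1.trans h2.symm) hxy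
      · rw [h1]; exact la_symm hG (h y h2)
    · rcases mem_insert.1 hy with h2 | h2
      · rw [h2]; exact h x h1
      · exact hA.2 x h1 y h2 hxy

theorem not_mem_of_la (hG : LG N K μ Γ) {A : Finset ℕ} {v : ℕ} (h : ∀ z ∈ A, LA N K Γ z v) :
    v ∉ A := fun hv => la_ne hG (h v hv) rfl

/-- missing sets -/
theorem exists_ms (hG : LG N K μ Γ) : ∃ Ms : ℕ → Finset ℕ, ∀ x, x < N → (Ms x).card ≤ μ ∧
    ∀ y, y < N → x ≤ y + K → y ≤ x + K → y ∉ Ms x → LA N K Γ x y := by
  have h : ∀ x, ∃ S : Finset ℕ, x < N → S.card ≤ μ ∧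
      ∀ y, y < N → x ≤ y + K → y ≤ x + K → y ∉ S → LA N K Γ x y := by
    intro x
    by_cases hx : x < N
    · obtain ⟨S, h1, h2⟩ := hG.miss x hx
      refine ⟨S, fun _ => ⟨h1, fun y hy h3 h4 h5 => ⟨hx, hy, h3, h4, ?_⟩⟩⟩
      by_contra h6
      exact h5 (h2 y hy h3 h4 h6)
    · exact ⟨∅, fun h => absurd h hx⟩
  choose Ms hMs using h
  exact ⟨Ms, hMs⟩

/-- a common neighbour in a large set -/
theorem exists_adj (hG : LG N K μ Γ) (Z I : Finset ℕ) (hZ : ∀ z ∈ Z, z < N)
    (hI : ∀ v ∈ I, v < N ∧ ∀ z ∈ Z, z ≤ v + K ∧ v ≤ z + K) (hc : Z.card * μ < I.card) :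
    ∃ v ∈ I, ∀ z ∈ Z, LA N K Γ z v := by
  obtain ⟨Ms, hMs⟩ := exists_ms hG
  have h1 : (Z.biUnion Ms).card ≤ Z.card * μ :=
    card_biUnion_le_card_mul _ _ _ fun z hz => (hMs z (hZ z hz)).1
  have h2 : ¬ I ⊆ Z.biUnion Ms := fun h => by
    have := card_le_card h
    omega
  obtain ⟨v, hv, hv2⟩ := not_subset.1 h2
  refine ⟨v, hv, fun z hz => ?_⟩
  have h3 := hI v hv
  exact (hMs z (hZ z hz)).2 v h3.1 (h3.2 z hz).1 (h3.2 z hz).2
    fun h4 => hv2 (mem_biUnion.2 ⟨z, hz, h4⟩)

/-- greedy choice of one point -/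
theorem greedy1 (hG : LG N K μ Γ) (hK : t * μ + 1 ≤ K) (Z : Finset ℕ) (a b : ℕ)
    (hZ : ∀ z ∈ Z, a ≤ z ∧ z ≤ b) (hc2 : 2 ≤ Z.card) (hct : Z.card ≤ t + 1)
    (hab : b ≤ a + (Z.card - 2) * μ + 1) (hbK : K ≤ b) (haN : a + K < N) (hZN : ∀ z ∈ Z, z < N) :
    ∃ v, (∀ z ∈ Z, LA N K Γ z v) ∧ v < N ∧ b ≤ v + ((Z.card - 1) * μ + 1) ∧
      v ≤ a + ((Z.card - 1) * μ + 1) := by
  obtain ⟨c, hc⟩ : ∃ c, c = Z.card := ⟨_, rfl⟩
  rw [← hc] at hc2 hct hab ⊢
  obtain ⟨d, rfl⟩ : ∃ d, c = d + 2 := ⟨c - 2, by omega⟩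
  have e1 : d + 2 - 1 = d + 1 := by omega
  have e2 : d + 2 - 2 = d := by omega
  rw [e1]
  rw [e2] at hab
  have hR : (d + 1) * μ + 1 ≤ K := by
    have : (d + 1) * μ ≤ t * μ := Nat.mul_le_mul_right _ (by omega)
    omega
  have e3 : (d + 1) * μ = d * μ + μ := by ring
  obtain ⟨v, hv, hv2⟩ := exists_adj hG Z (Icc (b - ((d + 1) * μ + 1)) (a + ((d + 1) * μ + 1))) hZN
    (by
      intro v hv
      rw [mem_Icc] at hv
      refine ⟨by omega, fun z hz => ?_⟩
      have := hZ z hz
      omega)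
    (by
      rw [Nat.card_Icc, ← hc]
      have e4 : (d + 2) * μ = d * μ + 2 * μ := by ring
      have hne : Z.Nonempty := by rw [← card_pos]; omega
      obtain ⟨z, hz⟩ := hne
      have := hZ z hz
      omega)
  rw [mem_Icc] at hv
  refine ⟨v, hv2, by omega, by omega, by omega⟩

/-- greedy choice of a clique -/
theorem greedy (hG : LG N K μ Γ) (hK : t * μ + 1 ≤ K) (m : ℕ) : ∀ (Z : Finset ℕ) (a b : ℕ),
    (∀ z ∈ Z, a ≤ z ∧ z ≤ b) → 2 ≤ Z.card → Z.card + m ≤ t + 2 →
    b ≤ a + (Z.card - 2) * μ + 1 → K ≤ b → a + K < N → (∀ z ∈ Z, z < N) →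
    ∃ W : Finset ℕ, W.card = m ∧ Clq N K Γ W ∧ ∀ w ∈ W, ∀ z ∈ Z, LA N K Γ z w := by
  induction m with
  | zero =>
    intro Z a b _ _ _ _ _ _ _
    exact ⟨∅, rfl, ⟨fun x hx => absurd hx (notMem_empty x), fun x hx => absurd hx (notMem_empty x)⟩,
      fun w hw => absurd hw (notMem_empty w)⟩
  | succ m ih =>
    intro Z a b hZ hc2 hct hab hbK haN hZN
    obtain ⟨v, hv1, hv2, hv3, hv4⟩ := greedy1 hG hK Z a b hZ hc2 (by omega) hab hbK haN hZN
    have hvZ : v ∉ Z := not_mem_of_la hG hv1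
    have hcard : (insert v Z).card = Z.card + 1 := card_insert_of_notMem hvZ
    obtain ⟨W, hW1, hW2, hW3⟩ := ih (insert v Z) (min a v) (max b v) (by
        intro z hz
        rcases mem_insert.1 hz with rfl | hz
        · omega
        · have := hZ z hz
          omega) (by omega) (by omega) (by
        rw [hcard]
        have e : Z.card + 1 - 2 = Z.card - 1 := by omega
        rw [e]
        have e2 : (Z.card - 2) * μ ≤ (Z.card - 1) * μ := Nat.mul_le_mul_right _ (by omega)
        omega) (by omega) (by omega) (by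
        intro z hz
        rcases mem_insert.1 hz with rfl | hz
        · exact hv2
        · exact hZN z hz)
    have hvW : v ∉ W := fun h => la_ne hG (hW3 v h v (mem_insert_self _ _)) rfl
    refine ⟨insert v W, by rw [card_insert_of_notMem hvW, hW1], ?_, ?_⟩
    · exact clq_insert hG hW2 hv2 fun w hw => la_symm hG (hW3 w hw v (mem_insert_self _ _))
    · intro w hw z hz
      rcases mem_insert.1 hw with rfl | hw
      · exact hv1 z hz
      · exact hW3 w hw z (mem_insert_of_mem hz)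

/-- subsets of a clique -/
theorem con_of_sub {Q : Finset ℕ} (hQ : Clq N K Γ Q) : ∀ (m : ℕ) (A B : Finset ℕ), A ⊆ Q → B ⊆ Q →
    A.card = t → B.card = t → (A \ B).card = m → Con N K t Γ A B := by
  intro m
  induction m with
  | zero =>
    intro A B hA hB hAc hBc h
    rw [card_eq_zero, sdiff_eq_empty_iff_subset] at h
    rw [eq_of_subset_of_card_le h (by omega)]
  | succ m ih =>
    intro A B hA hB hAc hBc h
    obtain ⟨a, ha⟩ : (A \ B).Nonempty := by rw [← card_pos]; omega
    have hBA : (B \ A).card = (A \ B).card := by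
      have h1 := card_sdiff_add_card_inter A B
      have h2 := card_sdiff_add_card_inter B A
      rw [inter_comm] at h2
      omega
    obtain ⟨b, hb⟩ : (B \ A).Nonempty := by rw [← card_pos]; omega
    rw [mem_sdiff] at ha hb
    have hbe : b ∉ A.erase a := fun h => hb.2 (mem_of_mem_erase h)
    have hc1 : (insert b (A.erase a)).card = t := by
      rw [card_insert_of_notMem hbe, card_erase_of_mem ha.1]
      have : 0 < A.card := card_pos.2 ⟨a, ha.1⟩
      omega
    refine Relation.ReflTransGen.head (b := insert b (A.erase a)) ?_ (ih _ B ?_ hB hc1 hBc ?_)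
    · refine ⟨hAc, hc1, insert b A, clq_sub hQ (insert_subset (hB hb.1) hA), ?_,
        subset_insert _ _, insert_subset_insert _ (erase_subset _ _)⟩
      rw [card_insert_of_notMem hb.2, hAc]
    · exact insert_subset (hB hb.1) ((erase_subset _ _).trans hA)
    · have e : (insert b (A.erase a)) \ B = (A \ B).erase a := by
        ext x
        simp only [mem_sdiff, mem_insert, mem_erase]
        constructor
        · rintro ⟨rfl | ⟨h1, h2⟩, h3⟩
          · exact absurd hb.1 h3
          · exact ⟨h1, h2, h3⟩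
        · rintro ⟨h1, h2, h3⟩
          exact ⟨Or.inr ⟨h1, h2⟩, h3⟩
      rw [e, card_erase_of_mem (mem_sdiff.2 ha), h]
      omega

/-- a tame clique `X` with `j` points, `lo = min X`, `hi = max X` -/
structure Tame (N K μ : ℕ) (Γ : ℕ → ℕ → Prop) (j : ℕ) (X : Finset ℕ) (lo hi : ℕ) : Prop where
  clq : Clq N K Γ X
  card : X.card = j
  lo_mem : lo ∈ X
  hi_mem : hi ∈ X
  bd : ∀ x ∈ X, lo ≤ x ∧ x ≤ hi
  tame : hi + μ ≤ lo + j * μ

/-- span of `X ∪ {y}` -/
def sg (lo hi y : ℕ) : ℕ := max hi y - min lo y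

theorem near_of_clq {A : Finset ℕ} (hA : Clq N K Γ A) {x y : ℕ} (hx : x ∈ A) (hy : y ∈ A) :
    x ≤ y + K := by
  by_cases h : x = y
  · omega
  · exact (hA.2 x hx y hy h).2.2.1

/-- cliques can be extended -/
theorem extend (hG : LG N K μ Γ) (hK : t * μ + 1 ≤ K) (m : ℕ) : ∀ (Z : Finset ℕ) (z0 : ℕ),
    Clq N K Γ Z → z0 ∈ Z → K ≤ z0 → z0 + K < N → Z.card + m = t →
    ∃ C, Clq N K Γ C ∧ C.card = t ∧ Z ⊆ C := by
  induction m with
  | zero =>
    intro Z z0 hZ _ _ _ hc
    exact ⟨Z, hZ, hc, Subset.refl _⟩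
  | succ m ih =>
    intro Z z0 hZ hz0 h1 h2 hc
    have hne : Z.Nonempty := ⟨z0, hz0⟩
    obtain ⟨a, ha⟩ : ∃ a, a = Z.min' hne := ⟨_, rfl⟩
    obtain ⟨b, hb⟩ : ∃ b, b = Z.max' hne := ⟨_, rfl⟩
    have ham : a ∈ Z := ha ▸ min'_mem _ _
    have hbm : b ∈ Z := hb ▸ max'_mem _ _
    have hab : ∀ y ∈ Z, a ≤ y ∧ y ≤ b := fun y hy =>
      ⟨ha ▸ min'_le _ _ hy, hb ▸ le_max' _ _ hy⟩
    have hbK := near_of_clq hZ hbm ham
    have h3 := hab z0 hz0
    have h4 : Z.card * μ ≤ t * μ := Nat.mul_le_mul_right _ (by omega)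
    obtain ⟨v, hv, hv2⟩ := exists_adj hG Z (Icc (b - K) (a + K)) hZ.1 (by
      intro v hv
      rw [mem_Icc] at hv
      refine ⟨by omega, fun z hz => ?_⟩
      have := hab z hz
      omega) (by rw [Nat.card_Icc]; omega)
    rw [mem_Icc] at hv
    have hvZ : v ∉ Z := not_mem_of_la hG hv2
    obtain ⟨C, c1, c2, c3⟩ := ih (insert v Z) z0 (clq_insert hG hZ (by omega) hv2)
      (mem_insert_of_mem hz0) h1 h2 (by rw [card_insert_of_notMem hvZ]; omega)
    exact ⟨C, c1, c2, (subset_insert _ _).trans c3⟩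

open Classical in
/-- the core of the argument: a minimal clique without close elements leads to a contradiction -/
theorem core (hG : LG N K μ Γ) (hK : t * μ + 1 ≤ K) {j : ℕ} (hj : j < t) {X : Finset ℕ}
    {lo hi : ℕ} (hX : Tame N K μ Γ j X lo hi) (hlo : K ≤ lo) (hhi : hi + K < N) (f : ℕ)
    (hf1 : j * μ + 1 ≤ f) (hf2 : 2 * f ≤ t * μ + (hi - lo) + 1)
    {A : Finset ℕ} (hA : Clq N K Γ A) (hAt : A.card = t) (hXA : X ⊆ A)
    (hAf : ∀ a ∈ A, hi ≤ a + f ∧ a ≤ lo + f) :
    ∃ (A' : Finset ℕ) (u : ℕ), Clq N K Γ A' ∧ A'.card = t ∧ X ⊆ A' ∧ Con N K t Γ A A' ∧ u ∈ A' ∧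
      u ∉ X ∧ hi ≤ u + j * μ ∧ u ≤ lo + j * μ := by
  obtain ⟨Ms, hMs⟩ := exists_ms hG
  obtain ⟨P, hP⟩ : ∃ P, P = j * μ := ⟨_, rfl⟩
  rw [← hP] at hf1 ⊢
  have hlohi : lo ≤ hi := (hX.bd lo hX.lo_mem).2
  have htame := hX.tame
  rw [← hP] at htame
  have hPt : P + μ ≤ t * μ := by
    have : (j + 1) * μ ≤ t * μ := Nat.mul_le_mul_right _ hj
    rw [hP]
    linarith
  obtain ⟨T, hT⟩ : ∃ T, T = t * μ := ⟨_, rfl⟩
  rw [← hT] at hK hf2 hPt
  have hjX : j ≤ t := hj.le
  -- the maximal clique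
  obtain ⟨S, hS⟩ : ∃ S : Finset (Finset ℕ), S = (range N).powerset.filter
      (fun Q => Clq N K Γ Q ∧ A ⊆ Q ∧ ∀ y ∈ Q, lo + P - K ≤ y ∧ y ≤ hi + K - P) := ⟨_, rfl⟩
  have hAS : A ∈ S := by
    rw [hS, mem_filter, mem_powerset]
    refine ⟨fun x hx => mem_range.2 (hA.1 x hx), hA, Subset.refl _, fun y hy => ?_⟩
    have := hAf y hy
    omega
  obtain ⟨Q, hQS, hQmax⟩ := exists_max_image S card ⟨A, hAS⟩
  rw [hS, mem_filter, mem_powerset] at hQS
  obtain ⟨hQN, hQ, hAQ, hQM⟩ := hQS
  have hXQ : X ⊆ Q := hXA.trans hAQ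
  have hqt : t ≤ Q.card := hAt ▸ card_le_card hAQ
  have hQne : Q.Nonempty := ⟨lo, hXQ hX.lo_mem⟩
  obtain ⟨qlo, hqlo⟩ : ∃ a, a = Q.min' hQne := ⟨_, rfl⟩
  obtain ⟨qhi, hqhi⟩ : ∃ a, a = Q.max' hQne := ⟨_, rfl⟩
  have hqlom : qlo ∈ Q := hqlo ▸ min'_mem _ _
  have hqhim : qhi ∈ Q := hqhi ▸ max'_mem _ _
  have hqb : ∀ y ∈ Q, qlo ≤ y ∧ y ≤ qhi := fun y hy =>
    ⟨hqlo ▸ min'_le _ _ hy, hqhi ▸ le_max' _ _ hy⟩
  have hqK : qhi ≤ qlo + K := near_of_clq hQ hqhim hqlom
  have hM1 := hQM qlo hqlom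
  have hM2 := hQM qhi hqhim
  have hq1 := hqb lo (hXQ hX.lo_mem)
  have hq2 := hqb hi (hXQ hX.hi_mem)
  -- the regions
  obtain ⟨I1, hI1⟩ : ∃ I1, I1 = Ico (max (lo + P - K) (qhi - K)) (hi - P) := ⟨_, rfl⟩
  obtain ⟨I2, hI2⟩ : ∃ I2, I2 = Ioc (lo + P) (min (hi + K - P) (qlo + K)) := ⟨_, rfl⟩
  obtain ⟨J, hJ⟩ : ∃ J, J = Icc (hi - P) (lo + P) := ⟨_, rfl⟩
  have hreg : ∀ v, v ∈ I1 ∨ v ∈ I2 ∨ v ∈ J → v < N ∧ ∀ y ∈ Q, y ≤ v + K ∧ v ≤ y + K := by
    intro v hv
    rw [hI1, hI2, hJ, mem_Ico, mem_Ioc, mem_Icc] at hv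
    refine ⟨by omega, fun y hy => ?_⟩
    have := hqb y hy
    omega
  have hmiss : ∀ v, v ∈ I1 ∨ v ∈ I2 ∨ v ∈ J → ∀ y ∈ Q, ¬ LA N K Γ y v → v ∈ Ms y := by
    intro v hv y hy h
    by_contra h2
    have h3 := hreg v hv
    exact h ((hMs y (hQ.1 y hy)).2 v h3.1 (h3.2 y hy).1 (h3.2 y hy).2 h2)
  -- outside of `J` everything is missed
  have hout : ∀ v, v ∈ I1 ∨ v ∈ I2 → ∃ y ∈ Q, v ∈ Ms y := by
    intro v hv
    by_contra hcon
    have hv' : v ∈ I1 ∨ v ∈ I2 ∨ v ∈ J := by tauto
    have hall : ∀ y ∈ Q, LA N K Γ y v := by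
      intro y hy
      by_contra h
      exact hcon ⟨y, hy, hmiss v hv' y hy h⟩
    have hvQ : v ∉ Q := not_mem_of_la hG hall
    have hin : insert v Q ∈ S := by
      rw [hS, mem_filter, mem_powerset]
      refine ⟨insert_subset (mem_range.2 (hreg v hv').1) hQN,
        clq_insert hG hQ (hreg v hv').1 hall, hAQ.trans (subset_insert _ _), fun y hy => ?_⟩
      rcases mem_insert.1 hy with h1 | h1
      · rw [hI1, hI2, mem_Ico, mem_Ioc] at hv
        omega
      · exact hQM y h1
    have h1 := hQmax _ hin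
    rw [card_insert_of_notMem hvQ] at h1
    omega
  by_cases hNS : ∃ u ∈ J, (∀ x ∈ X, LA N K Γ x u) ∧
      t - j ≤ ((Q \ X).filter (fun y => LA N K Γ y u)).card
  · -- a close element
    obtain ⟨u, huJ, huX, hu⟩ := hNS
    obtain ⟨Yy, hY1, hY2⟩ := exists_subset_card_eq hu
    have hYQ : Yy ⊆ Q := fun y hy => (mem_sdiff.1 (mem_filter.1 (hY1 hy)).1).1
    have hYX : Disjoint X Yy := by
      rw [Finset.disjoint_left]
      intro x hx hy
      exact (mem_sdiff.1 (mem_filter.1 (hY1 hy)).1).2 hx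
    have hXY : (X ∪ Yy).card = t := by
      rw [card_union_of_disjoint hYX, hX.card, hY2]
      omega
    have hXYQ : X ∪ Yy ⊆ Q := union_subset hXQ hYQ
    have huall : ∀ y ∈ X ∪ Yy, LA N K Γ y u := by
      intro y hy
      rcases mem_union.1 hy with h | h
      · exact huX y h
      · exact (mem_filter.1 (hY1 h)).2
    have hunot : u ∉ X ∪ Yy := not_mem_of_la hG huall
    have huN : u < N := (hreg u (Or.inr (Or.inr huJ))).1
    obtain ⟨y0, hy0⟩ : Yy.Nonempty := by rw [← card_pos]; omega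
    have hy0X : y0 ∉ X := fun h => (Finset.disjoint_left.1 hYX h) hy0
    have hclq : Clq N K Γ (insert u (X ∪ Yy)) := clq_insert hG (clq_sub hQ hXYQ) huN huall
    have hy0m : y0 ∈ insert u (X ∪ Yy) := mem_insert_of_mem (mem_union_right _ hy0)
    have huy0 : u ≠ y0 := fun h => hunot (h ▸ mem_union_right _ hy0)
    have hc' : ((insert u (X ∪ Yy)).erase y0).card = t := by
      rw [card_erase_of_mem hy0m, card_insert_of_notMem hunot, hXY]
      omega
    refine ⟨(insert u (X ∪ Yy)).erase y0, u, clq_sub hclq (erase_subset _ _), hc', ?_, ?_, ?_, ?_, ?_⟩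
    · intro x hx
      rw [mem_erase]
      exact ⟨fun h => hy0X (h ▸ hx), mem_insert_of_mem (mem_union_left _ hx)⟩
    · have h1 : Con N K t Γ A (X ∪ Yy) := con_of_sub hQ _ _ _ hAQ hXYQ hAt hXY rfl
      refine h1.tail ⟨hXY, hc', insert u (X ∪ Yy), hclq, ?_, subset_insert _ _, erase_subset _ _⟩
      rw [card_insert_of_notMem hunot, hXY]
    · rw [mem_erase]
      exact ⟨huy0, mem_insert_self _ _⟩
    · exact fun h => hunot (mem_union_left _ h)
    · rw [hJ, mem_Icc] at huJ
      omega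
  · -- counting
    exfalso
    push Not at hNS
    obtain ⟨cnt, hcnt⟩ : ∃ cnt : ℕ → ℕ, cnt = fun v => (Q.filter (fun y => v ∈ Ms y)).card :=
      ⟨_, rfl⟩
    have hd1 : Disjoint I1 J := by
      rw [Finset.disjoint_left, hI1, hJ]
      intro v h1 h2
      rw [mem_Ico] at h1
      rw [mem_Icc] at h2
      omega
    have hd2 : Disjoint (I1 ∪ J) I2 := by
      rw [Finset.disjoint_left, hI1, hI2, hJ]
      intro v h1 h2
      rw [mem_union, mem_Ico, mem_Icc] at h1
      rw [mem_Ioc] at h2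
      omega
    have htot : ∑ v ∈ (I1 ∪ J) ∪ I2, cnt v ≤ Q.card * μ := by
      rw [hcnt]
      calc ∑ v ∈ (I1 ∪ J) ∪ I2, (Q.filter (fun y => v ∈ Ms y)).card =
          ∑ y ∈ Q, (((I1 ∪ J) ∪ I2).filter (fun v => v ∈ Ms y)).card :=
            Finset.sum_card_bipartiteAbove_eq_sum_card_bipartiteBelow (fun v y => v ∈ Ms y)
        _ ≤ ∑ _y ∈ Q, μ := by
            refine sum_le_sum fun y hy => ?_
            refine le_trans (card_le_card ?_) (hMs y (hQ.1 y hy)).1
            intro v hv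
            exact (mem_filter.1 hv).2
        _ = Q.card * μ := by rw [sum_const, smul_eq_mul]
    rw [sum_union hd2, sum_union hd1] at htot
    have hc1 : I1.card ≤ ∑ v ∈ I1, cnt v := by
      rw [card_eq_sum_ones]
      refine sum_le_sum fun v hv => ?_
      obtain ⟨y, hy, hvy⟩ := hout v (Or.inl hv)
      rw [hcnt]
      exact card_pos.2 ⟨y, mem_filter.2 ⟨hy, hvy⟩⟩
    have hc2 : I2.card ≤ ∑ v ∈ I2, cnt v := by
      rw [card_eq_sum_ones]
      refine sum_le_sum fun v hv => ?_
      obtain ⟨y, hy, hvy⟩ := hout v (Or.inr hv)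
      rw [hcnt]
      exact card_pos.2 ⟨y, mem_filter.2 ⟨hy, hvy⟩⟩
    obtain ⟨J1, hJ1⟩ : ∃ J1, J1 = J.filter (fun v => ∃ x ∈ X, v ∈ Ms x) := ⟨_, rfl⟩
    obtain ⟨J2, hJ2⟩ : ∃ J2, J2 = J.filter (fun v => ¬ ∃ x ∈ X, v ∈ Ms x) := ⟨_, rfl⟩
    have hJ12 : J1.card + J2.card = J.card := by
      rw [hJ1, hJ2]
      exact card_filter_add_card_filter_not _
    have hJ1c : J1.card ≤ P := by
      have h1 : J1 ⊆ X.biUnion Ms := by
        rw [hJ1]
        intro v hv
        obtain ⟨x, hx, hvx⟩ := (mem_filter.1 hv).2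
        exact mem_biUnion.2 ⟨x, hx, hvx⟩
      refine (card_le_card h1).trans ?_
      rw [hP, ← hX.card]
      exact card_biUnion_le_card_mul _ _ _ fun x hx => (hMs x (hX.clq.1 x hx)).1
    have hsJ : J1.card + J2.card * (Q.card - t + 1) ≤ ∑ v ∈ J, cnt v := by
      have h1 : ∑ v ∈ J, cnt v = ∑ v ∈ J1, cnt v + ∑ v ∈ J2, cnt v := by
        rw [hJ1, hJ2]
        exact (sum_filter_add_sum_filter_not _ _ _).symm
      rw [h1]
      refine add_le_add ?_ ?_
      · rw [card_eq_sum_ones]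
        refine sum_le_sum fun v hv => ?_
        rw [hJ1] at hv
        obtain ⟨x, hx, hvx⟩ := (mem_filter.1 hv).2
        rw [hcnt]
        exact card_pos.2 ⟨x, mem_filter.2 ⟨hXQ hx, hvx⟩⟩
      · rw [← smul_eq_mul, ← sum_const]
        refine sum_le_sum fun v hv => ?_
        rw [hJ2] at hv
        obtain ⟨hvJ, hvX⟩ := mem_filter.1 hv
        have hv3 : v ∈ I1 ∨ v ∈ I2 ∨ v ∈ J := Or.inr (Or.inr hvJ)
        have hvX' : ∀ x ∈ X, LA N K Γ x v := by
          intro x hx
          by_contra h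
          exact hvX ⟨x, hx, hmiss v hv3 x (hXQ hx) h⟩
        have h2 := hNS v hvJ hvX'
        have h3 : ((Q \ X).filter (fun y => LA N K Γ y v)).card +
            ((Q \ X).filter (fun y => ¬ LA N K Γ y v)).card = (Q \ X).card :=
          card_filter_add_card_filter_not _
        have h4 : (Q \ X).card = Q.card - j := by
          rw [card_sdiff_of_subset hXQ, hX.card]
        have h5 : ((Q \ X).filter (fun y => ¬ LA N K Γ y v)).card ≤ cnt v := by
          rw [hcnt]
          refine card_le_card fun y hy => ?_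
          obtain ⟨hy1, hy2⟩ := mem_filter.1 hy
          exact mem_filter.2 ⟨(mem_sdiff.1 hy1).1, hmiss v hv3 y (mem_sdiff.1 hy1).1 hy2⟩
        omega
    have hI1c : I1.card = hi - P - max (lo + P - K) (qhi - K) := by rw [hI1, Nat.card_Ico]
    have hI2c : I2.card = min (hi + K - P) (qlo + K) - (lo + P) := by rw [hI2, Nat.card_Ioc]
    have hJc : J.card = lo + P + 1 - (hi - P) := by rw [hJ, Nat.card_Icc]
    have hI12 : K + hi ≤ I1.card + I2.card + lo + 2 * P := by
      rw [hI1c, hI2c]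
      omega
    have hJ2c : μ + 1 ≤ J2.card := by omega
    obtain ⟨d, hd⟩ : ∃ d, Q.card = t + d := ⟨Q.card - t, by omega⟩
    have e1 : Q.card - t + 1 = d + 1 := by omega
    rw [e1] at hsJ
    have e2 : Q.card * μ = T + d * μ := by rw [hd, hT]; ring
    rw [e2] at htot
    have e3 : J2.card * (d + 1) = J2.card * d + J2.card := by ring
    rw [e3] at hsJ
    have e4 : (μ + 1) * d ≤ J2.card * d := Nat.mul_le_mul_right _ hJ2c
    have e5 : (μ + 1) * d = d * μ + d := by ring
    rw [e5] at e4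
    omega

/-- the swap of one element -/
theorem swap (hG : LG N K μ Γ) {A : Finset ℕ} (hA : Clq N K Γ A) (hAt : A.card = t) {z y : ℕ}
    (hz : ∀ a ∈ A, LA N K Γ a z) (hzN : z < N) (hy : y ∈ A) :
    Clq N K Γ (insert z (A.erase y)) ∧ (insert z (A.erase y)).card = t ∧
      Con N K t Γ A (insert z (A.erase y)) := by
  have hzA : z ∉ A := not_mem_of_la hG hz
  have hzA' : z ∉ A.erase y := fun h => hzA (mem_of_mem_erase h)
  have hC : Clq N K Γ (insert z A) := clq_insert hG hA hzN hz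
  have hsub : insert z (A.erase y) ⊆ insert z A := insert_subset_insert _ (erase_subset _ _)
  have hc : (insert z (A.erase y)).card = t := by
    rw [card_insert_of_notMem hzA', card_erase_of_mem hy, hAt]
    have : 0 < A.card := card_pos.2 ⟨y, hy⟩
    omega
  refine ⟨clq_sub hC hsub, hc, Relation.ReflTransGen.single ⟨hAt, hc, insert z A, hC, ?_,
    subset_insert _ _, hsub⟩⟩
  rw [card_insert_of_notMem hzA, hAt]

/-- every `t`-clique containing a tame clique is connected with one containing a close element -/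
theorem close (hG : LG N K μ Γ) (hK : t * μ + 1 ≤ K) {j : ℕ} (hj : j < t) {X : Finset ℕ}
    {lo hi : ℕ} (hX : Tame N K μ Γ j X lo hi) (hlo : K ≤ lo) (hhi : hi + K < N) :
    ∀ (n : ℕ) (A : Finset ℕ), Clq N K Γ A → A.card = t → X ⊆ A → ∑ y ∈ A, sg lo hi y = n →
    ∃ (A' : Finset ℕ) (u : ℕ), Clq N K Γ A' ∧ A'.card = t ∧ X ⊆ A' ∧ Con N K t Γ A A' ∧ u ∈ A' ∧
      u ∉ X ∧ hi ≤ u + j * μ ∧ u ≤ lo + j * μ := by
  intro n
  induction n using Nat.strong_induction_on with
  | _ n ih =>
  intro A hA hAt hXA hn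
  have hlohi : lo ≤ hi := (hX.bd lo hX.lo_mem).2
  have htame := hX.tame
  obtain ⟨T, hT⟩ : ∃ T, T = t * μ := ⟨_, rfl⟩
  have hPt : j * μ + μ ≤ T := by
    have : (j + 1) * μ ≤ t * μ := Nat.mul_le_mul_right _ hj
    rw [hT]
    linarith
  by_cases h1 : ∃ z y, (∀ a ∈ A, LA N K Γ a z) ∧ y ∈ A ∧ y ∉ X ∧ sg lo hi z < sg lo hi y
  · obtain ⟨z, y, hz, hy, hyX, hzy⟩ := h1
    have hzN : z < N := (hz y hy).2.1
    obtain ⟨h2, h3, h4⟩ := swap hG hA hAt hz hzN hy
    have hzA : z ∉ A.erase y := fun h => not_mem_of_la hG hz (mem_of_mem_erase h)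
    have hs : ∑ y ∈ insert z (A.erase y), sg lo hi y + sg lo hi y = n + sg lo hi z := by
      rw [sum_insert hzA, ← hn, ← add_sum_erase A (sg lo hi) hy]
      ring
    obtain ⟨A', u, h5, h6, h7, h8, h9⟩ := ih _ (by omega) (insert z (A.erase y)) h2 h3 (by
      intro x hx
      refine mem_insert_of_mem (mem_erase.2 ⟨fun h => hyX (h ▸ hx), hXA hx⟩)) rfl
    exact ⟨A', u, h5, h6, h7, h4.trans h8, h9⟩
  · push Not at h1
    by_cases h2 : ∃ u ∈ A, u ∉ X ∧ hi ≤ u + j * μ ∧ u ≤ lo + j * μ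
    · obtain ⟨u, hu, huX, h3⟩ := h2
      exact ⟨A, u, hA, hAt, hXA, .refl, hu, huX, h3⟩
    · -- the farthest element
      have hne : (A \ X).Nonempty := by
        rw [← card_pos, card_sdiff_of_subset hXA, hAt, hX.card]
        omega
      obtain ⟨y, hy, hymax⟩ := exists_max_image (A \ X) (sg lo hi) hne
      rw [mem_sdiff] at hy
      have hyA := hy.1
      have hyX := hy.2
      obtain ⟨f, hf⟩ : ∃ f, f = sg lo hi y := ⟨_, rfl⟩
      rw [← hf] at hymax
      have hyf : j * μ + 1 ≤ f := by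
        by_contra hcon
        refine h2 ⟨y, hyA, hyX, ?_⟩
        unfold sg at hf
        omega
      have hloA := hXA hX.lo_mem
      have hhiA := hXA hX.hi_mem
      have n1 := near_of_clq hA hyA hloA
      have n2 := near_of_clq hA hhiA hyA
      have hAf : ∀ a ∈ A, hi ≤ a + f ∧ a ≤ lo + f := by
        intro a ha
        by_cases haX : a ∈ X
        · have := hX.bd a haX
          omega
        · have := hymax a (mem_sdiff.2 ⟨ha, haX⟩)
          unfold sg at this
          omega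
      have hyN := hA.1 y hyA
      have hf2 : 2 * f ≤ t * μ + (hi - lo) + 1 := by
        rw [← hT] at hK ⊢
        by_contra hcon
        have hno : ∀ v, (∀ a ∈ A, LA N K Γ a v) → ¬ sg lo hi v < f := by
          intro v hv h
          have := h1 v y hv hyA hyX
          omega
        rcases lt_or_ge hi y with hyhi | hyhi
        · have hfy : f = y - lo := by rw [hf]; unfold sg; omega
          obtain ⟨v, hv, hvA⟩ := exists_adj hG A (Icc (max (hi + 1 - f) (y - K)) (y - 1)) hA.1 (by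
            intro v hv
            rw [mem_Icc] at hv
            refine ⟨by omega, fun a ha => ?_⟩
            have := hAf a ha
            have := near_of_clq hA hyA ha
            omega) (by
            rw [hAt, ← hT, Nat.card_Icc]
            omega)
          rw [mem_Icc] at hv
          refine hno v hvA ?_
          unfold sg
          omega
        · have hylo : y < lo := by
            by_contra h
            unfold sg at hf
            omega
          have hfy : f = hi - y := by rw [hf]; unfold sg; omega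
          obtain ⟨v, hv, hvA⟩ := exists_adj hG A (Icc (y + 1) (min (lo + f - 1) (y + K))) hA.1 (by
            intro v hv
            rw [mem_Icc] at hv
            refine ⟨by omega, fun a ha => ?_⟩
            have := hAf a ha
            have := near_of_clq hA ha hyA
            omega) (by
            rw [hAt, ← hT, Nat.card_Icc]
            omega)
          rw [mem_Icc] at hv
          refine hno v hvA ?_
          unfold sg
          omega
      exact core hG hK hj hX hlo hhi f hyf hf2 hA hAt hXA hAf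

/-- all `t`-cliques containing a tame clique `X` are connected -/
theorem lp (hG : LG N K μ Γ) (hK : t * μ + 1 ≤ K) : ∀ (d j : ℕ) (X : Finset ℕ) (lo hi : ℕ),
    j + d = t → Tame N K μ Γ j X lo hi → d * K ≤ lo → hi + d * K < N → ∀ A B : Finset ℕ,
    Clq N K Γ A → Clq N K Γ B → A.card = t → B.card = t → X ⊆ A → X ⊆ B → Con N K t Γ A B := by
  classical
  intro d
  induction d with
  | zero =>
    intro j X lo hi hjd hX _ _ A B hA hB hAt hBt hXA hXB
    have e1 : X = A := eq_of_subset_of_card_le hXA (by rw [hX.card, hAt]; omega)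
    have e2 : X = B := eq_of_subset_of_card_le hXB (by rw [hX.card, hBt]; omega)
    rw [← e1, ← e2]
  | succ d ih =>
    intro j X lo hi hjd hX hlo hhi A B hA hB hAt hBt hXA hXB
    have hj : j < t := by omega
    have hlohi : lo ≤ hi := (hX.bd lo hX.lo_mem).2
    have htame := hX.tame
    obtain ⟨P, hP⟩ : ∃ P, P = j * μ := ⟨_, rfl⟩
    have hPt : P + μ ≤ t * μ := by
      have : (j + 1) * μ ≤ t * μ := Nat.mul_le_mul_right _ hj
      rw [hP]
      linarith
    have hdK : (d + 1) * K = d * K + K := by ring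
    rw [hdK] at hlo hhi
    have hlo' : K ≤ lo := by omega
    have hhi' : hi + K < N := by omega
    -- good elements
    obtain ⟨Gd, hGd⟩ : ∃ Gd : ℕ → Prop, Gd = fun u => (∀ x ∈ X, LA N K Γ x u) ∧
      hi ≤ u + P ∧ u ≤ lo + P := ⟨_, rfl⟩
    have hcls : ∀ u, Gd u → ∀ A B : Finset ℕ, Clq N K Γ A → Clq N K Γ B → A.card = t →
        B.card = t → insert u X ⊆ A → insert u X ⊆ B → Con N K t Γ A B := by
      intro u hu
      rw [hGd] at hu
      obtain ⟨hu1, hu2, hu3⟩ := hu
      have huN : u < N := (hu1 lo hX.lo_mem).2.1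
      have huX : u ∉ X := not_mem_of_la hG hu1
      refine ih (j + 1) (insert u X) (min lo u) (max hi u) (by omega) ?_ (by omega) (by omega)
      refine ⟨clq_insert hG hX.clq huN hu1, by rw [card_insert_of_notMem huX, hX.card], ?_, ?_, ?_, ?_⟩
      · rcases le_total lo u with h | h
        · rw [min_eq_left h]; exact mem_insert_of_mem hX.lo_mem
        · rw [min_eq_right h]; exact mem_insert_self _ _
      · rcases le_total hi u with h | h
        · rw [max_eq_right h]; exact mem_insert_self _ _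
        · rw [max_eq_left h]; exact mem_insert_of_mem hX.hi_mem
      · intro x hx
        rcases mem_insert.1 hx with h | h
        · omega
        · have := hX.bd x h
          omega
      · have e : (j + 1) * μ = P + μ := by rw [hP]; ring
        rw [e]
        omega
    have hlink : ∀ u u', Gd u → Gd u' → max hi (max u u') ≤ min lo (min u u') + P + 1 →
        ∀ A B : Finset ℕ, Clq N K Γ A → Clq N K Γ B → A.card = t →
        B.card = t → insert u X ⊆ A → insert u' X ⊆ B → Con N K t Γ A B := by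
      intro u u' hu hu' hsp A B hA hB hAt hBt huA huB
      by_cases huu : u = u'
      · rw [← huu] at huB
        exact hcls u hu A B hA hB hAt hBt huA huB
      have hu0 := hu
      have hu0' := hu'
      rw [hGd] at hu hu'
      obtain ⟨hu1, hu2, hu3⟩ := hu
      obtain ⟨hu1', hu2', hu3'⟩ := hu'
      have huN : u < N := (hu1 lo hX.lo_mem).2.1
      have huN' : u' < N := (hu1' lo hX.lo_mem).2.1
      have huX : u ∉ X := not_mem_of_la hG hu1
      have huX' : u' ∉ X := not_mem_of_la hG hu1'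
      have hZc : (insert u (insert u' X)).card = j + 2 := by
        rw [card_insert_of_notMem, card_insert_of_notMem huX', hX.card]
        rw [mem_insert]
        tauto
      obtain ⟨W, hW1, hW2, hW3⟩ := greedy hG hK (t - j) (insert u (insert u' X))
        (min lo (min u u')) (max hi (max u u')) (by
          intro z hz
          rcases mem_insert.1 hz with h | h
          · omega
          · rcases mem_insert.1 h with h | h
            · omega
            · have := hX.bd z h
              omega) (by omega) (by omega) (by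
          rw [hZc]
          have e : j + 2 - 2 = j := by omega
          rw [e, ← hP]
          omega) (by omega) (by omega) (by
          intro z hz
          rcases mem_insert.1 hz with h | h
          · omega
          · rcases mem_insert.1 h with h | h
            · omega
            · exact hX.clq.1 z h)
      have hWX : ∀ w ∈ W, ∀ x ∈ X, LA N K Γ x w := fun w hw x hx =>
        hW3 w hw x (mem_insert_of_mem (mem_insert_of_mem hx))
      have hdis : Disjoint X W := by
        rw [Finset.disjoint_left]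
        intro x hx hw
        exact la_ne hG (hWX x hw x hx) rfl
      have hXW : (X ∪ W).card = t := by
        rw [card_union_of_disjoint hdis, hX.card, hW1]
        omega
      have hXWc : Clq N K Γ (X ∪ W) := by
        constructor
        · intro x hx
          rcases mem_union.1 hx with h | h
          · exact hX.clq.1 x h
          · exact hW2.1 x h
        · intro x hx y hy hxy
          rcases mem_union.1 hx with h | h
          · rcases mem_union.1 hy with h' | h'
            · exact hX.clq.2 x h y h' hxy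
            · exact hWX y h' x h
          · rcases mem_union.1 hy with h' | h'
            · exact la_symm hG (hWX x h y h')
            · exact hW2.2 x h y h' hxy
      obtain ⟨w0, hw0⟩ : W.Nonempty := by rw [← card_pos]; omega
      have hw0X : w0 ∉ X := fun h => (Finset.disjoint_left.1 hdis h) hw0
      have key : ∀ v, v < N → (∀ x ∈ X, LA N K Γ x v) → (∀ w ∈ W, LA N K Γ v w) →
          ∃ A', Clq N K Γ A' ∧ A'.card = t ∧ insert v X ⊆ A' ∧ Con N K t Γ (X ∪ W) A' := by
        intro v hvN hv1 hv2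
        have hall : ∀ a ∈ X ∪ W, LA N K Γ a v := by
          intro a ha
          rcases mem_union.1 ha with h | h
          · exact hv1 a h
          · exact la_symm hG (hv2 a h)
        obtain ⟨s1, s2, s3⟩ := swap hG hXWc hXW hall hvN (mem_union_right X hw0)
        refine ⟨_, s1, s2, ?_, s3⟩
        intro x hx
        rcases mem_insert.1 hx with h | h
        · rw [h]; exact mem_insert_self _ _
        · exact mem_insert_of_mem (mem_erase.2 ⟨fun h' => hw0X (h' ▸ h), mem_union_left _ h⟩)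
      obtain ⟨A1, a1, a2, a3, a4⟩ := key u huN hu1 fun w hw => hW3 w hw u (mem_insert_self _ _)
      obtain ⟨A2, b1, b2, b3, b4⟩ := key u' huN' hu1' fun w hw =>
        hW3 w hw u' (mem_insert_of_mem (mem_insert_self _ _))
      have c1 := hcls u hu0 A A1 hA a1 hAt a2 huA a3
      have c2 := hcls u' hu0' A2 B b1 hB b2 hBt b3 huB
      exact c1.trans ((con_symm a4).trans (b4.trans c2))
    obtain ⟨A', u, a1, a2, a3, a4, a5, a6, a7⟩ := close hG hK hj hX hlo' hhi' _ A hA hAt hXA rfl
    obtain ⟨B', u', b1, b2, b3, b4, b5, b6, b7⟩ := close hG hK hj hX hlo' hhi' _ B hB hBt hXB rfl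
    rw [← hP] at a7 b7
    refine a4.trans (Relation.ReflTransGen.trans ?_ (con_symm b4))
    have hGu : Gd u := by
      rw [hGd]
      exact ⟨fun x hx => a1.2 x (a3 hx) u a5 fun h => a6 (h ▸ hx), a7⟩
    have hGu' : Gd u' := by
      rw [hGd]
      exact ⟨fun x hx => b1.2 x (b3 hx) u' b5 fun h => b6 (h ▸ hx), b7⟩
    have hsA : insert u X ⊆ A' := insert_subset a5 a3
    have hsB : insert u' X ⊆ B' := insert_subset b5 b3
    -- a clique for every good element
    have hex : ∀ v, Gd v → ∃ C, Clq N K Γ C ∧ C.card = t ∧ insert v X ⊆ C := by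
      intro v hv
      rw [hGd] at hv
      obtain ⟨hv1, hv2, hv3⟩ := hv
      have hvN : v < N := (hv1 lo hX.lo_mem).2.1
      have hvX : v ∉ X := not_mem_of_la hG hv1
      have hZc : (insert v X).card = j + 1 := by rw [card_insert_of_notMem hvX, hX.card]
      obtain ⟨C, hC1, hC2, hC3⟩ := extend hG hK (t - (j + 1)) (insert v X) lo
        (clq_insert hG hX.clq hvN hv1) (mem_insert_of_mem hX.lo_mem) hlo' (by omega)
        (by rw [hZc]; omega)
      exact ⟨C, hC1, hC2, hC3⟩
    obtain ⟨L, hL⟩ : ∃ L : ℕ → ℕ → Prop, L = fun u u' => ∀ A B : Finset ℕ, Clq N K Γ A →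
        Clq N K Γ B → A.card = t → B.card = t → insert u X ⊆ A → insert u' X ⊆ B →
        Con N K t Γ A B := ⟨_, rfl⟩
    have hLs : ∀ u u', L u u' → L u' u := by
      intro u u' h
      rw [hL] at h ⊢
      intro A B hA hB hAt hBt h1 h2
      exact con_symm (h B A hB hA hBt hAt h2 h1)
    have hLt : ∀ u v w, Gd v → L u v → L v w → L u w := by
      intro u v w hv h1 h2
      rw [hL] at h1 h2 ⊢
      intro A B hA hB hAt hBt h3 h4
      obtain ⟨C, hC1, hC2, hC3⟩ := hex v hv
      exact (h1 A C hA hC1 hAt hC2 h3 hC3).trans (h2 C B hC1 hB hC2 hBt hC3 h4)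
    have hLl : ∀ u u', Gd u → Gd u' → max hi (max u u') ≤ min lo (min u u') + P + 1 → L u u' := by
      intro u u' h1 h2 h3
      rw [hL]
      exact hlink u u' h1 h2 h3
    have hXc : X.card * μ = P := by rw [hX.card, hP]
    -- the right one
    have hr : ∃ r, Gd r ∧ lo ≤ r ∧ ∀ v, Gd v → lo ≤ v → r ≤ v := by
      obtain ⟨v, hv, hv2⟩ := exists_adj hG X (Icc lo (lo + P)) hX.clq.1 (by
        intro v hv
        rw [mem_Icc] at hv
        refine ⟨by omega, fun z hz => ?_⟩
        have := hX.bd z hz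
        omega) (by rw [hXc, Nat.card_Icc]; omega)
      rw [mem_Icc] at hv
      have hex : ∃ r, Gd r ∧ lo ≤ r := ⟨v, by rw [hGd]; exact ⟨hv2, by omega, hv.2⟩, hv.1⟩
      refine ⟨Nat.find hex, (Nat.find_spec hex).1, (Nat.find_spec hex).2, fun w hw1 hw2 => ?_⟩
      exact Nat.find_min' hex ⟨hw1, hw2⟩
    have hl : ∃ l, Gd l ∧ l ≤ hi ∧ ∀ v, Gd v → v ≤ hi → v ≤ l := by
      obtain ⟨v, hv, hv2⟩ := exists_adj hG X (Icc (hi - P) hi) hX.clq.1 (by
        intro v hv
        rw [mem_Icc] at hv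
        refine ⟨by omega, fun z hz => ?_⟩
        have := hX.bd z hz
        omega) (by rw [hXc, Nat.card_Icc]; omega)
      rw [mem_Icc] at hv
      obtain ⟨S, hS⟩ : ∃ S, S = (Icc (hi - P) hi).filter Gd := ⟨_, rfl⟩
      have hvS : v ∈ S := by
        rw [hS, mem_filter, mem_Icc]
        refine ⟨hv, ?_⟩
        rw [hGd]
        exact ⟨hv2, by omega, by omega⟩
      obtain ⟨l, hl1, hl2⟩ := exists_max_image S id ⟨v, hvS⟩
      rw [hS, mem_filter, mem_Icc] at hl1
      refine ⟨l, hl1.2, hl1.1.2, fun w hw1 hw2 => ?_⟩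
      refine hl2 w ?_
      rw [hS, mem_filter, mem_Icc]
      refine ⟨⟨?_, hw2⟩, hw1⟩
      rw [hGd] at hw1
      omega
    obtain ⟨r, hr1, hr2, hr3⟩ := hr
    obtain ⟨l, hl1, hl2, hl3⟩ := hl
    have bnd : ∀ v, Gd v → hi ≤ v + P ∧ v ≤ lo + P := by
      intro v hv
      rw [hGd] at hv
      exact hv.2
    have main : ∀ u u', Gd u → Gd u' → hi < u → u' < lo → L u u' := by
      intro u u' hu hu' h1 h2
      have b1 := bnd u hu
      have b2 := bnd u' hu'
      have b3 := bnd r hr1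
      have b4 := bnd l hl1
      by_cases hrhi : r ≤ hi
      · exact hLt u r u' hr1 (hLl u r hu hr1 (by omega)) (hLl r u' hr1 hu' (by omega))
      by_cases hllo : lo ≤ l
      · exact hLt u l u' hl1 (hLl u l hu hl1 (by omega)) (hLl l u' hl1 hu' (by omega))
      have hrl : r ≤ l + P + 1 := by
        by_contra hcon
        obtain ⟨v, hv, hv2⟩ := exists_adj hG X (Ioo l r) hX.clq.1 (by
          intro v hv
          rw [mem_Ioo] at hv
          refine ⟨by omega, fun z hz => ?_⟩
          have := hX.bd z hz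
          omega) (by rw [hXc, Nat.card_Ioo]; omega)
        rw [mem_Ioo] at hv
        have hvG : Gd v := by
          rw [hGd]
          exact ⟨hv2, by omega, by omega⟩
        by_cases hvhi : v ≤ hi
        · have := hl3 v hvG hvhi
          omega
        · have := hr3 v hvG (by omega)
          omega
      refine hLt u r u' hr1 (hLl u r hu hr1 (by omega)) ?_
      exact hLt r l u' hl1 (hLl r l hr1 hl1 (by omega)) (hLl l u' hl1 hu' (by omega))
    have fin : L u u' := by
      have c1 := bnd u hGu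
      have c2 := bnd u' hGu'
      by_cases h1 : hi < u
      · by_cases h2 : u' < lo
        · exact main u u' hGu hGu' h1 h2
        · exact hLl u u' hGu hGu' (by omega)
      · by_cases h2 : hi < u'
        · by_cases h3 : u < lo
          · exact hLs _ _ (main u' u hGu' hGu h2 h3)
          · exact hLl u u' hGu hGu' (by omega)
        · exact hLl u u' hGu hGu' (by omega)
    rw [hL] at fin
    exact fin A' B' a1 b1 a2 b2 hsA hsB

end T1L

open T1L in
/-- [T1] -/
theorem t1 : S_T1 := by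
  classical
  intro t K μ N Γ ht hK hG A B hA hB hAt hBt hAx hBx
  have h2K : (t + 2) * K = t * K + 2 * K := by ring
  have htame : ∀ x, x < N → Tame N K μ Γ 1 {x} x x := by
    intro x hx
    refine ⟨⟨?_, ?_⟩, card_singleton _, mem_singleton_self _, mem_singleton_self _, ?_, ?_⟩
    · intro y hy
      rw [mem_singleton.1 hy]
      exact hx
    · intro y hy z hz hyz
      exact absurd ((mem_singleton.1 hy).trans (mem_singleton.1 hz).symm) hyz
    · intro y hy
      rw [mem_singleton.1 hy]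
      exact ⟨le_refl _, le_refl _⟩
    · omega
  have h1 : ∀ x, (t + 2) * K ≤ x → x + (t + 2) * K < N → ∀ A B : Finset ℕ, Clq N K Γ A →
      Clq N K Γ B → A.card = t → B.card = t → x ∈ A → x ∈ B → Con N K t Γ A B := by
    intro x hx1 hx2 A B hA hB hAt hBt hxA hxB
    have e : (t - 1) * K ≤ t * K := Nat.mul_le_mul_right _ (by omega)
    exact lp hG hK (t - 1) 1 {x} x x (by omega) (htame x (by omega)) (by omega) (by omega)
      A B hA hB hAt hBt (singleton_subset_iff.2 hxA) (singleton_subset_iff.2 hxB)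
  have h2 : ∀ x, (t + 2) * K ≤ x → x + 1 + (t + 2) * K < N → ∃ A B : Finset ℕ, Clq N K Γ A ∧
      Clq N K Γ B ∧ A.card = t ∧ B.card = t ∧ x ∈ A ∧ x + 1 ∈ B ∧ Con N K t Γ A B := by
    intro x hx1 hx2
    have hZc : ({x, x + 1} : Finset ℕ).card = 2 := card_pair (by omega)
    obtain ⟨W, hW1, hW2, hW3⟩ := greedy hG hK t {x, x + 1} x (x + 1) (by
      intro z hz
      rw [mem_insert, mem_singleton] at hz
      omega) (by omega) (by omega) (by omega) (by omega) (by omega) (by
      intro z hz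
      rw [mem_insert, mem_singleton] at hz
      omega)
    obtain ⟨w0, hw0⟩ : W.Nonempty := by rw [← card_pos]; omega
    obtain ⟨s1, s2, s3⟩ := swap hG hW2 hW1 (z := x) (y := w0)
      (fun a ha => la_symm hG (hW3 a ha x (mem_insert_self _ _))) (by omega) hw0
    obtain ⟨s4, s5, s6⟩ := swap hG hW2 hW1 (z := x + 1) (y := w0)
      (fun a ha => la_symm hG (hW3 a ha (x + 1) (mem_insert_of_mem (mem_singleton_self _))))
      (by omega) hw0
    exact ⟨_, _, s1, s4, s2, s5, mem_insert_self _ _, mem_insert_self _ _, (con_symm s3).trans s6⟩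
  have h3 : ∀ d x, (t + 2) * K ≤ x → x + d + (t + 2) * K < N → ∀ A B : Finset ℕ, Clq N K Γ A →
      Clq N K Γ B → A.card = t → B.card = t → x ∈ A → x + d ∈ B → Con N K t Γ A B := by
    intro d
    induction d with
    | zero => exact h1
    | succ d ih =>
      intro x hx1 hx2 A B hA hB hAt hBt hxA hxB
      obtain ⟨C, D, c1, c2, c3, c4, c5, c6, c7⟩ := h2 (x + d) (by omega) (by omega)
      have d1 := ih x hx1 (by omega) A C hA c1 hAt c3 hxA c5
      have d2 := h1 (x + d + 1) (by omega) (by omega) D B c2 hB c4 hBt c6 hxB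
      exact d1.trans (c7.trans d2)
  obtain ⟨x, hxA, hx1, hx2⟩ := hAx
  obtain ⟨y, hyB, hy1, hy2⟩ := hBx
  rcases le_total x y with h | h
  · obtain ⟨d, rfl⟩ := Nat.exists_eq_add_of_le h
    exact h3 d x hx1 hy2 A B hA hB hAt hBt hxA hyB
  · obtain ⟨d, rfl⟩ := Nat.exists_eq_add_of_le h
    exact con_symm (h3 d y hy1 hx2 B A hB hA hBt hAt hyB hxA)

end Pool.Agent.H48.PW
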